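import Pool.Agent.Work.MP_0f91f8_co.Lg.Stmts

/-!
Block [0f91f8 PI], item AFC: the absorption and intersections of chains.
-/

open Filter Topology

universe u

namespace Pool.Agent.Work.MP_0f91f8_co.Lg

open Pool.Agent.Work.MP_0f91f8_co.Cge (sd op aa cc bnd)
open Pool.Agent.Work.MP_0f91f8_co.Df (Mach MOK MK un un_val un_mul un_inv un_div un_one)

namespace I_AFC

/-- an ultrafilter on a chain containing all lower tails -/
lemma exists_tails {X : Type u} [PartialOrder X] (c : Set X) (hne : c.Nonempty)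
    (hc : IsChain (· ≤ ·) c) :
    ∃ f : Ultrafilter c, ∀ A : c, ∀ᶠ A' in (f : Filter c), A' ≤ A := by
  have : Nonempty c := hne.to_subtype
  have hdir : Directed (· ≥ ·) (fun A : c => (𝓟 {A' : c | A' ≤ A} : Filter c)) := by
    intro A A'
    rcases hc.total A.2 A'.2 with h | h
    · refine ⟨A, le_refl _, ?_⟩
      exact principal_mono.2 fun x hx => le_trans hx h
    · refine ⟨A', ?_, le_refl _⟩
      exact principal_mono.2 fun x hx => le_trans hx h
  have : (⨅ A : c, (𝓟 {A' : c | A' ≤ A} : Filter c)).NeBot := by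
    apply iInf_neBot_of_directed hdir
    intro A
    rw [principal_neBot_iff]
    exact ⟨A, le_refl _⟩
  refine ⟨Ultrafilter.of (⨅ A : c, (𝓟 {A' : c | A' ≤ A} : Filter c)), fun A => ?_⟩
  have h1 : {A' : c | A' ≤ A} ∈ (⨅ A : c, (𝓟 {A' : c | A' ≤ A} : Filter c)) :=
    mem_iInf_of_mem A (mem_principal_self _)
  exact Ultrafilter.of_le _ h1

variable {G : Type} [CommGroup G] {E : Type u} [Group E]

/-- the limit of the laws `m` along `f`, with `k → 1` inserted -/
def lm {Ω : Type u} (Λ : LimGp G E) (f : Ultrafilter Ω) (m : Ω → Ultrafilter (G × G)) :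
    Ultrafilter (G × G) :=
  (Λ.sdk f m).map (fun P => (P.2.2.1, P.2.1 * P.2.2.2))

variable {Ω : Type u} (Λ : LimGp G E) (f : Ultrafilter Ω) (m : Ω → Ultrafilter (G × G))

lemma lm_fst : (lm Λ f m).map Prod.fst = f.bind (fun A => (m A).map Prod.fst) :=
  Λ.sdk_map f m (fun _ q => q.1)

lemma l1_lm : Λ.l (lm Λ f m) (fun p => Λ.θ p.2) =
    Λ.l f (fun A => Λ.l (m A) (fun p => Λ.θ p.2)) := by
  have h := Λ.l_sdk f m (fun _ q => Λ.θ q.2)
  unfold lm
  rw [Λ.l_map, ← h]
  simp only [map_mul]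

lemma l2_lm (y : G → E) : Λ.l (lm Λ f m) (fun p => Λ.θ (p.2 * p.1) * y p.1) =
    Λ.l f (fun A => Λ.l (m A) (fun p => Λ.θ (p.2 * p.1) * y p.1)) := by
  have h := Λ.l_sdk f m (fun _ q => Λ.θ (q.2 * q.1) * y q.1)
  unfold lm
  rw [Λ.l_map, ← h]
  simp only [map_mul, mul_assoc]

end I_AFC

open I_AFC in
theorem AFC_pf (E : Type u) [Group E] : AFC E := by
  intro G _ Λ c hne hc hA
  obtain ⟨f, hf⟩ := exists_tails c hne hc
  choose k hk using fun A : c => (hA A.1 A.2).2
  refine ⟨f.bind k, fun y hy => ?_⟩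
  choose m hmk hm1 hm2 using fun A : c => hk A y hy
  refine ⟨lm Λ f m, ?_, ?_, ?_⟩
  · rw [lm_fst]
    congr 1
    funext A
    exact hmk A
  · rw [l1_lm, Subgroup.mem_sInf]
    intro A hAc
    exact (hA A hAc).1.closed.mem ((hf ⟨A, hAc⟩).mono fun A' h => h (hm1 A'))
  · rw [l2_lm, Subgroup.mem_sInf]
    intro A hAc
    exact (hA A hAc).1.closed.mem ((hf ⟨A, hAc⟩).mono fun A' h => h (hm2 A'))

end Pool.Agent.Work.MP_0f91f8_co.Lg
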