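import Pool.Agent.Work.MP_0f91f8_co.Lg.Stmts

/-!
Block [0f91f8 PI], item AFS: the successor step of the absorption.
-/

set_option linter.unusedSectionVars false
set_option linter.unusedVariables false

open Filter Topology

universe u

namespace Pool.Agent.Work.MP_0f91f8_co.Lg

open Pool.Agent.Work.MP_0f91f8_co.Cge (sd op aa cc bnd)
open Pool.Agent.Work.MP_0f91f8_co.Df (Mach MOK MK un un_val un_mul un_inv un_div un_one)

namespace I_AFS

variable {E : Type u} [Group E]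
variable {G : Type} [CommGroup G]

/-- the marginal of the total law -/
lemma marginal (Λ : LimGp G E) {u k' : Ultrafilter G} {m : Ultrafilter (G × G)}
    (hm : m.map Prod.fst = u) {o : G → Ultrafilter (G × G)} (ho : ∀ κ, (o κ).map Prod.fst = k') :
    ((Λ.sdk m (fun p => o p.1)).map
      (fun P => (P.1.1 * P.2.2.1, P.1.2 * P.2.1 * P.2.2.2))).map Prod.fst =
      u.bind (fun κ => k'.map (fun κ' => κ * κ')) := by
  have h1 : ((Λ.sdk m (fun p => o p.1)).map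
      (fun P => (P.1.1 * P.2.2.1, P.1.2 * P.2.1 * P.2.2.2))).map Prod.fst =
      (Λ.sdk m (fun p => o p.1)).map (fun P => P.1.1 * P.2.2.1) := rfl
  rw [h1, Λ.sdk_map m (fun p => o p.1) (fun p q => p.1 * q.1), ← hm, bind_map']
  congr 1
  funext p
  rw [← ho p.1, map_map']

/-- the limit of the product is in `DD A` -/
lemma limit (Λ : LimGp G E) {A C : Subgroup E} (hA : Λ.NT A) (hC : Λ.NT C) (hCD : Λ.DD C = C)
    (hCA : C ≤ A) {u : Ultrafilter G} {m : Ultrafilter (G × G)} (hm : m.map Prod.fst = u)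
    {x : G → E} (hx : ∀ κ, x κ ∈ A) (f : G × G → G)
    (hf : Eqm C (Λ.l u x)⁻¹ (Λ.l m (fun p => Λ.θ (f p)))) :
    Λ.l m (fun p => Λ.θ (f p) * x p.1) ∈ Λ.DD A := by
  have h1 := Eqm.prod (Λ := Λ) hA.closed (𝔬 := m) (fun p => Λ.θ (f p)) (fun p => x p.1)
    (Eventually.of_forall fun p => hx p.1)
  have h2 : Λ.l m (fun p : G × G => x p.1) = Λ.l u x := by
    rw [← hm, Λ.l_map]
  have hCA' : C ≤ Λ.DD A := by
    have := LimGp.DD_mono (Λ := Λ) hCA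
    rwa [hCD] at this
  refine h1.mem le_rfl (hCA' ?_)
  rw [h2]
  have h3 := hC.normal.conj_mem _ hf (Λ.l u x)⁻¹
  simpa only [inv_inv, inv_mul_cancel_left] using h3

/-- the first limit of the total law -/
lemma first (Λ : LimGp G E) (m : Ultrafilter (G × G)) (o : G → Ultrafilter (G × G)) :
    Λ.l ((Λ.sdk m (fun p => o p.1)).map
      (fun P => (P.1.1 * P.2.2.1, P.1.2 * P.2.1 * P.2.2.2))) (fun p => Λ.θ p.2) =
      Λ.l m (fun p => Λ.θ p.2 * Λ.l (o p.1) (fun q => Λ.θ q.2)) := by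
  rw [Λ.l_map]
  exact Λ.l_sdk_th m (fun p => o p.1) (fun p => p.2) (fun _ q => q.2)

/-- the second limit of the total law -/
lemma second (Λ : LimGp G E) (m : Ultrafilter (G × G)) (o : G → Ultrafilter (G × G))
    (y : G → E) :
    Λ.l ((Λ.sdk m (fun p => o p.1)).map
      (fun P => (P.1.1 * P.2.2.1, P.1.2 * P.2.1 * P.2.2.2)))
      (fun p => Λ.θ (p.2 * p.1) * y p.1) =
      Λ.l m (fun p => Λ.θ (p.2 * p.1) *
        Λ.l (o p.1) (fun q => Λ.θ (q.2 * q.1) * y (p.1 * q.1))) := by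
  rw [Λ.l_map]
  have h5 := Λ.l_sdk_th_mul m (fun p => o p.1) (fun p => p.2 * p.1) (fun _ q => q.2 * q.1)
    (fun p q => y (p.1 * q.1))
  refine Eq.trans ?_ h5
  congr 1
  funext P
  have h6 : P.1.2 * P.2.1 * P.2.2.2 * (P.1.1 * P.2.2.1) =
      P.1.2 * P.1.1 * P.2.1 * (P.2.2.2 * P.2.2.1) := by
    rw [mul_assoc P.1.2 P.1.1 P.2.1, mul_comm P.1.1 P.2.1, ← mul_assoc P.1.2 P.2.1 P.1.1,
      mul_assoc (P.1.2 * P.2.1) P.2.2.2, mul_left_comm P.2.2.2, mul_assoc (P.1.2 * P.2.1) P.1.1]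
  show Λ.θ (P.1.2 * P.2.1 * P.2.2.2 * (P.1.1 * P.2.2.1)) * y (P.1.1 * P.2.2.1) = _
  rw [h6]

end I_AFS

open I_AFS in
/-- successor step of the absorption -/
theorem AFS_pf (E : Type u) [Group E] : AFS E := by
  intro G _ Λ C A hC hCD hFL hA hCA hAle hAF
  obtain ⟨u, -, hu⟩ := hFL 1 (Set.mem_univ _)
  obtain ⟨k', hk'⟩ := hAF
  refine ⟨u.bind (fun κ => k'.map (fun κ' => κ * κ')), fun y hy => ?_⟩
  have hc : ∀ κ₁ : G, ∃ 𝔬 : Ultrafilter (G × G), 𝔬.map Prod.fst = k' ∧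
      Λ.l 𝔬 (fun p => Λ.θ p.2) ∈ A ∧
      Λ.l 𝔬 (fun p => Λ.θ (p.2 * p.1) * y (κ₁ * p.1)) ∈ A :=
    fun κ₁ => hk' (fun κ₂ => y (κ₁ * κ₂)) (fun κ₂ => hy _)
  choose o ho1 ho2 ho3 using hc
  have hLA : ∀ x : G → E, (∀ κ, x κ ∈ A) → (Λ.l u x)⁻¹ ∈ Λ.DD ⊤ := fun x hx =>
    hAle (A.inv_mem (hA.closed.mem (Eventually.of_forall hx)))
  obtain ⟨m, -, hm, h1, h2⟩ := hu (Λ.l u (fun κ₁ => Λ.l (o κ₁) (fun p => Λ.θ p.2)))⁻¹
    (hLA _ ho2) (Λ.l u (fun κ₁ => Λ.l (o κ₁) (fun p => Λ.θ (p.2 * p.1) * y (κ₁ * p.1))))⁻¹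
    (hLA _ ho3)
  refine ⟨(Λ.sdk m (fun p => o p.1)).map
    (fun P => (P.1.1 * P.2.2.1, P.1.2 * P.2.1 * P.2.2.2)), ?_, ?_, ?_⟩
  · exact marginal Λ hm ho1
  · rw [first Λ m o]
    exact limit Λ hA hC hCD hCA hm ho2 (fun p => p.2) h1
  · rw [second Λ m o y]
    exact limit Λ hA hC hCD hCA hm ho3 (fun p => p.2 * p.1) h2

end Pool.Agent.Work.MP_0f91f8_co.Lg
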