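import Pool.Agent.Work.MP_0f91f8_co.Lg.Stmts
import Pool.Agent.Work.MP_0f91f8_co.Cge.I_BRAUER

/-!
Block [0f91f8 PI], item BRA: existence of twisted laws (Brauer's theorem).
-/

set_option linter.unusedSectionVars false

open Filter Topology

universe u

namespace Pool.Agent.Work.MP_0f91f8_co.Lg

open Pool.Agent.Work.MP_0f91f8_co.Cge (sd op aa cc bnd)
open Pool.Agent.Work.MP_0f91f8_co.Df (Mach MOK MK un un_val un_mul un_inv un_div un_one)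

variable (E : Type u) [Group E]

namespace I_BRA

/-- a common denominator -/
lemma exists_denom (Y : Finset ℚ) : ∃ c : ℕ, 0 < c ∧ ∀ y ∈ Y, ∃ z : ℤ, (z : ℚ) = y * c := by
  classical
  refine ⟨∏ y ∈ Y, y.den, Finset.prod_pos fun y _ => y.den_pos, ?_⟩
  intro y hy
  obtain ⟨e, he⟩ := Finset.dvd_prod_of_mem (fun y : ℚ => y.den) hy
  refine ⟨y.num * e, ?_⟩
  rw [he]
  push_cast
  have h := Rat.mul_den_eq_num y
  rw [← mul_assoc, h]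

/-- Step A: Brauer's theorem for finite colourings of the nonzero rationals -/
lemma stepA (κ : ℚˣ) (X : Finset ℚ) (C : Type) [Finite C] (χ : ℚˣ → C) :
    ∃ p : ℚ × ℚˣ, p.1 ≠ 0 ∧ ∀ x ∈ X, 1 + x * p.1 ≠ 0 ∧
      χ (p.2 * un (1 + x * p.1)) = χ (p.2 * un (2 * p.1 / (κ : ℚ))) := by
  classical
  have hκ : (κ : ℚ) ≠ 0 := κ.ne_zero
  obtain ⟨c, hc, hcd⟩ := exists_denom (X.image fun x => x * (κ : ℚ) / 2)
  have hz : ∀ x : ℚ, ∃ z : ℤ, x ∈ X → (z : ℚ) = x * (κ : ℚ) / 2 * c := by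
    intro x
    by_cases hx : x ∈ X
    · obtain ⟨z, hz⟩ := hcd (x * (κ : ℚ) / 2) (Finset.mem_image_of_mem _ hx)
      exact ⟨z, fun _ => hz⟩
    · exact ⟨0, fun h => absurd h hx⟩
  choose z hz using hz
  obtain ⟨s₀, d₀, hd, hJ, hmono⟩ := Cge.BRAUER_pf C (∑ x ∈ X, (z x).natAbs) c hc
    (fun n => χ (un (n : ℚ)))
  set J := ∑ x ∈ X, (z x).natAbs with hJdef
  have hs₀ : 0 < s₀ := lt_of_le_of_lt (Nat.zero_le _) hJ
  -- terms of the progression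
  have hterm : ∀ j : ℤ, j.natAbs ≤ J →
      (s₀ : ℚ) + j * d₀ ≠ 0 ∧ χ (un ((s₀ : ℚ) + j * d₀)) = χ (un ((c * d₀ : ℕ) : ℚ)) := by
    intro j hj
    have hjd : j.natAbs * d₀ < s₀ := lt_of_le_of_lt (Nat.mul_le_mul_right _ hj) hJ
    obtain ⟨hp, hn⟩ := hmono j.natAbs hj
    rcases le_total 0 j with h0 | h0
    · have e : ((s₀ + j.natAbs * d₀ : ℕ) : ℚ) = (s₀ : ℚ) + j * d₀ := by
        have h3 : (|(j : ℚ)|) = (j : ℚ) := abs_of_nonneg (by exact_mod_cast h0)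
        push_cast
        rw [Nat.cast_natAbs, Int.cast_abs, h3]
      rw [e] at hp
      refine ⟨?_, hp⟩
      rw [← e]
      have : 0 < s₀ + j.natAbs * d₀ := by omega
      exact_mod_cast this.ne'
    · have e : ((s₀ - j.natAbs * d₀ : ℕ) : ℚ) = (s₀ : ℚ) + j * d₀ := by
        have h3 : (|(j : ℚ)|) = -(j : ℚ) := abs_of_nonpos (by exact_mod_cast h0)
        rw [Nat.cast_sub hjd.le, Nat.cast_mul, Nat.cast_natAbs, Int.cast_abs, h3]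
        ring
      rw [e] at hn
      refine ⟨?_, hn⟩
      rw [← e]
      have : 0 < s₀ - j.natAbs * d₀ := by omega
      exact_mod_cast this.ne'
  have hs₀q : (s₀ : ℚ) ≠ 0 := by exact_mod_cast hs₀.ne'
  have hc0 : (c : ℚ) ≠ 0 := by exact_mod_cast hc.ne'
  have hd0 : (d₀ : ℚ) ≠ 0 := by exact_mod_cast hd.ne'
  have hW0 : (κ : ℚ) * (c * d₀) / (2 * s₀) ≠ 0 :=
    div_ne_zero (mul_ne_zero hκ (mul_ne_zero hc0 hd0)) (mul_ne_zero two_ne_zero hs₀q)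
  refine ⟨((κ : ℚ) * (c * d₀) / (2 * s₀), un (s₀ : ℚ)), hW0, ?_⟩
  intro x hx
  have hxz := hz x hx
  have hle : (z x).natAbs ≤ J := by
    rw [hJdef]
    exact Finset.single_le_sum (f := fun x => (z x).natAbs) (fun _ _ => Nat.zero_le _) hx
  have ht := hterm (z x) hle
  have e2 : 1 + x * ((κ : ℚ) * (c * d₀) / (2 * s₀)) = ((s₀ : ℚ) + z x * d₀) / s₀ := by
    rw [hxz]
    field_simp
  have h0 : 1 + x * ((κ : ℚ) * (c * d₀) / (2 * s₀)) ≠ 0 := by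
    rw [e2]
    exact div_ne_zero ht.1 hs₀q
  have e3 : un (s₀ : ℚ) * un (2 * ((κ : ℚ) * (c * d₀) / (2 * s₀)) / (κ : ℚ)) =
      un ((c * d₀ : ℕ) : ℚ) := by
    rw [← un_mul hs₀q (div_ne_zero (mul_ne_zero two_ne_zero hW0) hκ)]
    congr 1
    push_cast
    field_simp
  refine ⟨h0, ?_⟩
  show χ (un (s₀ : ℚ) * un (1 + x * ((κ : ℚ) * (c * d₀) / (2 * s₀)))) =
    χ (un (s₀ : ℚ) * un (2 * ((κ : ℚ) * (c * d₀) / (2 * s₀)) / (κ : ℚ)))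
  rw [e3, ← un_mul hs₀q h0, e2, mul_div_cancel₀ _ hs₀q]
  exact ht.2

/-- Step B: the law with equal push-forwards -/
lemma stepB (κ : ℚˣ) : ∃ 𝔮 : Ultrafilter (ℚ × ℚˣ),
    (∀ᶠ p in (𝔮 : Filter (ℚ × ℚˣ)), p.1 ≠ 0) ∧
    (∀ x : ℚ, (∀ᶠ p in (𝔮 : Filter (ℚ × ℚˣ)), 1 + x * p.1 ≠ 0) ∧
      𝔮.map (fun p => p.2 * un (1 + x * p.1)) =
        𝔮.map (fun p => p.2 * un (2 * p.1 / (κ : ℚ)))) := by
  classical
  have h := fun i : Finset (Set ℚˣ) × Finset ℚ =>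
    stepA κ i.2 ({s // s ∈ i.1} → Prop) (fun g s => g ∈ s.1)
  choose c hc0 hc using h
  let 𝔉 : Ultrafilter (Finset (Set ℚˣ) × Finset ℚ) := Ultrafilter.of atTop
  have h𝔉 : (𝔉 : Filter (Finset (Set ℚˣ) × Finset ℚ)) ≤ atTop := Ultrafilter.of_le atTop
  have hx : ∀ x : ℚ, ∀ᶠ i in (𝔉 : Filter (Finset (Set ℚˣ) × Finset ℚ)), x ∈ i.2 := by
    intro x
    apply h𝔉
    filter_upwards [eventually_ge_atTop ((∅ : Finset (Set ℚˣ)), ({x} : Finset ℚ))] with i hi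
    exact hi.2 (Finset.mem_singleton_self x)
  have hs : ∀ s : Set ℚˣ, ∀ᶠ i in (𝔉 : Filter (Finset (Set ℚˣ) × Finset ℚ)), s ∈ i.1 := by
    intro s
    apply h𝔉
    filter_upwards [eventually_ge_atTop (({s} : Finset (Set ℚˣ)), (∅ : Finset ℚ))] with i hi
    exact hi.1 (Finset.mem_singleton_self s)
  refine ⟨𝔉.map c, ?_, fun x => ⟨?_, ?_⟩⟩
  · rw [ev_map]
    exact Eventually.of_forall hc0
  · rw [ev_map]
    filter_upwards [hx x] with i hi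
    exact (hc i x hi).1
  · apply ext_ev
    intro P hP
    rw [ev_map, ev_map] at hP ⊢
    filter_upwards [hP, hx x, hs {g | P g}] with i h1 h2 h3
    have h4 := congrFun (hc i x h2).2 ⟨_, h3⟩
    have h5 : P ((c i).2 * un (1 + x * (c i).1)) = P ((c i).2 * un (2 * (c i).1 / (κ : ℚ))) := h4
    rwa [h5] at h1

end I_BRA

theorem BRA_pf : BRA E := by
  intro Λ κ
  obtain ⟨𝔮', h0, hx⟩ := I_BRA.stepB κ
  set e : E := Λ.l 𝔮' (fun p => Λ.θ (p.2 * un (2 * p.1 / (κ : ℚ)))) with he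
  have hex : ∀ x : ℚ, Λ.l 𝔮' (fun p => Λ.θ (p.2 * un (1 + x * p.1))) = e := by
    intro x
    have h1 := Λ.l_map 𝔮' (fun p => p.2 * un (1 + x * p.1)) (fun g => Λ.θ g)
    have h2 := Λ.l_map 𝔮' (fun p => p.2 * un (2 * p.1 / (κ : ℚ))) (fun g => Λ.θ g)
    rw [(hx x).2] at h1
    rw [he]
    exact h1.symm.trans h2
  obtain ⟨k, hk⟩ := Λ.exists_law e⁻¹
  set 𝔮 : Ultrafilter (ℚ × ℚˣ) := (Λ.sdk k (fun _ => 𝔮')).map
    (fun P => (P.2.2.1, P.1 * P.2.1 * P.2.2.2)) with h𝔮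
  have hev : ∀ P : ℚ → Prop, (∀ᶠ p in (𝔮' : Filter (ℚ × ℚˣ)), P p.1) →
      ∀ᶠ p in (𝔮 : Filter (ℚ × ℚˣ)), P p.1 := by
    intro P hP
    rw [h𝔮, ev_map, Λ.ev_sdk' k (fun _ => 𝔮') (fun _ q => P q.1), eventually_const]
    exact hP
  have hl : ∀ f : ℚ → ℚˣ, Λ.l 𝔮' (fun p => Λ.θ (p.2 * f p.1)) = e →
      Λ.l 𝔮 (fun p => Λ.θ (p.2 * f p.1)) = 1 := by
    intro f hf
    have h1 : Λ.l 𝔮 (fun p => Λ.θ (p.2 * f p.1)) =
        Λ.l (Λ.sdk k (fun _ => 𝔮')) (fun P => Λ.θ (P.1 * P.2.1 * (P.2.2.2 * f P.2.2.1))) := by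
      rw [h𝔮, Λ.l_map]
      simp only [mul_assoc]
    rw [h1, Λ.l_sdk_th k (fun _ => 𝔮') (fun g => g) (fun _ q => q.2 * f q.1)]
    simp only [hf]
    rw [Λ.l_right, hk, inv_mul_cancel]
  have a1 : ∀ x : ℚ, ∀ᶠ p in (𝔮 : Filter (ℚ × ℚˣ)), 1 + x * p.1 ≠ 0 :=
    fun x => hev (fun w => 1 + x * w ≠ 0) (hx x).1
  have a2 : ∀ x : ℚ, Λ.l 𝔮 (fun p => Λ.θ (p.2 * un (1 + x * p.1))) = 1 :=
    fun x => hl (fun w => un (1 + x * w)) (hex x)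
  have a3 : ∀ᶠ p in (𝔮 : Filter (ℚ × ℚˣ)), p.1 ≠ 0 := hev (fun w => w ≠ 0) h0
  have a4 : Λ.l 𝔮 (fun p => Λ.θ (p.2 * un (2 * p.1 / (κ : ℚ)))) = 1 :=
    hl (fun w => un (2 * w / (κ : ℚ))) he.symm
  clear_value 𝔮
  exact ⟨𝔮.map Prod.fst, 𝔮, rfl, fun x => ⟨a1 x, a2 x⟩, a3, a4⟩

end Pool.Agent.Work.MP_0f91f8_co.Lg
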