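import Pool.Agent.Work.MP_0f91f8_co.Lg.Stmts
import Pool.Agent.Work.MP_0f91f8_co.Df.I_CLO

/-!
Block [0f91f8 PI], item CLO: the closure step.
-/

set_option linter.unusedSectionVars false
set_option linter.unusedVariables false

open Filter Topology

universe u

namespace Pool.Agent.Work.MP_0f91f8_co.Lg

open Pool.Agent.Work.MP_0f91f8_co.Cge (sd op aa cc bnd)
open Pool.Agent.Work.MP_0f91f8_co.Df (Mach MOK MK un un_val un_mul un_inv un_div un_one)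

namespace I_CLO

open Pool.Agent.Work.MP_0f91f8_co.Df.I_CLO (mo r0 rh ratio r0_eq qu R0 Rh un_quot sd_map_fst)

variable {E : Type u} [Group E] {Λ : LimGp ℚˣ E}

/-- the point-wise facts for one `V` -/
lemma ev_ratio {𝔲 𝔠 : Ultrafilter ℚ} (hu : E1 Λ 𝔲) (hc' : E1 Λ 𝔠)
    {c : ℚ} (hc : c ≠ 0) (l m : ℚ) :
    ∀ᶠ ω in (sd 𝔲 (fun _ => 𝔠) : Filter (ℚ × ℚ)),
      un (aa c (op (mo l m ω.1) ω.2)) * (un (aa c (op (-mo l m ω.1) ω.2)))⁻¹ =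
        R0 c l m ω.1 * Rh c (mo l m ω.1) ω.2 := by
  rw [Cge.eventually_sd]
  filter_upwards [hu.ne l, hu.ne (l - c * m), hu.ne (l + m / c), hu.ne (l + c * m),
    hu.ne (l - m / c)] with w hl h1 h2 h3 h4
  filter_upwards [hc'.ne (mo l m w), hc'.ne (-mo l m w),
    hc'.ne (-((c + mo l m w) / (1 - c * mo l m w))),
    hc'.ne ((1 / c - mo l m w) / (1 + mo l m w / c)),
    hc'.ne (-((c - mo l m w) / (1 + c * mo l m w))),
    hc'.ne ((1 / c + mo l m w) / (1 - mo l m w / c))] with b hb hb' k1 k2 k3 k4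
  have hq : mo l m w * (1 + l * w) = m * w := div_mul_cancel₀ _ hl
  have n1 : 1 - c * mo l m w ≠ 0 := by
    intro H
    apply h1
    linear_combination (1 + l * w) * H + c * hq
  have n2 : 1 + mo l m w / c ≠ 0 := by
    intro H
    apply h2
    linear_combination (1 + l * w) * H - (1 / c) * hq
  have n3 : 1 + c * mo l m w ≠ 0 := by
    intro H
    apply h3
    linear_combination (1 + l * w) * H - c * hq
  have n4 : 1 - mo l m w / c ≠ 0 := by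
    intro H
    apply h4
    linear_combination (1 + l * w) * H + (1 / c) * hq
  have hb'' : 1 - mo l m w * b ≠ 0 := by
    intro H
    apply hb'
    linear_combination H
  have key := ratio (a := mo l m w) (b := b) hc hb'' hb n1 n2 n3 n4
  rw [r0_eq hl] at key
  have g1 : r0 c l m w ≠ 0 := div_ne_zero (mul_ne_zero h1 h2) (mul_ne_zero h3 h4)
  have g2 : rh c (mo l m w) b ≠ 0 := div_ne_zero (mul_ne_zero k1 k2) (mul_ne_zero k3 k4)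
  have g3 : aa c (op (mo l m w) b) * (aa c (op (-mo l m w) b))⁻¹ ≠ 0 := by
    rw [key]; exact mul_ne_zero g1 g2
  have g4 : aa c (op (mo l m w) b) ≠ 0 := left_ne_zero_of_mul g3
  have g5 : aa c (op (-mo l m w) b) ≠ 0 := fun H => right_ne_zero_of_mul g3 (by rw [H, inv_zero])
  show un (aa c (op (mo l m w) b)) * (un (aa c (op (-mo l m w) b)))⁻¹ =
    R0 c l m w * Rh c (mo l m w) b
  rw [← un_inv g5, ← un_mul g4 (inv_ne_zero g5), key, un_mul g1 g2]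
  congr 1
  · exact un_quot h1 h2 h3 h4
  · exact un_quot k1 k2 k3 k4

/-- position independence of quotients of linear factors -/
lemma pos_qu (hPG : POSG E) (hPO : POS E) {𝔲 : Ultrafilter ℚ} (hu : E1 Λ 𝔲)
    (x₁ x₂ x₃ x₄ : ℚ) : Pos Λ (A0 Λ) 𝔲 (fun w => qu x₁ x₂ x₃ x₄ w) := by
  have h1 : ∀ x : ℚ, Pos Λ (A0 Λ) 𝔲 (fun w => un (1 + x * w)) := fun x =>
    (hPO Λ ℚ 𝔲 id).1 (by rwa [Ultrafilter.map_id]) x
  obtain ⟨-, -, hm, hi, -⟩ := hPG Λ (A0 Λ) ℚ 𝔲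
  exact hm _ _ (hm _ _ (h1 x₁) (h1 x₂)) (hi _ (hm _ _ (h1 x₃) (h1 x₄)))

lemma lim_qu (hPG : POSG E) (hPO : POS E) {𝔲 : Ultrafilter ℚ} (hu : E1 Λ 𝔲)
    (x₁ x₂ x₃ x₄ : ℚ) : Λ.l 𝔲 (fun w => Λ.θ (qu x₁ x₂ x₃ x₄ w)) ∈ A0 Λ :=
  (hPG Λ (A0 Λ) ℚ 𝔲).2.2.2.2 _ (pos_qu hPG hPO hu x₁ x₂ x₃ x₄)

/-- norms do not see signs -/
lemma nu_sign {σ : ℚ} (hσ : σ ^ 2 = 1) {𝔲 : Ultrafilter ℚ} {e : E} (h : NU Λ 𝔲 e) :
    NU Λ (𝔲.map (fun w => σ * w)) e := by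
  obtain ⟨𝔮, rfl, h2, h3⟩ := h
  refine ⟨𝔮.map (fun p => ((σ * p.1, p.2) : ℚ × ℚˣ)), rfl, ?_, ?_⟩
  · rw [Λ.l_map]
    exact h2
  rw [← h3, Λ.l_map]
  congr 1
  funext p
  show Λ.θ (p.2 * un (1 + (σ * p.1) ^ 2)) = Λ.θ (p.2 * un (1 + p.1 ^ 2))
  rw [mul_pow, hσ, one_mul]

/-- the extended coupling -/
noncomputable def ex (Λ : LimGp ℚˣ E) (𝔮 : Ultrafilter (ℚ × ℚˣ)) (𝔠 : Ultrafilter ℚ) :
    Ultrafilter ((ℚ × ℚ) × ℚˣ) :=
  (Λ.sdk 𝔮 (fun _ => 𝔠)).map (fun P => ((P.1.1, P.2.2), P.1.2 * P.2.1))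

lemma ex_fst (𝔮 : Ultrafilter (ℚ × ℚˣ)) (𝔠 : Ultrafilter ℚ) :
    (ex Λ 𝔮 𝔠).map Prod.fst = sd (𝔮.map Prod.fst) (fun _ => 𝔠) :=
  Λ.sdk_map 𝔮 (fun _ => 𝔠) (fun ω ω' => (ω.1, ω'))

lemma ex_l (𝔮 : Ultrafilter (ℚ × ℚˣ)) (𝔠 : Ultrafilter ℚ) (r : ℚ × ℚ → ℚˣ) :
    Λ.l (ex Λ 𝔮 𝔠) (fun p => Λ.θ (p.2 * r p.1)) =
      Λ.l 𝔮 (fun p => Λ.θ p.2 * Λ.l 𝔠 (fun b => Λ.θ (r (p.1, b)))) :=
  Λ.l_sdk_th 𝔮 (fun _ => 𝔠) (fun p => p.2) (fun p b => r (p.1, b))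

lemma ex_one (𝔮 : Ultrafilter (ℚ × ℚˣ)) (𝔠 : Ultrafilter ℚ) :
    Λ.l (ex Λ 𝔮 𝔠) (fun p => Λ.θ (p.2 * 1)) = Λ.l 𝔮 (fun p => Λ.θ (p.2 * 1)) := by
  rw [ex_l 𝔮 𝔠 (fun _ => 1)]
  simp only [map_one, Λ.l_const, mul_one]

lemma ex_mul (𝔮 : Ultrafilter (ℚ × ℚˣ)) (𝔠 : Ultrafilter ℚ) (r : ℚ → ℚˣ) (s : ℚ → ℚ → ℚˣ) :
    Λ.l (ex Λ 𝔮 𝔠) (fun p => Λ.θ (p.2 * (r p.1.1 * s p.1.1 p.1.2))) =
      Λ.l 𝔮 (fun p => Λ.θ (p.2 * r p.1) * Λ.l 𝔠 (fun b => Λ.θ (s p.1 b))) := by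
  rw [ex_l 𝔮 𝔠 (fun ω => r ω.1 * s ω.1 ω.2)]
  congr 1
  funext p
  simp only [map_mul, Λ.l_left, mul_assoc]

end I_CLO

theorem CLO_pf (E : Type u) [Group E] (hE : E1BND E) (hM : MOB E) (hCO : COMPEN E)
    (hPG : POSG E) (hPO : POS E) (hR : RIG E) (hI : INDG E) (hK : KIND E) : CLO E := by
  intro Λ N hN v hv0 hCmp 𝔲 hu l m
  have hNT : Λ.NT (A0 Λ) := ⟨(hR Λ).1.closed, (hR Λ).2⟩
  -- the compensators
  have hex : ∀ V : ℚ, ∃ 𝔠 : Ultrafilter ℚ, E1 Λ (𝔲 V) → (E1 Λ 𝔠 ∧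
      ∃ e : E, NU Λ ((𝔲 V).map (fun w => m V * w / (1 + l V * w))) e ∧
      ∀ 𝔲₂ : Ultrafilter ℚ, E1 Λ 𝔲₂ → NU Λ 𝔲₂ e → bnd 𝔲₂ (fun _ => 𝔠) ∈ WW Λ) := by
    intro V
    by_cases hV : E1 Λ (𝔲 V)
    · obtain ⟨e, 𝔠, h1, h2, h3⟩ := hCO Λ _ ((hM Λ).2.2 (𝔲 V) hV (l V) (m V))
      exact ⟨𝔠, fun _ => ⟨h2, e, h1, h3⟩⟩
    · exact ⟨pure 0, fun hV' => absurd hV' hV⟩
  choose uc huc using hex
  have hcc : ∀ᶠ V in (v : Filter ℚ), cc V ≠ 0 := by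
    filter_upwards [hv0] with V hV
    obtain ⟨-, h1, h2⟩ := hV
    unfold cc
    apply div_ne_zero
    · intro H; apply h2; linarith
    · intro H; apply h1; linarith
  -- the two families
  have key : ∀ σ : ℚ, (σ = 1 ∨ σ = -1) →
      Ind Λ (A0 Λ) N v (fun V => sd (𝔲 V) (fun _ => uc V))
        (fun V ω => un (aa (cc V) (op (σ * Df.I_CLO.mo (l V) (m V) ω.1) ω.2))) := by
    intro σ hσ
    have hσ2 : σ ^ 2 = 1 := by rcases hσ with rfl | rfl <;> norm_num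
    apply hK Λ N hN v hv0 hCmp (ℚ × ℚ) (fun V => sd (𝔲 V) (fun _ => uc V))
      (fun V ω => op (σ * Df.I_CLO.mo (l V) (m V) ω.1) ω.2)
    filter_upwards [hu] with V hV
    obtain ⟨hc1, e, hc2, hc3⟩ := huc V hV
    have e0 : (sd (𝔲 V) (fun _ => uc V)).map
        (fun ω => op (σ * Df.I_CLO.mo (l V) (m V) ω.1) ω.2) =
        bnd ((𝔲 V).map (fun w => (σ * m V) * w / (1 + l V * w))) (fun _ => uc V) := by
      unfold bnd
      rw [Df.I_CLO.sd_map_fst, Ultrafilter.map_map]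
      congr 1
      funext ω
      simp only [Function.comp]
      unfold Df.I_CLO.mo
      congr 1
      ring
    rw [e0]
    refine hc3 _ ((hM Λ).2.2 (𝔲 V) hV (l V) (σ * m V)) ?_
    have e1 := I_CLO.nu_sign hσ2 hc2
    rw [Ultrafilter.map_map] at e1
    convert e1 using 2
    funext w
    simp only [Function.comp]
    ring
  have kp := key 1 (Or.inl rfl)
  have km := key (-1) (Or.inr rfl)
  simp only [one_mul, neg_mul] at kp km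
  obtain ⟨-, hcongr, hmul, hinv⟩ :=
    hI Λ (A0 Λ) N hNT hN v (ℚ × ℚ) (fun V => sd (𝔲 V) (fun _ => uc V))
  have kr := hcongr _ (fun V ω => Df.I_CLO.R0 (cc V) (l V) (m V) ω.1 *
    Df.I_CLO.Rh (cc V) (Df.I_CLO.mo (l V) (m V) ω.1) ω.2) (hmul _ _ kp (hinv _ km)) (by
      filter_upwards [hu, hcc] with V hV hcV
      exact I_CLO.ev_ratio hV (huc V hV).1 hcV (l V) (m V))
  change Ind Λ (A0 Λ) N v 𝔲 (fun V w => Df.I_CLO.R0 (cc V) (l V) (m V) w)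
  refine ⟨?_, ?_⟩
  · filter_upwards [hu] with V hV
    exact I_CLO.pos_qu hPG hPO hV _ _ _ _
  · -- the inner limits
    set lam : ℚ → ℚ → E := fun V w => Λ.l (uc V)
      (fun b => Λ.θ (Df.I_CLO.Rh (cc V) (Df.I_CLO.mo (l V) (m V) w) b)) with hlam
    have hlamA : ∀ V, E1 Λ (𝔲 V) → ∀ w, lam V w ∈ A0 Λ := fun V hV w =>
      I_CLO.lim_qu hPG hPO (huc V hV).1 _ _ _ _
    set C : E := Λ.l v (fun V => Λ.l (𝔲 V) (fun w => lam V w)) with hC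
    have hcV : ∀ᶠ V in (v : Filter ℚ), Λ.l (𝔲 V) (fun w => lam V w) ∈ A0 Λ := by
      filter_upwards [hu] with V hV
      exact hNT.closed.mem (Eventually.of_forall fun w => hlamA V hV w)
    have hCA : C ∈ A0 Λ := hNT.closed.mem hcV
    -- one coupling
    have one : ∀ 𝔮 : ℚ → Ultrafilter (ℚ × ℚˣ), Cpl Λ (A0 Λ) v 𝔲 𝔮 →
        Cpl Λ (A0 Λ) v (fun V => sd (𝔲 V) (fun _ => uc V)) (fun V => I_CLO.ex Λ (𝔮 V) (uc V)) ∧
        Ph Λ v (fun V => I_CLO.ex Λ (𝔮 V) (uc V)) (fun _ _ => 1) = Ph Λ v 𝔮 (fun _ _ => 1) ∧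
        Eqm N (Ph Λ v 𝔮 (fun V w => Df.I_CLO.R0 (cc V) (l V) (m V) w) * C)
          (Ph Λ v (fun V => I_CLO.ex Λ (𝔮 V) (uc V))
            (fun V ω => Df.I_CLO.R0 (cc V) (l V) (m V) ω.1 *
              Df.I_CLO.Rh (cc V) (Df.I_CLO.mo (l V) (m V) ω.1) ω.2)) := by
      intro 𝔮 h𝔮
      refine ⟨?_, ?_, ?_⟩
      · filter_upwards [h𝔮] with V hV
        obtain ⟨hv1, hv2⟩ := hV
        refine ⟨by rw [I_CLO.ex_fst, hv1], ?_⟩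
        have := I_CLO.ex_one (Λ := Λ) (𝔮 V) (uc V)
        simp only [mul_one] at this
        rwa [this]
      · show Λ.l v (fun V => Λ.l (I_CLO.ex Λ (𝔮 V) (uc V)) (fun p => Λ.θ (p.2 * 1))) =
          Λ.l v (fun V => Λ.l (𝔮 V) (fun p => Λ.θ (p.2 * 1)))
        congr 1
        funext V
        exact I_CLO.ex_one (𝔮 V) (uc V)
      · have s1 : Eqm (Λ.DD (A0 Λ))
            (Λ.l v (fun V => Λ.l (𝔮 V)
              (fun p => Λ.θ (p.2 * Df.I_CLO.R0 (cc V) (l V) (m V) p.1))) * C)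
            (Λ.l v (fun V => Λ.l (𝔮 V)
              (fun p => Λ.θ (p.2 * Df.I_CLO.R0 (cc V) (l V) (m V) p.1)) *
                Λ.l (𝔲 V) (fun w => lam V w))) :=
          Eqm.prod hNT.closed _ _ hcV
        have s2 : Eqm (Λ.DD (A0 Λ))
            (Λ.l v (fun V => Λ.l (𝔮 V)
              (fun p => Λ.θ (p.2 * Df.I_CLO.R0 (cc V) (l V) (m V) p.1)) *
                Λ.l (𝔲 V) (fun w => lam V w)))
            (Λ.l v (fun V => Λ.l (I_CLO.ex Λ (𝔮 V) (uc V))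
              (fun p => Λ.θ (p.2 * (Df.I_CLO.R0 (cc V) (l V) (m V) p.1.1 *
                Df.I_CLO.Rh (cc V) (Df.I_CLO.mo (l V) (m V) p.1.1) p.1.2))))) := by
          refine Eqm.limit (LimGp.TC_DD _) ?_
          filter_upwards [hu, h𝔮] with V hV hq
          obtain ⟨hv1, hv2⟩ := hq
          rw [I_CLO.ex_mul (𝔮 V) (uc V) (fun w => Df.I_CLO.R0 (cc V) (l V) (m V) w)
            (fun w b => Df.I_CLO.Rh (cc V) (Df.I_CLO.mo (l V) (m V) w) b)]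
          have e1 : Λ.l (𝔲 V) (fun w => lam V w) = Λ.l (𝔮 V) (fun p => lam V p.1) := by
            rw [← hv1, Λ.l_map]
          rw [e1]
          exact Eqm.prod hNT.closed
            (fun p : ℚ × ℚˣ => Λ.θ (p.2 * Df.I_CLO.R0 (cc V) (l V) (m V) p.1))
            (fun p : ℚ × ℚˣ => lam V p.1) (Eventually.of_forall fun p => hlamA V hV p.1)
        exact (s1.trans s2).mono hN.ge
    intro 𝔮 𝔮' h𝔮 h𝔮'
    obtain ⟨a1, a2, a3⟩ := one 𝔮 h𝔮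
    obtain ⟨b1, b2, b3⟩ := one 𝔮' h𝔮'
    have k2 := kr.2 _ _ a1 b1
    rw [a2, b2] at k2
    have k3 := ((a3.left (Ph Λ v 𝔮 (fun _ _ => 1))⁻¹).trans k2).trans
      (b3.left (Ph Λ v 𝔮' (fun _ _ => 1))⁻¹).symm
    have k4 := k3.right hN ((A0 Λ).inv_mem hCA)
    simpa only [mul_assoc, mul_inv_cancel, mul_one] using k4

end Pool.Agent.Work.MP_0f91f8_co.Lg
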