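import Pool.Agent.Work.MP_0f91f8_co.Lg.Stmts

set_option linter.unusedSectionVars false
set_option linter.unusedVariables false

open Filter Topology

universe u

namespace Pool.Agent.Work.MP_0f91f8_co.Lg

open Pool.Agent.Work.MP_0f91f8_co.Cge (sd op aa cc bnd)
open Pool.Agent.Work.MP_0f91f8_co.Df (Mach MOK MK un un_val un_mul un_inv un_div un_one)

namespace I_CMPS

section

variable {S T G : Type} [CommGroup G] {E : Type u} [Group E] (Λ : LimGp G E)

/-- the law of the composite -/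
lemma fst_eq (K : Mach S T G) (s : S) (m : Ultrafilter (T × G))
    (F : S → Ultrafilter (T × G)) :
    (cps Λ K s m F).map Prod.fst =
      (m.map Prod.fst).bind (fun t => ((F (K.act s t)).map Prod.fst).map (K.cmp t)) := by
  have h := Λ.sdk_map m (fun p => F (K.act s p.1)) (fun a b => K.cmp a.1 b.1)
  exact h

/-- almost every state reached by a move is in `S₀`, and the next move is in `W` -/
lemma ev_W {K : Mach S T G} (hK : MOK K) {s : S} (hs : s ∈ K.S₀) {m : Ultrafilter (T × G)}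
    (hm : m.map Prod.fst ∈ K.W) {F : S → Ultrafilter (T × G)}
    (hF : ∀ s' ∈ K.S₀, (F s').map Prod.fst ∈ K.W) :
    ∀ᶠ t in (m.map Prod.fst : Filter T), (F (K.act s t)).map Prod.fst ∈ K.W :=
  (hK.mem s hs _ hm).mono fun t ht => hF _ ht

/-- the cocycle relations along a composition -/
lemma ev_coc {K : Mach S T G} (hK : MOK K) {s : S} (hs : s ∈ K.S₀) {m : Ultrafilter (T × G)}
    (hm : m.map Prod.fst ∈ K.W) {F : S → Ultrafilter (T × G)}
    (hF : ∀ s' ∈ K.S₀, (F s').map Prod.fst ∈ K.W) :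
    ∀ᶠ a in (m : Filter (T × G)), ∀ᶠ b in (F (K.act s a.1) : Filter (T × G)),
      K.act s (K.cmp a.1 b.1) = K.act (K.act s a.1) b.1 ∧
        K.r s (K.cmp a.1 b.1) = K.r s a.1 * K.r (K.act s a.1) b.1 := by
  have h1 : ∀ᶠ t in (m.map Prod.fst : Filter T), ∀ᶠ t' in
      ((F (K.act s t)).map Prod.fst : Filter T),
      K.act s (K.cmp t t') = K.act (K.act s t) t' ∧
        K.r s (K.cmp t t') = K.r s t * K.r (K.act s t) t' := by
    filter_upwards [hK.coc s hs _ hm, ev_W hK hs hm hF] with t h2 h3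
    exact h2 _ h3
  exact h1

end

end I_CMPS

variable (E : Type u) [Group E]

/-- compositions of moves -/
theorem CMPS_pf : CMPS E := by
  intro S T G _ Λ K hK s hs m hm F hF
  have hcoc := I_CMPS.ev_coc hK hs hm hF
  refine ⟨?_, ?_, ?_, I_CMPS.fst_eq Λ K s m F, ?_⟩
  · have h1 := hK.cmp _ hm _ (I_CMPS.ev_W hK hs hm hF)
    have h2 : (m.map Prod.fst).bind (fun t => ((F (K.act s t)).map Prod.fst).map (K.cmp t)) =
        (sd (m.map Prod.fst) (fun t => (F (K.act s t)).map Prod.fst)).map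
          (fun p => K.cmp p.1 p.2) := by
      apply ext_ev
      intro P hP
      exact hP
    rw [I_CMPS.fst_eq Λ K s m F, h2]
    exact h1
  · exact Λ.l_sdk_th m (fun p => F (K.act s p.1)) (fun p => p.2) (fun _ q => q.2)
  · have h := Λ.l_sdk_th m (fun p => F (K.act s p.1)) (fun p => p.2 * K.r s p.1)
      (fun p q => q.2 * K.r (K.act s p.1) q.1)
    refine Eq.trans ?_ h
    show Λ.l (Λ.sdk m (fun p => F (K.act s p.1)))
      (fun q => Λ.θ (q.1.2 * q.2.1 * q.2.2.2 * K.r s (K.cmp q.1.1 q.2.2.1))) = _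
    apply Λ.l_congr
    rw [Λ.ev_sdk]
    filter_upwards [hcoc] with a ha
    refine Filter.Eventually.of_forall fun k => ?_
    filter_upwards [ha] with b hb
    show Λ.θ (a.2 * k * b.2 * K.r s (K.cmp a.1 b.1)) =
      Λ.θ (a.2 * K.r s a.1 * k * (b.2 * K.r (K.act s a.1) b.1))
    rw [hb.2]
    congr 1
    simp only [mul_comm, mul_assoc, mul_left_comm]
  · apply ext_ev
    intro P hP
    have h1 : ∀ᶠ a in (m : Filter (T × G)), ∀ᶠ _k in (Λ.k1 : Filter G),
        ∀ᶠ b in (F (K.act s a.1) : Filter (T × G)), P (K.act s (K.cmp a.1 b.1)) := hP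
    show ∀ᶠ a in (m : Filter (T × G)), ∀ᶠ b in (F (K.act s a.1) : Filter (T × G)),
        P (K.act (K.act s a.1) b.1)
    simp only [eventually_const] at h1
    filter_upwards [h1, hcoc] with a h2 h3
    filter_upwards [h2, h3] with b h4 h5
    rw [← h5.1]
    exact h4

end Pool.Agent.Work.MP_0f91f8_co.Lg
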