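import Pool.Agent.Work.MP_0f91f8_co.Lg.Stmts

/-!
Block [0f91f8 PI], item COMPEN: compensation of norms.
-/

set_option linter.unusedSectionVars false
set_option linter.unusedVariables false

open Filter Topology

universe u

namespace Pool.Agent.Work.MP_0f91f8_co.Lg

open Pool.Agent.Work.MP_0f91f8_co.Cge (sd op aa cc bnd)
open Pool.Agent.Work.MP_0f91f8_co.Df (Mach MOK MK un un_val un_mul un_inv un_div un_one)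

namespace I_COMPEN

variable {E : Type u} [Group E]

/-- norms of laws modulo `A0` -/
def SS (Λ : LimGp ℚˣ E) : Set E :=
  {x | ∃ (𝔲 : Ultrafilter ℚ) (e : E), E1 Λ 𝔲 ∧ NU Λ 𝔲 e ∧ Eqm (A0 Λ) e x}

/-- every law in `E1` has a norm -/
lemma exists_NU {Λ : LimGp ℚˣ E} {𝔲 : Ultrafilter ℚ} (h : E1 Λ 𝔲) : ∃ e, NU Λ 𝔲 e := by
  obtain ⟨𝔮, h1, h2⟩ := h
  refine ⟨_, 𝔮, h1, ?_, rfl⟩
  have h3 := (h2 0).2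
  simpa only [zero_mul, add_zero, un_one, mul_one] using h3

/-- norms of compositions -/
lemma nu_bnd (hN : NUB E) {Λ : LimGp ℚˣ E} {𝔲 𝔲' : Ultrafilter ℚ} {e e' : E} (hu : E1 Λ 𝔲)
    (hu' : E1 Λ 𝔲') (he : NU Λ 𝔲 e) (he' : NU Λ 𝔲' e') :
    ∃ e'', NU Λ (bnd 𝔲 (fun _ => 𝔲')) e'' ∧ Eqm (A0 Λ) (e * e') e'' := by
  obtain ⟨𝔮, h1, h2, h3⟩ := he
  subst h1
  obtain ⟨e'', h4, h5⟩ := hN Λ 𝔮 (fun _ => 𝔲') (fun _ => e') hu h2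
    (Eventually.of_forall fun _ => ⟨hu', he'⟩)
  rw [Λ.l_right, h3] at h5
  exact ⟨e'', h4, h5⟩

lemma mul_mem (hR : RIG E) (hE : E1BND E) (hN : NUB E) (Λ : LimGp ℚˣ E) :
    ∀ x ∈ SS Λ, ∀ y ∈ SS Λ, x * y ∈ SS Λ := by
  rintro x ⟨𝔲, e, hu, he, hx⟩ y ⟨𝔲', e', hu', he', hy⟩
  obtain ⟨e'', h1, h2⟩ := nu_bnd hN hu hu' he he'
  refine ⟨bnd 𝔲 (fun _ => 𝔲'), e'', hE Λ 𝔲 _ hu (Eventually.of_forall fun _ => hu'), h1, ?_⟩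
  exact h2.symm.trans ((hx.right' (hR Λ).2 e').trans (hy.left x))

/-- couplings along a law -/
lemma cpl (Λ : LimGp ℚˣ E) (f : Ultrafilter E) (𝔮 : E → Ultrafilter (ℚ × ℚˣ)) :
    ∃ 𝔔 : Ultrafilter (ℚ × ℚˣ), 𝔔.map Prod.fst = f.bind (fun x => (𝔮 x).map Prod.fst) ∧
      ∀ g : ℚ → ℚˣ, Λ.l 𝔔 (fun p => Λ.θ (p.2 * g p.1)) =
        Λ.l f (fun x => Λ.l (𝔮 x) (fun p => Λ.θ (p.2 * g p.1))) := by
  refine ⟨(Λ.sdk f 𝔮).map (fun P : E × ℚˣ × (ℚ × ℚˣ) => (P.2.2.1, P.2.1 * P.2.2.2)), ?_, ?_⟩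
  · exact Λ.sdk_map f 𝔮 (fun _ p => p.1)
  · intro g
    rw [← Λ.l_sdk f 𝔮 (fun _ p => Λ.θ (p.2 * g p.1)), Λ.l_map]
    congr 1
    funext P
    change Λ.θ (P.2.1 * P.2.2.2 * g P.2.2.1) = Λ.θ P.2.1 * Λ.θ (P.2.2.2 * g P.2.2.1)
    rw [mul_assoc, map_mul]

lemma lim_mem (hR : RIG E) (hM : MOB E) (Λ : LimGp ℚˣ E) (f : Ultrafilter E)
    (hf : ∀ᶠ x in (f : Filter E), x ∈ SS Λ) : Λ.lim f ∈ SS Λ := by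
  classical
  have hch : ∀ x : E, ∃ 𝔮 : Ultrafilter (ℚ × ℚˣ), E1 Λ (𝔮.map Prod.fst) ∧
      Λ.l 𝔮 (fun p => Λ.θ p.2) = 1 ∧
      (x ∈ SS Λ → Eqm (A0 Λ) (Λ.l 𝔮 (fun p => Λ.θ (p.2 * un (1 + p.1 ^ 2)))) x) := by
    intro x
    by_cases hx : x ∈ SS Λ
    · obtain ⟨𝔲, e, h1, ⟨𝔮, h2, h3, h4⟩, h5⟩ := hx
      subst h2
      subst h4
      exact ⟨𝔮, h1, h3, fun _ => h5⟩
    · obtain ⟨e, 𝔮, h2, h3, h4⟩ := exists_NU (hM Λ).1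
      exact ⟨𝔮, by rw [h2]; exact (hM Λ).1, h3, fun h' => absurd h' hx⟩
  choose 𝔮 h1 h2 h3 using hch
  obtain ⟨𝔔, h4, h5⟩ := cpl Λ f 𝔮
  refine ⟨f.bind (fun x => (𝔮 x).map Prod.fst),
    Λ.l f (fun x => Λ.l (𝔮 x) (fun p => Λ.θ (p.2 * un (1 + p.1 ^ 2)))), ?_, ?_, ?_⟩
  · exact mem_of_bind (hM Λ).2.1 (Eventually.of_forall h1)
  · refine ⟨𝔔, h4, ?_, h5 (fun w => un (1 + w ^ 2))⟩
    have h6 := h5 (fun _ => 1)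
    simp only [mul_one, h2, Λ.l_const] at h6
    exact h6
  · exact Eqm.limit (hR Λ).1.closed (hf.mono fun x hx => h3 x hx)

end I_COMPEN

open I_COMPEN in
theorem COMPEN_pf (E : Type u) [Group E] (hS : CSE E) (hR : RIG E) (hE : E1BND E) (hM : MOB E)
    (hN : NUB E) : COMPEN E := by
  intro Λ 𝔲 hu
  obtain ⟨e, he⟩ := exists_NU hu
  have h1 : e ∈ SS Λ := ⟨𝔲, e, hu, he, Eqm.refl _ _⟩
  obtain ⟨𝔲', e', hu', he', h2⟩ := (hS ℚˣ Λ (SS Λ) (lim_mem hR hM Λ) ⟨_, h1⟩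
    (mul_mem hR hE hN Λ)).2 _ h1
  refine ⟨e, 𝔲', he, hu', fun 𝔲₂ hu₂ h3 => ⟨hE Λ 𝔲₂ _ hu₂ (Eventually.of_forall fun _ => hu'), ?_⟩⟩
  obtain ⟨e'', h4, h5⟩ := nu_bnd hN hu₂ hu' h3 he'
  refine ⟨e'', ?_, h4⟩
  have h6 : Eqm (A0 Λ) (1 : E) e'' := by
    have h7 := (h2.left e).symm.trans h5
    rwa [mul_inv_cancel] at h7
  unfold Eqm at h6
  rwa [inv_one, one_mul] at h6

end Pool.Agent.Work.MP_0f91f8_co.Lg
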