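import Pool.Agent.Work.MP_0f91f8_co.Lg.Stmts

/-!
Item CSE of block [0f91f8 PI]: subsemigroups of a limit group which are closed under limits are
groups.
-/

set_option linter.unusedSectionVars false

open Filter Topology

universe u

namespace Pool.Agent.Work.MP_0f91f8_co.Lg

open Pool.Agent.Work.MP_0f91f8_co.Cge (sd op aa cc bnd)
open Pool.Agent.Work.MP_0f91f8_co.Df (Mach MOK MK un un_val un_mul un_inv un_div un_one)

variable (E : Type u) [Group E]

namespace I_CSE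

variable {E : Type u} [Group E] {G : Type} [CommGroup G]

/-- the nonempty left ideals which are closed under limits -/
def Id (Λ : LimGp G E) (S T : Set E) : Prop :=
  T ⊆ S ∧ T.Nonempty ∧ (∀ f : Ultrafilter E, (∀ᶠ x in (f : Filter E), x ∈ T) → Λ.lim f ∈ T) ∧
    ∀ a ∈ S, ∀ b ∈ T, a * b ∈ T

/-- chains of ideals have nonempty intersection -/
lemma chain {Λ : LimGp G E} {S : Set E} {c : Set (Set E)} (hc : ∀ T ∈ c, Id Λ S T)
    (hch : IsChain (· ⊆ ·) c) (hne : c.Nonempty) : Id Λ S (⋂₀ c) := by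
  obtain ⟨T₁, hT₁⟩ := hne
  have : Nonempty c := ⟨⟨T₁, hT₁⟩⟩
  have hdir : ∀ a b : c, ∃ d : c, (d : Set E) ⊆ a ∧ (d : Set E) ⊆ b := by
    intro a b
    rcases hch.total a.2 b.2 with h | h
    · exact ⟨a, subset_rfl, h⟩
    · exact ⟨b, h, subset_rfl⟩
  -- the filter of tails
  let B : FilterBasis c :=
    { sets := Set.range (fun T : c => {T' : c | (T' : Set E) ⊆ T})
      nonempty := Set.range_nonempty _
      inter_sets := by
        rintro _ _ ⟨a, rfl⟩ ⟨b, rfl⟩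
        obtain ⟨d, hda, hdb⟩ := hdir a b
        exact ⟨_, ⟨d, rfl⟩, fun T' hT' => ⟨Set.Subset.trans hT' hda, Set.Subset.trans hT' hdb⟩⟩ }
  have hB : B.filter.NeBot := by
    rw [neBot_iff]
    intro h0
    have h1 : (∅ : Set c) ∈ B.filter := by rw [h0]; exact mem_bot
    obtain ⟨s, ⟨a, rfl⟩, hs⟩ := B.mem_filter_iff.1 h1
    exact hs (show (a : Set E) ⊆ (a : Set E) from fun x hx => hx)
  let 𝔲 : Ultrafilter c := @Ultrafilter.of c B.filter hB
  have h𝔲 : ∀ T : c, ∀ᶠ T' : c in (𝔲 : Filter c), (T' : Set E) ⊆ T := by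
    intro T
    have h1 : {T' : c | (T' : Set E) ⊆ T} ∈ B.filter := B.mem_filter_of_mem ⟨T, rfl⟩
    exact (@Ultrafilter.of_le c B.filter hB) h1
  choose t ht using fun T : c => (hc T.1 T.2).2.1
  refine ⟨fun x hx => (hc T₁ hT₁).1 (hx T₁ hT₁), ⟨Λ.l 𝔲 t, ?_⟩, ?_, ?_⟩
  · intro T hT
    apply (hc T hT).2.2.1
    rw [ev_map]
    filter_upwards [h𝔲 ⟨T, hT⟩] with T' hT'
    exact hT' (ht T')
  · intro f hf T hT
    exact (hc T hT).2.2.1 f (hf.mono fun x hx => hx T hT)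
  · intro a ha b hb T hT
    exact (hc T hT).2.2.2 a ha b (hb T hT)

/-- right translates of ideals -/
lemma translate {Λ : LimGp G E} {S T : Set E} (hT : Id Λ S T)
    (hm : ∀ a ∈ S, ∀ b ∈ S, a * b ∈ S) {t : E} (ht : t ∈ S) :
    Id Λ S ((fun x : E => x * t) '' T) := by
  refine ⟨?_, hT.2.1.image _, ?_, ?_⟩
  · rintro _ ⟨x, hx, rfl⟩
    exact hm _ (hT.1 hx) _ ht
  · intro f hf
    have h1 : Λ.lim (f.map (fun x => x * t⁻¹)) ∈ T := by
      apply hT.2.2.1
      rw [ev_map]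
      filter_upwards [hf] with x hx
      obtain ⟨y, hy, rfl⟩ := hx
      simpa using hy
    rw [Λ.lim_right] at h1
    exact ⟨_, h1, by simp⟩
  · rintro a ha _ ⟨y, hy, rfl⟩
    exact ⟨a * y, hT.2.2.2 a ha y hy, mul_assoc _ _ _⟩

end I_CSE

theorem CSE_pf : CSE E := by
  intro G _ Λ S hS hne hm
  have hSS : I_CSE.Id Λ S S := ⟨subset_rfl, hne, hS, hm⟩
  obtain ⟨T, hT⟩ := zorn_superset {T : Set E | I_CSE.Id Λ S T} (by
    intro c hc hch
    rcases c.eq_empty_or_nonempty with rfl | hcn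
    · exact ⟨S, hSS, fun s hs => absurd hs (Set.notMem_empty s)⟩
    · exact ⟨⋂₀ c, I_CSE.chain (fun T hT => hc hT) hch hcn, fun s hs => Set.sInter_subset_of_mem hs⟩)
  have hTI : I_CSE.Id Λ S T := hT.prop
  have hmin : ∀ t ∈ T, T ⊆ (fun x : E => x * t) '' T := by
    intro t ht
    apply hT.le_of_le (I_CSE.translate hTI hm (hTI.1 ht))
    rintro _ ⟨x, hx, rfl⟩
    exact hTI.2.2.2 x (hTI.1 hx) t ht
  obtain ⟨t, ht⟩ := hTI.2.1
  have h1 : (1 : E) ∈ T := by
    obtain ⟨s, hs, hst⟩ := hmin t ht ht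
    have hs1 : s = 1 := by
      have h2 : s * t = 1 * t := by simpa using hst
      exact mul_right_cancel h2
    rwa [hs1] at hs
  have hST : S ⊆ T := by
    intro s hs
    have := hTI.2.2.2 s hs 1 h1
    rwa [mul_one] at this
  refine ⟨hTI.1 h1, fun a ha => ?_⟩
  obtain ⟨s, hs, hsa⟩ := hmin a (hST ha) h1
  have hsa' : s * a = 1 := hsa
  rw [← eq_inv_of_mul_eq_one_left hsa']
  exact hTI.1 hs

end Pool.Agent.Work.MP_0f91f8_co.Lg
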