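import Pool.Agent.Work.MP_0f91f8_co.Lg.Stmts

/-!
Block [0f91f8 PI], item E1BND: the laws `E1` are closed under adaptive composition.
-/

set_option linter.unusedSectionVars false

open Filter Topology

universe u

namespace Pool.Agent.Work.MP_0f91f8_co.Lg

open Pool.Agent.Work.MP_0f91f8_co.Cge (sd op aa cc bnd lin_op)
open Pool.Agent.Work.MP_0f91f8_co.Df (Mach MOK MK un un_val un_mul un_inv un_div un_one)

variable (E : Type u) [Group E]

namespace I_E1BND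

/-- `1 - V W` from the linear factor at `-V` -/
lemma one_sub_ne {V W : ℚ} (h : 1 + (-V) * W ≠ 0) : 1 - V * W ≠ 0 := by
  intro h0
  apply h
  linear_combination h0

lemma comm5 {G : Type*} [CommGroup G] (g a k g' b : G) :
    g * a * k * g' * b = g * k * g' * (a * b) := by
  ac_rfl

lemma comm5' {G : Type*} [CommGroup G] (g a k g' b : G) :
    g * k * g' * (a * b) = g * a * k * (g' * b) := by
  ac_rfl

/-- product formula for a linear factor of a composition -/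
lemma un_lin {x V W : ℚ} (g k g' : ℚˣ) (h1 : 1 + x * V ≠ 0) (h2 : 1 - V * W ≠ 0)
    (h3 : 1 + (x - V) / (1 + x * V) * W ≠ 0) :
    g * un (1 - V * W) * k * g' * un (1 + x * op V W) =
      g * un (1 + x * V) * k * (g' * un (1 + (x - V) / (1 + x * V) * W)) := by
  have e : (1 - V * W) * (1 + x * op V W) =
      (1 + x * V) * (1 + (x - V) / (1 + x * V) * W) := by
    rw [lin_op h1 h2]
    field_simp
  have h4 : 1 + x * op V W ≠ 0 := by
    intro h0
    rw [h0, mul_zero] at e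
    exact (mul_ne_zero h1 h3) e.symm
  have e2 : un (1 - V * W) * un (1 + x * op V W) =
      un (1 + x * V) * un (1 + (x - V) / (1 + x * V) * W) := by
    rw [← un_mul h2 h4, e, un_mul h1 h3]
  calc g * un (1 - V * W) * k * g' * un (1 + x * op V W)
      = g * k * g' * (un (1 - V * W) * un (1 + x * op V W)) := comm5 _ _ _ _ _
    _ = g * k * g' * (un (1 + x * V) * un (1 + (x - V) / (1 + x * V) * W)) := by
        rw [e2]
    _ = _ := comm5' _ _ _ _ _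

end I_E1BND

open I_E1BND in
theorem E1BND_pf : E1BND E := by
  intro Λ 𝔲 m hu hm
  obtain ⟨𝔮, hq, hlin⟩ := hu
  have hch : ∀ V : ℚ, ∃ 𝔮' : Ultrafilter (ℚ × ℚˣ), E1 Λ (m V) → 𝔮'.map Prod.fst = m V ∧
      ∀ x : ℚ, (∀ᶠ p in (𝔮' : Filter (ℚ × ℚˣ)), 1 + x * p.1 ≠ 0) ∧
        Λ.l 𝔮' (fun p => Λ.θ (p.2 * un (1 + x * p.1))) = 1 := by
    intro V
    by_cases hV : E1 Λ (m V)
    · obtain ⟨q', hq', hq''⟩ := hV
      exact ⟨q', fun _ => ⟨hq', hq''⟩⟩
    · exact ⟨pure (0, 1), fun h => absurd h hV⟩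
  choose q' hq' using hch
  have hmq : ∀ᶠ p in (𝔮 : Filter (ℚ × ℚˣ)), E1 Λ (m p.1) := by
    have : ∀ᶠ V in ((𝔮.map Prod.fst : Ultrafilter ℚ) : Filter ℚ), E1 Λ (m V) := by
      rw [hq]; exact hm
    exact this
  refine ⟨(Λ.sdk 𝔮 (fun p => q' p.1)).map
    (fun P => (op P.1.1 P.2.2.1, P.1.2 * un (1 - P.1.1 * P.2.2.1) * P.2.1 * P.2.2.2)), ?_, ?_⟩
  · have e0 : ((Λ.sdk 𝔮 (fun p => q' p.1)).map
        (fun P => (op P.1.1 P.2.2.1, P.1.2 * un (1 - P.1.1 * P.2.2.1) * P.2.1 * P.2.2.2))).map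
          Prod.fst = (Λ.sdk 𝔮 (fun p => q' p.1)).map (fun P => op P.1.1 P.2.2.1) := rfl
    rw [e0, Λ.sdk_map 𝔮 (fun p => q' p.1) (fun p r => op p.1 r.1)]
    have e1 : bnd 𝔲 m = 𝔮.bind (fun p => (m p.1).map (fun W => op p.1 W)) := by
      rw [← hq]
      rfl
    rw [e1]
    apply bind_congr
    filter_upwards [hmq] with p hp
    rw [← (hq' p.1 hp).1]
    rfl
  · intro x
    have hev : ∀ᶠ P in (Λ.sdk 𝔮 (fun p => q' p.1) : Filter ((ℚ × ℚˣ) × ℚˣ × (ℚ × ℚˣ))),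
        1 + x * P.1.1 ≠ 0 ∧ 1 - P.1.1 * P.2.2.1 ≠ 0 ∧
          1 + (x - P.1.1) / (1 + x * P.1.1) * P.2.2.1 ≠ 0 := by
      rw [Λ.ev_sdk' 𝔮 (fun p => q' p.1) (fun p r => 1 + x * p.1 ≠ 0 ∧ 1 - p.1 * r.1 ≠ 0 ∧
          1 + (x - p.1) / (1 + x * p.1) * r.1 ≠ 0)]
      filter_upwards [(hlin x).1, hmq] with p hp hmp
      filter_upwards [((hq' p.1 hmp).2 (-p.1)).1,
        ((hq' p.1 hmp).2 ((x - p.1) / (1 + x * p.1))).1] with r hr1 hr2
      exact ⟨hp, one_sub_ne hr1, hr2⟩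
    constructor
    · show ∀ᶠ P in (Λ.sdk 𝔮 (fun p => q' p.1) : Filter ((ℚ × ℚˣ) × ℚˣ × (ℚ × ℚˣ))),
        1 + x * op P.1.1 P.2.2.1 ≠ 0
      filter_upwards [hev] with P hP
      rw [lin_op hP.1 hP.2.1]
      exact mul_ne_zero hP.1 (div_ne_zero hP.2.2 hP.2.1)
    · rw [Λ.l_map]
      have h1 := Λ.l_sdk_th 𝔮 (fun p => q' p.1) (fun p => p.2 * un (1 + x * p.1))
        (fun p r => r.2 * un (1 + (x - p.1) / (1 + x * p.1) * r.1))
      have h2 : Λ.l 𝔮 (fun p => Λ.θ (p.2 * un (1 + x * p.1)) * Λ.l (q' p.1)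
          (fun r => Λ.θ (r.2 * un (1 + (x - p.1) / (1 + x * p.1) * r.1)))) = 1 := by
        rw [← (hlin x).2]
        apply Λ.l_congr
        filter_upwards [hmq] with p hp
        rw [((hq' p.1 hp).2 ((x - p.1) / (1 + x * p.1))).2, mul_one]
      rw [← h2, ← h1]
      apply Λ.l_congr
      filter_upwards [hev] with P hP
      congr 1
      exact un_lin _ _ _ hP.1 hP.2.1 hP.2.2

end Pool.Agent.Work.MP_0f91f8_co.Lg
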