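import Pool.Agent.Work.MP_0f91f8_co.Lg.Stmts

/-!
Item EKBND: the twisted laws are closed under adaptive composition with laws `E1`.
-/

set_option linter.unusedSectionVars false

open Filter Topology

universe u

namespace Pool.Agent.Work.MP_0f91f8_co.Lg

open Pool.Agent.Work.MP_0f91f8_co.Cge (sd op aa cc bnd lin_op)
open Pool.Agent.Work.MP_0f91f8_co.Df (Mach MOK MK un un_val un_mul un_inv un_div un_one)

namespace I_EKBND

/-- `1 - V W` from the linear factor at `-V` -/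
lemma one_sub_ne {V W : ℚ} (h : 1 + (-V) * W ≠ 0) : 1 - V * W ≠ 0 := by
  intro h0
  apply h
  linear_combination h0

/-- product formula for a linear factor of a composition -/
lemma un_lin {x V W : ℚ} (g k g' : ℚˣ) (h1 : 1 + x * V ≠ 0) (h2 : 1 - V * W ≠ 0)
    (h3 : 1 + (x - V) / (1 + x * V) * W ≠ 0) :
    g * k * g' * un (1 - V * W) * un (1 + x * op V W) =
      g * un (1 + x * V) * k * (g' * un (1 + (x - V) / (1 + x * V) * W)) := by
  have e : (1 - V * W) * (1 + x * op V W) =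
      (1 + x * V) * (1 + (x - V) / (1 + x * V) * W) := by
    rw [lin_op h1 h2]
    field_simp
  have h4 : 1 + x * op V W ≠ 0 := by
    intro h0
    rw [h0, mul_zero] at e
    exact (mul_ne_zero h1 h3) e.symm
  have e' : un (1 - V * W) * un (1 + x * op V W) =
      un (1 + x * V) * un (1 + (x - V) / (1 + x * V) * W) := by
    rw [← un_mul h2 h4, e, un_mul h1 h3]
  calc g * k * g' * un (1 - V * W) * un (1 + x * op V W)
      = g * k * g' * (un (1 - V * W) * un (1 + x * op V W)) := by rw [mul_assoc]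
    _ = g * k * g' * (un (1 + x * V) * un (1 + (x - V) / (1 + x * V) * W)) := by rw [e']
    _ = _ := by
        simp only [mul_assoc, mul_left_comm, mul_comm]

/-- product formula for the twist of a composition -/
lemma un_tw {κ V W : ℚ} (g k g' : ℚˣ) (hκ : κ ≠ 0) (h1 : V ≠ 0) (h2 : 1 - V * W ≠ 0)
    (h3 : 1 + 1 / V * W ≠ 0) :
    g * k * g' * un (1 - V * W) * un (2 * op V W / κ) =
      g * un (2 * V / κ) * k * (g' * un (1 + 1 / V * W)) := by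
  have h5 : 2 * V / κ ≠ 0 := div_ne_zero (mul_ne_zero two_ne_zero h1) hκ
  have e : (1 - V * W) * (2 * op V W / κ) = 2 * V / κ * (1 + 1 / V * W) := by
    unfold op
    field_simp
  have h4 : 2 * op V W / κ ≠ 0 := by
    intro h0
    rw [h0, mul_zero] at e
    exact (mul_ne_zero h5 h3) e.symm
  have e' : un (1 - V * W) * un (2 * op V W / κ) =
      un (2 * V / κ) * un (1 + 1 / V * W) := by
    rw [← un_mul h2 h4, e, un_mul h5 h3]
  calc g * k * g' * un (1 - V * W) * un (2 * op V W / κ)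
      = g * k * g' * (un (1 - V * W) * un (2 * op V W / κ)) := by rw [mul_assoc]
    _ = g * k * g' * (un (2 * V / κ) * un (1 + 1 / V * W)) := by rw [e']
    _ = _ := by
        simp only [mul_assoc, mul_left_comm, mul_comm]

/-- `op V W` is not zero -/
lemma op_ne {V W : ℚ} (h1 : V ≠ 0) (h2 : 1 - V * W ≠ 0) (h3 : 1 + 1 / V * W ≠ 0) :
    op V W ≠ 0 := by
  unfold op
  refine div_ne_zero ?_ h2
  intro h0
  apply h3
  field_simp
  linear_combination h0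

end I_EKBND

open I_EKBND in
theorem EKBND_pf (E : Type u) [Group E] : EKBND E := by
  intro Λ κ 𝔲 m hu hm
  obtain ⟨𝔮, hq, hlin, hne, htw⟩ := hu
  have hch : ∀ V : ℚ, ∃ 𝔮' : Ultrafilter (ℚ × ℚˣ), E1 Λ (m V) → 𝔮'.map Prod.fst = m V ∧
      ∀ x : ℚ, (∀ᶠ p in (𝔮' : Filter (ℚ × ℚˣ)), 1 + x * p.1 ≠ 0) ∧
        Λ.l 𝔮' (fun p => Λ.θ (p.2 * un (1 + x * p.1))) = 1 := by
    intro V
    by_cases hV : E1 Λ (m V)
    · obtain ⟨q', hq', hq''⟩ := hV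
      exact ⟨q', fun _ => ⟨hq', hq''⟩⟩
    · exact ⟨pure (0, 1), fun h => absurd h hV⟩
  choose q' hq' using hch
  have hmq : ∀ᶠ p in (𝔮 : Filter (ℚ × ℚˣ)), E1 Λ (m p.1) := by
    have : ∀ᶠ V in ((𝔮.map Prod.fst : Ultrafilter ℚ) : Filter ℚ), E1 Λ (m V) := by
      rw [hq]; exact hm
    exact this
  refine ⟨(Λ.sdk 𝔮 (fun p => q' p.1)).map
    (fun P => (op P.1.1 P.2.2.1, P.1.2 * P.2.1 * P.2.2.2 * un (1 - P.1.1 * P.2.2.1))),
    ?_, ?_, ?_, ?_⟩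
  · apply ext_ev
    intro P hP
    have hP1 : ∀ᶠ Q in (Λ.sdk 𝔮 (fun p => q' p.1) : Filter ((ℚ × ℚˣ) × ℚˣ × (ℚ × ℚˣ))),
        P (op Q.1.1 Q.2.2.1) := hP
    rw [Λ.ev_sdk' 𝔮 (fun p => q' p.1) (fun p r => P (op p.1 r.1))] at hP1
    have hP2 : ∀ᶠ p in (𝔮 : Filter (ℚ × ℚˣ)), ∀ᶠ W in (m p.1 : Filter ℚ), P (op p.1 W) := by
      filter_upwards [hmq, hP1] with p hp hp1
      rw [← (hq' p.1 hp).1]
      exact hp1
    have hP3 : ∀ᶠ V in ((𝔮.map Prod.fst : Ultrafilter ℚ) : Filter ℚ),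
        ∀ᶠ W in (m V : Filter ℚ), P (op V W) := hP2
    rw [hq] at hP3
    exact hP3
  · intro x
    have hev : ∀ᶠ P in (Λ.sdk 𝔮 (fun p => q' p.1) : Filter ((ℚ × ℚˣ) × ℚˣ × (ℚ × ℚˣ))),
        1 + x * P.1.1 ≠ 0 ∧ 1 - P.1.1 * P.2.2.1 ≠ 0 ∧
          1 + (x - P.1.1) / (1 + x * P.1.1) * P.2.2.1 ≠ 0 := by
      rw [Λ.ev_sdk' 𝔮 (fun p => q' p.1) (fun p r => 1 + x * p.1 ≠ 0 ∧ 1 - p.1 * r.1 ≠ 0 ∧
          1 + (x - p.1) / (1 + x * p.1) * r.1 ≠ 0)]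
      filter_upwards [(hlin x).1, hmq] with p hp hmp
      filter_upwards [((hq' p.1 hmp).2 (-p.1)).1,
        ((hq' p.1 hmp).2 ((x - p.1) / (1 + x * p.1))).1] with r hr1 hr2
      exact ⟨hp, one_sub_ne hr1, hr2⟩
    constructor
    · show ∀ᶠ P in (Λ.sdk 𝔮 (fun p => q' p.1) : Filter ((ℚ × ℚˣ) × ℚˣ × (ℚ × ℚˣ))),
        1 + x * op P.1.1 P.2.2.1 ≠ 0
      filter_upwards [hev] with P hP
      rw [lin_op hP.1 hP.2.1]
      exact mul_ne_zero hP.1 (div_ne_zero hP.2.2 hP.2.1)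
    · rw [Λ.l_map]
      have h1 := Λ.l_sdk_th 𝔮 (fun p => q' p.1) (fun p => p.2 * un (1 + x * p.1))
        (fun p r => r.2 * un (1 + (x - p.1) / (1 + x * p.1) * r.1))
      have h2 : Λ.l 𝔮 (fun p => Λ.θ (p.2 * un (1 + x * p.1)) *
          Λ.l (q' p.1) (fun r => Λ.θ (r.2 * un (1 + (x - p.1) / (1 + x * p.1) * r.1)))) = 1 := by
        rw [← (hlin x).2]
        apply Λ.l_congr
        filter_upwards [hmq] with p hp
        rw [((hq' p.1 hp).2 _).2, mul_one]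
      rw [h2] at h1
      rw [← h1]
      apply Λ.l_congr
      filter_upwards [hev] with P hP
      congr 1
      exact un_lin _ _ _ hP.1 hP.2.1 hP.2.2
  · show ∀ᶠ P in (Λ.sdk 𝔮 (fun p => q' p.1) : Filter ((ℚ × ℚˣ) × ℚˣ × (ℚ × ℚˣ))),
      op P.1.1 P.2.2.1 ≠ 0
    rw [Λ.ev_sdk' 𝔮 (fun p => q' p.1) (fun p r => op p.1 r.1 ≠ 0)]
    filter_upwards [hne, hmq] with p hp hmp
    filter_upwards [((hq' p.1 hmp).2 (-p.1)).1, ((hq' p.1 hmp).2 (1 / p.1)).1] with r hr1 hr2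
    exact op_ne hp (one_sub_ne hr1) hr2
  · rw [Λ.l_map]
    have h1 := Λ.l_sdk_th 𝔮 (fun p => q' p.1) (fun p => p.2 * un (2 * p.1 / (κ : ℚ)))
      (fun p r => r.2 * un (1 + 1 / p.1 * r.1))
    have h2 : Λ.l 𝔮 (fun p => Λ.θ (p.2 * un (2 * p.1 / (κ : ℚ))) *
        Λ.l (q' p.1) (fun r => Λ.θ (r.2 * un (1 + 1 / p.1 * r.1)))) = 1 := by
      rw [← htw]
      apply Λ.l_congr
      filter_upwards [hmq] with p hp
      rw [((hq' p.1 hp).2 _).2, mul_one]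
    rw [h2] at h1
    rw [← h1]
    apply Λ.l_congr
    have hev : ∀ᶠ P in (Λ.sdk 𝔮 (fun p => q' p.1) : Filter ((ℚ × ℚˣ) × ℚˣ × (ℚ × ℚˣ))),
        P.1.1 ≠ 0 ∧ 1 - P.1.1 * P.2.2.1 ≠ 0 ∧ 1 + 1 / P.1.1 * P.2.2.1 ≠ 0 := by
      rw [Λ.ev_sdk' 𝔮 (fun p => q' p.1) (fun p r => p.1 ≠ 0 ∧ 1 - p.1 * r.1 ≠ 0 ∧
          1 + 1 / p.1 * r.1 ≠ 0)]
      filter_upwards [hne, hmq] with p hp hmp
      filter_upwards [((hq' p.1 hmp).2 (-p.1)).1, ((hq' p.1 hmp).2 (1 / p.1)).1] with r hr1 hr2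
      exact ⟨hp, one_sub_ne hr1, hr2⟩
    filter_upwards [hev] with P hP
    congr 1
    exact un_tw _ _ _ κ.ne_zero hP.1 hP.2.1 hP.2.2

end Pool.Agent.Work.MP_0f91f8_co.Lg
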