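import Pool.Agent.Work.MP_0f91f8_co.Lg.Stmts

/-!
Item FIN of block [0f91f8 PI]: the theorem on the rationals.
-/

set_option linter.unusedSectionVars false

open Filter Topology

universe u

namespace Pool.Agent.Work.MP_0f91f8_co.Lg

open Pool.Agent.Work.MP_0f91f8_co.Cge (sd op aa cc bnd aa_one one_add_sq_pos)
open Pool.Agent.Work.MP_0f91f8_co.Df (Mach MOK MK un un_val un_mul un_inv un_div un_one)

variable (E : Type u) [Group E]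

namespace I_FIN

/-- the arithmetic of the Pythagorean triple -/
lemma pyth (κ h k g : ℚˣ) (V : ℚ) (h0 : V ≠ 0) (h1 : V ≠ 1) (h2 : V ≠ -1) :
    ((h * k * (g * un (aa 1 V)) : ℚˣ) : ℚ) ^ 2 +
      ((h * κ * k * (g * un (2 * V / (κ : ℚ) / (1 + V ^ 2))) : ℚˣ) : ℚ) ^ 2 =
        ((h * k * g : ℚˣ) : ℚ) ^ 2 := by
  have hN : (1 : ℚ) + V ^ 2 ≠ 0 := (one_add_sq_pos V).ne'
  have hκ : (κ : ℚ) ≠ 0 := κ.ne_zero
  have hm : (1 : ℚ) - V ^ 2 ≠ 0 := by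
    have e : (1 : ℚ) - V ^ 2 = -((V - 1) * (V + 1)) := by ring
    rw [e]
    refine neg_ne_zero.2 (mul_ne_zero (sub_ne_zero.2 h1) ?_)
    intro h
    exact h2 (by linarith)
  have ha : aa 1 V ≠ 0 := by
    rw [aa_one]
    exact div_ne_zero hm hN
  have hb : 2 * V / (κ : ℚ) / (1 + V ^ 2) ≠ 0 :=
    div_ne_zero (div_ne_zero (mul_ne_zero two_ne_zero h0) hκ) hN
  simp only [Units.val_mul]
  rw [un_val ha, un_val hb, aa_one]
  field_simp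
  ring

end I_FIN

/-- the theorem on the rationals -/
theorem FIN_pf (hL : LAWK E) (hY : YK E) : FIN E := by
  intro Λ A C hA hAD hC hFL hAF F hAF' hCF
  choose o hoE hoS ho1 ho2 using fun κ : ℚˣ => hL Λ A hA hFL κ
  obtain ⟨k, hk⟩ := hAF
  obtain ⟨𝔮, -, h1, h2⟩ := hk
    (fun κ => Λ.l (o κ) (fun p => Λ.θ (p.2 * un (2 * p.1 / (κ : ℚ) / (1 + p.1 ^ 2)))))
    (fun κ => hY Λ κ (o κ) (hoE κ) (hoS κ) (hAD (ho1 κ)) (hAD (ho2 κ)))
  refine ⟨(Λ.sdk 𝔮 (fun p => o p.1)).map (fun P : (ℚˣ × ℚˣ) × ℚˣ × (ℚ × ℚˣ) =>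
    (P.1.2 * P.2.1 * (P.2.2.2 * un (aa 1 P.2.2.1)),
      P.1.2 * P.1.1 * P.2.1 * (P.2.2.2 * un (2 * P.2.2.1 / (P.1.1 : ℚ) / (1 + P.2.2.1 ^ 2))),
      P.1.2 * P.2.1 * P.2.2.2)), ?_, ?_, ?_, ?_⟩
  · rw [ev_map, Λ.ev_sdk]
    refine Eventually.of_forall fun p => Eventually.of_forall fun r => ?_
    filter_upwards [hoS p.1] with q hq
    exact I_FIN.pyth p.1 p.2 r q.2 q.1 hq.1 hq.2.1 hq.2.2
  · have e := Λ.l_sdk_th 𝔮 (fun p => o p.1) (fun p => p.2) (fun _ q => q.2 * un (aa 1 q.1))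
    have hm := LimGp.TC.prod_mem (Λ := Λ) hA.closed (𝔬 := 𝔮) (fun p => Λ.θ p.2)
      (fun p => Λ.l (o p.1) (fun q => Λ.θ (q.2 * un (aa 1 q.1))))
      (Eventually.of_forall fun p => ho2 p.1)
    have hF := hm.mem hAF' (hCF h1)
    rw [← e] at hF
    exact hF
  · have e := Λ.l_sdk_th 𝔮 (fun p => o p.1) (fun p => p.2 * p.1)
      (fun p q => q.2 * un (2 * q.1 / (p.1 : ℚ) / (1 + q.1 ^ 2)))
    have hF := hCF h2
    rw [← e] at hF
    exact hF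
  · have e := Λ.l_sdk_th 𝔮 (fun p => o p.1) (fun p => p.2) (fun _ q => q.2)
    have hm := LimGp.TC.prod_mem (Λ := Λ) hA.closed (𝔬 := 𝔮) (fun p => Λ.θ p.2)
      (fun p => Λ.l (o p.1) (fun q => Λ.θ q.2))
      (Eventually.of_forall fun p => ho1 p.1)
    have hF := hm.mem hAF' (hCF h1)
    rw [← e] at hF
    exact hF

end Pool.Agent.Work.MP_0f91f8_co.Lg
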