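import Pool.Agent.Work.MP_0f91f8_co.Lg.Stmts

/-!
Block [0f91f8 PI], item FLC: landings and intersections of chains.
-/

open Filter Topology

universe u

namespace Pool.Agent.Work.MP_0f91f8_co.Lg

open Pool.Agent.Work.MP_0f91f8_co.Cge (sd op aa cc bnd)
open Pool.Agent.Work.MP_0f91f8_co.Df (Mach MOK MK un un_val un_mul un_inv un_div un_one)

namespace I_FLC

/-- an ultrafilter on a chain containing all lower tails -/
lemma exists_tails {X : Type u} [PartialOrder X] (c : Set X) (hne : c.Nonempty)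
    (hc : IsChain (· ≤ ·) c) :
    ∃ f : Ultrafilter c, ∀ A : c, ∀ᶠ A' in (f : Filter c), A' ≤ A := by
  have : Nonempty c := hne.to_subtype
  have hdir : Directed (· ≥ ·) (fun A : c => (𝓟 {A' : c | A' ≤ A} : Filter c)) := by
    intro A A'
    rcases hc.total A.2 A'.2 with h | h
    · refine ⟨A, le_refl _, ?_⟩
      exact principal_mono.2 fun x hx => le_trans hx h
    · refine ⟨A', ?_, le_refl _⟩
      exact principal_mono.2 fun x hx => le_trans hx h
  have : (⨅ A : c, (𝓟 {A' : c | A' ≤ A} : Filter c)).NeBot := by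
    apply iInf_neBot_of_directed hdir
    intro A
    rw [principal_neBot_iff]
    exact ⟨A, le_refl _⟩
  refine ⟨Ultrafilter.of (⨅ A : c, (𝓟 {A' : c | A' ≤ A} : Filter c)), fun A => ?_⟩
  have h1 : {A' : c | A' ≤ A} ∈ (⨅ A : c, (𝓟 {A' : c | A' ≤ A} : Filter c)) :=
    mem_iInf_of_mem A (mem_principal_self _)
  exact Ultrafilter.of_le _ h1

variable {S T G : Type} [CommGroup G] {E : Type u} [Group E]

/-- the limit of the moves `m` along `f` -/
def lm {Ω : Type u} (Λ : LimGp G E) (f : Ultrafilter Ω) (m : Ω → Ultrafilter (T × G)) :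
    Ultrafilter (T × G) :=
  (Λ.sdk f m).map (fun P => (P.2.2.1, P.2.1 * P.2.2.2))

variable {Ω : Type u} (Λ : LimGp G E) (f : Ultrafilter Ω) (m : Ω → Ultrafilter (T × G))

lemma lm_fst : (lm Λ f m).map Prod.fst = f.bind (fun A => (m A).map Prod.fst) :=
  Λ.sdk_map f m (fun _ q => q.1)

lemma P1_lm : P1 Λ (lm Λ f m) = Λ.l f (fun A => P1 Λ (m A)) := by
  have h := Λ.l_sdk f m (fun _ q => Λ.θ q.2)
  unfold P1 lm
  rw [Λ.l_map, ← h]
  simp only [map_mul]

lemma P2_lm (K : Mach S T G) (s : S) : P2 Λ K s (lm Λ f m) = Λ.l f (fun A => P2 Λ K s (m A)) := by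
  have h := Λ.l_sdk f m (fun _ q => Λ.θ (q.2 * K.r s q.1))
  unfold P2 lm
  rw [Λ.l_map, ← h]
  simp only [map_mul, mul_assoc]

end I_FLC

open I_FLC in
theorem FLC_pf (E : Type u) [Group E] : FLC E := by
  intro S T G _ Λ K hK B hB c hne hc hA s hs
  obtain ⟨f, hf⟩ := exists_tails c hne hc
  choose u huW hu using fun A : c => (hA A.1 A.2).2 s hs
  have hW : f.bind u ∈ K.W := mem_of_bind hK.closed (Filter.Eventually.of_forall huW)
  refine ⟨f.bind u, hW, fun e₁ h₁ e₂ h₂ => ?_⟩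
  choose m hm hmu hm1 hm2 using fun A : c => hu A e₁ h₁ e₂ h₂
  have hfst : (lm Λ f m).map Prod.fst = f.bind u := by
    rw [lm_fst]
    congr 1
    funext A
    exact hmu A
  refine ⟨lm Λ f m, ⟨?_, ?_, ?_⟩, hfst, ?_, ?_⟩
  · rw [hfst]
    exact hW
  · rw [P1_lm]
    exact hB.closed.mem (Filter.Eventually.of_forall fun A => (hm A).2.1)
  · rw [P2_lm]
    exact hB.closed.mem (Filter.Eventually.of_forall fun A => (hm A).2.2)
  · unfold Eqm
    rw [Subgroup.mem_sInf]
    intro A hAc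
    have h3 : Eqm A (Λ.l f (fun _ => e₁)) (Λ.l f (fun A' => P1 Λ (m A'))) :=
      Eqm.limit (hA A hAc).1.closed ((hf ⟨A, hAc⟩).mono fun A' h => (hm1 A').mono h)
    rw [Λ.l_const, ← P1_lm] at h3
    exact h3
  · unfold Eqm
    rw [Subgroup.mem_sInf]
    intro A hAc
    have h3 : Eqm A (Λ.l f (fun _ => e₂)) (Λ.l f (fun A' => P2 Λ K s (m A'))) :=
      Eqm.limit (hA A hAc).1.closed ((hf ⟨A, hAc⟩).mono fun A' h => (hm2 A').mono h)
    rw [Λ.l_const, ← P2_lm] at h3
    exact h3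

end Pool.Agent.Work.MP_0f91f8_co.Lg
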