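import Pool.Agent.Work.MP_0f91f8_co.Lg.Stmts

/-!
Block [0f91f8 PI], item FLS: composing landings.
-/

open Filter Topology

universe u

namespace Pool.Agent.Work.MP_0f91f8_co.Lg

open Pool.Agent.Work.MP_0f91f8_co.Cge (sd op aa cc bnd)
open Pool.Agent.Work.MP_0f91f8_co.Df (Mach MOK MK un un_val un_mul un_inv un_div un_one)

namespace I_FLS

variable {G : Type} [CommGroup G] {E : Type u} [Group E]

lemma key {Λ : LimGp G E} {D : Subgroup E} (hD : Λ.TC (D : Set E))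
    {Ω : Type*} (m : Ultrafilter Ω) (g : Ω → G) (z : Ω → E) (e : E)
    (hz : ∀ᶠ p in (m : Filter Ω), Eqm D (e⁻¹ * Λ.l m (fun p => Λ.θ (g p)))⁻¹ (z p)) :
    Eqm D e (Λ.l m (fun p => Λ.θ (g p) * z p)) := by
  have h1 : Eqm D (Λ.l m (fun p => Λ.θ (g p) * (e⁻¹ * Λ.l m (fun p => Λ.θ (g p)))⁻¹))
      (Λ.l m (fun p => Λ.θ (g p) * z p)) :=
    Eqm.limit hD (hz.mono fun p hp => hp.left _)
  rw [Λ.l_right] at h1
  have h2 : Λ.l m (fun p => Λ.θ (g p)) * (e⁻¹ * Λ.l m (fun p => Λ.θ (g p)))⁻¹ = e := by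
    group
  rwa [h2] at h1

end I_FLS

open I_FLS in
theorem FLS_pf (E : Type u) [Group E] (hC : CMPS E) : FLS E := by
  intro S T G _ Λ K hK B A hB hA hAB hBA hAD s hs
  classical
  obtain ⟨u, hu, hu2⟩ := hBA s hs
  -- the law of the second landing
  have hex : ∀ s' : S, ∃ u' : Ultrafilter T, (s' ∈ K.S₀ → u' ∈ K.W) ∧
      ∀ e₁ ∈ A, ∀ e₂ ∈ A, ∃ m : Ultrafilter (T × G), m.map Prod.fst = u' ∧
        (s' ∈ K.S₀ → Eqm (Λ.DD A) e₁ (P1 Λ m) ∧ Eqm (Λ.DD A) e₂ (P2 Λ K s' m)) := by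
    intro s'
    by_cases hs' : s' ∈ K.S₀
    · obtain ⟨u', h1, h2⟩ := hAD s' hs'
      refine ⟨u', fun _ => h1, fun e₁ he₁ e₂ he₂ => ?_⟩
      obtain ⟨m, -, hm2, hm3, hm4⟩ := h2 e₁ he₁ e₂ he₂
      exact ⟨m, hm2, fun _ => ⟨hm3, hm4⟩⟩
    · refine ⟨pure K.one, fun h => absurd h hs', fun e₁ _ e₂ _ => ⟨pure (K.one, 1), ?_,
        fun h => absurd h hs'⟩⟩
      exact Ultrafilter.map_pure _ _
  choose u' hu' hm' using hex
  refine ⟨u.bind (fun t => (u' (K.act s t)).map (K.cmp t)), ?_, ?_⟩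
  · -- the law is the law of a composition
    obtain ⟨m, hm, hmu, -, -⟩ := hu2 1 B.one_mem 1 B.one_mem
    have hmW : m.map Prod.fst ∈ K.W := by rw [hmu]; exact hu
    have hF := fun s' : S => hm' s' 1 A.one_mem 1 A.one_mem
    choose F hF1 hF2 using hF
    obtain ⟨c1, -, -, c4, -⟩ := hC S T G Λ K hK s hs m hmW F (fun s' hs' => by
      rw [hF1]; exact hu' s' hs')
    rw [c4, hmu] at c1
    simpa only [hF1] using c1
  intro e₁ he₁ e₂ he₂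
  obtain ⟨m, hm, hmu, hm1, hm2⟩ := hu2 e₁ he₁ e₂ he₂
  have ha₁ : (e₁⁻¹ * P1 Λ m)⁻¹ ∈ A := A.inv_mem hm1
  have ha₂ : (e₂⁻¹ * P2 Λ K s m)⁻¹ ∈ A := A.inv_mem hm2
  have hF := fun s' : S => hm' s' _ ha₁ _ ha₂
  choose F hF1 hF2 using hF
  have hmW : m.map Prod.fst ∈ K.W := by rw [hmu]; exact hu
  obtain ⟨c1, c2, c3, c4, -⟩ := hC S T G Λ K hK s hs m hmW F (fun s' hs' => by
    rw [hF1]; exact hu' s' hs')
  -- the states after the move are good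
  have hst : ∀ᶠ p in (m : Filter (T × G)), K.act s p.1 ∈ K.S₀ := by
    have h1 := hK.mem s hs _ hmW
    exact h1
  have r1 : Eqm (Λ.DD A) e₁ (P1 Λ (cps Λ K s m F)) := by
    rw [c2]
    apply key (LimGp.TC_DD A) m (fun p => p.2)
    filter_upwards [hst] with p hp
    exact (hF2 _ hp).1
  have r2 : Eqm (Λ.DD A) e₂ (P2 Λ K s (cps Λ K s m F)) := by
    rw [c3]
    apply key (LimGp.TC_DD A) m (fun p => p.2 * K.r s p.1)
    filter_upwards [hst] with p hp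
    exact (hF2 _ hp).2
  have hDB : Λ.DD A ≤ B := hA.DD_le.trans hAB
  refine ⟨cps Λ K s m F, ⟨c1, r1.mem hDB he₁, r2.mem hDB he₂⟩, ?_, r1, r2⟩
  rw [c4, hmu]
  simp only [hF1]

end Pool.Agent.Work.MP_0f91f8_co.Lg
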