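import Pool.Agent.Work.MP_0f91f8_co.Lg.Stmts

/-!
Block [0f91f8 PI], item INDG: independent families form a group.
-/

set_option linter.unusedSectionVars false
set_option linter.unusedVariables false

open Filter Topology

universe u

namespace Pool.Agent.Work.MP_0f91f8_co.Lg

variable (E : Type u) [Group E]

namespace I_INDG

variable {E} {Λ : LimGp ℚˣ E} {A N : Subgroup E} {v : Ultrafilter ℚ} {Ω : Type}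
  {𝔬 : ℚ → Ultrafilter Ω}

/-- transfer of almost sure statements from the first marginal -/
lemma ev_fst {𝔮 : Ultrafilter (Ω × ℚˣ)} {𝔬 : Ultrafilter Ω} (h : 𝔮.map Prod.fst = 𝔬)
    {p : Ω → Prop} (hp : ∀ᶠ ω in (𝔬 : Filter Ω), p ω) :
    ∀ᶠ x in (𝔮 : Filter (Ω × ℚˣ)), p x.1 := by
  rw [← h, Ultrafilter.coe_map] at hp
  exact hp

/-- the coupling shifted by `r` -/
def sh (𝔮 : ℚ → Ultrafilter (Ω × ℚˣ)) (r : ℚ → Ω → ℚˣ) : ℚ → Ultrafilter (Ω × ℚˣ) :=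
  fun V => (𝔮 V).map (fun p => (p.1, p.2 * r V p.1))

lemma map_fst_sh (𝔮 : ℚ → Ultrafilter (Ω × ℚˣ)) (r : ℚ → Ω → ℚˣ) (V : ℚ) :
    (sh 𝔮 r V).map Prod.fst = (𝔮 V).map Prod.fst := rfl

lemma Ph_sh (𝔮 : ℚ → Ultrafilter (Ω × ℚˣ)) (r r' : ℚ → Ω → ℚˣ) :
    Ph Λ v (sh 𝔮 r) r' = Ph Λ v 𝔮 (fun V ω => r V ω * r' V ω) := by
  unfold Ph sh
  simp only [Λ.l_map, mul_assoc]

lemma Ph_sh_one (𝔮 : ℚ → Ultrafilter (Ω × ℚˣ)) (r : ℚ → Ω → ℚˣ) :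
    Ph Λ v (sh 𝔮 r) (fun _ _ => 1) = Ph Λ v 𝔮 r := by
  rw [Ph_sh]
  simp only [mul_one]

lemma mem_of_pos {𝔬 : Ultrafilter Ω} {r : Ω → ℚˣ} (hp : Pos Λ A 𝔬 r)
    {𝔮 : Ultrafilter (Ω × ℚˣ)} (h1 : 𝔮.map Prod.fst = 𝔬)
    (h2 : Λ.l 𝔮 (fun p => Λ.θ p.2) ∈ A) :
    Λ.l 𝔮 (fun p => Λ.θ (p.2 * r p.1)) ∈ A :=
  (hp 𝔮 h1).mem le_rfl h2

lemma cpl_sh {𝔮 : ℚ → Ultrafilter (Ω × ℚˣ)} {r : ℚ → Ω → ℚˣ}
    (hr : ∀ᶠ V in (v : Filter ℚ), Pos Λ A (𝔬 V) (r V)) (h : Cpl Λ A v 𝔬 𝔮) :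
    Cpl Λ A v 𝔬 (sh 𝔮 r) := by
  unfold Cpl at *
  filter_upwards [hr, h] with V h1 h2
  exact ⟨(map_fst_sh 𝔮 r V).trans h2.1, mem_of_pos h1 h2.1 h2.2⟩

lemma Ph_mem (hA : Λ.NT A) {𝔮 : ℚ → Ultrafilter (Ω × ℚˣ)} {r : ℚ → Ω → ℚˣ}
    (hr : ∀ᶠ V in (v : Filter ℚ), Pos Λ A (𝔬 V) (r V)) (h : Cpl Λ A v 𝔬 𝔮) :
    Ph Λ v 𝔮 r ∈ A := by
  refine LimGp.TC.mem hA.closed ?_
  unfold Cpl at h
  filter_upwards [hr, h] with V h1 h2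
  exact mem_of_pos h1 h2.1 h2.2

lemma Ph_congr {𝔮 : ℚ → Ultrafilter (Ω × ℚˣ)} (h : Cpl Λ A v 𝔬 𝔮) {r r' : ℚ → Ω → ℚˣ}
    (e : ∀ᶠ V in (v : Filter ℚ), ∀ᶠ ω in (𝔬 V : Filter Ω), r V ω = r' V ω) :
    Ph Λ v 𝔮 r = Ph Λ v 𝔮 r' := by
  unfold Ph
  apply Λ.l_congr
  unfold Cpl at h
  filter_upwards [h, e] with V h1 h2
  apply Λ.l_congr
  filter_upwards [ev_fst h1.1 h2] with p hp
  rw [hp]

end I_INDG

open I_INDG in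
/-- independent families form a group -/
theorem INDG_pf (hPG : POSG E) : INDG E := by
  intro Λ A N hA hN v Ω 𝔬
  have hP := fun V => hPG Λ A Ω (𝔬 V)
  refine ⟨⟨Eventually.of_forall fun V => (hP V).1, fun 𝔮 𝔮' _ _ => ?_⟩,
    fun r r' hr e => ⟨?_, fun 𝔮 𝔮' h𝔮 h𝔮' => ?_⟩,
    fun r r' hr hr' => ⟨?_, fun 𝔮 𝔮' h𝔮 h𝔮' => ?_⟩,
    fun r hr => ?_⟩
  · rw [inv_mul_cancel, inv_mul_cancel]
    exact Eqm.refl N 1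
  · filter_upwards [hr.1, e] with V h1 h2
    exact (hP V).2.1 _ _ h1 h2
  · rw [← Ph_congr h𝔮 e, ← Ph_congr h𝔮' e]
    exact hr.2 𝔮 𝔮' h𝔮 h𝔮'
  · filter_upwards [hr.1, hr'.1] with V h1 h2
    exact (hP V).2.2.1 _ _ h1 h2
  · have h1 := hr.2 𝔮 𝔮' h𝔮 h𝔮'
    have c1 := cpl_sh hr.1 h𝔮
    have c2 := cpl_sh hr.1 h𝔮'
    have h2 := hr'.2 _ _ c1 c2
    have m1 := Ph_mem (r := r) hA hr.1 h𝔮
    have m2 := Ph_mem (r := r') hA hr'.1 c1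
    rw [Ph_sh_one, Ph_sh, Ph_sh_one, Ph_sh] at h2
    rw [Ph_sh] at m2
    have h3 := h1.mul hN (A.mul_mem (A.inv_mem m1) m2) h2
    simpa only [mul_assoc, mul_inv_cancel_left] using h3
  · have hi : ∀ᶠ V in (v : Filter ℚ), Pos Λ A (𝔬 V) (fun ω => (r V ω)⁻¹) := by
      filter_upwards [hr.1] with V h1
      exact (hP V).2.2.2.1 _ h1
    refine ⟨hi, fun 𝔮 𝔮' h𝔮 h𝔮' => ?_⟩
    have c1 := cpl_sh (r := fun V ω => (r V ω)⁻¹) hi h𝔮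
    have c2 := cpl_sh (r := fun V ω => (r V ω)⁻¹) hi h𝔮'
    have h2 := hr.2 _ _ c1 c2
    have m1 := Ph_mem (r := fun V ω => (r V ω)⁻¹) hA hi h𝔮
    have m2 := Ph_mem (r := fun _ _ => 1) hA (Eventually.of_forall fun V => (hP V).1) h𝔮
    rw [Ph_sh_one, Ph_sh, Ph_sh_one, Ph_sh] at h2
    simp only [inv_mul_cancel] at h2
    have h3 := h2.inv hN (A.mul_mem (A.inv_mem m1) m2)
    simpa only [mul_inv_rev, inv_inv] using h3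

end Pool.Agent.Work.MP_0f91f8_co.Lg
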