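import Pool.Agent.Work.MP_0f91f8_co.Lg.Stmts

/-!
Block [0f91f8 PI], item KIND: the increments of the machine are independent.
-/

set_option linter.unusedSectionVars false
set_option linter.unusedVariables false

open Filter Topology

universe u

namespace Pool.Agent.Work.MP_0f91f8_co.Lg

open Pool.Agent.Work.MP_0f91f8_co.Cge (sd op aa cc bnd one_add_sq_pos aa_zero)
open Pool.Agent.Work.MP_0f91f8_co.Df (Mach MOK MK un un_val un_mul un_inv un_div un_one)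

namespace I_KIND

variable {E : Type u} [Group E]

lemma un_aa {c W : ℚ} (h1 : 1 + (-c) * W ≠ 0) (h2 : 1 + (1 / c) * W ≠ 0) :
    un (aa c W) = un (1 + (-c) * W) * un (1 + (1 / c) * W) * (un (1 + W ^ 2))⁻¹ := by
  have e : aa c W = (1 + (-c) * W) * (1 + (1 / c) * W) / (1 + W ^ 2) := by
    unfold aa
    congr 1
    ring
  rw [e, un_div (mul_ne_zero h1 h2) (one_add_sq_pos W).ne', un_mul h1 h2]

/-- position independence of the increments -/
lemma pos_aa (hPG : POSG E) (hPO : POS E) (Λ : LimGp ℚˣ E) {Ω : Type}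
    {𝔬 : Ultrafilter Ω} {W : Ω → ℚ} (hW : 𝔬.map W ∈ WW Λ) (c : ℚ) :
    Pos Λ (A0 Λ) 𝔬 (fun ω => un (aa c (W ω))) := by
  obtain ⟨-, hcongr, hmul, hinv, -⟩ := hPG Λ (A0 Λ) Ω 𝔬
  obtain ⟨hlin, hnrm⟩ := hPO Λ Ω 𝔬 W
  have p1 := hlin hW.1 (-c)
  have p2 := hlin hW.1 (1 / c)
  have p3 := hnrm hW
  refine hcongr _ _ (hmul _ _ (hmul _ _ p1 p2) (hinv _ p3)) ?_
  have n1 : ∀ᶠ ω in (𝔬 : Filter Ω), 1 + (-c) * W ω ≠ 0 := hW.1.ne (-c)
  have n2 : ∀ᶠ ω in (𝔬 : Filter Ω), 1 + (1 / c) * W ω ≠ 0 := hW.1.ne (1 / c)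
  filter_upwards [n1, n2] with ω h1 h2
  exact (un_aa h1 h2).symm

lemma mem_of_pos {Λ : LimGp ℚˣ E} {A : Subgroup E} {Ω : Type} {𝔬 : Ultrafilter Ω} {r : Ω → ℚˣ}
    (hp : Pos Λ A 𝔬 r) {𝔮 : Ultrafilter (Ω × ℚˣ)} (h1 : 𝔮.map Prod.fst = 𝔬)
    (h2 : Λ.l 𝔮 (fun p => Λ.θ p.2) ∈ A) : Λ.l 𝔮 (fun p => Λ.θ (p.2 * r p.1)) ∈ A :=
  (hp 𝔮 h1).mem le_rfl h2

/-- the trivial law is in `WW` -/
lemma pure_mem_WW (Λ : LimGp ℚˣ E) : (pure 0 : Ultrafilter ℚ) ∈ WW Λ := by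
  have hmap : (pure ((0 : ℚ), (1 : ℚˣ)) : Ultrafilter (ℚ × ℚˣ)).map Prod.fst = pure 0 := by
    rw [Ultrafilter.map_pure]
  refine ⟨⟨pure (0, 1), hmap, fun x => ⟨?_, ?_⟩⟩, 1, (A0 Λ).one_mem, pure (0, 1), hmap, ?_, ?_⟩
  · simp only [Ultrafilter.coe_pure]
    rw [eventually_pure]
    norm_num
  · rw [Λ.l_pure]
    have h1 : (1 : ℚ) + x * 0 = 1 := by ring
    simp only [h1, un_one, mul_one, map_one]
  · rw [Λ.l_pure]
    simp only [map_one]
  · rw [Λ.l_pure]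
    have h1 : (1 : ℚ) + 0 ^ 2 = 1 := by norm_num
    simp only [h1, un_one, mul_one, map_one]

end I_KIND

variable (E : Type u) [Group E]

open Classical in
theorem KIND_pf (hPG : POSG E) (hPO : POS E) : KIND E := by
  intro Λ N hN v hv hK Ω 𝔬 W hWW
  refine ⟨?_, ?_⟩
  · filter_upwards [hWW] with V hV
    exact I_KIND.pos_aa hPG hPO Λ hV (cc V)
  · intro 𝔮 𝔮' h𝔮 h𝔮'
    have hW0 := I_KIND.pure_mem_WW Λ
    set C : ℚ → Prop := fun V => (𝔬 V).map (W V) ∈ WW Λ ∧ ((𝔮 V).map Prod.fst = 𝔬 V ∧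
      Λ.l (𝔮 V) (fun p => Λ.θ p.2) ∈ A0 Λ) ∧ ((𝔮' V).map Prod.fst = 𝔬 V ∧
      Λ.l (𝔮' V) (fun p => Λ.θ p.2) ∈ A0 Λ) with hC
    have hCe : ∀ᶠ V in (v : Filter ℚ), C V := by
      filter_upwards [hWW, h𝔮, h𝔮'] with V h1 h2 h3
      exact ⟨h1, h2, h3⟩
    -- the selection attached to a coupling
    have P1p : P1 Λ (pure ((0 : ℚ), (1 : ℚˣ)) : Ultrafilter (ℚ × ℚˣ)) = 1 := by
      simp only [P1, Λ.l_pure, map_one]
    have P2p : ∀ V : ℚ, P2 Λ (MQ Λ) V (pure ((0 : ℚ), (1 : ℚˣ)) : Ultrafilter (ℚ × ℚˣ)) = 1 := by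
      intro V
      simp only [P2, Λ.l_pure, MQ, aa_zero, un_one, mul_one, map_one]
    have pureMM : ∀ V : ℚ, (pure ((0 : ℚ), (1 : ℚˣ)) : Ultrafilter (ℚ × ℚˣ)) ∈
        MM Λ (MQ Λ) (A0 Λ) V := by
      intro V
      refine ⟨?_, ?_, ?_⟩
      · rw [Ultrafilter.map_pure]
        exact hW0
      · rw [P1p]
        exact (A0 Λ).one_mem
      · rw [P2p]
        exact (A0 Λ).one_mem
    have main : ∀ 𝔯 : ℚ → Ultrafilter (Ω × ℚˣ), (∀ V, C V → (𝔯 V).map Prod.fst = 𝔬 V ∧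
        Λ.l (𝔯 V) (fun p => Λ.θ p.2) ∈ A0 Λ) →
        ∃ F : ℚ → Ultrafilter (ℚ × ℚˣ), Sel Λ (MQ Λ) (A0 Λ) F ∧
          (∀ V, C V → (F V).map Prod.fst = (𝔬 V).map (W V)) ∧
          (∀ V, ¬ C V → (F V).map Prod.fst = pure 0) ∧
          I1 Λ v F = Ph Λ v 𝔯 (fun _ _ => 1) ∧
          I2 Λ (MQ Λ) v F = Ph Λ v 𝔯 (fun V ω => un (aa (cc V) (W V ω))) := by
      intro 𝔯 h𝔯
      set F : ℚ → Ultrafilter (ℚ × ℚˣ) := fun V =>
        if C V then (𝔯 V).map (fun p => (W V p.1, p.2)) else pure (0, 1) with hF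
      have P1F : ∀ V, C V → P1 Λ (F V) = Λ.l (𝔯 V) (fun p => Λ.θ p.2) := by
        intro V hV
        simp only [hF, if_pos hV, P1, Λ.l_map]
      have P2F : ∀ V, C V → P2 Λ (MQ Λ) V (F V) =
          Λ.l (𝔯 V) (fun p => Λ.θ (p.2 * un (aa (cc V) (W V p.1)))) := by
        intro V hV
        simp only [hF, if_pos hV, P2, Λ.l_map, MQ]
      have mF : ∀ V, C V → (F V).map Prod.fst = (𝔬 V).map (W V) := by
        intro V hV
        simp only [hF, if_pos hV]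
        rw [← (h𝔯 V hV).1, Ultrafilter.map_map, Ultrafilter.map_map]
        rfl
      have mF0 : ∀ V, ¬ C V → (F V).map Prod.fst = pure 0 := by
        intro V hV
        simp only [hF, if_neg hV]
        rw [Ultrafilter.map_pure]
      refine ⟨F, ?_, mF, mF0, ?_, ?_⟩
      · intro V _
        by_cases hV : C V
        · refine ⟨?_, ?_, ?_⟩
          · rw [mF V hV]
            exact hV.1
          · rw [P1F V hV]
            exact (h𝔯 V hV).2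
          · rw [P2F V hV]
            exact I_KIND.mem_of_pos (r := fun ω => un (aa (cc V) (W V ω)))
              (I_KIND.pos_aa hPG hPO Λ hV.1 (cc V)) (h𝔯 V hV).1 (h𝔯 V hV).2
        · have : F V = pure (0, 1) := by simp only [hF, if_neg hV]
          rw [this]
          exact pureMM V
      · unfold I1 Ph
        apply Λ.l_congr
        filter_upwards [hCe] with V hV
        rw [P1F V hV]
        simp only [mul_one]
      · unfold I2 Ph
        apply Λ.l_congr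
        filter_upwards [hCe] with V hV
        rw [P2F V hV]
    obtain ⟨F, sF, mF, mF0, i1, i2⟩ := main 𝔮 (fun V hV => hV.2.1)
    obtain ⟨F', sF', mF', mF0', i1', i2'⟩ := main 𝔮' (fun V hV => hV.2.2)
    have hmarg : ∀ V ∈ (MQ Λ).S₀, (F V).map Prod.fst = (F' V).map Prod.fst := by
      intro V _
      by_cases hV : C V
      · rw [mF V hV, mF' V hV]
      · rw [mF0 V hV, mF0' V hV]
    have key := hK F F' sF sF' hmarg
    rw [i1, i2, i1', i2'] at key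
    exact key

end Pool.Agent.Work.MP_0f91f8_co.Lg
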