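import Pool.Agent.Work.MP_0f91f8_co.Lg.Stmts
import Pool.Agent.Work.MP_0f91f8_co.Cge.Stmts

/-!
Block [0f91f8 PI], item LAWK: the law for one twist.
-/

set_option linter.unusedSectionVars false
set_option linter.unusedVariables false

open Filter Topology

universe u

namespace Pool.Agent.Work.MP_0f91f8_co.Lg

open Pool.Agent.Work.MP_0f91f8_co.Cge (sd op aa cc bnd one_add_sq_pos aa_op)
open Pool.Agent.Work.MP_0f91f8_co.Df (Mach MOK MK un un_val un_mul un_inv un_div un_one)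

namespace I_LAWK

variable {E : Type u} [Group E]

lemma aa_eq (c W : ℚ) : aa c W = (1 + (-c) * W) * (1 + (1 / c) * W) / (1 + W ^ 2) := by
  unfold aa
  congr 1
  ring

lemma aa_ne {c W : ℚ} (h1 : 1 + (-c) * W ≠ 0) (h2 : 1 + (1 / c) * W ≠ 0) : aa c W ≠ 0 := by
  rw [aa_eq]
  exact div_ne_zero (mul_ne_zero h1 h2) (one_add_sq_pos W).ne'

lemma un_aa {c W : ℚ} (h1 : 1 + (-c) * W ≠ 0) (h2 : 1 + (1 / c) * W ≠ 0) :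
    un (aa c W) = un (1 + (-c) * W) * un (1 + (1 / c) * W) * (un (1 + W ^ 2))⁻¹ := by
  rw [aa_eq, un_div (mul_ne_zero h1 h2) (one_add_sq_pos W).ne', un_mul h1 h2]

/-- position independence of the increments -/
lemma pos_aa (hPG : POSG E) (hPO : POS E) (Λ : LimGp ℚˣ E) {Ω : Type}
    {𝔬 : Ultrafilter Ω} {W : Ω → ℚ} (hW : 𝔬.map W ∈ WW Λ) (c : ℚ) :
    Pos Λ (A0 Λ) 𝔬 (fun ω => un (aa c (W ω))) := by
  obtain ⟨-, hcongr, hmul, hinv, -⟩ := hPG Λ (A0 Λ) Ω 𝔬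
  obtain ⟨hlin, hnrm⟩ := hPO Λ Ω 𝔬 W
  have p1 := hlin hW.1 (-c)
  have p2 := hlin hW.1 (1 / c)
  have p3 := hnrm hW
  refine hcongr _ _ (hmul _ _ (hmul _ _ p1 p2) (hinv _ p3)) ?_
  have n1 : ∀ᶠ ω in (𝔬 : Filter Ω), 1 + (-c) * W ω ≠ 0 := hW.1.ne (-c)
  have n2 : ∀ᶠ ω in (𝔬 : Filter Ω), 1 + (1 / c) * W ω ≠ 0 := hW.1.ne (1 / c)
  filter_upwards [n1, n2] with ω h1 h2
  exact (un_aa h1 h2).symm

/-- laws in `𝓔₁` avoid `1` and `-1` -/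
lemma E1_ne_one {Λ : LimGp ℚˣ E} {𝔲 : Ultrafilter ℚ} (h : E1 Λ 𝔲) :
    ∀ᶠ W in (𝔲 : Filter ℚ), W ≠ 1 ∧ W ≠ -1 := by
  filter_upwards [h.ne (-1), h.ne 1] with W h1 h2
  constructor
  · rintro rfl
    norm_num at h1
  · rintro rfl
    norm_num at h2

end I_LAWK

variable (E : Type u) [Group E]

open Classical in
theorem LAWK_pf (hTW : TWIST E) (hEK : EKBND E) (hR : RIG E) (hPG : POSG E) (hPO : POS E)
    (hMQ : MQOK E) : LAWK E := by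
  intro Λ A hA hFL κ
  obtain ⟨𝔲, hu, huW⟩ := hTW Λ κ
  -- the coupling
  obtain ⟨𝔮, hq1, hq2⟩ := hu.e1
  have hk0 : Λ.l 𝔮 (fun p => Λ.θ p.2) = 1 := by
    have h0 := (hq2 0).2
    simpa only [zero_mul, add_zero, un_one, mul_one] using h0
  -- the value `x2`
  obtain ⟨x2, hx2⟩ : ∃ x2 : E, x2 = Λ.l 𝔮 (fun p => Λ.θ (p.2 * un (aa 1 p.1))) := ⟨_, rfl⟩
  have hx2A : x2 ∈ A0 Λ := by
    have hp := I_LAWK.pos_aa hPG hPO Λ (𝔬 := 𝔲) (W := fun V => V) huW 1 𝔮 hq1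
    rw [hk0, ← hx2] at hp
    exact hp.mem le_rfl (A0 Λ).one_mem
  -- states
  have hS : ∀ᶠ V in (𝔲 : Filter ℚ), V ≠ 0 ∧ V ≠ 1 ∧ V ≠ -1 := by
    filter_upwards [hu.ne_zero, I_LAWK.E1_ne_one hu.e1] with V h1 h2
    exact ⟨h1, h2.1, h2.2⟩
  -- the moves
  have hm : ∀ V : ℚ, ∃ m : Ultrafilter (ℚ × ℚˣ), (V ≠ 0 ∧ V ≠ 1 ∧ V ≠ -1) →
      (m.map Prod.fst ∈ WW Λ ∧ P1 Λ m ∈ A ∧ Eqm A x2⁻¹ (P2 Λ (MQ Λ) V m)) := by
    intro V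
    by_cases hV : V ≠ 0 ∧ V ≠ 1 ∧ V ≠ -1
    · obtain ⟨u, hu', hall⟩ := hFL V hV
      obtain ⟨m, hmM, -, h1, h2⟩ := hall 1 (A0 Λ).one_mem x2⁻¹ ((A0 Λ).inv_mem hx2A)
      exact ⟨m, fun _ => ⟨hmM.1, h1.mem le_rfl A.one_mem, h2⟩⟩
    · exact ⟨pure (0, 1), fun hV' => absurd hV' hV⟩
  choose m hm using hm
  have hmE : ∀ᶠ V in (𝔲 : Filter ℚ), (m V).map Prod.fst ∈ WW Λ ∧ P1 Λ (m V) ∈ A ∧
      Eqm A x2⁻¹ (P2 Λ (MQ Λ) V (m V)) := by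
    filter_upwards [hS] with V hV
    exact hm V hV
  have hSq : ∀ᶠ p in (𝔮 : Filter (ℚ × ℚˣ)), p.1 ≠ 0 ∧ p.1 ≠ 1 ∧ p.1 ≠ -1 := by
    rw [← hq1] at hS
    exact hS
  have hmq : ∀ᶠ p in (𝔮 : Filter (ℚ × ℚˣ)), (m p.1).map Prod.fst ∈ WW Λ ∧
      P1 Λ (m p.1) ∈ A ∧ Eqm A x2⁻¹ (P2 Λ (MQ Λ) p.1 (m p.1)) := by
    rw [← hq1] at hmE
    exact hmE
  refine ⟨(Λ.sdk 𝔮 (fun p => m p.1)).map
    (fun P => (op P.1.1 P.2.2.1, P.1.2 * P.2.1 * P.2.2.2)), ?_⟩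
  have hmarg : ((Λ.sdk 𝔮 (fun p => m p.1)).map
      (fun P => (op P.1.1 P.2.2.1, P.1.2 * P.2.1 * P.2.2.2))).map Prod.fst =
      bnd 𝔲 (fun V => (m V).map Prod.fst) := by
    have h1 : ((Λ.sdk 𝔮 (fun p => m p.1)).map
      (fun P => (op P.1.1 P.2.2.1, P.1.2 * P.2.1 * P.2.2.2))).map Prod.fst =
        (Λ.sdk 𝔮 (fun p => m p.1)).map (fun P => op P.1.1 P.2.2.1) := rfl
    rw [h1, Λ.sdk_map 𝔮 (fun p => m p.1) (fun p q => op p.1 q.1), ← hq1]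
    rfl
  have hE : EK Λ κ (((Λ.sdk 𝔮 (fun p => m p.1)).map
      (fun P => (op P.1.1 P.2.2.1, P.1.2 * P.2.1 * P.2.2.2))).map Prod.fst) := by
    rw [hmarg]
    exact hEK Λ κ 𝔲 _ hu (hmE.mono fun V hV => hV.1.1)
  refine ⟨hE, ?_, ?_, ?_⟩
  · have h1 : ∀ᶠ W in (((Λ.sdk 𝔮 (fun p => m p.1)).map
      (fun P => (op P.1.1 P.2.2.1, P.1.2 * P.2.1 * P.2.2.2))).map Prod.fst : Filter ℚ),
        W ≠ 0 ∧ W ≠ 1 ∧ W ≠ -1 := by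
      filter_upwards [hE.ne_zero, I_LAWK.E1_ne_one hE.e1] with V h1 h2
      exact ⟨h1, h2.1, h2.2⟩
    exact h1
  · rw [Λ.l_map, Λ.l_sdk_th 𝔮 (fun p => m p.1) (fun p => p.2) (fun _ q => q.2)]
    have h1 := LimGp.TC.prod_mem (Λ := Λ) hA.closed (𝔬 := 𝔮) (fun p => Λ.θ p.2)
      (fun p => P1 Λ (m p.1)) (hmq.mono fun p hp => hp.2.1)
    rw [hk0] at h1
    exact h1.mem le_rfl A.one_mem
  · rw [Λ.l_map]
    have e1 : Λ.l (Λ.sdk 𝔮 (fun p => m p.1)) (fun P =>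
        Λ.θ (P.1.2 * P.2.1 * P.2.2.2 * un (aa 1 (op P.1.1 P.2.2.1)))) =
        Λ.l (Λ.sdk 𝔮 (fun p => m p.1)) (fun P =>
          Λ.θ ((P.1.2 * un (aa 1 P.1.1)) * P.2.1 * (P.2.2.2 * un (aa (cc P.1.1) P.2.2.1)))) := by
      apply Λ.l_congr
      rw [Λ.ev_sdk]
      filter_upwards [hSq, hmq] with v hV hV'
      refine Eventually.of_forall fun k => ?_
      have n1 : ∀ᶠ p in (m v.1 : Filter (ℚ × ℚˣ)), 1 + (-v.1) * p.1 ≠ 0 := hV'.1.1.ne (-v.1)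
      have n2 : ∀ᶠ p in (m v.1 : Filter (ℚ × ℚˣ)), 1 + (-cc v.1) * p.1 ≠ 0 :=
        hV'.1.1.ne (-cc v.1)
      have n3 : ∀ᶠ p in (m v.1 : Filter (ℚ × ℚˣ)), 1 + (1 / cc v.1) * p.1 ≠ 0 :=
        hV'.1.1.ne (1 / cc v.1)
      filter_upwards [n1, n2, n3] with p p1 p2 p3
      have a1 : (1 : ℚ) - v.1 ≠ 0 := fun h0 => hV.2.1 (by linarith)
      have a2 : (1 : ℚ) + v.1 ≠ 0 := fun h0 => hV.2.2 (by linarith)
      have a3 : (1 : ℚ) - v.1 * p.1 ≠ 0 := fun h0 => p1 (by linarith)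
      have a4 : aa 1 v.1 ≠ 0 := by
        apply I_LAWK.aa_ne
        · intro h0
          exact a1 (by linarith)
        · intro h0
          exact a2 (by linarith)
      have a5 : aa (cc v.1) p.1 ≠ 0 := I_LAWK.aa_ne p2 p3
      show Λ.θ (v.2 * k * p.2 * un (aa 1 (op v.1 p.1))) =
        Λ.θ ((v.2 * un (aa 1 v.1)) * k * (p.2 * un (aa (cc v.1) p.1)))
      rw [aa_op a1 a2 a3, un_mul a4 a5]
      congr 1
      simp only [mul_assoc, mul_comm, mul_left_comm]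
    rw [e1, Λ.l_sdk_th 𝔮 (fun p => m p.1) (fun p => p.2 * un (aa 1 p.1))
      (fun p q => q.2 * un (aa (cc p.1) q.1))]
    have h2 : Eqm A (Λ.l 𝔮 (fun p => Λ.θ (p.2 * un (aa 1 p.1)) * x2⁻¹))
        (Λ.l 𝔮 (fun p => Λ.θ (p.2 * un (aa 1 p.1)) * P2 Λ (MQ Λ) p.1 (m p.1))) :=
      Eqm.limit hA.closed (hmq.mono fun p hp => hp.2.2.left _)
    rw [Λ.l_right, ← hx2, mul_inv_cancel] at h2
    exact h2.mem le_rfl A.one_mem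

end Pool.Agent.Work.MP_0f91f8_co.Lg
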