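import Pool.Agent.Work.MP_0f91f8_co.Lg.Stmts
import Pool.Agent.Work.MP_0f91f8_co.Df.I_LIN

/-!
Item LIN of block [0f91f8 PI] (helper80): all linear factors `1 + x w` are independent.
Adapted from `Df/I_LIN.lean` (helper64).
-/

set_option linter.unusedSectionVars false

open Filter Topology

universe u

namespace Pool.Agent.Work.MP_0f91f8_co.Lg

open Pool.Agent.Work.MP_0f91f8_co.Cge (sd op aa cc bnd)
open Pool.Agent.Work.MP_0f91f8_co.Df (Mach MOK MK un un_val un_mul un_inv un_div un_one)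
open Pool.Agent.Work.MP_0f91f8_co.Df.I_LIN (cf cf_eq unit_two unit_add unit_sub mul_inv)

variable (E : Type u) [Group E]

theorem LIN_pf (hCLO : CLO E) (hT : Cge.TOOL.{0, 0}) (hI : INDG E) (hR : RIG E) : LIN E := by
  intro Λ N hN v hv hK 𝔲 hE x
  have hNT : Λ.NT (A0 Λ) := ⟨(hR Λ).1.closed, (hR Λ).2⟩
  obtain ⟨i1, ic, im, ii⟩ := hI Λ (A0 Λ) N hNT hN v ℚ 𝔲
  let H : Subgroup (ℚ → ℚ → ℚˣ) :=
    { carrier := {r | Ind Λ (A0 Λ) N v 𝔲 r}
      one_mem' := i1
      mul_mem' := fun {a b} ha hb => im a b ha hb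
      inv_mem' := fun {a} ha => ii a ha }
  have hmem : ∀ r : ℚ → ℚ → ℚˣ, r ∈ H ↔ Ind Λ (A0 Λ) N v 𝔲 r := fun _ => Iff.rfl
  let f : (ℚ → ℚ) → (ℚ → ℚ → ℚˣ) := fun y V w => un (1 + y V * w)
  let F : (ℚ → ℚ) → Additive ((ℚ → ℚ → ℚˣ) ⧸ H) := fun y =>
    Additive.ofMul (QuotientGroup.mk (f y))
  have hcc : ∀ᶠ V in (v : Filter ℚ), cf V = cc V := by
    filter_upwards [hv] with V hV
    exact cf_eq hV
  -- the functional equation
  have hfe : ∀ l m : ℚ → ℚ, F (l - cf * m) + F (l + (fun V => (cf V)⁻¹) * m) =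
      F (l + cf * m) + F (l - (fun V => (cf V)⁻¹) * m) := by
    intro l m
    have hclo := hCLO Λ N hN v hv hK 𝔲 hE l m
    show Additive.ofMul ((QuotientGroup.mk (f (l - cf * m)) : (ℚ → ℚ → ℚˣ) ⧸ H) *
        QuotientGroup.mk (f (l + (fun V => (cf V)⁻¹) * m))) =
      Additive.ofMul ((QuotientGroup.mk (f (l + cf * m)) : (ℚ → ℚ → ℚˣ) ⧸ H) *
        QuotientGroup.mk (f (l - (fun V => (cf V)⁻¹) * m)))
    rw [← QuotientGroup.mk_mul, ← QuotientGroup.mk_mul]
    congr 1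
    symm
    rw [QuotientGroup.eq, hmem]
    refine ic _ _ hclo ?_
    filter_upwards [hcc] with V hc
    refine Eventually.of_forall fun w => ?_
    have e1 : f (l - cf * m) V w = un (1 + (l V - cc V * m V) * w) := by
      show un (1 + (l - cf * m) V * w) = _
      rw [Pi.sub_apply, Pi.mul_apply, hc]
    have e2 : f (l + (fun V => (cf V)⁻¹) * m) V w = un (1 + (l V + m V / cc V) * w) := by
      show un (1 + (l + (fun V => (cf V)⁻¹) * m) V * w) = _
      rw [Pi.add_apply, Pi.mul_apply, hc, div_eq_inv_mul]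
    have e3 : f (l + cf * m) V w = un (1 + (l V + cc V * m V) * w) := by
      show un (1 + (l + cf * m) V * w) = _
      rw [Pi.add_apply, Pi.mul_apply, hc]
    have e4 : f (l - (fun V => (cf V)⁻¹) * m) V w = un (1 + (l V - m V / cc V) * w) := by
      show un (1 + (l - (fun V => (cf V)⁻¹) * m) V * w) = _
      rw [Pi.sub_apply, Pi.mul_apply, hc, div_eq_inv_mul]
    show _ = (f (l + cf * m) V w * f (l - (fun V => (cf V)⁻¹) * m) V w)⁻¹ *
      (f (l - cf * m) V w * f (l + (fun V => (cf V)⁻¹) * m) V w)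
    rw [e1, e2, e3, e4, mul_comm]
  have hD := hT (ℚ → ℚ) (Additive ((ℚ → ℚ → ℚˣ) ⧸ H)) F cf (fun V => (cf V)⁻¹)
    mul_inv unit_two unit_add unit_sub hfe x
  have hD2 : (QuotientGroup.mk (f 0) : (ℚ → ℚ → ℚˣ) ⧸ H) = QuotientGroup.mk (f x) :=
    Additive.ofMul.injective hD.symm
  rw [QuotientGroup.eq, hmem] at hD2
  refine ic _ _ hD2 ?_
  refine Eventually.of_forall fun V => Eventually.of_forall fun w => ?_
  show (un (1 + (0 : ℚ → ℚ) V * w))⁻¹ * un (1 + x V * w) = un (1 + x V * w)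
  rw [Pi.zero_apply, zero_mul, add_zero, un_one, inv_one, one_mul]

end Pool.Agent.Work.MP_0f91f8_co.Lg
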