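import Pool.Agent.Work.MP_0f91f8_co.Lg.Stmts

/-!
Block [0f91f8 PI], item MQOK: the machine of rotations is a machine.
Adapted from `Df/I_MQOK.lean`.
-/

set_option linter.unusedSectionVars false
set_option linter.unusedVariables false

open Filter Topology

universe u

namespace Pool.Agent.Work.MP_0f91f8_co.Lg

open Pool.Agent.Work.MP_0f91f8_co.Cge (sd op aa cc bnd aa_one op_zero zero_op aa_zero
  one_add_sq_pos aa_op)
open Pool.Agent.Work.MP_0f91f8_co.Df (Mach MOK MK un un_val un_mul un_inv un_div un_one)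

namespace I_MQOK

/-- the conditions on a move `W` at the state `V` -/
lemma good {V W : ℚ} (h0 : V ≠ 0) (h1 : V ≠ 1) (h2 : V ≠ -1)
    (a1 : 1 + (-V) * W ≠ 0) (a2 : 1 + (1 / V) * W ≠ 0) (a3 : 1 + (-cc V) * W ≠ 0)
    (a4 : 1 + (1 / cc V) * W ≠ 0) :
    (1 - V * W ≠ 0) ∧ (op V W ≠ 0 ∧ op V W ≠ 1 ∧ op V W ≠ -1) ∧ aa (cc V) W ≠ 0 := by
  have e1 : 1 - V * W ≠ 0 := by
    intro h
    apply a1
    linarith
  have v1 : 1 - V ≠ 0 := fun h => h1 (by linarith)
  have v2 : 1 + V ≠ 0 := fun h => h2 (by linarith)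
  have hc : cc V ≠ 0 := div_ne_zero v2 v1
  have b1 : V + W ≠ 0 := by
    intro h
    apply a2
    have : V * (1 + 1 / V * W) = V + W := by
      field_simp
    rw [h] at this
    rcases mul_eq_zero.1 this with h3 | h3
    · exact absurd h3 h0
    · exact h3
  have b2 : V + W ≠ 1 - V * W := by
    intro h
    apply a3
    have h3 : (1 - V) * (1 + (-cc V) * W) = 0 := by
      have : (1 - V) * cc V = 1 + V := mul_div_cancel₀ _ v1
      linear_combination (-W) * this - h
    rcases mul_eq_zero.1 h3 with h4 | h4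
    · exact absurd h4 v1
    · exact h4
  have b3 : V + W ≠ -(1 - V * W) := by
    intro h
    apply a4
    have h3 : (1 + V) * (1 + (1 / cc V) * W) = 0 := by
      have : (1 + V) * (1 / cc V) = 1 - V := by
        unfold cc
        rw [one_div_div, mul_div_cancel₀ _ v2]
      linear_combination W * this + h
    rcases mul_eq_zero.1 h3 with h4 | h4
    · exact absurd h4 v2
    · exact h4
  refine ⟨e1, ⟨?_, ?_, ?_⟩, ?_⟩
  · exact div_ne_zero b1 e1
  · intro h
    unfold op at h
    rw [div_eq_iff e1, one_mul] at h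
    exact b2 h
  · intro h
    unfold op at h
    rw [div_eq_iff e1] at h
    apply b3
    linarith
  · unfold aa
    refine div_ne_zero (mul_ne_zero ?_ ?_) (one_add_sq_pos W).ne'
    · intro h
      apply a3
      linarith
    · intro h
      apply a4
      rw [← h]
      ring

/-- associativity -/
lemma op_assoc {V W W' : ℚ} (a : 1 - V * W ≠ 0) (b : 1 - W * W' ≠ 0)
    (c : 1 - op V W * W' ≠ 0) :
    1 - V * op W W' ≠ 0 ∧ op V (op W W') = op (op V W) W' := by
  have e1 : 1 - op V W * W' = (1 - V * W - V * W' - W * W') / (1 - V * W) := by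
    rw [eq_div_iff a]
    have : op V W * (1 - V * W) = V + W := div_mul_cancel₀ _ a
    linear_combination (-W') * this
  have e2 : 1 - V * op W W' = (1 - V * W - V * W' - W * W') / (1 - W * W') := by
    rw [eq_div_iff b]
    have : op W W' * (1 - W * W') = W + W' := div_mul_cancel₀ _ b
    linear_combination (-V) * this
  have d : 1 - V * W - V * W' - W * W' ≠ 0 := by
    intro h
    apply c
    rw [e1, h, zero_div]
  have e3 : V + op W W' = (V + W + W' - V * W * W') / (1 - W * W') := by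
    rw [eq_div_iff b]
    have : op W W' * (1 - W * W') = W + W' := div_mul_cancel₀ _ b
    linear_combination this
  have e4 : op V W + W' = (V + W + W' - V * W * W') / (1 - V * W) := by
    rw [eq_div_iff a]
    have : op V W * (1 - V * W) = V + W := div_mul_cancel₀ _ a
    linear_combination this
  refine ⟨?_, ?_⟩
  · rw [e2]
    exact div_ne_zero d b
  · have f1 : op V (op W W') = (V + op W W') / (1 - V * op W W') := rfl
    have f2 : op (op V W) W' = (op V W + W') / (1 - op V W * W') := rfl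
    rw [f1, f2, e1, e2, e3, e4, div_div_div_cancel_right₀ b, div_div_div_cancel_right₀ a]

/-- the cocycle identity -/
lemma coc {V W W' : ℚ} (h1 : V ≠ 1) (h2 : V ≠ -1) (a : 1 - V * W ≠ 0) (b : 1 - W * W' ≠ 0)
    (c : 1 - op V W * W' ≠ 0) (k1 : op V W ≠ 1) (k2 : op V W ≠ -1) :
    aa (cc V) (op W W') = aa (cc V) W * aa (cc (op V W)) W' := by
  have v1 : 1 - V ≠ 0 := fun h => h1 (by linarith)
  have v2 : 1 + V ≠ 0 := fun h => h2 (by linarith)
  have w1 : 1 - op V W ≠ 0 := fun h => k1 (by linarith)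
  have w2 : 1 + op V W ≠ 0 := fun h => k2 (by linarith)
  obtain ⟨d, e⟩ := op_assoc a b c
  have f1 := aa_op v1 v2 a
  have f2 := aa_op v1 v2 d
  have f3 := aa_op w1 w2 c
  have hn : aa 1 V ≠ 0 := by
    rw [aa_one]
    refine div_ne_zero ?_ (one_add_sq_pos V).ne'
    have : 1 - V ^ 2 = (1 - V) * (1 + V) := by ring
    rw [this]
    exact mul_ne_zero v1 v2
  rw [e, f3, f1, mul_assoc] at f2
  exact (mul_left_cancel₀ hn f2).symm

lemma inj {V W : ℚ} (a : 1 - V * W ≠ 0) : op (-V) (op V W) = W := by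
  have e1 : op V W * (1 - V * W) = V + W := div_mul_cancel₀ _ a
  have h : (1 : ℚ) + V ^ 2 ≠ 0 := (one_add_sq_pos V).ne'
  have e2 : 1 - (-V) * op V W = (1 + V ^ 2) / (1 - V * W) := by
    rw [eq_div_iff a]
    linear_combination V * e1
  have e3 : -V + op V W = W * (1 + V ^ 2) / (1 - V * W) := by
    rw [eq_div_iff a]
    linear_combination e1
  have f : op (-V) (op V W) = (-V + op V W) / (1 - (-V) * op V W) := rfl
  rw [f, e2, e3, div_div_div_cancel_right₀ a, mul_div_assoc, div_self h, mul_one]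

end I_MQOK

variable (E : Type u) [Group E]

theorem MQOK_pf (hW : WWP E) : MQOK E := by
  intro Λ
  obtain ⟨hcl, hone, hbnd⟩ := hW Λ
  have good : ∀ V : ℚ, V ∈ (MQ Λ).S₀ → ∀ u ∈ WW Λ, ∀ᶠ W in (u : Filter ℚ),
      (1 - V * W ≠ 0) ∧ (op V W ≠ 0 ∧ op V W ≠ 1 ∧ op V W ≠ -1) ∧ aa (cc V) W ≠ 0 := by
    intro V hV u hu
    filter_upwards [hu.1.ne (-V), hu.1.ne (1 / V), hu.1.ne (-cc V), hu.1.ne (1 / cc V)]
      with W a1 a2 a3 a4
    exact I_MQOK.good hV.1 hV.2.1 hV.2.2 a1 a2 a3 a4
  refine ⟨hcl, hone, ?_, ?_, ?_, ?_, ?_, ?_⟩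
  · intro V _
    exact op_zero V
  · intro V _
    show un (aa (cc V) 0) = 1
    rw [aa_zero, un_one]
  · intro u hu w hw
    exact hbnd u w hu hw
  · intro V hV u hu
    filter_upwards [good V hV u hu] with W h
    exact h.2.1
  · intro V hV u hu
    filter_upwards [good V hV u hu] with W h
    intro w hw
    have hV' : op V W ∈ (MQ Λ).S₀ := h.2.1
    filter_upwards [good (op V W) hV' w hw, hw.1.ne (-W)] with W' h' a
    have b : 1 - W * W' ≠ 0 := by
      intro e
      apply a
      linarith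
    refine ⟨(I_MQOK.op_assoc h.1 b h'.1).2, ?_⟩
    show un (aa (cc V) (op W W')) = un (aa (cc V) W) * un (aa (cc (op V W)) W')
    rw [I_MQOK.coc hV.2.1 hV.2.2 h.1 b h'.1 h.2.1.2.1 h.2.1.2.2, un_mul h.2.2 h'.2.2]
  · intro V hV u hu u' hu' h
    have key : ∀ v ∈ WW Λ, (v.map (op V)).map (op (-V)) = v := by
      intro v hv
      rw [Ultrafilter.map_map]
      have : ∀ᶠ W in (v : Filter ℚ), (op (-V) ∘ op V) W = (fun ω => ω) W := by
        filter_upwards [good V hV v hv] with W hW
        exact I_MQOK.inj hW.1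
      rw [map_congr this]
      rfl
    have h' : u.map (op V) = u'.map (op V) := h
    rw [← key u hu, h', key u' hu']

end Pool.Agent.Work.MP_0f91f8_co.Lg
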