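import Pool.Agent.Work.MP_0f91f8_co.Lg.Stmts

/-!
Block [0f91f8 PI], item NUB: norms of adaptive compositions.
-/

set_option linter.unusedSectionVars false
set_option linter.unusedVariables false

open Filter Topology

universe u

namespace Pool.Agent.Work.MP_0f91f8_co.Lg

open Pool.Agent.Work.MP_0f91f8_co.Cge (sd op aa cc bnd one_add_sq_pos norm_op)
open Pool.Agent.Work.MP_0f91f8_co.Df (Mach MOK MK un un_val un_mul un_inv un_div un_one)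

namespace I_NUB

lemma un_norm {V W : ℚ} (h : 1 - V * W ≠ 0) :
    un (1 + (op V W) ^ 2) =
      un (1 + V ^ 2) * (un (1 + W ^ 2) * ((un (1 + (-V) * W))⁻¹ * (un (1 + (-V) * W))⁻¹)) := by
  have hV : (1 : ℚ) + V ^ 2 ≠ 0 := (one_add_sq_pos V).ne'
  have hW : (1 : ℚ) + W ^ 2 ≠ 0 := (one_add_sq_pos W).ne'
  have h' : (1 : ℚ) + (-V) * W ≠ 0 := by
    intro h0
    apply h
    linarith
  have e : 1 + (op V W) ^ 2 =
      (1 + V ^ 2) * ((1 + W ^ 2) * ((1 + (-V) * W)⁻¹ * (1 + (-V) * W)⁻¹)) := by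
    rw [norm_op h]
    have : (1 : ℚ) - V * W = 1 + (-V) * W := by ring
    rw [this]
    field_simp
  rw [e, un_mul hV (mul_ne_zero hW (mul_ne_zero (inv_ne_zero h') (inv_ne_zero h'))),
    un_mul hW (mul_ne_zero (inv_ne_zero h') (inv_ne_zero h')),
    un_mul (inv_ne_zero h') (inv_ne_zero h'), un_inv h']

variable {E : Type u} [Group E]

/-- the norm at the second step -/
lemma second (hPG : POSG E) (hPO : POS E) (Λ : LimGp ℚˣ E) {m : Ultrafilter ℚ} (hm : E1 Λ m)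
    {c : Ultrafilter (ℚ × ℚˣ)} (hc : c.map Prod.fst = m) (V : ℚ) :
    Eqm (A0 Λ) (Λ.l c (fun q => Λ.θ (q.2 * un (1 + q.1 ^ 2))))
      (Λ.l c (fun q => Λ.θ (q.2 * (un (1 + q.1 ^ 2) *
        ((un (1 + (-V) * q.1))⁻¹ * (un (1 + (-V) * q.1))⁻¹))))) := by
  obtain ⟨-, -, hmul, hinv, -⟩ := hPG Λ (A0 Λ) ℚ m
  have h1 : Pos Λ (A0 Λ) m (fun W => un (1 + (-V) * W)) :=
    (hPO Λ ℚ m (fun W => W)).1 hm (-V)
  have h2 := hinv _ h1
  have h3 := hmul _ _ h2 h2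
  have h4 := h3 (c.map (fun q : ℚ × ℚˣ => (q.1, q.2 * un (1 + q.1 ^ 2)))) hc
  rw [Λ.l_map, Λ.l_map] at h4
  simpa only [mul_assoc] using h4

end I_NUB

variable (E : Type u) [Group E]

open Classical in
theorem NUB_pf (hR : RIG E) (hPG : POSG E) (hPO : POS E) : NUB E := by
  intro Λ 𝔮 m e hE hq1 hm
  have hchoose : ∀ V : ℚ, ∃ c : Ultrafilter (ℚ × ℚˣ), NU Λ (m V) (e V) →
      (c.map Prod.fst = m V ∧ Λ.l c (fun p => Λ.θ p.2) = 1 ∧
        Λ.l c (fun p => Λ.θ (p.2 * un (1 + p.1 ^ 2))) = e V) := by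
    intro V
    by_cases hV : NU Λ (m V) (e V)
    · obtain ⟨c, h⟩ := hV
      exact ⟨c, fun _ => h⟩
    · exact ⟨pure (0, 1), fun hV' => absurd hV' hV⟩
  choose c hc using hchoose
  have hm1 : ∀ᶠ p in (𝔮 : Filter (ℚ × ℚˣ)), (c p.1).map Prod.fst = m p.1 := by
    filter_upwards [hm] with p hp
    exact (hc p.1 hp.2).1
  -- the new law
  have hmarg : ((Λ.sdk 𝔮 (fun p => c p.1)).map
      (fun P => (op P.1.1 P.2.2.1, P.1.2 * P.2.1 * P.2.2.2))).map Prod.fst =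
      bnd (𝔮.map Prod.fst) m := by
    have h1 : ((Λ.sdk 𝔮 (fun p => c p.1)).map
      (fun P => (op P.1.1 P.2.2.1, P.1.2 * P.2.1 * P.2.2.2))).map Prod.fst =
        (Λ.sdk 𝔮 (fun p => c p.1)).map (fun P => op P.1.1 P.2.2.1) := rfl
    rw [h1, Λ.sdk_map 𝔮 (fun p => c p.1) (fun p q => op p.1 q.1)]
    have h2 : 𝔮.bind (fun p => (c p.1).map (fun q => op p.1 q.1)) =
        𝔮.bind (fun p => (m p.1).map (op p.1)) := by
      apply bind_congr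
      filter_upwards [hm1] with p hp
      rw [← hp]
      rfl
    rw [h2]
    rfl
  refine ⟨_, ⟨_, hmarg, ?_, rfl⟩, ?_⟩
  · rw [Λ.l_map, Λ.l_sdk_th 𝔮 (fun p => c p.1) (fun p => p.2) (fun _ q => q.2)]
    have h1 : Λ.l 𝔮 (fun p => Λ.θ p.2 * Λ.l (c p.1) (fun q => Λ.θ q.2)) =
        Λ.l 𝔮 (fun p => Λ.θ p.2) := by
      apply Λ.l_congr
      filter_upwards [hm] with p hp
      rw [(hc p.1 hp.2).2.1, mul_one]
    rw [h1, hq1]
  · rw [Λ.l_map]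
    have e1 : Λ.l (Λ.sdk 𝔮 (fun p => c p.1)) (fun P =>
        Λ.θ (P.1.2 * P.2.1 * P.2.2.2 * un (1 + (op P.1.1 P.2.2.1) ^ 2))) =
        Λ.l (Λ.sdk 𝔮 (fun p => c p.1)) (fun P =>
          Λ.θ ((P.1.2 * un (1 + P.1.1 ^ 2)) * P.2.1 * (P.2.2.2 * (un (1 + P.2.2.1 ^ 2) *
            ((un (1 + (-P.1.1) * P.2.2.1))⁻¹ * (un (1 + (-P.1.1) * P.2.2.1))⁻¹))))) := by
      apply Λ.l_congr
      rw [Λ.ev_sdk]
      filter_upwards [hm] with v hv
      refine Eventually.of_forall fun k => ?_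
      have n0 : ∀ᶠ W in ((c v.1).map Prod.fst : Filter ℚ), 1 + (-v.1) * W ≠ 0 := by
        rw [(hc v.1 hv.2).1]
        exact hv.1.ne (-v.1)
      have n1 : ∀ᶠ p in (c v.1 : Filter (ℚ × ℚˣ)), 1 + (-v.1) * p.1 ≠ 0 := n0
      filter_upwards [n1] with p p1
      have a3 : (1 : ℚ) - v.1 * p.1 ≠ 0 := fun h0 => p1 (by linarith)
      show Λ.θ (v.2 * k * p.2 * un (1 + (op v.1 p.1) ^ 2)) =
        Λ.θ ((v.2 * un (1 + v.1 ^ 2)) * k * (p.2 * (un (1 + p.1 ^ 2) *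
            ((un (1 + (-v.1) * p.1))⁻¹ * (un (1 + (-v.1) * p.1))⁻¹))))
      rw [I_NUB.un_norm a3]
      congr 1
      simp only [mul_assoc, mul_comm, mul_left_comm]
    rw [e1, Λ.l_sdk_th 𝔮 (fun p => c p.1) (fun p => p.2 * un (1 + p.1 ^ 2))
      (fun p q => q.2 * (un (1 + q.1 ^ 2) *
            ((un (1 + (-p.1) * q.1))⁻¹ * (un (1 + (-p.1) * q.1))⁻¹)))]
    refine Eqm.limit (hR Λ).1.closed ?_
    filter_upwards [hm] with p hp
    have h := I_NUB.second hPG hPO Λ hp.1 (hc p.1 hp.2).1 p.1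
    rw [(hc p.1 hp.2).2.2] at h
    exact h.left _

end Pool.Agent.Work.MP_0f91f8_co.Lg
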