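import Pool.Agent.Work.MP_0f91f8_co.Lg.Stmts

/-!
Item PERF of block [0f91f8 PI]: nonempty τ-open sets of a perfect group meet.
-/

set_option linter.unusedSectionVars false
set_option linter.unusedVariables false

open Filter Topology

universe u

namespace Pool.Agent.Work.MP_0f91f8_co.Lg

open Pool.Agent.Work.MP_0f91f8_co.Cge (sd op aa cc bnd)
open Pool.Agent.Work.MP_0f91f8_co.Df (Mach MOK MK un un_val un_mul un_inv un_div un_one)

variable (E : Type u) [Group E]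

theorem PERF_pf (hT : TCL E) (hH : DHH E) : PERF E := by
  intro G _ Λ A hA hDA V V' hV hV' hVn hVn' hc hc'
  obtain ⟨h0, hsub, hmono, hidem, hunion, hright, hleft, hinv⟩ := hT G Λ
  obtain ⟨v, hv⟩ := hVn
  obtain ⟨v', hv'⟩ := hVn'
  have hvA : v ∈ A := hV hv
  have hvA' : v' ∈ A := hV' hv'
  -- the translate of `V`
  have h1 : v' * v⁻¹ ∈ Λ.DD A := by
    rw [hDA]
    exact A.mul_mem hvA' (A.inv_mem hvA)
  have h2 := hH G Λ A hA _ h1
  have h3 : (fun x => x * v⁻¹) '' V ⊆ A := by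
    rintro _ ⟨x, hx, rfl⟩
    exact A.mul_mem (hV hx) (A.inv_mem hvA)
  have h4 : (1 : E) ∈ (fun x => x * v⁻¹) '' V := ⟨v, hv, mul_inv_cancel v⟩
  have h5 : (A : Set E) \ ((fun x => x * v⁻¹) '' V) = (fun x => x * v⁻¹) '' ((A : Set E) \ V) := by
    ext x
    constructor
    · rintro ⟨hx, hx'⟩
      refine ⟨x * v, ⟨A.mul_mem hx hvA, fun hn => hx' ⟨x * v, hn, ?_⟩⟩, ?_⟩
      · simp
      · simp
    · rintro ⟨y, ⟨hy, hy'⟩, rfl⟩
      refine ⟨A.mul_mem hy (A.inv_mem hvA), ?_⟩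
      rintro ⟨z, hz, hzy⟩
      have : z = y := mul_right_cancel hzy
      exact hy' (this ▸ hz)
  have h6 : Λ.TC ((A : Set E) \ ((fun x => x * v⁻¹) '' V)) := by
    rw [h5]
    apply LimGp.TC.of_tcl_sub
    rw [hright]
    exact Set.image_mono hc.tcl_sub
  have h7 := h2 _ h3 h4 h6
  rw [hright] at h7
  obtain ⟨y, hy, hyv⟩ := h7
  have hyv' : y = v' := mul_right_cancel hyv
  rw [hyv'] at hy
  -- `v'` is in the closure of `V`
  by_contra hn
  have h8 : V ⊆ (A : Set E) \ V' := fun x hx => ⟨hV hx, fun hx' => hn ⟨x, hx, hx'⟩⟩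
  have h9 := hc'.tcl_sub (hmono _ _ h8 hy)
  exact h9.2 hv'

end Pool.Agent.Work.MP_0f91f8_co.Lg
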