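import Pool.Agent.Work.MP_0f91f8_co.Lg.Stmts

/-!
Block [0f91f8 PI], item POS: position independence of linear factors and of norms.
-/

set_option linter.unusedSectionVars false

open Filter Topology

universe u

namespace Pool.Agent.Work.MP_0f91f8_co.Lg

open Pool.Agent.Work.MP_0f91f8_co.Cge (sd op aa cc bnd)
open Pool.Agent.Work.MP_0f91f8_co.Df (Mach MOK MK un un_val un_mul un_inv un_div un_one)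

variable (E : Type u) [Group E]

namespace I_POS

variable {E} {Ω : Type}

/-- the shifted law -/
noncomputable def q2 (Λ : LimGp ℚˣ E) (𝔮 : Ultrafilter (Ω × ℚˣ)) (𝔨 : Ultrafilter ℚˣ)
    (W : Ω → ℚ) : Ultrafilter (ℚ × ℚˣ) :=
  (Λ.sdk 𝔮 (fun _ => 𝔨)).map (fun P => (W P.1.1, P.1.2 * P.2.1 * P.2.2))

lemma q2_fst (Λ : LimGp ℚˣ E) (𝔮 : Ultrafilter (Ω × ℚˣ)) (𝔨 : Ultrafilter ℚˣ) (W : Ω → ℚ) :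
    (q2 Λ 𝔮 𝔨 W).map Prod.fst = (𝔮.map Prod.fst).map W := by
  unfold q2
  rw [map_map', map_map']
  have h := congrArg (fun m => Ultrafilter.map (fun p : Ω × ℚˣ => W p.1) m)
    (Λ.sdk_fst 𝔮 (fun _ => 𝔨))
  exact h

lemma q2_l (Λ : LimGp ℚˣ E) (𝔮 : Ultrafilter (Ω × ℚˣ)) (𝔨 : Ultrafilter ℚˣ)
    (W : Ω → ℚ) (f : ℚ → ℚˣ) :
    Λ.l (q2 Λ 𝔮 𝔨 W) (fun p => Λ.θ (p.2 * f p.1)) =
      Λ.l 𝔮 (fun p => Λ.θ (p.2 * f (W p.1))) * Λ.l 𝔨 (fun g => Λ.θ g) := by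
  unfold q2
  rw [Λ.l_map, ← Λ.l_right, ← Λ.l_sdk_th 𝔮 (fun _ => 𝔨) (fun p => p.2 * f (W p.1)) (fun _ g => g)]
  congr 1
  funext P
  congr 1
  rw [mul_right_comm _ _ (f _), mul_right_comm _ _ (f _)]

end I_POS

open I_POS in
theorem POS_pf (hR : RIG E) : POS E := by
  intro Λ Ω 𝔬 W
  obtain ⟨hA, hN⟩ := hR Λ
  -- the common end
  have key : ∀ (𝔮 : Ultrafilter (Ω × ℚˣ)) (𝔨 : Ultrafilter ℚˣ) (f : ℚ → ℚˣ),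
      Λ.l 𝔨 (fun g => Λ.θ g) = (Λ.l 𝔮 (fun p => Λ.θ p.2))⁻¹ →
      Λ.l (q2 Λ 𝔮 𝔨 W) (fun p => Λ.θ (p.2 * f p.1)) ∈ A0 Λ →
      Eqm (A0 Λ) (Λ.l 𝔮 (fun p => Λ.θ p.2)) (Λ.l 𝔮 (fun p => Λ.θ (p.2 * f (W p.1)))) := by
    intro 𝔮 𝔨 f hk hm
    rw [q2_l, hk] at hm
    have := hN.conj_mem _ hm (Λ.l 𝔮 (fun p => Λ.θ p.2))⁻¹
    rw [inv_inv, mul_assoc, mul_assoc, inv_mul_cancel, mul_one] at this
    exact this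
  have one : ∀ (𝔮 : Ultrafilter (Ω × ℚˣ)) (𝔨 : Ultrafilter ℚˣ),
      Λ.l 𝔨 (fun g => Λ.θ g) = (Λ.l 𝔮 (fun p => Λ.θ p.2))⁻¹ →
      Λ.l (q2 Λ 𝔮 𝔨 W) (fun p => Λ.θ p.2) ∈ A0 Λ := by
    intro 𝔮 𝔨 hk
    have h1 := q2_l Λ 𝔮 𝔨 W (fun _ => 1)
    simp only [mul_one] at h1
    rw [h1, hk, mul_inv_cancel]
    exact (A0 Λ).one_mem
  constructor
  · intro hE x 𝔮 hq
    obtain ⟨𝔨, hk⟩ := Λ.exists_law (Λ.l 𝔮 (fun p => Λ.θ p.2))⁻¹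
    refine key 𝔮 𝔨 (fun w => un (1 + x * w)) hk ?_
    refine hA.lin _ ?_ (one 𝔮 𝔨 hk) x
    rw [q2_fst, hq]
    exact hE
  · rintro ⟨hE, a, ha, 𝔮₀, hq0, h1, h2⟩ 𝔮 hq
    obtain ⟨𝔨, hk⟩ := Λ.exists_law (Λ.l 𝔮 (fun p => Λ.θ p.2))⁻¹
    refine key 𝔮 𝔨 (fun w => un (1 + w ^ 2)) hk ?_
    refine hA.nrm 𝔮₀ _ ?_ ?_ ?_ (one 𝔮 𝔨 hk) ?_
    · rw [hq0, q2_fst, hq]
    · rw [hq0]
      exact hE
    · rw [h1]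
      exact (A0 Λ).one_mem
    · rw [h2]
      exact ha

end Pool.Agent.Work.MP_0f91f8_co.Lg
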