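import Pool.Agent.Work.MP_0f91f8_co.Lg.Stmts

/-!
Block [0f91f8 PI], item POSG: position independence is a group property.
-/

set_option linter.unusedSectionVars false

open Filter Topology

universe u

namespace Pool.Agent.Work.MP_0f91f8_co.Lg

open Pool.Agent.Work.MP_0f91f8_co.Cge (sd op aa cc bnd)
open Pool.Agent.Work.MP_0f91f8_co.Df (Mach MOK MK un un_val un_mul un_inv un_div un_one)

variable (E : Type u) [Group E]

theorem POSG_pf : POSG E := by
  intro Λ A Ω 𝔬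
  refine ⟨?_, ?_, ?_, ?_, ?_⟩
  · intro 𝔮 h𝔮
    simp only [mul_one]
    exact Eqm.refl _ _
  · intro r r' hr hrr 𝔮 h𝔮
    have h1 := hr 𝔮 h𝔮
    have h2 : Λ.l 𝔮 (fun p => Λ.θ (p.2 * r' p.1)) = Λ.l 𝔮 (fun p => Λ.θ (p.2 * r p.1)) := by
      apply Λ.l_congr
      have h3 : ∀ᶠ ω in ((𝔮.map Prod.fst : Ultrafilter Ω) : Filter Ω), r ω = r' ω := by
        rw [h𝔮]; exact hrr
      have h4 : ∀ᶠ p in (𝔮 : Filter (Ω × ℚˣ)), r p.1 = r' p.1 := h3
      filter_upwards [h4] with p hp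
      rw [hp]
    rw [h2]
    exact h1
  · intro r r' hr hr' 𝔮 h𝔮
    have h1 := hr 𝔮 h𝔮
    have h2 := hr' (𝔮.map (fun p => (p.1, p.2 * r p.1))) (by
      rw [← h𝔮]
      rfl)
    rw [Λ.l_map, Λ.l_map] at h2
    have h3 := h1.trans h2
    simp only [mul_assoc] at h3 ⊢
    exact h3
  · intro r hr 𝔮 h𝔮
    have h2 := hr (𝔮.map (fun p => (p.1, p.2 * (r p.1)⁻¹))) (by
      rw [← h𝔮]
      rfl)
    rw [Λ.l_map, Λ.l_map] at h2
    simp only [inv_mul_cancel_right] at h2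
    exact h2.symm
  · intro r hr
    have h2 := hr (𝔬.map (fun ω => (ω, 1))) rfl
    rw [Λ.l_map, Λ.l_map] at h2
    simp only [map_one, one_mul, Λ.l_const] at h2
    unfold Eqm at h2
    simpa using h2

end Pool.Agent.Work.MP_0f91f8_co.Lg
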