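import Pool.Agent.Work.MP_0f91f8_co.Lg.Stmts

/-!
Block [0f91f8 PI], item RCH: the set of reachable states.
-/

set_option linter.unusedSectionVars false
set_option linter.unusedVariables false

open Filter Topology

universe u

namespace Pool.Agent.Work.MP_0f91f8_co.Lg

open Pool.Agent.Work.MP_0f91f8_co.Cge (sd op aa cc bnd)
open Pool.Agent.Work.MP_0f91f8_co.Df (Mach MOK MK un)

namespace I_RCH

section

variable {S T G : Type} [CommGroup G] {E : Type u} [Group E] {Λ : LimGp G E}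

/-- the trivial move -/
lemma one_mem {K : Mach S T G} (hK : MOK K) (A : Subgroup E) {s : S} (hs : s ∈ K.S₀) :
    (pure (K.one, 1) : Ultrafilter (T × G)) ∈ MM Λ K A s := by
  refine ⟨?_, ?_, ?_⟩
  · have h1 : (pure (K.one, 1) : Ultrafilter (T × G)).map Prod.fst =
        (pure K.one : Ultrafilter T) := by
      apply Ultrafilter.coe_injective
      ext t
      exact Iff.rfl
    rw [h1]
    exact hK.one_mem
  · unfold P1
    rw [Λ.l_pure]
    show Λ.θ 1 ∈ A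
    rw [map_one]
    exact A.one_mem
  · unfold P2
    rw [Λ.l_pure]
    show Λ.θ (1 * K.r s K.one) ∈ A
    rw [hK.r_one s hs, mul_one, map_one]
    exact A.one_mem

variable {Ω : Type u} (f : Ultrafilter Ω) (m : Ω → Ultrafilter (T × G))

/-- limits of moves -/
def um (Λ : LimGp G E) (f : Ultrafilter Ω) (m : Ω → Ultrafilter (T × G)) :
    Ultrafilter (T × G) :=
  (Λ.sdk f m).map (fun P => (P.2.2.1, P.2.1 * P.2.2.2))

lemma um_fst : (um Λ f m).map Prod.fst = f.bind (fun p => (m p).map Prod.fst) :=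
  Λ.sdk_map f m (fun _ q => q.1)

lemma um_P1 : P1 Λ (um Λ f m) = Λ.l f (fun p => P1 Λ (m p)) := by
  unfold P1 um
  rw [Λ.l_map]
  simp only [map_mul]
  exact Λ.l_sdk f m (fun _ q => Λ.θ q.2)

lemma um_P2 (K : Mach S T G) (s : S) :
    P2 Λ K s (um Λ f m) = Λ.l f (fun p => P2 Λ K s (m p)) := by
  unfold P2 um
  rw [Λ.l_map]
  have e : (fun P : Ω × G × T × G => Λ.θ (P.2.1 * P.2.2.2 * K.r s P.2.2.1)) =
      fun P => Λ.θ P.2.1 * Λ.θ (P.2.2.2 * K.r s P.2.2.1) := by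
    funext P
    rw [← map_mul, mul_assoc]
  show Λ.l (Λ.sdk f m) (fun P : Ω × G × T × G => Λ.θ (P.2.1 * P.2.2.2 * K.r s P.2.2.1)) = _
  rw [e]
  exact Λ.l_sdk f m (fun _ q => Λ.θ (q.2 * K.r s q.1))

end

end I_RCH

open I_RCH

/-- the set of reachable states -/
theorem RCH_pf (E : Type u) [Group E] (hC : CMPS E) : RCH E := by
  intro S T G _ Λ K hK A hA s₀ hs₀
  refine ⟨⟨?_, ?_, ?_, ?_, ?_⟩, ?_⟩
  · intro f hf
    have hex : ∀ p : Ultrafilter S × E × E, ∃ m : Ultrafilter (T × G),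
        p ∈ Rch Λ K A s₀ → (m ∈ MM Λ K A s₀ ∧ m.map (fun q => K.act s₀ q.1) = p.1 ∧
          Eqm (Λ.DD A) (P1 Λ m) p.2.1 ∧ Eqm (Λ.DD A) (P2 Λ K s₀ m) p.2.2) := by
      intro p
      by_cases hp : p ∈ Rch Λ K A s₀
      · obtain ⟨m, hm⟩ := hp
        exact ⟨m, fun _ => hm⟩
      · exact ⟨pure (K.one, 1), fun h => absurd h hp⟩
    choose m hm using hex
    have hf' : ∀ᶠ p in (f : Filter (Ultrafilter S × E × E)),
        (m p ∈ MM Λ K A s₀ ∧ (m p).map (fun q => K.act s₀ q.1) = p.1 ∧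
          Eqm (Λ.DD A) (P1 Λ (m p)) p.2.1 ∧ Eqm (Λ.DD A) (P2 Λ K s₀ (m p)) p.2.2) :=
      hf.mono fun p hp => hm p hp
    refine ⟨um Λ f m, ⟨?_, ?_, ?_⟩, ?_, ?_, ?_⟩
    · rw [um_fst]
      exact mem_of_bind hK.closed (hf'.mono fun p hp => hp.1.1)
    · rw [um_P1]
      exact hA.closed.mem (hf'.mono fun p hp => hp.1.2.1)
    · rw [um_P2]
      exact hA.closed.mem (hf'.mono fun p hp => hp.1.2.2)
    · have e : (um Λ f m).map (fun q => K.act s₀ q.1) =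
          f.bind (fun p => (m p).map (fun q => K.act s₀ q.1)) :=
        Λ.sdk_map f m (fun _ q => K.act s₀ q.1)
      rw [e]
      exact bind_congr (hf'.mono fun p hp => hp.2.1)
    · rw [um_P1]
      exact Eqm.limit (LimGp.TC_DD A) (hf'.mono fun p hp => hp.2.2.1)
    · rw [um_P2]
      exact Eqm.limit (LimGp.TC_DD A) (hf'.mono fun p hp => hp.2.2.2)
  · rintro p ⟨m, hm, hp, -, -⟩
    rw [← hp]
    exact hK.mem s₀ hs₀ _ hm.1
  · rintro p ⟨m, hm, -, h1, h2⟩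
    exact ⟨h1.mem hA.DD_le hm.2.1, h2.mem hA.DD_le hm.2.2⟩
  · rintro p ⟨m, hm, hp, h1, h2⟩ a b ha hb
    exact ⟨m, hm, hp, h1.trans ha, h2.trans hb⟩
  · rintro p ⟨m, hm, hp, h1, h2⟩ F hF
    obtain ⟨c1, c2, c3, -, c5⟩ := hC S T G Λ K hK s₀ hs₀ m hm.1 F (fun s' hs' => (hF s' hs').1)
    have hev : ∀ᶠ q in (m : Filter (T × G)), K.act s₀ q.1 ∈ K.S₀ := hK.mem s₀ hs₀ _ hm.1
    have a1 : ∀ᶠ q in (m : Filter (T × G)), P1 Λ (F (K.act s₀ q.1)) ∈ A :=
      hev.mono fun q hq => (hF _ hq).2.1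
    have a2 : ∀ᶠ q in (m : Filter (T × G)),
        P2 Λ K (K.act s₀ q.1) (F (K.act s₀ q.1)) ∈ A :=
      hev.mono fun q hq => (hF _ hq).2.2
    have i1 : I1 Λ p.1 F = Λ.l m (fun q => P1 Λ (F (K.act s₀ q.1))) := by
      rw [← hp]
      rfl
    have i2 : I2 Λ K p.1 F =
        Λ.l m (fun q => P2 Λ K (K.act s₀ q.1) (F (K.act s₀ q.1))) := by
      rw [← hp]
      rfl
    have e1 : Eqm (Λ.DD A) (P1 Λ (cps Λ K s₀ m F)) (p.2.1 * I1 Λ p.1 F) := by
      rw [c2, i1]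
      refine (Eqm.prod hA.closed (fun q : T × G => Λ.θ q.2) _ a1).symm.trans ?_
      exact h1.right hA.mid (hA.closed.mem a1)
    have e2 : Eqm (Λ.DD A) (P2 Λ K s₀ (cps Λ K s₀ m F)) (p.2.2 * I2 Λ K p.1 F) := by
      rw [c3, i2]
      refine (Eqm.prod hA.closed (fun q : T × G => Λ.θ (q.2 * K.r s₀ q.1)) _ a2).symm.trans ?_
      exact h2.right hA.mid (hA.closed.mem a2)
    have m1 : p.2.1 * I1 Λ p.1 F ∈ A := by
      rw [i1]
      exact A.mul_mem (h1.mem hA.DD_le hm.2.1) (hA.closed.mem a1)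
    have m2 : p.2.2 * I2 Λ K p.1 F ∈ A := by
      rw [i2]
      exact A.mul_mem (h2.mem hA.DD_le hm.2.2) (hA.closed.mem a2)
    refine ⟨cps Λ K s₀ m F, ⟨c1, e1.symm.mem hA.DD_le m1, e2.symm.mem hA.DD_le m2⟩, ?_, e1, e2⟩
    rw [c5, hp]
  · exact ⟨(_, _, _), pure (K.one, 1), one_mem hK A hs₀, rfl, Eqm.refl _ _, Eqm.refl _ _⟩

end Pool.Agent.Work.MP_0f91f8_co.Lg
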