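import Pool.Agent.Work.MP_0f91f8_co.Lg.Stmts

/-!
Item RIG of block [0f91f8 PI]: the smallest rigid subgroup is rigid and normal.
-/

set_option linter.unusedSectionVars false
set_option linter.unusedVariables false

open Filter Topology

universe u

namespace Pool.Agent.Work.MP_0f91f8_co.Lg

open Pool.Agent.Work.MP_0f91f8_co.Cge (sd op aa cc bnd)
open Pool.Agent.Work.MP_0f91f8_co.Df (Mach MOK MK un un_val un_mul un_inv un_div un_one)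

namespace I_RIG

variable {E : Type u} [Group E]

/-- the preimage of `A` under the conjugation by `b` -/
def B (b : E) (A : Subgroup E) : Subgroup E := A.comap (MulAut.conj b).toMonoidHom

lemma mem_B {b : E} {A : Subgroup E} {e : E} : e ∈ B b A ↔ b * e * b⁻¹ ∈ A := Iff.rfl

/-- conjugation of laws -/
lemma conj_law (Λ : LimGp ℚˣ E) (b : E) (𝔮 : Ultrafilter (ℚ × ℚˣ)) :
    ∃ 𝔮' : Ultrafilter (ℚ × ℚˣ), 𝔮'.map Prod.fst = 𝔮.map Prod.fst ∧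
      ∀ r : ℚ → ℚˣ, Λ.l 𝔮' (fun p => Λ.θ (p.2 * r p.1)) =
        b * Λ.l 𝔮 (fun p => Λ.θ (p.2 * r p.1)) * b⁻¹ := by
  obtain ⟨k', hk⟩ := Λ.exists_law b
  obtain ⟨t, ht⟩ := Λ.exists_law b⁻¹
  refine ⟨(Λ.sdk k' (fun _ => Λ.sdk 𝔮 (fun _ => t))).map
    (fun p => (p.2.2.1.1, p.1 * p.2.1 * (p.2.2.1.2 * p.2.2.2.1 * p.2.2.2.2))), ?_, ?_⟩
  · have h1 := Λ.sdk_map k' (fun _ => Λ.sdk 𝔮 (fun _ => t)) (fun _ q => q.1.1)
    rw [map_map']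
    show (Λ.sdk k' (fun _ => Λ.sdk 𝔮 (fun _ => t))).map (fun p => p.2.2.1.1) = _
    rw [h1, bind_const']
    have h2 := Λ.sdk_fst 𝔮 (fun _ => t)
    show ((Λ.sdk 𝔮 (fun _ => t)).map (fun p => p.1)).map Prod.fst = _
    rw [h2]
  · intro r
    rw [Λ.l_map]
    have h1 : ∀ q : (ℚ × ℚˣ) × ℚˣ × ℚˣ, q.1.2 * q.2.1 * q.2.2 * r q.1.1 =
        (q.1.2 * r q.1.1) * q.2.1 * q.2.2 := by
      intro q
      rw [mul_right_comm (q.1.2 * q.2.1), mul_right_comm q.1.2]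
    have h2 : Λ.l (Λ.sdk k' (fun _ => Λ.sdk 𝔮 (fun _ => t)))
        (fun p => Λ.θ (p.1 * p.2.1 * (p.2.2.1.2 * p.2.2.2.1 * p.2.2.2.2) * r p.2.2.1.1)) =
        Λ.l (Λ.sdk k' (fun _ => Λ.sdk 𝔮 (fun _ => t)))
        (fun p => Λ.θ (p.1 * p.2.1 * (p.2.2.1.2 * p.2.2.2.1 * p.2.2.2.2 * r p.2.2.1.1))) := by
      congr 1
      funext p
      rw [mul_assoc (p.1 * p.2.1)]
    show Λ.l (Λ.sdk k' (fun _ => Λ.sdk 𝔮 (fun _ => t)))
        (fun p => Λ.θ (p.1 * p.2.1 * (p.2.2.1.2 * p.2.2.2.1 * p.2.2.2.2) * r p.2.2.1.1)) = _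
    rw [h2, Λ.l_sdk_th k' (fun _ => Λ.sdk 𝔮 (fun _ => t)) (fun g => g)
      (fun _ q => q.1.2 * q.2.1 * q.2.2 * r q.1.1)]
    simp only [h1]
    rw [Λ.l_sdk_th 𝔮 (fun _ => t) (fun p => p.2 * r p.1) (fun _ g => g)]
    simp only [ht, Λ.l_right]
    rw [hk, mul_assoc]

lemma rig_B {Λ : LimGp ℚˣ E} {A : Subgroup E} (hA : Rig Λ A) (b : E) : Rig Λ (B b A) := by
  refine ⟨hA.closed.conj b, ?_, ?_⟩
  · intro 𝔮 h1 h2 x
    obtain ⟨𝔮', h3, h4⟩ := conj_law Λ b 𝔮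
    show b * _ * b⁻¹ ∈ A
    rw [← h4 (fun w => un (1 + x * w))]
    refine hA.lin 𝔮' (by rw [h3]; exact h1) ?_ x
    have h5 := h4 (fun _ => 1)
    simp only [mul_one] at h5
    rw [h5]
    exact h2
  · intro 𝔮 𝔭 h1 h2 h3 h4 h5
    obtain ⟨𝔮', h6, h7⟩ := conj_law Λ b 𝔮
    obtain ⟨𝔭', h8, h9⟩ := conj_law Λ b 𝔭
    show b * _ * b⁻¹ ∈ A
    rw [← h9 (fun w => un (1 + w ^ 2))]
    refine hA.nrm 𝔮' 𝔭' (by rw [h6, h8, h1]) (by rw [h6]; exact h2) ?_ ?_ ?_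
    · have h10 := h7 (fun _ => 1)
      simp only [mul_one] at h10
      rw [h10]
      exact h3
    · have h10 := h9 (fun _ => 1)
      simp only [mul_one] at h10
      rw [h10]
      exact h4
    · rw [h7 (fun w => un (1 + w ^ 2))]
      exact h5

lemma rig_A0 (Λ : LimGp ℚˣ E) : Rig Λ (A0 Λ) := by
  have hle : ∀ A : Subgroup E, Rig Λ A → A0 Λ ≤ A := fun A hA => sInf_le hA
  have hmem : ∀ e : E, (∀ A : Subgroup E, Rig Λ A → e ∈ A) → e ∈ A0 Λ := by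
    intro e he
    unfold A0
    rw [Subgroup.mem_sInf]
    exact fun A hA => he A hA
  refine ⟨LimGp.TC.sInf fun A hA => hA.closed, ?_, ?_⟩
  · intro 𝔮 h1 h2 x
    exact hmem _ fun A hA => hA.lin 𝔮 h1 (hle A hA h2) x
  · intro 𝔮 𝔮' h1 h2 h3 h4 h5
    exact hmem _ fun A hA => hA.nrm 𝔮 𝔮' h1 h2 (hle A hA h3) (hle A hA h4) (hle A hA h5)

end I_RIG

variable (E : Type u) [Group E]

open I_RIG in
theorem RIG_pf : RIG E := by
  intro Λ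
  refine ⟨rig_A0 Λ, ⟨fun a ha b => ?_⟩⟩
  exact mem_B.1 ((sInf_le (rig_B (rig_A0 Λ) b) : A0 Λ ≤ B b (A0 Λ)) ha)

end Pool.Agent.Work.MP_0f91f8_co.Lg
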