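import Pool.Agent.Work.MP_0f91f8_co.Lg.Stmts

/-!
[0f91f8 PI RPL]: elements of `DD A` from pairs of the same law.
-/

set_option linter.unusedSectionVars false

open Filter Topology

universe u

namespace Pool.Agent.Work.MP_0f91f8_co.Lg

open Pool.Agent.Work.MP_0f91f8_co.Cge (sd op aa cc bnd)
open Pool.Agent.Work.MP_0f91f8_co.Df (Mach MOK MK un un_val un_mul un_inv un_div un_one)

variable (E : Type u) [Group E]

namespace I_RPL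

variable {E} {G : Type} [CommGroup G]

/-- the local step -/
lemma local_step (hT : TCL E) (hH : DHH E) (Λ : LimGp G E) {A : Subgroup E} (hA : Λ.NT A) {d : E}
    (hd : d ∈ Λ.DD A) {W : Set E} {b : E} (hbA : b ∈ A)
    (hb : b ∉ Λ.tcl ((A : Set E) \ Λ.tcl (W ∩ A))) : b * d ∈ Λ.tcl (W ∩ (A : Set E)) := by
  obtain ⟨-, hsub, hmono, htt, -, -, hleft, -⟩ := hT G Λ
  have hAA : Λ.tcl (A : Set E) ⊆ (A : Set E) := hA.closed.tcl_sub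
  set F : Set E := Λ.tcl (W ∩ (A : Set E)) with hF
  have hCA' : Λ.tcl ((A : Set E) \ F) ⊆ (A : Set E) :=
    (hmono _ _ Set.sdiff_subset).trans hAA
  set C : Set E := Λ.tcl ((A : Set E) \ F) with hC
  set V : Set E := {x | x ∈ A ∧ b * x ∉ C} with hV
  have hVA : V ⊆ (A : Set E) := fun x hx => hx.1
  have h1V : (1 : E) ∈ V := ⟨A.one_mem, by rw [mul_one]; exact hb⟩
  have hdiff : (A : Set E) \ V = (fun x => b⁻¹ * x) '' C := by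
    ext x
    constructor
    · rintro ⟨hx, hxV⟩
      have hbx : b * x ∈ C := by
        by_contra hne
        exact hxV ⟨hx, hne⟩
      exact ⟨b * x, hbx, by simp⟩
    · rintro ⟨y, hy, rfl⟩
      refine ⟨A.mul_mem (A.inv_mem hbA) (hCA' hy), fun hyV => hyV.2 ?_⟩
      simpa using hy
  have hVo : Λ.TC ((A : Set E) \ V) := by
    apply LimGp.TC.of_tcl_sub
    rw [hdiff, hleft]
    exact Set.image_mono (htt _)
  have hdV : d ∈ Λ.tcl V := hH G Λ A hA d hd V hVA h1V hVo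
  have hVF : V ⊆ (fun x => b⁻¹ * x) '' F := by
    rintro x ⟨hx, hxC⟩
    refine ⟨b * x, ?_, by simp⟩
    by_contra hne
    exact hxC (hsub _ ⟨A.mul_mem hbA hx, hne⟩)
  have h2 : d ∈ (fun x => b⁻¹ * x) '' Λ.tcl F := by
    rw [← hleft]
    exact hmono _ _ hVF hdV
  obtain ⟨y, hy, hyd⟩ := h2
  have h3 : b * d = y := by
    rw [← hyd]
    simp
  rw [h3]
  exact htt _ hy

/-- step A: a law of pairs which agree on the finitely many sets of `𝒮` -/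
lemma stepA (hT : TCL E) (hH : DHH E) (hCov : COV E) (Λ : LimGp G E) {A : Subgroup E}
    (hA : Λ.NT A) {d : E} (hd : d ∈ Λ.DD A) (𝒮 : Finset (Set E)) :
    ∃ 𝔬 : Ultrafilter (G × (E × E)),
      (∀ᶠ p in (𝔬 : Filter (G × (E × E))), (p.2.1 ∈ A ∧ p.2.2 ∈ A) ∧
        ∀ S ∈ 𝒮, (p.2.1 ∈ S ↔ p.2.2 ∈ S)) ∧
      Λ.l 𝔬 (fun p => Λ.θ p.1 * p.2.1) = 1 ∧ Λ.l 𝔬 (fun p => Λ.θ p.1 * p.2.2) = d := by
  classical
  obtain ⟨W, hW, b, hbA, hbW, hb⟩ := hCov G Λ A hA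
    (𝒮.powerset.image (fun T : Finset (Set E) => {x : E | ∀ S ∈ 𝒮, (x ∈ S ↔ S ∈ T)}))
    (fun a _ => ⟨_, Finset.mem_image_of_mem _
      (Finset.mem_powerset.2 (Finset.filter_subset (fun S => a ∈ S) 𝒮)), by
        intro S hS
        simp [hS]⟩)
  obtain ⟨T, -, rfl⟩ := Finset.mem_image.1 hW
  obtain ⟨𝔬', h0, h1, h2⟩ := local_step hT hH Λ hA hd hbA hb
  obtain ⟨k, hk⟩ := Λ.exists_law b⁻¹
  refine ⟨(Λ.sdk k (fun _ => 𝔬')).map (fun P => (P.1 * P.2.1 * P.2.2.1, (b, P.2.2.2))),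
    ?_, ?_, ?_⟩
  · rw [ev_map, Λ.ev_sdk' k (fun _ => 𝔬') (fun _ q => (b ∈ A ∧ q.2 ∈ A) ∧
      ∀ S ∈ 𝒮, (b ∈ S ↔ q.2 ∈ S))]
    refine Eventually.of_forall fun _ => ?_
    filter_upwards [h0] with q hq
    refine ⟨⟨hbA, hq.2⟩, fun S hS => ?_⟩
    rw [hbW S hS, hq.1 S hS]
  · rw [Λ.l_map]
    show Λ.l (Λ.sdk k (fun _ => 𝔬')) (fun P => Λ.θ (P.1 * P.2.1 * P.2.2.1) * b) = 1
    rw [Λ.l_right, Λ.l_sdk_th k (fun _ => 𝔬') (fun g => g) (fun _ q => q.1), h1, Λ.l_right, hk]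
    group
  · rw [Λ.l_map]
    show Λ.l (Λ.sdk k (fun _ => 𝔬')) (fun P => Λ.θ (P.1 * P.2.1 * P.2.2.1) * P.2.2.2) = d
    rw [Λ.l_sdk_th_mul k (fun _ => 𝔬') (fun g => g) (fun _ q => q.1) (fun _ q => q.2), h2,
      Λ.l_right, hk]
    group

end I_RPL

open I_RPL in
theorem RPL_pf (hT : TCL E) (hH : DHH E) (hCov : COV E) : RPL E := by
  intro G _ Λ A hA d hd
  choose 𝔬 h0 h1 h2 using fun 𝒮 : Finset (Set E) => stepA hT hH hCov Λ hA hd 𝒮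
  set 𝔉 : Ultrafilter (Finset (Set E)) := Ultrafilter.of atTop with h𝔉
  have hle : (𝔉 : Filter (Finset (Set E))) ≤ atTop := Ultrafilter.of_le _
  refine ⟨(Λ.sdk 𝔉 𝔬).map (fun P => (P.2.1 * P.2.2.1, P.2.2.2)), ?_, ?_, ?_, ?_⟩
  · rw [ev_map, Λ.ev_sdk' 𝔉 𝔬 (fun _ q => q.2.1 ∈ A ∧ q.2.2 ∈ A)]
    exact Eventually.of_forall fun 𝒮 => (h0 𝒮).mono fun q hq => hq.1
  · apply ext_ev
    intro P hP
    rw [ev_map, ev_map] at hP ⊢
    rw [Λ.ev_sdk' 𝔉 𝔬 (fun _ q => P q.2.1)] at hP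
    rw [Λ.ev_sdk' 𝔉 𝔬 (fun _ q => P q.2.2)]
    have h3 : ∀ᶠ 𝒮 in (𝔉 : Filter (Finset (Set E))), {x : E | P x} ∈ 𝒮 := by
      apply hle
      filter_upwards [eventually_ge_atTop {{x : E | P x}}] with 𝒮 h𝒮
      exact h𝒮 (Finset.mem_singleton_self _)
    filter_upwards [hP, h3] with 𝒮 h4 h5
    filter_upwards [h4, h0 𝒮] with q h6 h7
    exact (h7.2 _ h5).1 h6
  · rw [Λ.l_map]
    show Λ.l (Λ.sdk 𝔉 𝔬) (fun P => Λ.θ (P.2.1 * P.2.2.1) * P.2.2.2.1) = 1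
    have := Λ.l_sdk 𝔉 𝔬 (fun _ q => Λ.θ q.1 * q.2.1)
    simp only [h1, Λ.l_const] at this
    rw [← this]
    congr 1
    funext P
    rw [map_mul, mul_assoc]
  · rw [Λ.l_map]
    show Λ.l (Λ.sdk 𝔉 𝔬) (fun P => Λ.θ (P.2.1 * P.2.2.1) * P.2.2.2.2) = d
    have := Λ.l_sdk 𝔉 𝔬 (fun _ q => Λ.θ q.1 * q.2.2)
    simp only [h2, Λ.l_const] at this
    rw [← this]
    congr 1
    funext P
    rw [map_mul, mul_assoc]

end Pool.Agent.Work.MP_0f91f8_co.Lg
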