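import Pool.Agent.Work.MP_0f91f8_co.Lg.Stmts

/-!
Block [0f91f8 PI], item STEP1: step (I).  Adaptation of `Df/I_STEP1.lean`.
-/

set_option linter.unusedSectionVars false
set_option linter.unusedVariables false

open Filter Topology

universe u

namespace Pool.Agent.Work.MP_0f91f8_co.Lg

open Pool.Agent.Work.MP_0f91f8_co.Cge (sd op aa cc bnd one_add_sq_pos)
open Pool.Agent.Work.MP_0f91f8_co.Df (Mach MOK MK un un_val un_mul un_inv un_div un_one)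

namespace I_STEP1

variable {E : Type u} [Group E]

/-- constant couplings of constant families -/
lemma Ph_const (Λ : LimGp ℚˣ E) (v : Ultrafilter ℚ) {Ω : Type} (𝔮 : Ultrafilter (Ω × ℚˣ))
    (r : Ω → ℚˣ) :
    Ph Λ v (fun _ => 𝔮) (fun _ => r) = Λ.l 𝔮 (fun p => Λ.θ (p.2 * r p.1)) := by
  unfold Ph
  rw [Λ.l_const]

/-- constant families -/
lemma static {Λ : LimGp ℚˣ E} {A N : Subgroup E} {v : Ultrafilter ℚ} {Ω : Type}
    {𝔬 : Ultrafilter Ω} {r : Ω → ℚˣ} (h : Ind Λ A N v (fun _ => 𝔬) (fun _ => r))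
    (𝔮 𝔮' : Ultrafilter (Ω × ℚˣ)) (h1 : 𝔮.map Prod.fst = 𝔬)
    (h2 : Λ.l 𝔮 (fun p => Λ.θ p.2) ∈ A) (h1' : 𝔮'.map Prod.fst = 𝔬)
    (h2' : Λ.l 𝔮' (fun p => Λ.θ p.2) ∈ A) :
    Eqm N ((Λ.l 𝔮 (fun p => Λ.θ p.2))⁻¹ * Λ.l 𝔮 (fun p => Λ.θ (p.2 * r p.1)))
      ((Λ.l 𝔮' (fun p => Λ.θ p.2))⁻¹ * Λ.l 𝔮' (fun p => Λ.θ (p.2 * r p.1))) := by
  have h3 := h.2 (fun _ => 𝔮) (fun _ => 𝔮') (Eventually.of_forall fun _ => ⟨h1, h2⟩)
    (Eventually.of_forall fun _ => ⟨h1', h2'⟩)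
  have e : ∀ 𝔮 : Ultrafilter (Ω × ℚˣ), Ph Λ v (fun _ => 𝔮) (fun _ _ => 1) =
      Λ.l 𝔮 (fun p => Λ.θ p.2) := by
    intro 𝔮
    rw [Ph_const Λ v 𝔮 (fun _ => 1)]
    simp only [mul_one]
  rw [e, e, Ph_const, Ph_const] at h3
  exact h3

/-- the pointwise identity -/
lemma point {c w : ℚ} (h1 : 1 + (-c) * w ≠ 0) (h2 : 1 + (1 / c) * w ≠ 0) :
    un (1 + (-c) * w) * un (1 + (1 / c) * w) * (un (aa c w))⁻¹ = un (1 + w ^ 2) := by
  have h3 : (1 : ℚ) + w ^ 2 ≠ 0 := (one_add_sq_pos w).ne'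
  have e : aa c w = (1 + (-c) * w) * (1 + (1 / c) * w) / (1 + w ^ 2) := by
    unfold aa
    have e1 : 1 - c * w = 1 + (-c) * w := by ring
    have e2 : 1 + w / c = 1 + (1 / c) * w := by ring
    rw [e1, e2]
  rw [e, un_div (mul_ne_zero h1 h2) h3, un_mul h1 h2]
  rw [mul_inv, inv_inv, ← mul_assoc, mul_inv_cancel, one_mul]

end I_STEP1

variable (E : Type u) [Group E]

open I_STEP1 in
theorem STEP1_pf (hR : RIG E) (hPG : POSG E) (hPO : POS E) (hI : INDG E) (hK : KIND E)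
    (hL : LIN E) : STEP1 E := by
  intro Λ N hN v hv hC
  obtain ⟨hRig, hnormal⟩ := hR Λ
  have hNT : Λ.NT (A0 Λ) := ⟨hRig.closed, hnormal⟩
  have key : Rig Λ N := by
    refine ⟨hN.closed, ?_, ?_⟩
    · intro 𝔮 hE hg x
      have hInd := hL Λ N hN v hv hC (fun _ => 𝔮.map Prod.fst)
        (Eventually.of_forall fun _ => hE) (fun _ => x)
      obtain ⟨𝔮₁, h1, h2⟩ := hE
      have h3 : Λ.l 𝔮₁ (fun p => Λ.θ p.2) = 1 := by
        have := (h2 0).2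
        simpa only [zero_mul, add_zero, un_one, mul_one] using this
      have h4 := static hInd 𝔮₁ 𝔮 h1 (by rw [h3]; exact (A0 Λ).one_mem) rfl (hN.le hg)
      rw [h3, (h2 x).2] at h4
      have h5 : (Λ.l 𝔮 (fun p => Λ.θ p.2))⁻¹ *
          Λ.l 𝔮 (fun p => Λ.θ (p.2 * un (1 + x * p.1))) ∈ N :=
        h4.mem le_rfl (by rw [inv_mul_cancel]; exact N.one_mem)
      have h6 := N.mul_mem hg h5
      rwa [mul_inv_cancel_left] at h6
    · intro 𝔮 𝔮' he hE hg hg' hn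
      set 𝔲 : Ultrafilter ℚ := 𝔮.map Prod.fst with h𝔲
      -- the law of `W` is in `WW`
      have hW : 𝔲 ∈ WW Λ := by
        refine ⟨hE, ?_⟩
        obtain ⟨𝔮₁, h1, h2⟩ := id hE
        have h3 : Λ.l 𝔮₁ (fun p => Λ.θ p.2) = 1 := by
          have := (h2 0).2
          simpa only [zero_mul, add_zero, un_one, mul_one] using this
        have h4 := hRig.nrm 𝔮 𝔮₁ (by rw [h1]) hE (hN.le hg)
          (by rw [h3]; exact (A0 Λ).one_mem) (hN.le hn)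
        exact ⟨_, h4, 𝔮₁, h1, h3, rfl⟩
      have hW' : (𝔲.map (fun w : ℚ => w)) ∈ WW Λ := hW
      have i1 := hK Λ N hN v hv hC ℚ (fun _ => 𝔲) (fun _ w => w)
        (Eventually.of_forall fun _ => hW')
      have i2 := hL Λ N hN v hv hC (fun _ => 𝔲)
        (Eventually.of_forall fun _ => hE) (fun V => -cc V)
      have i3 := hL Λ N hN v hv hC (fun _ => 𝔲)
        (Eventually.of_forall fun _ => hE) (fun V => 1 / cc V)
      obtain ⟨-, g2, g3, g4⟩ := hI Λ (A0 Λ) N hNT hN v ℚ (fun _ => 𝔲)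
      have i4 := g3 _ _ (g3 _ _ i2 i3) (g4 _ i1)
      have i5 : Ind Λ (A0 Λ) N v (fun _ => 𝔲) (fun _ w => un (1 + w ^ 2)) := by
        refine g2 _ _ i4 (Eventually.of_forall fun V => ?_)
        filter_upwards [hE.ne (-cc V), hE.ne (1 / cc V)] with w h1 h2
        exact point h1 h2
      have h5 := static i5 𝔮 𝔮' rfl (hN.le hg) he.symm (hN.le hg')
      have h6 : (Λ.l 𝔮' (fun p => Λ.θ p.2))⁻¹ *
          Λ.l 𝔮' (fun p => Λ.θ (p.2 * un (1 + p.1 ^ 2))) ∈ N :=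
        h5.mem le_rfl (N.mul_mem (N.inv_mem hg) hn)
      have h7 := N.mul_mem hg' h6
      rwa [mul_inv_cancel_left] at h7
  exact le_antisymm hN.le (sInf_le key)

end Pool.Agent.Work.MP_0f91f8_co.Lg
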