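import Pool.Agent.Work.MP_0f91f8_co.Lg.Stmts

/-!
Block [0f91f8 PI], item STEPK: step (I) for the machine of the twist.
-/

set_option linter.unusedSectionVars false

open Filter Topology

universe u

namespace Pool.Agent.Work.MP_0f91f8_co.Lg

open Pool.Agent.Work.MP_0f91f8_co.Cge (sd op aa cc bnd)
open Pool.Agent.Work.MP_0f91f8_co.Df (Mach MOK MK un un_val un_mul un_inv un_div un_one)

namespace I_STEPK

variable {E : Type u} [Group E] {G : Type} [CommGroup G] (Λ : LimGp G E)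

/-- the law of the choices `k₁`, `(h, z)`, `t`, `k₂`, with three inserted `k → 1` -/
def law4 (k : E → Ultrafilter G) (𝔬 : Ultrafilter (G × E)) (b : E) :
    Ultrafilter (G × G × ((G × E) × G × (G × G × G))) :=
  Λ.sdk (k b⁻¹) (fun _ => Λ.sdk 𝔬 (fun p => Λ.sdk (k p.2) (fun _ => k b)))

/-- iterated limits along `law4` -/
lemma l_law4 (k : E → Ultrafilter G) (𝔬 : Ultrafilter (G × E)) (b : E)
    (f₁ : G → G) (f₂ : G × E → G) (f₃ f₄ : G → G) :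
    Λ.l (law4 Λ k 𝔬 b) (fun P => Λ.θ (f₁ P.1 * P.2.1 *
      (f₂ P.2.2.1 * P.2.2.2.1 * (f₃ P.2.2.2.2.1 * P.2.2.2.2.2.1 * f₄ P.2.2.2.2.2.2)))) =
      Λ.l (k b⁻¹) (fun k₁ => Λ.θ (f₁ k₁) * Λ.l 𝔬 (fun p => Λ.θ (f₂ p) *
        Λ.l (k p.2) (fun t => Λ.θ (f₃ t) * Λ.l (k b) (fun k₂ => Λ.θ (f₄ k₂))))) := by
  have e1 := Λ.l_sdk_th (k b⁻¹) (fun _ => Λ.sdk 𝔬 (fun p => Λ.sdk (k p.2) (fun _ => k b)))
    f₁ (fun _ q => f₂ q.1 * q.2.1 * (f₃ q.2.2.1 * q.2.2.2.1 * f₄ q.2.2.2.2))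
  have e2 := Λ.l_sdk_th 𝔬 (fun p => Λ.sdk (k p.2) (fun _ => k b))
    f₂ (fun _ r => f₃ r.1 * r.2.1 * f₄ r.2.2)
  have e3 : ∀ p : G × E, Λ.l (Λ.sdk (k p.2) (fun _ => k b))
      (fun r => Λ.θ (f₃ r.1 * r.2.1 * f₄ r.2.2)) =
      Λ.l (k p.2) (fun t => Λ.θ (f₃ t) * Λ.l (k b) (fun k₂ => Λ.θ (f₄ k₂))) :=
    fun p => Λ.l_sdk_th (k p.2) (fun _ => k b) f₃ (fun _ => f₄)
  simp only [e3] at e2
  simp only [e2] at e1
  exact e1

/-- the first move -/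
def ma (k : E → Ultrafilter G) (𝔬 : Ultrafilter (G × E)) (b : E) : Ultrafilter (G × G) :=
  (law4 Λ k 𝔬 b).map (fun P => (P.2.2.2.2.1, P.1 * P.2.1 *
    (P.2.2.1.1 * P.2.2.2.1 * (P.2.2.2.2.2.1 * P.2.2.2.2.2.2))))

/-- the second move -/
def mb (k : E → Ultrafilter G) (𝔬 : Ultrafilter (G × E)) (b : E) : Ultrafilter (G × G) :=
  (law4 Λ k 𝔬 b).map (fun P => (P.2.2.2.2.1, P.2.1 * (P.2.2.2.1 * P.2.2.2.2.2.1)))

lemma fst_eq (k : E → Ultrafilter G) (𝔬 : Ultrafilter (G × E)) (b : E) :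
    (ma Λ k 𝔬 b).map Prod.fst = (mb Λ k 𝔬 b).map Prod.fst := by
  unfold ma mb
  rw [map_map', map_map']

variable {k : E → Ultrafilter G} (hk : ∀ e, Λ.l (k e) (fun g => Λ.θ g) = e)
  {𝔬 : Ultrafilter (G × E)} {q : E} (h1 : Λ.l 𝔬 (fun p => Λ.θ p.1) = 1)
  (h2 : Λ.l 𝔬 (fun p => p.2) = 1) (h3 : Λ.l 𝔬 (fun p => Λ.θ p.1 * p.2) = q) (b : E)

include hk

include h1 in
lemma P1_ma : P1 Λ (ma Λ k 𝔬 b) = 1 := by
  have e := l_law4 Λ k 𝔬 b (fun k₁ => k₁) (fun p => p.1) (fun _ => 1) (fun k₂ => k₂)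
  simp only [hk, Λ.l_const, map_one, one_mul, Λ.l_right, h1, inv_mul_cancel] at e
  exact e

include h3 in
lemma P2_ma (s : G) : P2 Λ (MK G) s (ma Λ k 𝔬 b) = b⁻¹ * q * b := by
  have e := l_law4 Λ k 𝔬 b (fun k₁ => k₁) (fun p => p.1) (fun t => t) (fun k₂ => k₂)
  simp only [hk, Λ.l_right] at e
  simp only [← mul_assoc, Λ.l_right] at e
  have e' : (fun p : G × E => Λ.θ p.1 * p.2 * b) = fun p => (Λ.θ p.1 * p.2) * b := rfl
  rw [h3] at e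
  rw [← e]
  show Λ.l (law4 Λ k 𝔬 b) (fun P => Λ.θ ((P.1 * P.2.1 *
    (P.2.2.1.1 * P.2.2.2.1 * (P.2.2.2.2.2.1 * P.2.2.2.2.2.2))) * P.2.2.2.2.1)) = _
  congr 1
  funext P
  congr 1
  simp only [mul_comm, mul_left_comm]

omit hk in
lemma P1_mb : P1 Λ (mb Λ k 𝔬 b) = 1 := by
  have e := l_law4 Λ k 𝔬 b (fun _ => 1) (fun _ => 1) (fun _ => 1) (fun _ => 1)
  simp only [Λ.l_const, map_one, one_mul, mul_one] at e
  exact e

include h2 in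
lemma P2_mb (s : G) : P2 Λ (MK G) s (mb Λ k 𝔬 b) = 1 := by
  have e := l_law4 Λ k 𝔬 b (fun _ => 1) (fun _ => 1) (fun t => t) (fun _ => 1)
  simp only [Λ.l_const, map_one, one_mul, mul_one, hk, h2] at e
  rw [← e]
  show Λ.l (law4 Λ k 𝔬 b) (fun P => Λ.θ ((P.2.1 * (P.2.2.2.1 * P.2.2.2.2.2.1)) *
    P.2.2.2.2.1)) = _
  congr 1
  funext P
  congr 1
  simp only [mul_comm, mul_left_comm]

end I_STEPK

variable (E : Type u) [Group E]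

/-- step (I) for the twist -/
theorem STEPK_pf : STEPK E := by
  intro G _ Λ v N hN hC
  classical
  choose k hk using Λ.exists_law
  have key : ∀ b : E, ∀ q ∈ Λ.QQ (⊤ : Subgroup E), b⁻¹ * q * b ∈ N := by
    intro b q hq
    have hA : b⁻¹ * q * b ∈ Λ.DD ⊤ := LimGp.mem_DD b hq
    obtain ⟨𝔬, -, h1, h2, h3⟩ := hq
    have p1 : P1 Λ (I_STEPK.ma Λ k 𝔬 b) = 1 := I_STEPK.P1_ma Λ hk h1 b
    have p2 : ∀ s, P2 Λ (MK G) s (I_STEPK.ma Λ k 𝔬 b) = b⁻¹ * q * b :=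
      fun s => I_STEPK.P2_ma Λ hk h3 b s
    have p3 : P1 Λ (I_STEPK.mb Λ k 𝔬 b) = 1 := I_STEPK.P1_mb Λ b
    have p4 : ∀ s, P2 Λ (MK G) s (I_STEPK.mb Λ k 𝔬 b) = 1 :=
      fun s => I_STEPK.P2_mb Λ hk h2 b s
    have hS : Sel Λ (MK G) (Λ.DD ⊤) (fun _ => I_STEPK.ma Λ k 𝔬 b) := by
      intro s _
      refine ⟨Set.mem_univ _, ?_, ?_⟩
      · rw [p1]
        exact (Λ.DD ⊤).one_mem
      · rw [p2]
        exact hA
    have hS' : Sel Λ (MK G) (Λ.DD ⊤) (fun _ => I_STEPK.mb Λ k 𝔬 b) := by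
      intro s _
      refine ⟨Set.mem_univ _, ?_, ?_⟩
      · rw [p3]
        exact (Λ.DD ⊤).one_mem
      · rw [p4]
        exact (Λ.DD ⊤).one_mem
    have hc := hC _ _ hS hS' (fun s _ => I_STEPK.fst_eq Λ k 𝔬 b)
    have i1 : I1 Λ v (fun _ => I_STEPK.ma Λ k 𝔬 b) = 1 := by
      unfold I1
      simp only [p1]
      rw [Λ.l_const]
    have i2 : I2 Λ (MK G) v (fun _ => I_STEPK.ma Λ k 𝔬 b) = b⁻¹ * q * b := by
      unfold I2
      simp only [p2]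
      rw [Λ.l_const]
    have i3 : I1 Λ v (fun _ => I_STEPK.mb Λ k 𝔬 b) = 1 := by
      unfold I1
      simp only [p3]
      rw [Λ.l_const]
    have i4 : I2 Λ (MK G) v (fun _ => I_STEPK.mb Λ k 𝔬 b) = 1 := by
      unfold I2
      simp only [p4]
      rw [Λ.l_const]
    rw [i1, i2, i3, i4] at hc
    unfold Eqm at hc
    have := N.inv_mem hc
    simpa [mul_assoc] using this
  exact le_antisymm hN.le (LimGp.DD_le hN.closed key)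

end Pool.Agent.Work.MP_0f91f8_co.Lg
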