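import Pool.Agent.Work.MP_0f91f8_co.Lg.Stmts

/-!
Block [0f91f8 PI], item TCL: the calculus of the `τ`-closure in limit groups.
-/

set_option linter.unusedSectionVars false

open Filter Topology

universe u v

namespace Pool.Agent.Work.MP_0f91f8_co.Lg

open Pool.Agent.Work.MP_0f91f8_co.Cge (sd op aa cc bnd)
open Pool.Agent.Work.MP_0f91f8_co.Df (Mach MOK MK un un_val un_mul un_inv un_div un_one)

variable (E : Type u) [Group E]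

namespace I_TCL

section

variable {E : Type u} [Group E] {G : Type} [CommGroup G] (Λ : LimGp G E)

lemma mono {S S' : Set E} (hS : S ⊆ S') : Λ.tcl S ⊆ Λ.tcl S' := by
  rintro y ⟨𝔬, h0, h1, h2⟩
  exact ⟨𝔬, h0.mono fun p hp => hS hp, h1, h2⟩

lemma mem_tcl {Ω : Type v} {S : Set E} {𝔬 : Ultrafilter Ω} {k : Ω → G} {z : Ω → E}
    (h0 : ∀ᶠ ω in (𝔬 : Filter Ω), z ω ∈ S) (h1 : Λ.l 𝔬 (fun ω => Λ.θ (k ω)) = 1) :
    Λ.l 𝔬 (fun ω => Λ.θ (k ω) * z ω) ∈ Λ.tcl S :=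
  ⟨𝔬.map (fun ω => (k ω, z ω)), h0, h1, rfl⟩

lemma sub (S : Set E) : S ⊆ Λ.tcl S := by
  intro a ha
  refine ⟨pure (1, a), ?_, ?_, ?_⟩
  · simp only [Ultrafilter.coe_pure]
    rw [eventually_pure]
    exact ha
  · rw [Λ.l_pure, map_one]
  · rw [Λ.l_pure, map_one, one_mul]

lemma idem (S : Set E) : Λ.tcl (Λ.tcl S) ⊆ Λ.tcl S := by
  rintro y ⟨𝔬, h0, h1, h2⟩
  have hch : ∀ z : E, ∃ 𝔬' : Ultrafilter (G × E), z ∈ Λ.tcl S →
      (∀ᶠ p in (𝔬' : Filter (G × E)), p.2 ∈ S) ∧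
        Λ.l 𝔬' (fun p => Λ.θ p.1) = 1 ∧ Λ.l 𝔬' (fun p => Λ.θ p.1 * p.2) = z := by
    intro z
    by_cases hz : z ∈ Λ.tcl S
    · obtain ⟨𝔬', h⟩ := hz
      exact ⟨𝔬', fun _ => h⟩
    · exact ⟨pure (1, 1), fun h => absurd h hz⟩
  choose 𝔬' h𝔬' using hch
  have key := mem_tcl Λ (S := S) (𝔬 := Λ.sdk 𝔬 (fun p => 𝔬' p.2))
    (k := fun P => P.1.1 * P.2.1 * P.2.2.1) (z := fun P => P.2.2.2) (by
      rw [Λ.ev_sdk' 𝔬 (fun p => 𝔬' p.2) (fun _ q => q.2 ∈ S)]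
      filter_upwards [h0] with p hp
      exact (h𝔬' p.2 hp).1) (by
      rw [Λ.l_sdk_th 𝔬 (fun p => 𝔬' p.2) (fun p => p.1) (fun _ q => q.1)]
      refine Eq.trans (Λ.l_congr ?_) h1
      filter_upwards [h0] with p hp
      rw [(h𝔬' p.2 hp).2.1, mul_one])
  rw [Λ.l_sdk_th_mul 𝔬 (fun p => 𝔬' p.2) (fun p => p.1) (fun _ q => q.1) (fun _ q => q.2)] at key
  have e3 : Λ.l 𝔬 (fun p => Λ.θ p.1 * Λ.l (𝔬' p.2) (fun q => Λ.θ q.1 * q.2)) = y := by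
    refine Eq.trans (Λ.l_congr ?_) h2
    filter_upwards [h0] with p hp
    rw [(h𝔬' p.2 hp).2.2]
  rwa [e3] at key

lemma union (S S' : Set E) : Λ.tcl (S ∪ S') = Λ.tcl S ∪ Λ.tcl S' := by
  apply Set.Subset.antisymm
  · rintro y ⟨𝔬, h0, h1, h2⟩
    have h3 : ∀ᶠ p in (𝔬 : Filter (G × E)), p.2 ∈ S ∨ p.2 ∈ S' := h0
    rcases Ultrafilter.eventually_or.1 h3 with h | h
    · exact Or.inl ⟨𝔬, h, h1, h2⟩
    · exact Or.inr ⟨𝔬, h, h1, h2⟩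
  · exact Set.union_subset (mono Λ Set.subset_union_left) (mono Λ Set.subset_union_right)

lemma mr (S : Set E) (a : E) {y : E} (hy : y ∈ Λ.tcl S) :
    y * a ∈ Λ.tcl ((fun x => x * a) '' S) := by
  obtain ⟨𝔬, h0, h1, h2⟩ := hy
  have := mem_tcl Λ (S := (fun x => x * a) '' S) (𝔬 := 𝔬) (k := fun p => p.1)
    (z := fun p => p.2 * a) (h0.mono fun p hp => ⟨p.2, hp, rfl⟩) h1
  have e : Λ.l 𝔬 (fun p : G × E => Λ.θ p.1 * (p.2 * a)) = y * a := by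
    rw [← h2, ← Λ.l_right]
    simp only [mul_assoc]
  rwa [e] at this

lemma ml (S : Set E) (x : E) {y : E} (hy : y ∈ Λ.tcl S) :
    x * y ∈ Λ.tcl ((fun z => x * z) '' S) := by
  obtain ⟨𝔬, h0, h1, h2⟩ := hy
  obtain ⟨k, hk⟩ := Λ.exists_law x
  obtain ⟨r, hr⟩ := Λ.exists_law x⁻¹
  have key : ∀ f : G × E → E, Λ.l (Λ.sdk k (fun _ => Λ.sdk 𝔬 (fun _ => r)))
      (fun p => Λ.θ (p.1 * p.2.1 * (p.2.2.1.1 * p.2.2.2.1 * p.2.2.2.2)) * f p.2.2.1) =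
      x * Λ.l 𝔬 (fun p => Λ.θ p.1 * (x⁻¹ * f p)) := by
    intro f
    rw [Λ.l_sdk_th_mul k (fun _ => Λ.sdk 𝔬 (fun _ => r)) (fun g => g)
      (fun _ q => q.1.1 * q.2.1 * q.2.2) (fun _ q => f q.1)]
    have e1 : Λ.l (Λ.sdk 𝔬 (fun _ => r)) (fun q => Λ.θ (q.1.1 * q.2.1 * q.2.2) * f q.1) =
        Λ.l 𝔬 (fun p => Λ.θ p.1 * (x⁻¹ * f p)) := by
      rw [Λ.l_sdk_th_mul 𝔬 (fun _ => r) (fun p => p.1) (fun _ g => g) (fun p _ => f p)]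
      simp only [Λ.l_right, hr]
    rw [e1, Λ.l_right, hk]
  have h3 := mem_tcl Λ (S := (fun z => x * z) '' S)
    (𝔬 := Λ.sdk k (fun _ => Λ.sdk 𝔬 (fun _ => r)))
    (k := fun p => p.1 * p.2.1 * (p.2.2.1.1 * p.2.2.2.1 * p.2.2.2.2))
    (z := fun p => x * p.2.2.1.2) (by
      rw [Λ.ev_sdk' k (fun _ => Λ.sdk 𝔬 (fun _ => r))
          (fun _ q => x * q.1.2 ∈ (fun z => x * z) '' S),
        eventually_const, Λ.ev_sdk' 𝔬 (fun _ => r) (fun p _ => x * p.2 ∈ (fun z => x * z) '' S)]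
      simp only [eventually_const]
      exact h0.mono fun p hp => ⟨p.2, hp, rfl⟩) (by
      have := key (fun _ => 1)
      simp only [mul_one, Λ.l_right, h1, one_mul, mul_inv_cancel] at this
      exact this)
  rw [key (fun p => x * p.2)] at h3
  simp only [inv_mul_cancel_left] at h3
  rwa [h2] at h3

lemma iv (S : Set E) {y : E} (hy : y ∈ Λ.tcl S) : y⁻¹ ∈ Λ.tcl ((fun z => z⁻¹) '' S) := by
  obtain ⟨𝔬, h0, h1, h2⟩ := hy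
  obtain ⟨k, hk⟩ := Λ.exists_law y⁻¹
  choose r hr using Λ.exists_law
  have key : ∀ f : E → E, Λ.l (Λ.sdk k (fun _ => Λ.sdk 𝔬 (fun p => r p.2)))
      (fun p => Λ.θ (p.1 * p.2.1 * (p.2.2.1.1 * p.2.2.2.1 * p.2.2.2.2)) * f p.2.2.1.2) =
      y⁻¹ * Λ.l 𝔬 (fun p => Λ.θ p.1 * (p.2 * f p.2)) := by
    intro f
    rw [Λ.l_sdk_th_mul k (fun _ => Λ.sdk 𝔬 (fun p => r p.2)) (fun g => g)
      (fun _ q => q.1.1 * q.2.1 * q.2.2) (fun _ q => f q.1.2)]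
    have e1 : Λ.l (Λ.sdk 𝔬 (fun p => r p.2)) (fun q => Λ.θ (q.1.1 * q.2.1 * q.2.2) * f q.1.2) =
        Λ.l 𝔬 (fun p => Λ.θ p.1 * (p.2 * f p.2)) := by
      rw [Λ.l_sdk_th_mul 𝔬 (fun p => r p.2) (fun p => p.1) (fun _ g => g) (fun p _ => f p.2)]
      simp only [Λ.l_right, hr]
    rw [e1, Λ.l_right, hk]
  have h3 := mem_tcl Λ (S := (fun z => z⁻¹) '' S)
    (𝔬 := Λ.sdk k (fun _ => Λ.sdk 𝔬 (fun p => r p.2)))
    (k := fun p => p.1 * p.2.1 * (p.2.2.1.1 * p.2.2.2.1 * p.2.2.2.2))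
    (z := fun p => p.2.2.1.2⁻¹) (by
      rw [Λ.ev_sdk' k (fun _ => Λ.sdk 𝔬 (fun p => r p.2))
          (fun _ q => q.1.2⁻¹ ∈ (fun z => z⁻¹) '' S),
        eventually_const, Λ.ev_sdk' 𝔬 (fun p => r p.2) (fun p _ => p.2⁻¹ ∈ (fun z => z⁻¹) '' S)]
      simp only [eventually_const]
      exact h0.mono fun p hp => ⟨p.2, hp, rfl⟩) (by
      have := key (fun _ => 1)
      simp only [mul_one, h2, inv_mul_cancel] at this
      exact this)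
  rw [key (fun z => z⁻¹)] at h3
  simp only [mul_inv_cancel, mul_one] at h3
  rwa [h1, mul_one] at h3

end

end I_TCL

/-- item TCL -/
theorem TCL_pf : TCL E := by
  intro G _ Λ
  refine ⟨?_, I_TCL.sub Λ, fun S S' => I_TCL.mono Λ, I_TCL.idem Λ, I_TCL.union Λ, ?_, ?_, ?_⟩
  · refine Set.eq_empty_of_forall_notMem fun y hy => ?_
    obtain ⟨𝔬, h0, -⟩ := hy
    exact h0.exists.choose_spec
  · intro S a
    apply Set.Subset.antisymm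
    · intro y hy
      refine ⟨y * a⁻¹, ?_, by simp⟩
      refine I_TCL.mono Λ ?_ (I_TCL.mr Λ _ a⁻¹ hy)
      rintro _ ⟨_, ⟨z, hz, rfl⟩, rfl⟩
      simpa using hz
    · rintro _ ⟨y, hy, rfl⟩
      exact I_TCL.mr Λ S a hy
  · intro S a
    apply Set.Subset.antisymm
    · intro y hy
      refine ⟨a⁻¹ * y, ?_, by simp⟩
      refine I_TCL.mono Λ ?_ (I_TCL.ml Λ _ a⁻¹ hy)
      rintro _ ⟨_, ⟨z, hz, rfl⟩, rfl⟩
      simpa using hz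
    · rintro _ ⟨y, hy, rfl⟩
      exact I_TCL.ml Λ S a hy
  · intro S
    apply Set.Subset.antisymm
    · intro y hy
      refine ⟨y⁻¹, ?_, by simp⟩
      refine I_TCL.mono Λ ?_ (I_TCL.iv Λ _ hy)
      rintro _ ⟨_, ⟨z, hz, rfl⟩, rfl⟩
      simpa using hz
    · rintro _ ⟨y, hy, rfl⟩
      exact I_TCL.iv Λ S hy

end Pool.Agent.Work.MP_0f91f8_co.Lg
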