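import Pool.Agent.Work.MP_0f91f8_co.Lg.Stmts

/-!
Block [0f91f8 PI], item TWIST.
-/

set_option linter.unusedSectionVars false

open Filter Topology

universe u

namespace Pool.Agent.Work.MP_0f91f8_co.Lg

open Pool.Agent.Work.MP_0f91f8_co.Cge (sd op aa cc bnd)
open Pool.Agent.Work.MP_0f91f8_co.Df (Mach MOK MK un un_val un_mul un_inv un_div un_one)

theorem TWIST_pf (E : Type u) [Group E] (hB : BRA E) (hEK : EKBND E) (hC : COMPEN E) :
    TWIST E := by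
  intro Λ κ
  obtain ⟨𝔲₀, hek⟩ := hB Λ κ
  obtain ⟨e, 𝔲', h0, h1, h2⟩ := hC Λ 𝔲₀ hek.e1
  exact ⟨bnd 𝔲₀ (fun _ => 𝔲'), hEK Λ κ _ _ hek (Eventually.of_forall fun _ => h1),
    h2 _ hek.e1 h0⟩

end Pool.Agent.Work.MP_0f91f8_co.Lg
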