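import Pool.Agent.Work.MP_0f91f8_co.Lg.Stmts

/-!
Item WWP of block [0f91f8 PI]: closedness and adaptive closedness of `WW`.
-/

set_option linter.unusedSectionVars false
set_option linter.unusedVariables false

open Filter Topology

universe u

namespace Pool.Agent.Work.MP_0f91f8_co.Lg

open Pool.Agent.Work.MP_0f91f8_co.Cge (sd op aa cc bnd)
open Pool.Agent.Work.MP_0f91f8_co.Df (Mach MOK MK un un_val un_mul un_inv un_div un_one)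

variable (E : Type u) [Group E]

theorem WWP_pf (hR : RIG E) (hE : E1BND E) (hM : MOB E) (hN : NUB E) : WWP E := by
  classical
  intro Λ
  obtain ⟨hrig, -⟩ := hR Λ
  obtain ⟨hM0, hMc, -⟩ := hM Λ
  have hTC := hrig.closed
  refine ⟨?_, ⟨hM0, 1, (A0 Λ).one_mem, ?_⟩, ?_⟩
  · apply isClosed_of_bind
    intro F hF
    have hF1 : ∀ᶠ f in (F : Filter (Ultrafilter ℚ)), f ∈ {𝔲 | E1 Λ 𝔲} := hF.mono fun _ h => h.1
    have h1 : F.bind (fun f => f) ∈ {𝔲 | E1 Λ 𝔲} := mem_of_bind hMc hF1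
    -- choose the couplings
    have hch : ∀ f : Ultrafilter ℚ, ∃ 𝔮 : Ultrafilter (ℚ × ℚˣ), f ∈ WW Λ →
        𝔮.map Prod.fst = f ∧ Λ.l 𝔮 (fun p => Λ.θ p.2) = 1 ∧
          Λ.l 𝔮 (fun p => Λ.θ (p.2 * un (1 + p.1 ^ 2))) ∈ A0 Λ := by
      intro f
      by_cases hf : f ∈ WW Λ
      · obtain ⟨-, a, ha, 𝔮, h1, h2, h3⟩ := hf
        exact ⟨𝔮, fun _ => ⟨h1, h2, by rw [h3]; exact ha⟩⟩
      · exact ⟨pure (0, 1), fun h => absurd h hf⟩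
    choose 𝔮 h𝔮 using hch
    refine ⟨h1, Λ.l F (fun f => Λ.l (𝔮 f) (fun p => Λ.θ (p.2 * un (1 + p.1 ^ 2)))), ?_, ?_⟩
    · exact hTC.mem (hF.mono fun f hf => (h𝔮 f hf).2.2)
    · refine ⟨(Λ.sdk F 𝔮).map (fun P => (P.2.2.1, P.2.1 * P.2.2.2)), ?_, ?_, ?_⟩
      · have e1 : ((Λ.sdk F 𝔮).map (fun P => (P.2.2.1, P.2.1 * P.2.2.2))).map Prod.fst =
            (Λ.sdk F 𝔮).map (fun P => P.2.2.1) := rfl
        rw [e1, Λ.sdk_map F 𝔮 (fun _ p => p.1)]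
        exact bind_congr (hF.mono fun f hf => (h𝔮 f hf).1)
      · rw [Λ.l_map]
        have e1 := Λ.l_sdk_th F 𝔮 (fun _ => 1) (fun _ p => p.2)
        simp only [one_mul, map_one] at e1
        rw [e1, Λ.l_congr (hF.mono fun f hf => (h𝔮 f hf).2.1), Λ.l_const]
      · rw [Λ.l_map]
        have e1 := Λ.l_sdk_th F 𝔮 (fun _ => 1) (fun _ p => p.2 * un (1 + p.1 ^ 2))
        simp only [one_mul, map_one] at e1
        rw [← e1]
        simp only [mul_assoc]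
  · refine ⟨pure (0, 1), rfl, ?_, ?_⟩
    · rw [Λ.l_pure, map_one]
    · rw [Λ.l_pure]
      have : (1 : ℚ) + 0 ^ 2 = 1 := by norm_num
      simp only [this, un_one, one_mul, map_one]
  · intro 𝔲 m hu hm
    obtain ⟨hu1, a, ha, 𝔮, h𝔮1, h𝔮2, h𝔮3⟩ := hu
    subst h𝔮1
    have hm1 : ∀ᶠ V in (𝔮.map Prod.fst : Filter ℚ), E1 Λ (m V) := hm.mono fun _ hV => hV.1
    refine ⟨hE Λ (𝔮.map Prod.fst) m hu1 hm1, ?_⟩
    have hch : ∀ V : ℚ, ∃ e : E, e ∈ A0 Λ ∧ (m V ∈ WW Λ → NU Λ (m V) e) := by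
      intro V
      by_cases hV : m V ∈ WW Λ
      · obtain ⟨-, e, he, hn⟩ := hV
        exact ⟨e, he, fun _ => hn⟩
      · exact ⟨1, (A0 Λ).one_mem, fun h => absurd h hV⟩
    choose e he hne using hch
    obtain ⟨e', h1, h2⟩ := hN Λ 𝔮 m e hu1 h𝔮2 (by
      have : ∀ᶠ p in (𝔮 : Filter (ℚ × ℚˣ)), m p.1 ∈ WW Λ := hm
      exact this.mono fun p hp => ⟨hp.1, hne p.1 hp⟩)
    refine ⟨e', ?_, h1⟩
    have h3 : Eqm (A0 Λ) (Λ.l 𝔮 (fun p => Λ.θ (p.2 * un (1 + p.1 ^ 2))))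
        (Λ.l 𝔮 (fun p => Λ.θ (p.2 * un (1 + p.1 ^ 2)) * e p.1)) :=
      hTC.prod_mem _ _ (Eventually.of_forall fun p => he p.1)
    exact (h3.trans h2).mem le_rfl (by rw [h𝔮3]; exact ha)

end Pool.Agent.Work.MP_0f91f8_co.Lg
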