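import Pool.Agent.Work.MP_0f91f8_co.Lg.Stmts

/-!
Block [0f91f8 PI], item YEX: the minimal set and its group.
-/

set_option linter.unusedSectionVars false

open Filter Topology

universe u

namespace Pool.Agent.Work.MP_0f91f8_co.Lg

open Pool.Agent.Work.MP_0f91f8_co.Cge (sd op aa cc bnd)
open Pool.Agent.Work.MP_0f91f8_co.Df (Mach MOK MK un un_val un_mul un_inv un_div un_one)

namespace I_YEX

section

variable {S T G : Type} [CommGroup G] {E : Type u} [Group E] {Λ : LimGp G E} {K : Mach S T G}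
  {A : Subgroup E}

/-- intersections of chains -/
lemma Inv_sInter {c : Set (Set (Ultrafilter S × E × E))} (hne : c.Nonempty)
    (h : ∀ Y ∈ c, Inv Λ K A Y) : Inv Λ K A (⋂₀ c) where
  closed f hf := by
    intro Y hY
    exact (h Y hY).closed f (hf.mono fun p hp => hp Y hY)
  good p hp := by
    obtain ⟨Y, hY⟩ := hne
    exact (h Y hY).good p (hp Y hY)
  mem p hp := by
    obtain ⟨Y, hY⟩ := hne
    exact (h Y hY).mem p (hp Y hY)
  sat p hp a b ha hb := by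
    intro Y hY
    exact (h Y hY).sat p (hp Y hY) a b ha hb
  move p hp F hF := by
    intro Y hY
    exact (h Y hY).move p (hp Y hY) F hF

lemma nonempty_sInter {c : Set (Set (Ultrafilter S × E × E))} (hne : c.Nonempty)
    (hc : IsChain (· ⊆ ·) c) (h : ∀ Y ∈ c, Inv Λ K A Y) (hn : ∀ Y ∈ c, Y.Nonempty) :
    (⋂₀ c).Nonempty := by
  classical
  choose p hp using fun Y : {Y // Y ∈ c} => hn Y.1 Y.2
  have : Nonempty {Y // Y ∈ c} := hne.to_subtype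
  have hdir : Directed (· ≥ ·) (fun Y : {Y // Y ∈ c} => 𝓟 {Y' : {Y // Y ∈ c} | Y'.1 ⊆ Y.1}) := by
    intro Y₁ Y₂
    rcases hc.total Y₁.2 Y₂.2 with h12 | h21
    · exact ⟨Y₁, le_refl _, principal_mono.2 fun Y' hY' => Set.Subset.trans hY' h12⟩
    · exact ⟨Y₂, principal_mono.2 fun Y' hY' => Set.Subset.trans hY' h21, le_refl _⟩
  have hNB : (⨅ Y : {Y // Y ∈ c}, 𝓟 {Y' : {Y // Y ∈ c} | Y'.1 ⊆ Y.1}).NeBot := by
    refine iInf_neBot_of_directed' hdir fun Y => ?_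
    exact principal_neBot_iff.2 ⟨Y, Set.Subset.refl _⟩
  set 𝔣 : Ultrafilter {Y // Y ∈ c} :=
    Ultrafilter.of (⨅ Y : {Y // Y ∈ c}, 𝓟 {Y' : {Y // Y ∈ c} | Y'.1 ⊆ Y.1}) with h𝔣
  have hev : ∀ Y (hY : Y ∈ c), ∀ᶠ q in ((𝔣.map p : Ultrafilter _) : Filter _), q ∈ Y := by
    intro Y hY
    rw [ev_map]
    have h1 : {Y' : {Y // Y ∈ c} | Y'.1 ⊆ Y} ∈ (𝔣 : Filter {Y // Y ∈ c}) := by
      have h2 : {Y' : {Y // Y ∈ c} | Y'.1 ⊆ Y} ∈
          (⨅ Y : {Y // Y ∈ c}, 𝓟 {Y' : {Y // Y ∈ c} | Y'.1 ⊆ Y.1}) :=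
        mem_iInf_of_mem ⟨Y, hY⟩ (mem_principal_self _)
      exact Ultrafilter.of_le _ h2
    filter_upwards [h1] with Y' hY'
    exact hY' (hp Y')
  exact ⟨_, fun Y hY => (h Y hY).closed (𝔣.map p) (hev Y hY)⟩

/-- the translate -/
def Tr (Y : Set (Ultrafilter S × E × E)) (h₁ h₂ : E) : Set (Ultrafilter S × E × E) :=
  {p | p ∈ Y ∧ (p.1, h₁ * p.2.1, h₂ * p.2.2) ∈ Y}

lemma Inv_Tr (hA : Λ.NT A) {Y : Set (Ultrafilter S × E × E)} (hY : Inv Λ K A Y) {h₁ h₂ : E} :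
    Inv Λ K A (Tr Y h₁ h₂) where
  closed f hf := by
    have hf1 : ∀ᶠ p in (f : Filter (Ultrafilter S × E × E)), p ∈ Y := hf.mono fun p hp => hp.1
    refine ⟨hY.closed f hf1, ?_⟩
    have h1 := hY.closed (f.map (fun p => (p.1, h₁ * p.2.1, h₂ * p.2.2)))
      ((ev_map f (fun p => (p.1, h₁ * p.2.1, h₂ * p.2.2)) (fun p => p ∈ Y)).2
        (hf.mono fun p hp => hp.2))
    refine hY.sat _ h1 _ _ ?_ ?_
    · show Eqm (Λ.DD A) (Λ.l f (fun p => h₁ * p.2.1)) (h₁ * Λ.l f (fun p => p.2.1))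
      have h2 := Eqm.prod (Λ := Λ) hA.closed (𝔬 := f) (fun _ => h₁) (fun p => p.2.1)
        (hf1.mono fun p hp => (hY.mem p hp).1)
      rw [Λ.l_const] at h2
      exact h2.symm
    · show Eqm (Λ.DD A) (Λ.l f (fun p => h₂ * p.2.2)) (h₂ * Λ.l f (fun p => p.2.2))
      have h2 := Eqm.prod (Λ := Λ) hA.closed (𝔬 := f) (fun _ => h₂) (fun p => p.2.2)
        (hf1.mono fun p hp => (hY.mem p hp).2)
      rw [Λ.l_const] at h2
      exact h2.symm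
  good p hp := hY.good p hp.1
  mem p hp := hY.mem p hp.1
  sat p hp a b ha hb := ⟨hY.sat p hp.1 a b ha hb,
    hY.sat _ hp.2 _ _ (ha.left h₁) (hb.left h₂)⟩
  move p hp F hF := by
    refine ⟨hY.move p hp.1 F hF, ?_⟩
    have h1 := hY.move _ hp.2 F hF
    simp only [mul_assoc] at h1 ⊢
    exact h1

/-- the constant move -/
def cm (T : Type) (K : Mach S T G) (k : Ultrafilter G) : Ultrafilter (T × G) :=
  k.map (fun g => (K.one, g))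

lemma cm_fst (k : Ultrafilter G) : (cm T K k).map Prod.fst = (pure K.one : Ultrafilter T) := by
  show k.map (fun _ => K.one) = pure K.one
  exact map_const' k K.one

lemma P1_cm (k : Ultrafilter G) : P1 Λ (cm T K k) = Λ.l k (fun g => Λ.θ g) := rfl

lemma P2_cm (hK : MOK K) (k : Ultrafilter G) {s : S} (hs : s ∈ K.S₀) :
    P2 Λ K s (cm T K k) = Λ.l k (fun g => Λ.θ g) := by
  show Λ.l k (fun g => Λ.θ (g * K.r s K.one)) = Λ.l k (fun g => Λ.θ g)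
  simp only [hK.r_one s hs, mul_one]

lemma mv_cm (hK : MOK K) (k : Ultrafilter G) {v : Ultrafilter S}
    (hv : ∀ᶠ s in (v : Filter S), s ∈ K.S₀) : mv K v (fun _ => cm T K k) = v := by
  have h1 : mv K v (fun _ => cm T K k) = v.bind (fun s => (pure s : Ultrafilter S)) := by
    unfold mv
    apply bind_congr
    filter_upwards [hv] with s hs
    show k.map (fun _ => K.act s K.one) = pure s
    rw [map_const', hK.act_one s hs]
  rw [h1]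
  exact bind_pure' v

end

end I_YEX

open I_YEX in
theorem YEX_pf (E : Type u) [Group E] (hS : CSE E) (hR : RCH E) : YEX E := by
  classical
  intro S T G _ Λ K hK A hA s₀ hs₀
  obtain ⟨hInvR, hneR⟩ := hR S T G Λ K hK A hA s₀ hs₀
  -- a minimal set
  obtain ⟨Y, hYm⟩ := zorn_superset
    {Y : Set (Ultrafilter S × E × E) | Y ⊆ Rch Λ K A s₀ ∧ Y.Nonempty ∧ Inv Λ K A Y} (by
      intro c hc hch
      rcases c.eq_empty_or_nonempty with rfl | hcne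
      · exact ⟨Rch Λ K A s₀, ⟨Set.Subset.refl _, hneR, hInvR⟩, fun s hs => absurd hs (by simp)⟩
      · refine ⟨⋂₀ c, ⟨?_, ?_, ?_⟩, fun s hs => Set.sInter_subset_of_mem hs⟩
        · obtain ⟨Z, hZ⟩ := hcne
          exact (Set.sInter_subset_of_mem hZ).trans (hc hZ).1
        · exact nonempty_sInter hcne hch (fun Z hZ => (hc hZ).2.2) (fun Z hZ => (hc hZ).2.1)
        · exact Inv_sInter hcne (fun Z hZ => (hc hZ).2.2))
  obtain ⟨hYR, hYne, hY⟩ := hYm.prop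
  obtain ⟨x, hx⟩ := hYne
  obtain ⟨m, hm, hxm, -, -⟩ := hYR hx
  have hv : ∀ᶠ s in (x.1 : Filter S), s ∈ K.S₀ := hY.good x hx
  have hz1 : x.2.1 ∈ A := (hY.mem x hx).1
  have hz2 : x.2.2 ∈ A := (hY.mem x hx).2
  -- one point is enough
  have key : ∀ h₁ h₂ : E, ∀ y ∈ Y, (y.1, h₁ * y.2.1, h₂ * y.2.2) ∈ Y →
      ∀ z ∈ Y, (z.1, h₁ * z.2.1, h₂ * z.2.2) ∈ Y := by
    intro h₁ h₂ y hy hhy z hz
    have h1 : Tr Y h₁ h₂ ⊆ Y := fun p hp => hp.1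
    have h2 : Y ⊆ Tr Y h₁ h₂ :=
      hYm.le_of_le ⟨h1.trans hYR, ⟨y, hy, hhy⟩, Inv_Tr hA hY⟩ h1
    exact (h2 hz).2
  -- the group of pairs
  let H : Set (E × E) := {h | ∀ z ∈ Y, (z.1, h.1 * z.2.1, h.2 * z.2.2) ∈ Y}
  have hHmul : ∀ h ∈ H, ∀ k ∈ H, h * k ∈ H := by
    intro h hh k hk z hz
    have h1 := hh _ (hk z hz)
    simp only [← mul_assoc] at h1
    exact h1
  have hHone : ((1 : E), (1 : E)) ∈ H := by
    intro z hz
    simp only [one_mul]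
    exact hz
  have hHx : ∀ h : E × E, (x.1, h.1 * x.2.1, h.2 * x.2.2) ∈ Y → h ∈ H :=
    fun h hh => key h.1 h.2 x hx hh
  -- closed under limits
  have hlim : ∀ f : Ultrafilter E, (∀ᶠ n in (f : Filter E), n ∈ {n | n ∈ A ∧ ((1 : E), n) ∈ H}) →
      Λ.lim f ∈ {n | n ∈ A ∧ ((1 : E), n) ∈ H} := by
    intro f hf
    refine ⟨hA.closed.mem (𝔬 := f) (z := fun n => n) (hf.mono fun n hn => hn.1), ?_⟩
    refine hHx _ ?_
    have h1 := hY.closed (f.map (fun n => (x.1, (1 : E) * x.2.1, n * x.2.2)))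
      (hf.mono fun n hn => hn.2 x hx)
    have h2 : (f.map (fun n => (x.1, (1 : E) * x.2.1, n * x.2.2))).bind (fun p => p.1) = x.1 := by
      show f.bind (fun _ => x.1) = x.1
      exact bind_const' f x.1
    have h3 : Λ.l (f.map (fun n => (x.1, (1 : E) * x.2.1, n * x.2.2))) (fun p => p.2.1) =
        1 * x.2.1 := by
      show Λ.l f (fun _ => (1 : E) * x.2.1) = 1 * x.2.1
      exact Λ.l_const f _
    have h4 : Λ.l (f.map (fun n => (x.1, (1 : E) * x.2.1, n * x.2.2))) (fun p => p.2.2) =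
        Λ.lim f * x.2.2 := by
      show Λ.l f (fun n => n * x.2.2) = Λ.lim f * x.2.2
      exact Λ.l_right f (fun n => n) x.2.2
    rw [h2, h3, h4] at h1
    exact h1
  have hNmul : ∀ a ∈ {n | n ∈ A ∧ ((1 : E), n) ∈ H}, ∀ b ∈ {n | n ∈ A ∧ ((1 : E), n) ∈ H},
      a * b ∈ {n | n ∈ A ∧ ((1 : E), n) ∈ H} := by
    intro a ha b hb
    refine ⟨A.mul_mem ha.1 hb.1, ?_⟩
    have := hHmul _ ha.2 _ hb.2
    rwa [Prod.mk_mul_mk, mul_one] at this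
  obtain ⟨hone, hinv⟩ := hS G Λ {n | n ∈ A ∧ ((1 : E), n) ∈ H} hlim
    ⟨1, A.one_mem, hHone⟩ hNmul
  let N : Subgroup E :=
    { carrier := {n | n ∈ A ∧ ((1 : E), n) ∈ H}
      one_mem' := hone
      mul_mem' := fun {a b} ha hb => hNmul a ha b hb
      inv_mem' := fun {a} ha => hinv a ha }
  have memN : ∀ n : E, n ∈ N ↔ n ∈ A ∧ ((1 : E), n) ∈ H := fun n => Iff.rfl
  -- diagonal elements
  have hdiag : ∀ e ∈ A, (x.2.1 * e * x.2.1⁻¹, x.2.2 * e * x.2.2⁻¹) ∈ H := by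
    intro e he
    obtain ⟨k, hk⟩ := Λ.exists_law e
    have hSel : Sel Λ K A (fun _ => cm T K k) := by
      intro s hs
      refine ⟨?_, ?_, ?_⟩
      · rw [cm_fst]
        exact hK.one_mem
      · rw [P1_cm, hk]
        exact he
      · rw [P2_cm hK k hs, hk]
        exact he
    have h1 := hY.move x hx _ hSel
    have hb : I1 Λ x.1 (fun _ : S => cm T K k) = e := by
      unfold I1
      simp only [P1_cm, hk]
      exact Λ.l_const _ _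
    have hc : I2 Λ K x.1 (fun _ : S => cm T K k) = e := by
      unfold I2
      rw [← Λ.l_const x.1 e]
      apply Λ.l_congr
      filter_upwards [hv] with s hs
      rw [P2_cm hK k hs, hk]
    rw [mv_cm hK k hv, hb, hc] at h1
    refine hHx _ ?_
    simp only [inv_mul_cancel_right]
    exact h1
  have hNA : N ≤ A := fun n hn => hn.1
  have hDN : Λ.DD A ≤ N := by
    intro d hd
    refine ⟨hA.DD_le hd, hHx _ ?_⟩
    refine hY.sat x hx _ _ (Eqm.of_eq (one_mul _).symm) ?_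
    unfold Eqm
    have := (LimGp.DD_normal (Λ := Λ) A).conj_mem d hd x.2.2⁻¹
    rwa [inv_inv, mul_assoc] at this
  have hTC : Λ.TC (N : Set E) := by
    intro 𝔬 h1 h2
    have hl : Λ.l 𝔬 (fun p => p.2) ∈ N := hlim (𝔬.map (fun p : G × E => p.2)) h1
    obtain ⟨q, hq, e⟩ := LimGp.J (Λ := Λ) 𝔬 (fun p => Λ.θ p.1) (fun p => p.2) (A := N) h1 hl
    rw [e, h2, one_mul]
    exact N.mul_mem (hDN (LimGp.QQ_sub_DD A (LimGp.QQ_mono hNA hq))) hl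
  have hnrm : ∀ a ∈ A, ∀ n ∈ N, a * n * a⁻¹ ∈ N := by
    intro a ha n hn
    refine ⟨A.mul_mem (A.mul_mem ha (hNA hn)) (A.inv_mem ha), ?_⟩
    have he : x.2.2⁻¹ * a * x.2.2 ∈ A := A.mul_mem (A.mul_mem (A.inv_mem hz2) ha) hz2
    have h2 := hdiag _ he
    have h3 := hdiag _ (A.inv_mem he)
    have h4 := hHmul _ (hHmul _ h2 _ hn.2) _ h3
    have h5 : (x.2.1 * (x.2.2⁻¹ * a * x.2.2) * x.2.1⁻¹,
        x.2.2 * (x.2.2⁻¹ * a * x.2.2) * x.2.2⁻¹) * ((1 : E), n) *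
        (x.2.1 * (x.2.2⁻¹ * a * x.2.2)⁻¹ * x.2.1⁻¹,
        x.2.2 * (x.2.2⁻¹ * a * x.2.2)⁻¹ * x.2.2⁻¹) = ((1 : E), a * n * a⁻¹) := by
      simp only [Prod.mk_mul_mk]
      refine Prod.ext ?_ ?_
      · show x.2.1 * (x.2.2⁻¹ * a * x.2.2) * x.2.1⁻¹ * 1 *
          (x.2.1 * (x.2.2⁻¹ * a * x.2.2)⁻¹ * x.2.1⁻¹) = 1
        group
      · show x.2.2 * (x.2.2⁻¹ * a * x.2.2) * x.2.2⁻¹ * n *
          (x.2.2 * (x.2.2⁻¹ * a * x.2.2)⁻¹ * x.2.2⁻¹) = a * n * a⁻¹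
        group
    rw [h5] at h4
    exact h4
  have hMid : Mid Λ A N := ⟨hTC, hDN, hNA, hnrm⟩
  refine ⟨x.1, N, hMid, hv, ?_, ?_⟩
  · -- comparison
    intro F F' hF hF' hFF
    have hM := hY.move x hx F hF
    have hM' := hY.move x hx F' hF'
    have hmv : mv K x.1 F = mv K x.1 F' := by
      unfold mv
      apply bind_congr
      filter_upwards [hv] with s hs
      have h1 := congrArg (fun u : Ultrafilter T => u.map (K.act s)) (hFF s hs)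
      exact h1
    set i := I1 Λ x.1 F with hi
    set j := I2 Λ K x.1 F with hj
    set i' := I1 Λ x.1 F' with hi'
    set j' := I2 Λ K x.1 F' with hj'
    have inA : ∀ a b : E, a ∈ A → a * b ∈ A → b ∈ A := by
      intro a b ha hab
      have := A.mul_mem (A.inv_mem ha) hab
      rwa [inv_mul_cancel_left] at this
    have hiA : i ∈ A := inA _ _ hz1 (hY.mem _ hM).1
    have hjA : j ∈ A := inA _ _ hz2 (hY.mem _ hM).2
    have hiA' : i' ∈ A := inA _ _ hz1 (hY.mem _ hM').1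
    have hjA' : j' ∈ A := inA _ _ hz2 (hY.mem _ hM').2
    have f1 : (x.2.1 * (i * i'⁻¹) * x.2.1⁻¹, x.2.2 * (j * j'⁻¹) * x.2.2⁻¹) ∈ H := by
      refine key _ _ _ hM' ?_
      have h3 : x.2.1 * (i * i'⁻¹) * x.2.1⁻¹ * (x.2.1 * i') = x.2.1 * i := by group
      have h4 : x.2.2 * (j * j'⁻¹) * x.2.2⁻¹ * (x.2.2 * j') = x.2.2 * j := by group
      show (mv K x.1 F', x.2.1 * (i * i'⁻¹) * x.2.1⁻¹ * (x.2.1 * i'),
        x.2.2 * (j * j'⁻¹) * x.2.2⁻¹ * (x.2.2 * j')) ∈ Y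
      rw [h3, h4, ← hmv]
      exact hM
    have f2 := hdiag (i * i'⁻¹)⁻¹ (A.inv_mem (A.mul_mem hiA (A.inv_mem hiA')))
    have f3 := hHmul _ f2 _ f1
    have f4 : (x.2.1 * (i * i'⁻¹)⁻¹ * x.2.1⁻¹, x.2.2 * (i * i'⁻¹)⁻¹ * x.2.2⁻¹) *
        (x.2.1 * (i * i'⁻¹) * x.2.1⁻¹, x.2.2 * (j * j'⁻¹) * x.2.2⁻¹) =
        ((1 : E), x.2.2 * (i' * (i⁻¹ * j * j'⁻¹)) * x.2.2⁻¹) := by
      refine Prod.ext ?_ ?_
      · show (x.2.1 * (i * i'⁻¹)⁻¹ * x.2.1⁻¹) * (x.2.1 * (i * i'⁻¹) * x.2.1⁻¹) = 1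
        group
      · show (x.2.2 * (i * i'⁻¹)⁻¹ * x.2.2⁻¹) * (x.2.2 * (j * j'⁻¹) * x.2.2⁻¹) =
          x.2.2 * (i' * (i⁻¹ * j * j'⁻¹)) * x.2.2⁻¹
        group
    rw [f4] at f3
    have f3' : x.2.2 * (i' * (i⁻¹ * j * j'⁻¹)) * x.2.2⁻¹ ∈ N := by
      refine ⟨?_, f3⟩
      refine A.mul_mem (A.mul_mem hz2 (A.mul_mem hiA' ?_)) (A.inv_mem hz2)
      exact A.mul_mem (A.mul_mem (A.inv_mem hiA) hjA) (A.inv_mem hjA')
    have f5 := hnrm (i'⁻¹ * x.2.2⁻¹) (A.mul_mem (A.inv_mem hiA') (A.inv_mem hz2)) _ f3'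
    have f6 : i'⁻¹ * x.2.2⁻¹ * (x.2.2 * (i' * (i⁻¹ * j * j'⁻¹)) * x.2.2⁻¹) *
        (i'⁻¹ * x.2.2⁻¹)⁻¹ = i⁻¹ * j * (i'⁻¹ * j')⁻¹ := by
      group
    rw [f6] at f5
    have f7 := hMid.nrm' (A.mul_mem (A.inv_mem hiA) hjA) (N.inv_mem f5)
    have f8 : (i⁻¹ * j)⁻¹ * (i⁻¹ * j * (i'⁻¹ * j')⁻¹)⁻¹ * (i⁻¹ * j) =
        (i⁻¹ * j)⁻¹ * (i'⁻¹ * j') := by
      group
    rw [f8] at f7
    exact f7
  · -- landing
    intro hN
    have hall : ∀ a₁ ∈ A, ∀ a₂ ∈ A, (a₁, a₂) ∈ H := by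
      intro a₁ ha₁ a₂ ha₂
      have h1 : ∀ n ∈ A, ((1 : E), n) ∈ H := fun n hn => by
        have h2 : n ∈ N := by
          rw [hN]
          exact hn
        exact h2.2
      have hc1 : x.2.1⁻¹ * a₁ * x.2.1 ∈ A := A.mul_mem (A.mul_mem (A.inv_mem hz1) ha₁) hz1
      have h2 := hdiag _ hc1
      have hc2 : x.2.2 * (x.2.1⁻¹ * a₁ * x.2.1) * x.2.2⁻¹ ∈ A :=
        A.mul_mem (A.mul_mem hz2 hc1) (A.inv_mem hz2)
      have h3 := hHmul _ h2 _ (h1 ((x.2.2 * (x.2.1⁻¹ * a₁ * x.2.1) * x.2.2⁻¹)⁻¹ * a₂)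
        (A.mul_mem (A.inv_mem hc2) ha₂))
      have h4 : (x.2.1 * (x.2.1⁻¹ * a₁ * x.2.1) * x.2.1⁻¹,
          x.2.2 * (x.2.1⁻¹ * a₁ * x.2.1) * x.2.2⁻¹) *
          ((1 : E), (x.2.2 * (x.2.1⁻¹ * a₁ * x.2.1) * x.2.2⁻¹)⁻¹ * a₂) = (a₁, a₂) := by
        refine Prod.ext ?_ ?_
        · show x.2.1 * (x.2.1⁻¹ * a₁ * x.2.1) * x.2.1⁻¹ * 1 = a₁
          group
        · show x.2.2 * (x.2.1⁻¹ * a₁ * x.2.1) * x.2.2⁻¹ *
            ((x.2.2 * (x.2.1⁻¹ * a₁ * x.2.1) * x.2.2⁻¹)⁻¹ * a₂) = a₂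
          group
      rw [h4] at h3
      exact h3
    have hreach : ∀ a₁ ∈ A, ∀ a₂ ∈ A, (x.1, a₁, a₂) ∈ Y := by
      intro a₁ ha₁ a₂ ha₂
      have h1 := hall (a₁ * x.2.1⁻¹) (A.mul_mem ha₁ (A.inv_mem hz1)) (a₂ * x.2.2⁻¹)
        (A.mul_mem ha₂ (A.inv_mem hz2)) x hx
      simp only [inv_mul_cancel_right] at h1
      exact h1
    refine ⟨m.map Prod.fst, hm.1, ?_⟩
    intro e₁ he₁ e₂ he₂
    obtain ⟨m', hm', g1, g2, g3⟩ := hYR (hreach e₁ he₁ e₂ he₂)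
    refine ⟨m', hm', ?_, g2.symm, g3.symm⟩
    exact hK.inj s₀ hs₀ _ hm'.1 _ hm.1 (g1.trans hxm.symm)

end Pool.Agent.Work.MP_0f91f8_co.Lg
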