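import Pool.Agent.Work.MP_0f91f8_co.Lg.Stmts

/-!
Item YK of block [0f91f8 PI]: the third limit is in `DD ⊤`.
-/

set_option linter.unusedSectionVars false

open Filter Topology

universe u

namespace Pool.Agent.Work.MP_0f91f8_co.Lg

open Pool.Agent.Work.MP_0f91f8_co.Cge (sd op aa cc bnd one_add_sq_pos)
open Pool.Agent.Work.MP_0f91f8_co.Df (Mach MOK MK un un_val un_mul un_inv un_div un_one)

namespace I_YK

variable {E : Type u} [Group E] {Λ : LimGp ℚˣ E} {Ω : Type}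

/-- limits of products modulo `DD ⊤` -/
lemma prod_eqm (𝔬 : Ultrafilter Ω) (g r : Ω → ℚˣ) :
    Eqm (Λ.DD ⊤) (Λ.l 𝔬 (fun ω => Λ.θ (g ω)) * Λ.l 𝔬 (fun ω => Λ.θ (r ω)))
      (Λ.l 𝔬 (fun ω => Λ.θ (g ω * r ω))) := by
  have h := Eqm.prod (Λ := Λ) LimGp.NT_top.closed (𝔬 := 𝔬) (fun ω => Λ.θ (g ω))
    (fun ω => Λ.θ (r ω)) (Eventually.of_forall fun _ => Subgroup.mem_top _)
  simpa only [map_mul] using h

lemma mem_mul {𝔬 : Ultrafilter Ω} {g r : Ω → ℚˣ}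
    (hg : Λ.l 𝔬 (fun ω => Λ.θ (g ω)) ∈ Λ.DD ⊤) (hr : Λ.l 𝔬 (fun ω => Λ.θ (r ω)) ∈ Λ.DD ⊤) :
    Λ.l 𝔬 (fun ω => Λ.θ (g ω * r ω)) ∈ Λ.DD ⊤ :=
  (prod_eqm 𝔬 g r).mem le_rfl ((Λ.DD ⊤).mul_mem hg hr)

lemma mem_cancel {𝔬 : Ultrafilter Ω} {g r : Ω → ℚˣ}
    (hg : Λ.l 𝔬 (fun ω => Λ.θ (g ω)) ∈ Λ.DD ⊤)
    (hr : Λ.l 𝔬 (fun ω => Λ.θ (g ω * r ω)) ∈ Λ.DD ⊤) :
    Λ.l 𝔬 (fun ω => Λ.θ (r ω)) ∈ Λ.DD ⊤ := by
  have h := (prod_eqm (Λ := Λ) 𝔬 g r).symm.mem le_rfl hr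
  exact (Subgroup.mul_mem_cancel_left _ hg).1 h

/-- moving from one coupling to another one with the same marginal -/
lemma l_marg {𝔮 𝔬 : Ultrafilter (ℚ × ℚˣ)} (hm : 𝔮.map Prod.fst = 𝔬.map Prod.fst)
    {r : ℚ → ℚˣ} (hr : Λ.l 𝔮 (fun p => Λ.θ (r p.1)) ∈ Λ.DD ⊤) :
    Λ.l 𝔬 (fun p => Λ.θ (r p.1)) ∈ Λ.DD ⊤ := by
  have h1 := Λ.l_map 𝔮 Prod.fst (fun V => Λ.θ (r V))
  have h2 := Λ.l_map 𝔬 Prod.fst (fun V => Λ.θ (r V))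
  rw [← h2, ← hm, h1]
  exact hr

end I_YK

variable (E : Type u) [Group E]

open I_YK in
theorem YK_pf : YK E := by
  intro Λ κ 𝔬 hE hne h1 h2
  obtain ⟨𝔮, hm, hx, hq0, hq2⟩ := hE
  -- the coupling of the law
  have q0 : Λ.l 𝔮 (fun p => Λ.θ p.2) ∈ Λ.DD ⊤ := by
    have := (hx 0).2
    simp only [zero_mul, add_zero, un_one, mul_one] at this
    rw [this]
    exact (Λ.DD ⊤).one_mem
  have qx : ∀ x : ℚ, Λ.l 𝔬 (fun p => Λ.θ (un (1 + x * p.1))) ∈ Λ.DD ⊤ := fun x =>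
    l_marg hm (r := fun V => un (1 + x * V)) (mem_cancel q0 (by
      rw [(hx x).2]
      exact (Λ.DD ⊤).one_mem))
  have q2 : Λ.l 𝔬 (fun p => Λ.θ (un (2 * p.1 / (κ : ℚ)))) ∈ Λ.DD ⊤ :=
    l_marg hm (r := fun V => un (2 * V / (κ : ℚ))) (mem_cancel q0 (by
      rw [hq2]
      exact (Λ.DD ⊤).one_mem))
  have oa : Λ.l 𝔬 (fun p => Λ.θ (un (aa 1 p.1))) ∈ Λ.DD ⊤ := mem_cancel h1 h2
  have on : Λ.l 𝔬 (fun p => Λ.θ (un (1 + p.1 ^ 2))) ∈ Λ.DD ⊤ := by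
    refine mem_cancel oa ?_
    have e1 : Λ.l 𝔬 (fun p => Λ.θ (un (aa 1 p.1) * un (1 + p.1 ^ 2))) =
        Λ.l 𝔬 (fun p => Λ.θ (un (1 + 1 * p.1) * un (1 + (-1) * p.1))) := by
      apply Λ.l_congr
      filter_upwards [hne] with p hp
      obtain ⟨hp0, hp1, hp2⟩ := hp
      have a1 : (1 : ℚ) + 1 * p.1 ≠ 0 := by
        intro h0
        apply hp2
        linarith
      have a2 : (1 : ℚ) + (-1) * p.1 ≠ 0 := by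
        intro h0
        apply hp1
        linarith
      have a3 : (1 : ℚ) + p.1 ^ 2 ≠ 0 := (one_add_sq_pos p.1).ne'
      have e : aa 1 p.1 = (1 + 1 * p.1) * (1 + (-1) * p.1) / (1 + p.1 ^ 2) := by
        unfold aa
        ring
      rw [e, un_div (mul_ne_zero a1 a2) a3, un_mul a1 a2, inv_mul_cancel_right]
    rw [e1]
    exact mem_mul (qx 1) (qx (-1))
  refine mem_cancel on ?_
  have e2 : Λ.l 𝔬 (fun p => Λ.θ (un (1 + p.1 ^ 2) *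
      (p.2 * un (2 * p.1 / (κ : ℚ) / (1 + p.1 ^ 2))))) =
      Λ.l 𝔬 (fun p => Λ.θ (p.2 * un (2 * p.1 / (κ : ℚ)))) := by
    apply Λ.l_congr
    filter_upwards [hne] with p hp
    have a1 : 2 * p.1 / (κ : ℚ) ≠ 0 :=
      div_ne_zero (mul_ne_zero two_ne_zero hp.1) κ.ne_zero
    have a3 : (1 : ℚ) + p.1 ^ 2 ≠ 0 := (one_add_sq_pos p.1).ne'
    rw [un_div a1 a3]
    congr 1
    rw [mul_comm (un (1 + p.1 ^ 2)), mul_assoc, mul_assoc, inv_mul_cancel, mul_one]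
  rw [e2]
  exact mem_mul h1 q2

end Pool.Agent.Work.MP_0f91f8_co.Lg
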