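import Pool.Agent.Work.MP_0f91f8_co.Lg.Stmts

/-!
Block [0f91f8 PI], item ZOR: Zorn's lemma for the derived subgroups.
-/

open Filter Topology

universe u

namespace Pool.Agent.Work.MP_0f91f8_co.Lg

variable (E : Type u) [Group E]

theorem ZOR_pf : ZOR E := by
  intro G _ Λ P A₀ hCA hP0 hstep hchain
  obtain ⟨m, ⟨hmA, hmP⟩, hmin⟩ : ∃ m : Subgroup E, (m ≤ A₀ ∧ P m) ∧
      ∀ z : Subgroup E, z ≤ A₀ ∧ P z → z ≤ m → z = m := by
    have hz : ∃ m : (Subgroup E)ᵒᵈ, Maximal (· ∈ {A : (Subgroup E)ᵒᵈ |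
        OrderDual.ofDual A ≤ A₀ ∧ P (OrderDual.ofDual A)}) m := by
      apply zorn_le₀
      intro c hc hch
      by_cases hne : c.Nonempty
      · refine ⟨OrderDual.toDual (sInf (OrderDual.ofDual '' c)), ⟨?_, ?_⟩, ?_⟩
        · obtain ⟨x, hx⟩ := hne
          have h0 : sInf (OrderDual.ofDual '' c) ≤ OrderDual.ofDual x :=
            sInf_le (Set.mem_image_of_mem _ hx)
          exact h0.trans (hc hx).1
        · refine hchain (OrderDual.ofDual '' c) (hne.image _) ?_ ?_
          · rintro _ ⟨a, ha, rfl⟩ _ ⟨b, hb, rfl⟩ hab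
            have hab' : a ≠ b := fun h => hab (by rw [h])
            exact (hch ha hb hab').symm
          · rintro _ ⟨a, ha, rfl⟩
            exact hc ha
        · intro z hz
          have h0 : sInf (OrderDual.ofDual '' c) ≤ OrderDual.ofDual z :=
            sInf_le (Set.mem_image_of_mem _ hz)
          exact h0
      · rw [Set.not_nonempty_iff_eq_empty] at hne
        subst hne
        exact ⟨OrderDual.toDual A₀, ⟨le_rfl, hP0⟩, fun z hz => absurd hz (Set.notMem_empty z)⟩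
    obtain ⟨m, hm⟩ := hz
    refine ⟨OrderDual.ofDual m, hm.prop, fun z hz hzm => ?_⟩
    have h1 : OrderDual.toDual z ≤ m := hm.le_of_ge (y := OrderDual.toDual z) hz hzm
    exact le_antisymm hzm h1
  exact ⟨m, hmA, hmP, hmin _ ⟨(hCA m hmP).DD_le.trans hmA, hstep m hmA hmP⟩ (hCA m hmP).DD_le⟩

end Pool.Agent.Work.MP_0f91f8_co.Lg
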