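import Pool.Agent.Work.MP_0f91f8_co.Lg.Main
import Pool.Agent.Work.MP_0f91f8_co.Lg.I_AFC
import Pool.Agent.Work.MP_0f91f8_co.Lg.I_AFS
import Pool.Agent.Work.MP_0f91f8_co.Lg.I_BRA
import Pool.Agent.Work.MP_0f91f8_co.Lg.I_CLO
import Pool.Agent.Work.MP_0f91f8_co.Lg.I_CMPS
import Pool.Agent.Work.MP_0f91f8_co.Lg.I_COMPEN
import Pool.Agent.Work.MP_0f91f8_co.Lg.I_COV
import Pool.Agent.Work.MP_0f91f8_co.Lg.I_CSE
import Pool.Agent.Work.MP_0f91f8_co.Lg.I_DHH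
import Pool.Agent.Work.MP_0f91f8_co.Lg.I_E1BND
import Pool.Agent.Work.MP_0f91f8_co.Lg.I_EKBND
import Pool.Agent.Work.MP_0f91f8_co.Lg.I_FIN
import Pool.Agent.Work.MP_0f91f8_co.Lg.I_FLC
import Pool.Agent.Work.MP_0f91f8_co.Lg.I_FLS
import Pool.Agent.Work.MP_0f91f8_co.Lg.I_INDG
import Pool.Agent.Work.MP_0f91f8_co.Lg.I_KIND
import Pool.Agent.Work.MP_0f91f8_co.Lg.I_LAWK
import Pool.Agent.Work.MP_0f91f8_co.Lg.I_LIN
import Pool.Agent.Work.MP_0f91f8_co.Lg.I_MOB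
import Pool.Agent.Work.MP_0f91f8_co.Lg.I_MQOK
import Pool.Agent.Work.MP_0f91f8_co.Lg.I_NUB
import Pool.Agent.Work.MP_0f91f8_co.Lg.I_PERF
import Pool.Agent.Work.MP_0f91f8_co.Lg.I_POS
import Pool.Agent.Work.MP_0f91f8_co.Lg.I_POSG
import Pool.Agent.Work.MP_0f91f8_co.Lg.I_RCH
import Pool.Agent.Work.MP_0f91f8_co.Lg.I_RIG
import Pool.Agent.Work.MP_0f91f8_co.Lg.I_RPL
import Pool.Agent.Work.MP_0f91f8_co.Lg.I_STEP1
import Pool.Agent.Work.MP_0f91f8_co.Lg.I_STEP2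
import Pool.Agent.Work.MP_0f91f8_co.Lg.I_STEPK
import Pool.Agent.Work.MP_0f91f8_co.Lg.I_TCL
import Pool.Agent.Work.MP_0f91f8_co.Lg.I_TWIST
import Pool.Agent.Work.MP_0f91f8_co.Lg.I_WWP
import Pool.Agent.Work.MP_0f91f8_co.Lg.I_YEX
import Pool.Agent.Work.MP_0f91f8_co.Lg.I_YK
import Pool.Agent.Work.MP_0f91f8_co.Lg.I_ZOR
import Pool.Agent.Work.MP_0f91f8_co.Df.I_MKOK
import Pool.Agent.Work.MP_0f91f8_co.Cge.I_TOOL

/-!
Block [0f91f8 PI]: all items together.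
-/

open Filter Topology

universe u

namespace Pool.Agent.Work.MP_0f91f8_co.Lg

theorem perf_all (E : Type) [Group E] : PERF E := PERF_pf E (TCL_pf E) (DHH_pf E (TCL_pf E))

theorem rat_all (E : Type) [Group E] : RAT E := by
  have hR : RIG E := RIG_pf E
  have hPG : POSG E := POSG_pf E
  have hPO : POS E := POS_pf E hR
  have hI : INDG E := INDG_pf E hPG
  have hK : KIND E := KIND_pf E hPG hPO
  have hE : E1BND E := E1BND_pf E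
  have hM : MOB E := MOB_pf E
  have hN : NUB E := NUB_pf E hR hPG hPO
  have hCO : COMPEN E := COMPEN_pf E (CSE_pf E) hR hE hM hN
  have hCLO : CLO E := CLO_pf E hE hM hCO hPG hPO hR hI hK
  have hLIN : LIN E := LIN_pf E hCLO Cge.TOOL_pf hI hR
  have hEK : EKBND E := EKBND_pf E
  have hTW : TWIST E := TWIST_pf E (BRA_pf E) hEK hCO
  have hMQ : MQOK E := MQOK_pf E (WWP_pf E hR hE hM hN)
  have hLAWK : LAWK E := LAWK_pf E hTW hEK hR hPG hPO hMQ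
  have hFIN : FIN E := FIN_pf E hLAWK (YK_pf E)
  have hT : TCL E := TCL_pf E
  have hRPL : RPL E := RPL_pf E hT (DHH_pf E hT) (COV_pf E hT)
  have hCM : CMPS E := CMPS_pf E
  have hS2 : STEP2 E := STEP2_pf E hRPL hCM
  have hYEX : YEX E := YEX_pf E (CSE_pf E) (RCH_pf E hCM)
  intro Λ F hF
  exact rat_main hYEX hS2 (STEPK_pf E) (STEP1_pf E hR hPG hPO hI hK hLIN) (FLS_pf E hCM)
    (FLC_pf E) (ZOR_pf E) (fun G _ => Df.MKOK_pf G) (AFS_pf E) (AFC_pf E) hR hMQ hFIN Λ F hF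

/-- THEOREM PI -/
theorem pi_result {X : Type u} [TopologicalSpace X] [CompactSpace X] [T2Space X]
    (T : ℕ → X → X) (hTc : ∀ k : ℕ, 0 < k → Continuous (T k))
    (hTm : ∀ k m : ℕ, 0 < k → 0 < m → ∀ x, T (k * m) x = T k (T m x))
    (M : Set X) (hMc : IsClosed M) (hMi : ∀ k : ℕ, 0 < k → ∀ x ∈ M, T k x ∈ M)
    (hMm : ∀ x ∈ M, ∀ y ∈ M, y ∈ closure {z : X | ∃ k : ℕ, 0 < k ∧ z = T k x})
    (hM : (∀ x ∈ M, ∀ y ∈ M, ∀ z : X,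
        (z, z) ∈ closure {p : X × X | ∃ k : ℕ, 0 < k ∧ p = (T k x, T k y)} → x = y) ∨
      (∀ L : Set (X × X), IsClosed L → L ⊆ M ×ˢ M → (∀ x ∈ M, (x, x) ∈ L) →
        (∀ k : ℕ, 0 < k → ∀ p ∈ L, (T k p.1, T k p.2) ∈ L) →
        (∀ V W : Set (X × X), IsOpen V → IsOpen W → (L ∩ V).Nonempty → (L ∩ W).Nonempty →
          ∃ k : ℕ, 0 < k ∧ ∃ p ∈ L ∩ V, (T k p.1, T k p.2) ∈ W) →
        (∀ V : Set (X × X), IsOpen V → (L ∩ V).Nonempty → ∃ p ∈ L ∩ V,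
          ∀ q ∈ closure {q : X × X | ∃ k : ℕ, 0 < k ∧ q = (T k p.1, T k p.2)},
            p ∈ closure {r : X × X | ∃ k : ℕ, 0 < k ∧ r = (T k q.1, T k q.2)}) →
        ∀ p ∈ L, p.1 = p.2))
    (x₀ : X) (A : Set ℕ)
    (hA : ∀ V : Set X, IsOpen V → M ⊆ V → ∀ S : Finset ℕ, (∀ s ∈ S, 0 < s) →
      ∃ k : ℕ, 0 < k ∧ ∀ s ∈ S, s * k ∈ A ∧ T (s * k) x₀ ∈ V)
    (U : Set X) (hU : IsOpen U) (hUM : (U ∩ M).Nonempty) :
    ∃ x y z : ℕ, 0 < x ∧ 0 < y ∧ 0 < z ∧ x ^ 2 + y ^ 2 = z ^ 2 ∧ x ∈ A ∧ y ∈ A ∧ z ∈ A ∧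
      T x x₀ ∈ U ∧ T y x₀ ∈ U ∧ T z x₀ ∈ U :=
  pi_final (fun E _ => perf_all E) (fun E _ => rat_all E) T hTc hTm M hMc hMi hMm hM x₀ A hA U hU
    hUM

end Pool.Agent.Work.MP_0f91f8_co.Lg
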