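import Pool.Agent.Work.MP_0f91f8_co.Df.Basic

/-!
Block [0f91f8 PI]: Pythagorean triples in PI systems.  Definitions and basic lemmas.
Paper proof: note 3509 of MP_0f91f8_co (Theorem PI), notes 3465 and 3480.

A LIMIT GROUP is a group `E` with a homomorphism `θ : G → E` with central image and an operation
`lim : Ultrafilter E → E`.  NO topology.  `Λ.l 𝔬 x` is the limit of `x : Ω → E` along `𝔬`.
Composed laws: `Λ.sdk 𝔬 𝔬'` is the law of `(ω, k, ω')`: first `ω ~ 𝔬`, then `k ~ k1` (`k → 1`), then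
`ω' ~ 𝔬' ω`.  Main rule (`l_sdk`): the limit of `θ k * x ω ω'` is the iterated limit.
-/

set_option linter.unusedSectionVars false
set_option linter.deprecated false

open Filter Topology

universe u v w

namespace Pool.Agent.Work.MP_0f91f8_co.Lg

open Pool.Agent.Work.MP_0f91f8_co.Cge (sd op aa cc bnd)
open Pool.Agent.Work.MP_0f91f8_co.Df (Mach MOK MK un)

/-- limit groups -/
structure LimGp (G : Type) [CommGroup G] (E : Type u) [Group E] where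
  θ : G →* E
  lim : Ultrafilter E → E
  k1 : Ultrafilter G
  central : ∀ (g : G) (e : E), θ g * e = e * θ g
  lim_pure : ∀ a : E, lim (pure a) = a
  lim_right : ∀ (f : Ultrafilter E) (q : E), lim (f.map (fun x => x * q)) = lim f * q
  dense : ∀ e : E, ∃ k : Ultrafilter G, lim (k.map θ) = e
  lim_bind : ∀ F : Ultrafilter (Ultrafilter E),
    lim (F.bind (fun f => k1.bind (fun k => f.map (fun x => θ k * x)))) = lim (F.map lim)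

/-! ### Ultrafilters -/

section Ultra

variable {Ω : Type u} {Ω' : Type v} {Ω'' : Type w}

lemma map_map' (𝔬 : Ultrafilter Ω) (f : Ω → Ω') (g : Ω' → Ω'') :
    (𝔬.map f).map g = 𝔬.map (fun ω => g (f ω)) := rfl

lemma map_bind' (𝔬 : Ultrafilter Ω) (w : Ω → Ultrafilter Ω') (f : Ω' → Ω'') :
    (𝔬.bind w).map f = 𝔬.bind (fun ω => (w ω).map f) := rfl

lemma bind_map' (𝔬 : Ultrafilter Ω) (f : Ω → Ω') (w : Ω' → Ultrafilter Ω'') :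
    (𝔬.map f).bind w = 𝔬.bind (fun ω => w (f ω)) := rfl

lemma bind_bind' (𝔬 : Ultrafilter Ω) (w : Ω → Ultrafilter Ω') (w' : Ω' → Ultrafilter Ω'') :
    (𝔬.bind w).bind w' = 𝔬.bind (fun ω => (w ω).bind w') := rfl

lemma ev_map (𝔬 : Ultrafilter Ω) (f : Ω → Ω') (P : Ω' → Prop) :
    (∀ᶠ y in (𝔬.map f : Filter Ω'), P y) ↔ ∀ᶠ ω in (𝔬 : Filter Ω), P (f ω) := Iff.rfl

lemma ev_bind (𝔬 : Ultrafilter Ω) (w : Ω → Ultrafilter Ω') (P : Ω' → Prop) :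
    (∀ᶠ y in (𝔬.bind w : Filter Ω'), P y) ↔
      ∀ᶠ ω in (𝔬 : Filter Ω), ∀ᶠ y in (w ω : Filter Ω'), P y := Iff.rfl

lemma ev_const (𝔬 : Ultrafilter Ω) (P : Prop) : (∀ᶠ _ω in (𝔬 : Filter Ω), P) ↔ P :=
  eventually_const

lemma ext_ev {𝔬 𝔬' : Ultrafilter Ω}
    (h : ∀ P : Ω → Prop, (∀ᶠ ω in (𝔬 : Filter Ω), P ω) → ∀ᶠ ω in (𝔬' : Filter Ω), P ω) :
    𝔬 = 𝔬' := by
  apply Ultrafilter.coe_injective
  ext s
  constructor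
  · exact h (fun ω => ω ∈ s)
  · intro hs
    by_contra hn
    have h1 : sᶜ ∈ (𝔬 : Filter Ω) := Ultrafilter.compl_mem_iff_notMem.2 hn
    have h2 : sᶜ ∈ (𝔬' : Filter Ω) := h (fun ω => ω ∈ sᶜ) h1
    exact (Ultrafilter.compl_mem_iff_notMem.1 h2) hs

lemma map_congr {𝔬 : Ultrafilter Ω} {f g : Ω → Ω'}
    (h : ∀ᶠ ω in (𝔬 : Filter Ω), f ω = g ω) : 𝔬.map f = 𝔬.map g := by
  apply ext_ev
  intro P hP
  rw [ev_map] at *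
  filter_upwards [h, hP] with ω h1 h2
  rwa [← h1]

lemma bind_congr {𝔬 : Ultrafilter Ω} {w w' : Ω → Ultrafilter Ω'}
    (h : ∀ᶠ ω in (𝔬 : Filter Ω), w ω = w' ω) : 𝔬.bind w = 𝔬.bind w' := by
  apply ext_ev
  intro P hP
  rw [ev_bind] at *
  filter_upwards [h, hP] with ω h1 h2
  rwa [← h1]

lemma map_const' (𝔬 : Ultrafilter Ω) (c : Ω') : 𝔬.map (fun _ => c) = pure c := by
  apply ext_ev
  intro P hP
  rw [ev_map, ev_const] at hP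
  exact hP

lemma bind_const' (𝔬 : Ultrafilter Ω) (w : Ultrafilter Ω') : 𝔬.bind (fun _ => w) = w := by
  apply ext_ev
  intro P hP
  rwa [ev_bind, ev_const] at hP

lemma bind_pure' (𝔬 : Ultrafilter Ω) : 𝔬.bind (fun ω => (pure ω : Ultrafilter Ω)) = 𝔬 := by
  apply ext_ev
  intro P hP
  exact hP

lemma map_id'' (𝔬 : Ultrafilter Ω) : 𝔬.map (fun ω => ω) = 𝔬 := rfl

/-- ultrafilters are closed under limits along ultrafilters -/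
lemma mem_of_bind {W : Set (Ultrafilter Ω')} (hW : IsClosed W) {𝔬 : Ultrafilter Ω}
    {w : Ω → Ultrafilter Ω'} (h : ∀ᶠ ω in (𝔬 : Filter Ω), w ω ∈ W) : 𝔬.bind w ∈ W := by
  have h1 : Cge.L 𝔬 w = 𝔬.bind w := by
    apply Cge.L_eq
    rw [tendsto_nhds]
    intro s hs hmem
    obtain ⟨t, ht, hmt, hts⟩ := ultrafilterBasis_is_basis.exists_subset_of_mem_open hmem hs
    obtain ⟨r, rfl⟩ := ht
    have h2 : ∀ᶠ ω in (𝔬 : Filter Ω), r ∈ w ω := hmt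
    exact h2.mono fun ω hω => hts hω
  rw [← h1]
  exact Cge.L_mem hW h

/-- a set of ultrafilters which is closed under limits along ultrafilters is closed -/
lemma isClosed_of_bind {W : Set (Ultrafilter Ω)}
    (h : ∀ F : Ultrafilter (Ultrafilter Ω), (∀ᶠ f in (F : Filter (Ultrafilter Ω)), f ∈ W) →
      F.bind (fun f => f) ∈ W) : IsClosed W := by
  rw [isClosed_iff_ultrafilter]
  intro x F hF hW
  have h1 := h F hW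
  have h2 : F.bind (fun f => f) = x := by
    have h3 : Cge.L F (fun f : Ultrafilter Ω => f) = x := Cge.L_eq hF
    rw [← h3]
    symm
    apply Cge.L_eq
    rw [tendsto_nhds]
    intro s hs hmem
    obtain ⟨t, ht, hmt, hts⟩ := ultrafilterBasis_is_basis.exists_subset_of_mem_open hmem hs
    obtain ⟨r, rfl⟩ := ht
    have h2 : ∀ᶠ ω in (F : Filter (Ultrafilter Ω)), r ∈ ω := hmt
    exact h2.mono fun ω hω => hts hω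
  rwa [h2] at h1

end Ultra

/-! ### The calculus -/

section Calc

variable {G : Type} [CommGroup G] {E : Type u} [Group E]

namespace LimGp

variable (Λ : LimGp G E) {Ω : Type v} {Ω' : Type w}

/-- the limit of `x` along `𝔬` -/
def l (𝔬 : Ultrafilter Ω) (x : Ω → E) : E := Λ.lim (𝔬.map x)

/-- the composed law, with `k → 1` inserted -/
def sdk (𝔬 : Ultrafilter Ω) (𝔬' : Ω → Ultrafilter Ω') : Ultrafilter (Ω × G × Ω') :=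
  𝔬.bind (fun ω => Λ.k1.bind (fun k => (𝔬' ω).map (fun ω' => (ω, k, ω'))))

lemma l_congr {𝔬 : Ultrafilter Ω} {x y : Ω → E} (h : ∀ᶠ ω in (𝔬 : Filter Ω), x ω = y ω) :
    Λ.l 𝔬 x = Λ.l 𝔬 y := by
  unfold l
  rw [map_congr h]

lemma l_const (𝔬 : Ultrafilter Ω) (a : E) : Λ.l 𝔬 (fun _ => a) = a := by
  unfold l
  rw [map_const', Λ.lim_pure]

lemma l_pure (ω : Ω) (x : Ω → E) : Λ.l (pure ω) x = x ω := Λ.lim_pure _

lemma l_map (𝔬 : Ultrafilter Ω) (g : Ω → Ω') (x : Ω' → E) :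
    Λ.l (𝔬.map g) x = Λ.l 𝔬 (fun ω => x (g ω)) := rfl

lemma l_right (𝔬 : Ultrafilter Ω) (x : Ω → E) (q : E) :
    Λ.l 𝔬 (fun ω => x ω * q) = Λ.l 𝔬 x * q := Λ.lim_right (𝔬.map x) q

lemma l_left (𝔬 : Ultrafilter Ω) (g : G) (x : Ω → E) :
    Λ.l 𝔬 (fun ω => Λ.θ g * x ω) = Λ.θ g * Λ.l 𝔬 x := by
  simp only [Λ.central]
  exact Λ.l_right 𝔬 x _

/-- every element is a limit of `θ` -/
lemma exists_law (e : E) : ∃ k : Ultrafilter G, Λ.l k (fun g => Λ.θ g) = e := Λ.dense e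

lemma ev_sdk (𝔬 : Ultrafilter Ω) (𝔬' : Ω → Ultrafilter Ω') (P : Ω × G × Ω' → Prop) :
    (∀ᶠ p in (Λ.sdk 𝔬 𝔬' : Filter (Ω × G × Ω')), P p) ↔
      ∀ᶠ ω in (𝔬 : Filter Ω), ∀ᶠ k in (Λ.k1 : Filter G), ∀ᶠ ω' in (𝔬' ω : Filter Ω'),
        P (ω, k, ω') := Iff.rfl

/-- properties which do not depend on `k` -/
lemma ev_sdk' (𝔬 : Ultrafilter Ω) (𝔬' : Ω → Ultrafilter Ω') (P : Ω → Ω' → Prop) :
    (∀ᶠ p in (Λ.sdk 𝔬 𝔬' : Filter (Ω × G × Ω')), P p.1 p.2.2) ↔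
      ∀ᶠ ω in (𝔬 : Filter Ω), ∀ᶠ ω' in (𝔬' ω : Filter Ω'), P ω ω' := by
  rw [ev_sdk]
  simp only [eventually_const]

lemma sdk_fst (𝔬 : Ultrafilter Ω) (𝔬' : Ω → Ultrafilter Ω') :
    (Λ.sdk 𝔬 𝔬').map (fun p => p.1) = 𝔬 := by
  apply ext_ev
  intro P hP
  rw [ev_map, Λ.ev_sdk' 𝔬 𝔬' (fun ω _ => P ω)] at hP
  simpa only [eventually_const] using hP

lemma sdk_pair (𝔬 : Ultrafilter Ω) (𝔬' : Ω → Ultrafilter Ω') :
    (Λ.sdk 𝔬 𝔬').map (fun p => (p.1, p.2.2)) = sd 𝔬 𝔬' := by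
  apply ext_ev
  intro P hP
  rw [ev_map, Λ.ev_sdk' 𝔬 𝔬' (fun ω ω' => P (ω, ω'))] at hP
  exact hP

lemma sdk_snd (𝔬 : Ultrafilter Ω) (𝔬' : Ω → Ultrafilter Ω') :
    (Λ.sdk 𝔬 𝔬').map (fun p => p.2.2) = 𝔬.bind 𝔬' := by
  apply ext_ev
  intro P hP
  rw [ev_map, Λ.ev_sdk' 𝔬 𝔬' (fun _ ω' => P ω')] at hP
  exact hP

/-- push-forwards which do not depend on `k` -/
lemma sdk_map (𝔬 : Ultrafilter Ω) (𝔬' : Ω → Ultrafilter Ω') {Z : Type*} (f : Ω → Ω' → Z) :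
    (Λ.sdk 𝔬 𝔬').map (fun p => f p.1 p.2.2) = 𝔬.bind (fun ω => (𝔬' ω).map (f ω)) := by
  apply ext_ev
  intro P hP
  rw [ev_map, Λ.ev_sdk' 𝔬 𝔬' (fun ω ω' => P (f ω ω'))] at hP
  exact hP

/-- functions of the outer variable -/
lemma l_sdk_fst (𝔬 : Ultrafilter Ω) (𝔬' : Ω → Ultrafilter Ω') (x : Ω → E) :
    Λ.l (Λ.sdk 𝔬 𝔬') (fun p => x p.1) = Λ.l 𝔬 x := by
  have h := Λ.l_map (Λ.sdk 𝔬 𝔬') (fun p => p.1) x
  rw [Λ.sdk_fst] at h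
  exact h.symm

/-- THE MAIN RULE -/
lemma l_sdk (𝔬 : Ultrafilter Ω) (𝔬' : Ω → Ultrafilter Ω') (x : Ω → Ω' → E) :
    Λ.l (Λ.sdk 𝔬 𝔬') (fun p => Λ.θ p.2.1 * x p.1 p.2.2) = Λ.l 𝔬 (fun ω => Λ.l (𝔬' ω) (x ω)) :=
  Λ.lim_bind (𝔬.map (fun ω => (𝔬' ω).map (x ω)))

lemma l_sdk_mul (𝔬 : Ultrafilter Ω) (𝔬' : Ω → Ultrafilter Ω') (g : Ω → G) (x : Ω → Ω' → E) :
    Λ.l (Λ.sdk 𝔬 𝔬') (fun p => Λ.θ (g p.1 * p.2.1) * x p.1 p.2.2) =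
      Λ.l 𝔬 (fun ω => Λ.θ (g ω) * Λ.l (𝔬' ω) (x ω)) := by
  have h := Λ.l_sdk 𝔬 𝔬' (fun ω ω' => Λ.θ (g ω) * x ω ω')
  simp only [Λ.l_left] at h
  rw [← h]
  congr 1
  funext p
  rw [map_mul, Λ.central (g p.1), mul_assoc]

lemma l_sdk_th (𝔬 : Ultrafilter Ω) (𝔬' : Ω → Ultrafilter Ω') (g : Ω → G) (g' : Ω → Ω' → G) :
    Λ.l (Λ.sdk 𝔬 𝔬') (fun p => Λ.θ (g p.1 * p.2.1 * g' p.1 p.2.2)) =
      Λ.l 𝔬 (fun ω => Λ.θ (g ω) * Λ.l (𝔬' ω) (fun ω' => Λ.θ (g' ω ω'))) := by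
  rw [← Λ.l_sdk_mul]
  simp only [map_mul]

lemma l_sdk_th_mul (𝔬 : Ultrafilter Ω) (𝔬' : Ω → Ultrafilter Ω') (g : Ω → G) (g' : Ω → Ω' → G)
    (x : Ω → Ω' → E) :
    Λ.l (Λ.sdk 𝔬 𝔬') (fun p => Λ.θ (g p.1 * p.2.1 * g' p.1 p.2.2) * x p.1 p.2.2) =
      Λ.l 𝔬 (fun ω => Λ.θ (g ω) * Λ.l (𝔬' ω) (fun ω' => Λ.θ (g' ω ω') * x ω ω')) := by
  rw [← Λ.l_sdk_mul]
  simp only [map_mul, mul_assoc]

/-- `k → 1` -/
lemma l_k1 : Λ.l Λ.k1 (fun k => Λ.θ k) = 1 := by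
  have h := Λ.l_sdk (pure ()) (fun _ => (pure () : Ultrafilter Unit)) (fun _ _ => (1 : E))
  rw [Λ.l_pure, Λ.l_pure] at h
  rw [← h]
  simp only [mul_one]
  rfl

/-! ### `τ`-closed sets, `QQ`, `DD` -/

/-- `τ`-closed sets -/
def TC (S : Set E) : Prop := ∀ 𝔬 : Ultrafilter (G × E), (∀ᶠ p in (𝔬 : Filter (G × E)), p.2 ∈ S) →
  Λ.l 𝔬 (fun p => Λ.θ p.1) = 1 → Λ.l 𝔬 (fun p => Λ.θ p.1 * p.2) ∈ S

/-- the `τ`-closure -/
def tcl (S : Set E) : Set E :=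
  {a | ∃ 𝔬 : Ultrafilter (G × E), (∀ᶠ p in (𝔬 : Filter (G × E)), p.2 ∈ S) ∧
    Λ.l 𝔬 (fun p => Λ.θ p.1) = 1 ∧ Λ.l 𝔬 (fun p => Λ.θ p.1 * p.2) = a}

/-- the elements measuring the failure of joint continuity on `A` -/
def QQ (A : Subgroup E) : Set E :=
  {q | ∃ 𝔬 : Ultrafilter (G × E), (∀ᶠ p in (𝔬 : Filter (G × E)), p.2 ∈ A) ∧
    Λ.l 𝔬 (fun p => Λ.θ p.1) = 1 ∧ Λ.l 𝔬 (fun p => p.2) = 1 ∧
    Λ.l 𝔬 (fun p => Λ.θ p.1 * p.2) = q}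

/-- the `τ`-closed subgroup generated by the conjugates `e⁻¹ q e`, `e ∈ E`, `q ∈ QQ A` -/
def DD (A : Subgroup E) : Subgroup E :=
  sInf {D : Subgroup E | Λ.TC (D : Set E) ∧ ∀ e : E, ∀ q ∈ Λ.QQ A, e⁻¹ * q * e ∈ D}

/-- normal `τ`-closed subgroups -/
structure NT (A : Subgroup E) : Prop where
  closed : Λ.TC (A : Set E)
  normal : A.Normal

variable {Λ}

lemma TC.tcl_sub {S : Set E} (h : Λ.TC S) : Λ.tcl S ⊆ S := by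
  rintro a ⟨𝔬, h1, h2, rfl⟩
  exact h 𝔬 h1 h2

lemma TC.of_tcl_sub {S : Set E} (h : Λ.tcl S ⊆ S) : Λ.TC S :=
  fun 𝔬 h1 h2 => h ⟨𝔬, h1, h2, rfl⟩

/-- laws on arbitrary types -/
lemma TC.mem' {S : Set E} (h : Λ.TC S) {𝔬 : Ultrafilter Ω} {g : Ω → G} {z : Ω → E}
    (hz : ∀ᶠ ω in (𝔬 : Filter Ω), z ω ∈ S) (hg : Λ.l 𝔬 (fun ω => Λ.θ (g ω)) = 1) :
    Λ.l 𝔬 (fun ω => Λ.θ (g ω) * z ω) ∈ S :=
  h (𝔬.map (fun ω => (g ω, z ω))) hz hg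

/-- `τ`-closed sets are closed under limits -/
lemma TC.mem {S : Set E} (h : Λ.TC S) {𝔬 : Ultrafilter Ω} {z : Ω → E}
    (hz : ∀ᶠ ω in (𝔬 : Filter Ω), z ω ∈ S) : Λ.l 𝔬 z ∈ S := by
  have h1 := h.mem' (g := fun _ => 1) hz (by rw [map_one, Λ.l_const])
  simpa only [map_one, one_mul] using h1

lemma mem_QQ {A : Subgroup E} {𝔬 : Ultrafilter Ω} {g : Ω → G} {z : Ω → E}
    (hz : ∀ᶠ ω in (𝔬 : Filter Ω), z ω ∈ A) (hg : Λ.l 𝔬 (fun ω => Λ.θ (g ω)) = 1)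
    (hz1 : Λ.l 𝔬 z = 1) : Λ.l 𝔬 (fun ω => Λ.θ (g ω) * z ω) ∈ Λ.QQ A :=
  ⟨𝔬.map (fun ω => (g ω, z ω)), hz, hg, hz1, rfl⟩

lemma QQ_mono {A B : Subgroup E} (h : A ≤ B) : Λ.QQ A ⊆ Λ.QQ B := by
  rintro q ⟨𝔬, h1, h2⟩
  exact ⟨𝔬, h1.mono fun _ hp => h hp, h2⟩

lemma TC.QQ_sub {A : Subgroup E} (h : Λ.TC (A : Set E)) : Λ.QQ A ⊆ A := by
  rintro q ⟨𝔬, h1, h2, -, rfl⟩
  exact h 𝔬 h1 h2

lemma TC.sInf {c : Set (Subgroup E)} (h : ∀ A ∈ c, Λ.TC (A : Set E)) :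
    Λ.TC ((sInf c : Subgroup E) : Set E) := by
  intro 𝔬 h1 h2
  rw [SetLike.mem_coe, Subgroup.mem_sInf]
  intro A hA
  refine h A hA 𝔬 (h1.mono fun p hp => ?_) h2
  exact (Subgroup.mem_sInf.1 hp) A hA

lemma TC_DD (A : Subgroup E) : Λ.TC (Λ.DD A : Set E) := TC.sInf fun _ hD => hD.1

lemma mem_DD {A : Subgroup E} (e : E) {q : E} (hq : q ∈ Λ.QQ A) : e⁻¹ * q * e ∈ Λ.DD A := by
  unfold DD
  rw [Subgroup.mem_sInf]
  exact fun D hD => hD.2 e q hq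

lemma QQ_sub_DD (A : Subgroup E) : Λ.QQ A ⊆ Λ.DD A := by
  intro q hq
  have := mem_DD (Λ := Λ) (1 : E) hq
  simpa using this

lemma DD_le {A D : Subgroup E} (hD : Λ.TC (D : Set E))
    (h : ∀ e : E, ∀ q ∈ Λ.QQ A, e⁻¹ * q * e ∈ D) : Λ.DD A ≤ D := sInf_le ⟨hD, h⟩

lemma DD_mono {A B : Subgroup E} (h : A ≤ B) : Λ.DD A ≤ Λ.DD B :=
  DD_le (TC_DD B) fun e _ hq => mem_DD e (QQ_mono h hq)

lemma NT.DD_le {A : Subgroup E} (h : Λ.NT A) : Λ.DD A ≤ A :=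
  LimGp.DD_le h.closed fun e q hq => by
    have := h.normal.conj_mem q (h.closed.QQ_sub hq) e⁻¹
    rwa [inv_inv] at this

lemma NT_top : Λ.NT (⊤ : Subgroup E) := ⟨fun _ _ _ => trivial, inferInstance⟩

/-- LEMMA J: limits of products -/
theorem J (𝔬 : Ultrafilter Ω) (x z : Ω → E) {A : Subgroup E}
    (hz : ∀ᶠ ω in (𝔬 : Filter Ω), z ω ∈ A) (hl : Λ.l 𝔬 z ∈ A) :
    ∃ q ∈ Λ.QQ A, Λ.l 𝔬 (fun ω => x ω * z ω) = Λ.l 𝔬 x * q * Λ.l 𝔬 z := by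
  obtain ⟨k, hk⟩ := Λ.exists_law (Λ.l 𝔬 x)⁻¹
  choose h hh using fun ω => Λ.exists_law (x ω)
  -- limits over the composed law
  have key : ∀ f : Ω → E, Λ.l (Λ.sdk k (fun _ => Λ.sdk 𝔬 h))
      (fun p => Λ.θ (p.1 * p.2.1 * (p.2.2.2.1 * p.2.2.2.2)) * f p.2.2.1) =
      (Λ.l 𝔬 x)⁻¹ * Λ.l 𝔬 (fun ω => x ω * f ω) := by
    intro f
    rw [Λ.l_sdk_th_mul k (fun _ => Λ.sdk 𝔬 h) (fun g => g) (fun _ q => q.2.1 * q.2.2)
      (fun _ q => f q.1)]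
    have e1 : Λ.l (Λ.sdk 𝔬 h) (fun q => Λ.θ (q.2.1 * q.2.2) * f q.1) =
        Λ.l 𝔬 (fun ω => x ω * f ω) := by
      have e2 := Λ.l_sdk_th_mul 𝔬 h (fun _ => 1) (fun _ r => r) (fun ω _ => f ω)
      simp only [one_mul, map_one, Λ.l_right, hh] at e2
      exact e2
    rw [e1, Λ.l_right, hk]
  have hq := mem_QQ (Λ := Λ) (A := A) (𝔬 := Λ.sdk k (fun _ => Λ.sdk 𝔬 h))
    (g := fun p => p.1 * p.2.1 * (p.2.2.2.1 * p.2.2.2.2))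
    (z := fun p => z p.2.2.1 * (Λ.l 𝔬 z)⁻¹) (by
      rw [Λ.ev_sdk' k (fun _ => Λ.sdk 𝔬 h) (fun _ q => z q.1 * (Λ.l 𝔬 z)⁻¹ ∈ A),
        eventually_const, Λ.ev_sdk' 𝔬 h (fun ω _ => z ω * (Λ.l 𝔬 z)⁻¹ ∈ A)]
      simp only [eventually_const]
      filter_upwards [hz] with ω hω
      exact A.mul_mem hω (A.inv_mem hl)) (by
      have := key (fun _ => 1)
      simp only [mul_one] at this
      rw [this, inv_mul_cancel]) (by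
      have e1 := Λ.l_map (Λ.sdk k (fun _ => Λ.sdk 𝔬 h)) (fun p => p.2.2.1)
        (fun ω => z ω * (Λ.l 𝔬 z)⁻¹)
      rw [← e1, Λ.sdk_map k (fun _ => Λ.sdk 𝔬 h) (fun _ q => q.1), bind_const',
        Λ.sdk_fst, Λ.l_right, mul_inv_cancel])
  refine ⟨_, hq, ?_⟩
  rw [key (fun ω => z ω * (Λ.l 𝔬 z)⁻¹)]
  have e4 : Λ.l 𝔬 (fun ω => x ω * (z ω * (Λ.l 𝔬 z)⁻¹)) =
      Λ.l 𝔬 (fun ω => x ω * z ω) * (Λ.l 𝔬 z)⁻¹ := by
    rw [← Λ.l_right]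
    simp only [mul_assoc]
  rw [e4]
  group

/-- conjugation preserves `τ`-closed sets -/
lemma TC.conj {S : Set E} (hS : Λ.TC S) (e : E) : Λ.TC {a | e * a * e⁻¹ ∈ S} := by
  intro 𝔬 h1 h2
  obtain ⟨k, hk⟩ := Λ.exists_law e
  obtain ⟨r, hr⟩ := Λ.exists_law e⁻¹
  have key : ∀ f : G × E → E, Λ.l (Λ.sdk k (fun _ => Λ.sdk 𝔬 (fun _ => r)))
      (fun p => Λ.θ (p.1 * p.2.1 * (p.2.2.1.1 * p.2.2.2.1 * p.2.2.2.2)) * f p.2.2.1) =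
      e * Λ.l 𝔬 (fun p => Λ.θ p.1 * (e⁻¹ * f p)) := by
    intro f
    rw [Λ.l_sdk_th_mul k (fun _ => Λ.sdk 𝔬 (fun _ => r)) (fun g => g)
      (fun _ q => q.1.1 * q.2.1 * q.2.2) (fun _ q => f q.1)]
    have e1 : Λ.l (Λ.sdk 𝔬 (fun _ => r)) (fun q => Λ.θ (q.1.1 * q.2.1 * q.2.2) * f q.1) =
        Λ.l 𝔬 (fun p => Λ.θ p.1 * (e⁻¹ * f p)) := by
      rw [Λ.l_sdk_th_mul 𝔬 (fun _ => r) (fun p => p.1) (fun _ g => g) (fun p _ => f p)]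
      simp only [Λ.l_right, hr]
    rw [e1, Λ.l_right, hk]
  have h3 := hS.mem' (𝔬 := Λ.sdk k (fun _ => Λ.sdk 𝔬 (fun _ => r)))
    (g := fun p => p.1 * p.2.1 * (p.2.2.1.1 * p.2.2.2.1 * p.2.2.2.2))
    (z := fun p => e * p.2.2.1.2 * e⁻¹) (by
      rw [Λ.ev_sdk' k (fun _ => Λ.sdk 𝔬 (fun _ => r)) (fun _ q => e * q.1.2 * e⁻¹ ∈ S),
        eventually_const, Λ.ev_sdk' 𝔬 (fun _ => r) (fun p _ => e * p.2 * e⁻¹ ∈ S)]
      simp only [eventually_const]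
      exact h1) (by
      have := key (fun _ => 1)
      simp only [mul_one, Λ.l_right, h2, one_mul, mul_inv_cancel] at this
      exact this)
  rw [key (fun p => e * p.2 * e⁻¹)] at h3
  have e4 : Λ.l 𝔬 (fun p => Λ.θ p.1 * (e⁻¹ * (e * p.2 * e⁻¹))) =
      Λ.l 𝔬 (fun p => Λ.θ p.1 * p.2) * e⁻¹ := by
    rw [← Λ.l_right]
    congr 1
    funext p
    group
  rw [e4, ← mul_assoc] at h3
  exact h3

/-- `DD A` is always normal -/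
lemma DD_normal (A : Subgroup E) : (Λ.DD A).Normal := by
  constructor
  intro d hd e
  have h1 : Λ.DD A ≤ (Λ.DD A).comap (MulAut.conj e).toMonoidHom := by
    refine DD_le ?_ ?_
    · exact (TC_DD (Λ := Λ) A).conj e
    · intro f q hq
      have := mem_DD (Λ := Λ) (A := A) (f * e⁻¹) hq
      simp only [Subgroup.mem_comap, MulEquiv.coe_toMonoidHom, MulAut.conj_apply]
      convert this using 1
      group
  have h2 := h1 hd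
  simpa [MulAut.conj_apply] using h2

lemma NT_DD (A : Subgroup E) : Λ.NT (Λ.DD A) := ⟨TC_DD A, DD_normal A⟩

end LimGp

/-! ### Congruences -/

/-- left congruence modulo a subgroup -/
def Eqm (D : Subgroup E) (a b : E) : Prop := a⁻¹ * b ∈ D

lemma Eqm.refl (D : Subgroup E) (a : E) : Eqm D a a := by
  unfold Eqm
  rw [inv_mul_cancel]
  exact D.one_mem

lemma Eqm.of_eq {D : Subgroup E} {a b : E} (h : a = b) : Eqm D a b := h ▸ Eqm.refl D a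

lemma Eqm.symm {D : Subgroup E} {a b : E} (h : Eqm D a b) : Eqm D b a := by
  unfold Eqm at *
  have := D.inv_mem h
  rwa [mul_inv_rev, inv_inv] at this

lemma Eqm.trans {D : Subgroup E} {a b c : E} (h : Eqm D a b) (h' : Eqm D b c) : Eqm D a c := by
  unfold Eqm at *
  have := D.mul_mem h h'
  rwa [mul_assoc, mul_inv_cancel_left] at this

lemma Eqm.left {D : Subgroup E} {a b : E} (c : E) (h : Eqm D a b) : Eqm D (c * a) (c * b) := by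
  unfold Eqm at *
  rwa [mul_inv_rev, mul_assoc, inv_mul_cancel_left]

lemma Eqm.mono {D N : Subgroup E} (hDN : D ≤ N) {a b : E} (h : Eqm D a b) : Eqm N a b := hDN h

/-- membership passes to congruent elements -/
lemma Eqm.mem {D A : Subgroup E} (hDA : D ≤ A) {a b : E} (h : Eqm D a b) (ha : a ∈ A) :
    b ∈ A := by
  have := A.mul_mem ha (hDA h)
  rwa [mul_inv_cancel_left] at this

/-- `N` lies between `DD A` and `A`, is `τ`-closed and normalised by `A` -/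
structure Mid (Λ : LimGp G E) (A N : Subgroup E) : Prop where
  closed : Λ.TC (N : Set E)
  ge : Λ.DD A ≤ N
  le : N ≤ A
  nrm : ∀ a ∈ A, ∀ n ∈ N, a * n * a⁻¹ ∈ N

lemma Mid.nrm' {Λ : LimGp G E} {A N : Subgroup E} (h : Mid Λ A N) {a n : E} (ha : a ∈ A)
    (hn : n ∈ N) : a⁻¹ * n * a ∈ N := by
  have := h.nrm a⁻¹ (A.inv_mem ha) n hn
  rwa [inv_inv] at this

lemma LimGp.NT.mid {Λ : LimGp G E} {A : Subgroup E} (h : Λ.NT A) : Mid Λ A (Λ.DD A) :=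
  ⟨LimGp.TC_DD A, le_rfl, h.DD_le, fun a _ n hn => (LimGp.DD_normal A).conj_mem n hn a⟩

lemma Eqm.right {Λ : LimGp G E} {A N : Subgroup E} (hN : Mid Λ A N) {a b c : E} (hc : c ∈ A)
    (h : Eqm N a b) : Eqm N (a * c) (b * c) := by
  unfold Eqm at *
  have := hN.nrm' hc h
  rwa [mul_inv_rev, ← mul_assoc, mul_assoc c⁻¹]

/-- congruence modulo normal subgroups: multiplication on the right -/
lemma Eqm.right' {D : Subgroup E} (hD : D.Normal) {a b : E} (c : E) (h : Eqm D a b) :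
    Eqm D (a * c) (b * c) := by
  unfold Eqm at *
  have := hD.conj_mem _ h c⁻¹
  rw [inv_inv] at this
  rwa [mul_inv_rev, ← mul_assoc, mul_assoc c⁻¹]

/-- inverses of congruent elements of `A` -/
lemma Eqm.inv {Λ : LimGp G E} {A N : Subgroup E} (hN : Mid Λ A N) {a b : E} (ha : a ∈ A)
    (h : Eqm N a b) : Eqm N a⁻¹ b⁻¹ := by
  have hb : b ∈ A := h.mem hN.le ha
  have h1 := (h.symm.right hN (A.inv_mem hb)).left a⁻¹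
  simpa using h1

/-- products of congruent elements -/
lemma Eqm.mul {Λ : LimGp G E} {A N : Subgroup E} (hN : Mid Λ A N) {a b c d : E} (hc : c ∈ A)
    (h : Eqm N a b) (h' : Eqm N c d) : Eqm N (a * c) (b * d) :=
  (h.right hN hc).trans (h'.left b)

/-- limits of congruent families -/
lemma Eqm.limit {Λ : LimGp G E} {N : Subgroup E} (hN : Λ.TC (N : Set E)) {Ω : Type v}
    {𝔬 : Ultrafilter Ω} {a b : Ω → E} (h : ∀ᶠ ω in (𝔬 : Filter Ω), Eqm N (a ω) (b ω)) :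
    Eqm N (Λ.l 𝔬 a) (Λ.l 𝔬 b) := by
  have hm : Λ.l 𝔬 (fun ω => (a ω)⁻¹ * b ω) ∈ N := hN.mem h
  obtain ⟨q, hq, e⟩ := LimGp.J (Λ := Λ) 𝔬 a (fun ω => (a ω)⁻¹ * b ω) h hm
  have e1 : Λ.l 𝔬 (fun ω => a ω * ((a ω)⁻¹ * b ω)) = Λ.l 𝔬 b := by
    congr 1
    funext ω
    rw [mul_inv_cancel_left]
  rw [e1] at e
  unfold Eqm
  rw [e, mul_assoc, inv_mul_cancel_left]
  exact N.mul_mem (hN.QQ_sub hq) hm

/-- limits of products, the second factor being in a `τ`-closed group `A` -/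
lemma Eqm.prod {Λ : LimGp G E} {A : Subgroup E} (hA : Λ.TC (A : Set E)) {Ω : Type v}
    {𝔬 : Ultrafilter Ω} (x z : Ω → E) (hz : ∀ᶠ ω in (𝔬 : Filter Ω), z ω ∈ A) :
    Eqm (Λ.DD A) (Λ.l 𝔬 x * Λ.l 𝔬 z) (Λ.l 𝔬 (fun ω => x ω * z ω)) := by
  have hm : Λ.l 𝔬 z ∈ A := hA.mem hz
  obtain ⟨q, hq, e⟩ := LimGp.J (Λ := Λ) 𝔬 x z hz hm
  unfold Eqm
  rw [e]
  have := LimGp.mem_DD (Λ := Λ) (Λ.l 𝔬 z) hq
  convert this using 1
  group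

/-- limits of products modulo `A`, the second factor being in `A` -/
lemma LimGp.TC.prod_mem {Λ : LimGp G E} {A : Subgroup E} (hA : Λ.TC (A : Set E)) {Ω : Type v}
    {𝔬 : Ultrafilter Ω} (x z : Ω → E) (hz : ∀ᶠ ω in (𝔬 : Filter Ω), z ω ∈ A) :
    Eqm A (Λ.l 𝔬 x) (Λ.l 𝔬 (fun ω => x ω * z ω)) := by
  refine Eqm.limit hA (hz.mono fun ω hω => ?_)
  unfold Eqm
  rwa [inv_mul_cancel_left]

/-- the intersection of the `τ`-closures of the `τ`-open neighbourhoods of `1` in `A` -/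
def HH (Λ : LimGp G E) (A : Subgroup E) : Set E :=
  {a | ∀ V : Set E, V ⊆ A → (1 : E) ∈ V → Λ.TC ((A : Set E) \ V) → a ∈ Λ.tcl V}

end Calc

/-! ### Machines (the structures `Mach`, `MOK`, `MK` are in `Df/Basic.lean`) -/

section Machines

variable {S T G : Type} [CommGroup G] {E : Type u} [Group E] (Λ : LimGp G E)

/-- first limit of a move -/
def P1 (m : Ultrafilter (T × G)) : E := Λ.l m (fun p => Λ.θ p.2)

/-- second limit of a move at the state `s` -/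
def P2 (K : Mach S T G) (s : S) (m : Ultrafilter (T × G)) : E :=
  Λ.l m (fun p => Λ.θ (p.2 * K.r s p.1))

/-- the moves with values in `A` -/
def MM (K : Mach S T G) (A : Subgroup E) (s : S) : Set (Ultrafilter (T × G)) :=
  {m | m.map Prod.fst ∈ K.W ∧ P1 Λ m ∈ A ∧ P2 Λ K s m ∈ A}

/-- full landing from `B` to `A` at the state `s` -/
def FLat (K : Mach S T G) (B A : Subgroup E) (s : S) : Prop :=
  ∃ u ∈ K.W, ∀ e₁ ∈ B, ∀ e₂ ∈ B, ∃ m ∈ MM Λ K B s, m.map Prod.fst = u ∧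
    Eqm A e₁ (P1 Λ m) ∧ Eqm A e₂ (P2 Λ K s m)

/-- full landing from `B` to `A` -/
def FL (K : Mach S T G) (B A : Subgroup E) : Prop := ∀ s ∈ K.S₀, FLat Λ K B A s

/-- the composition of the move `m` at `s` with the selection `F` of moves (with `k → 1` in the
middle) -/
def cps (K : Mach S T G) (s : S) (m : Ultrafilter (T × G))
    (F : S → Ultrafilter (T × G)) : Ultrafilter (T × G) :=
  (Λ.sdk m (fun p => F (K.act s p.1))).map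
    (fun q => (K.cmp q.1.1 q.2.2.1, q.1.2 * q.2.1 * q.2.2.2))

/-- a selection of moves -/
def Sel (K : Mach S T G) (A : Subgroup E) (F : S → Ultrafilter (T × G)) : Prop :=
  ∀ s ∈ K.S₀, F s ∈ MM Λ K A s

/-- limit of the first limits -/
def I1 (v : Ultrafilter S) (F : S → Ultrafilter (T × G)) : E := Λ.l v (fun s => P1 Λ (F s))

/-- limit of the second limits -/
def I2 (K : Mach S T G) (v : Ultrafilter S) (F : S → Ultrafilter (T × G)) : E :=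
  Λ.l v (fun s => P2 Λ K s (F s))

/-- the comparison property (K) of `N` at `v` -/
def Cmp (K : Mach S T G) (A N : Subgroup E) (v : Ultrafilter S) : Prop :=
  ∀ F F' : S → Ultrafilter (T × G), Sel Λ K A F → Sel Λ K A F' →
    (∀ s ∈ K.S₀, (F s).map Prod.fst = (F' s).map Prod.fst) →
    Eqm N ((I1 Λ v F)⁻¹ * I2 Λ K v F) ((I1 Λ v F')⁻¹ * I2 Λ K v F')

/-- the law of the new state -/
def mv (K : Mach S T G) (v : Ultrafilter S) (F : S → Ultrafilter (T × G)) : Ultrafilter S :=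
  v.bind (fun s => (F s).map (fun q => K.act s q.1))

/-- invariant closed sets of states -/
structure Inv (K : Mach S T G) (A : Subgroup E) (Y : Set (Ultrafilter S × E × E)) : Prop where
  closed : ∀ f : Ultrafilter (Ultrafilter S × E × E), (∀ᶠ p in (f : Filter _), p ∈ Y) →
    (f.bind (fun p => p.1), Λ.l f (fun p => p.2.1), Λ.l f (fun p => p.2.2)) ∈ Y
  good : ∀ p ∈ Y, ∀ᶠ s in (p.1 : Filter S), s ∈ K.S₀
  mem : ∀ p ∈ Y, p.2.1 ∈ A ∧ p.2.2 ∈ A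
  sat : ∀ p ∈ Y, ∀ a b : E, Eqm (Λ.DD A) p.2.1 a → Eqm (Λ.DD A) p.2.2 b → (p.1, a, b) ∈ Y
  move : ∀ p ∈ Y, ∀ F, Sel Λ K A F →
    (mv K p.1 F, p.2.1 * I1 Λ p.1 F, p.2.2 * I2 Λ K p.1 F) ∈ Y

/-- the set of states reachable from `s₀` -/
def Rch (K : Mach S T G) (A : Subgroup E) (s₀ : S) : Set (Ultrafilter S × E × E) :=
  {p | ∃ m ∈ MM Λ K A s₀, m.map (fun q => K.act s₀ q.1) = p.1 ∧
    Eqm (Λ.DD A) (P1 Λ m) p.2.1 ∧ Eqm (Λ.DD A) (P2 Λ K s₀ m) p.2.2}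

end Machines

/-- absorption of arbitrary functions `y` modulo `A` -/
def AF {G : Type} [CommGroup G] {E : Type u} [Group E] (Λ : LimGp G E) (A : Subgroup E) : Prop :=
  ∃ k : Ultrafilter G, ∀ y : G → E, (∀ κ, y κ ∈ Λ.DD ⊤) →
    ∃ 𝔬 : Ultrafilter (G × G), 𝔬.map Prod.fst = k ∧
      Λ.l 𝔬 (fun p => Λ.θ p.2) ∈ A ∧ Λ.l 𝔬 (fun p => Λ.θ (p.2 * p.1) * y p.1) ∈ A

/-! ### The rational machine -/

section Rational

variable {E : Type u} [Group E] (Λ : LimGp ℚˣ E)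

/-- the laws `𝓔₁` -/
def E1 (𝔲 : Ultrafilter ℚ) : Prop :=
  ∃ 𝔮 : Ultrafilter (ℚ × ℚˣ), 𝔮.map Prod.fst = 𝔲 ∧
    ∀ x : ℚ, (∀ᶠ p in (𝔮 : Filter (ℚ × ℚˣ)), 1 + x * p.1 ≠ 0) ∧
      Λ.l 𝔮 (fun p => Λ.θ (p.2 * un (1 + x * p.1))) = 1

/-- the twisted laws `𝓔_κ` -/
def EK (κ : ℚˣ) (𝔲 : Ultrafilter ℚ) : Prop :=
  ∃ 𝔮 : Ultrafilter (ℚ × ℚˣ), 𝔮.map Prod.fst = 𝔲 ∧
    (∀ x : ℚ, (∀ᶠ p in (𝔮 : Filter (ℚ × ℚˣ)), 1 + x * p.1 ≠ 0) ∧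
      Λ.l 𝔮 (fun p => Λ.θ (p.2 * un (1 + x * p.1))) = 1) ∧
    (∀ᶠ p in (𝔮 : Filter (ℚ × ℚˣ)), p.1 ≠ 0) ∧
    Λ.l 𝔮 (fun p => Λ.θ (p.2 * un (2 * p.1 / (κ : ℚ)))) = 1

variable {Λ} in
lemma EK.e1 {κ : ℚˣ} {𝔲 : Ultrafilter ℚ} (h : EK Λ κ 𝔲) : E1 Λ 𝔲 := by
  obtain ⟨𝔮, h1, h2, -⟩ := h
  exact ⟨𝔮, h1, h2⟩

variable {Λ} in
lemma E1.ne {𝔲 : Ultrafilter ℚ} (h : E1 Λ 𝔲) (x : ℚ) :
    ∀ᶠ W in (𝔲 : Filter ℚ), 1 + x * W ≠ 0 := by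
  obtain ⟨𝔮, rfl, h2⟩ := h
  exact (h2 x).1

variable {Λ} in
lemma EK.ne_zero {κ : ℚˣ} {𝔲 : Ultrafilter ℚ} (h : EK Λ κ 𝔲) :
    ∀ᶠ W in (𝔲 : Filter ℚ), W ≠ 0 := by
  obtain ⟨𝔮, rfl, -, h3, -⟩ := h
  exact h3

/-- rigid subgroups -/
structure Rig (A : Subgroup E) : Prop where
  closed : Λ.TC (A : Set E)
  lin : ∀ 𝔮 : Ultrafilter (ℚ × ℚˣ), E1 Λ (𝔮.map Prod.fst) → Λ.l 𝔮 (fun p => Λ.θ p.2) ∈ A →
    ∀ x : ℚ, Λ.l 𝔮 (fun p => Λ.θ (p.2 * un (1 + x * p.1))) ∈ A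
  nrm : ∀ 𝔮 𝔮' : Ultrafilter (ℚ × ℚˣ), 𝔮.map Prod.fst = 𝔮'.map Prod.fst →
    E1 Λ (𝔮.map Prod.fst) → Λ.l 𝔮 (fun p => Λ.θ p.2) ∈ A → Λ.l 𝔮' (fun p => Λ.θ p.2) ∈ A →
    Λ.l 𝔮 (fun p => Λ.θ (p.2 * un (1 + p.1 ^ 2))) ∈ A →
    Λ.l 𝔮' (fun p => Λ.θ (p.2 * un (1 + p.1 ^ 2))) ∈ A

/-- the smallest rigid subgroup -/
def A0 : Subgroup E := sInf {A : Subgroup E | Rig Λ A}

/-- `e` is a limit of `g (1 + W²)`, `g → 1` -/
def NU (𝔲 : Ultrafilter ℚ) (e : E) : Prop :=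
  ∃ 𝔮 : Ultrafilter (ℚ × ℚˣ), 𝔮.map Prod.fst = 𝔲 ∧ Λ.l 𝔮 (fun p => Λ.θ p.2) = 1 ∧
    Λ.l 𝔮 (fun p => Λ.θ (p.2 * un (1 + p.1 ^ 2))) = e

/-- the laws of the moves -/
def WW : Set (Ultrafilter ℚ) := {𝔲 | E1 Λ 𝔲 ∧ ∃ a ∈ A0 Λ, NU Λ 𝔲 a}

/-- the machine of rotations -/
noncomputable def MQ : Mach ℚ ℚ ℚˣ where
  act V W := op V W
  cmp V W := op V W
  one := 0
  r V W := un (aa (cc V) W)
  S₀ := {V | V ≠ 0 ∧ V ≠ 1 ∧ V ≠ -1}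
  W := WW Λ

/-- multiplication by `r` preserves limits modulo `A` -/
def Pos (A : Subgroup E) {Ω : Type} (𝔬 : Ultrafilter Ω) (r : Ω → ℚˣ) : Prop :=
  ∀ 𝔮 : Ultrafilter (Ω × ℚˣ), 𝔮.map Prod.fst = 𝔬 →
    Eqm A (Λ.l 𝔮 (fun p => Λ.θ p.2)) (Λ.l 𝔮 (fun p => Λ.θ (p.2 * r p.1)))

/-- couplings of the family `𝔬` with limits in `A` -/
def Cpl (A : Subgroup E) (v : Ultrafilter ℚ) {Ω : Type} (𝔬 : ℚ → Ultrafilter Ω)
    (𝔮 : ℚ → Ultrafilter (Ω × ℚˣ)) : Prop :=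
  ∀ᶠ V in (v : Filter ℚ), (𝔮 V).map Prod.fst = 𝔬 V ∧ Λ.l (𝔮 V) (fun p => Λ.θ p.2) ∈ A

/-- `Φ(g r)` -/
def Ph (v : Ultrafilter ℚ) {Ω : Type} (𝔮 : ℚ → Ultrafilter (Ω × ℚˣ)) (r : ℚ → Ω → ℚˣ) : E :=
  Λ.l v (fun V => Λ.l (𝔮 V) (fun p => Λ.θ (p.2 * r V p.1)))

/-- the family `r` is independent of all couplings with limits in `A`, modulo `N` -/
def Ind (A N : Subgroup E) (v : Ultrafilter ℚ) {Ω : Type} (𝔬 : ℚ → Ultrafilter Ω)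
    (r : ℚ → Ω → ℚˣ) : Prop :=
  (∀ᶠ V in (v : Filter ℚ), Pos Λ A (𝔬 V) (r V)) ∧
  ∀ 𝔮 𝔮' : ℚ → Ultrafilter (Ω × ℚˣ), Cpl Λ A v 𝔬 𝔮 → Cpl Λ A v 𝔬 𝔮' →
    Eqm N ((Ph Λ v 𝔮 (fun _ _ => 1))⁻¹ * Ph Λ v 𝔮 r) ((Ph Λ v 𝔮' (fun _ _ => 1))⁻¹ * Ph Λ v 𝔮' r)

end Rational

end Pool.Agent.Work.MP_0f91f8_co.Lg
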