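import Pool.Agent.Work.MP_0f91f8_co.Lg.Stmts
import Pool.Agent.Work.MP_0f91f8_co.Dfx.Final

/-!
Distal actions satisfy Bronstein's condition (Baire category, after passing to metrizable factors).
-/

set_option linter.unusedSectionVars false

open Filter Topology

universe u

namespace Pool.Agent.Work.MP_0f91f8_co.Lg

/-- topologically transitive closed relations which contain the diagonal, in distal actions on
compact metric spaces -/
lemma trans_metric {Y : Type u} [MetricSpace Y] [CompactSpace Y] {S : ℕ → Y → Y}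
    (h : Dfx.Dyn S) (L : Set (Y × Y)) (hL : IsClosed L) (hd : ∀ y, (y, y) ∈ L)
    (ht : ∀ U V : Set (Y × Y), IsOpen U → IsOpen V → (L ∩ U).Nonempty → (L ∩ V).Nonempty →
      ∃ k : ℕ, 0 < k ∧ ∃ p ∈ L ∩ U, T2 S k p ∈ V) : ∀ p ∈ L, p.1 = p.2 := by
  let G : ℕ → Set (Y × Y) := fun n =>
    {p | ∃ k : ℕ, 0 < k ∧ dist (S k p.1) (S k p.2) < 1 / ((n : ℝ) + 1)}
  have hGo : ∀ n, IsOpen (G n) := by
    intro n
    have : G n = ⋃ k : {k : ℕ // 0 < k}, {p : Y × Y | dist (S k p.1) (S k p.2) <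
        1 / ((n : ℝ) + 1)} := by
      ext p
      simp only [G, Set.mem_ofPred_eq, Set.mem_iUnion, Subtype.exists, exists_prop]
    rw [this]
    refine isOpen_iUnion fun k => isOpen_lt ?_ continuous_const
    exact ((h.cont k.1 k.2).comp continuous_fst).dist ((h.cont k.1 k.2).comp continuous_snd)
  have : CompactSpace L := isCompact_iff_compactSpace.1 hL.isCompact
  have hdn : Dense (⋂ n, (Subtype.val ⁻¹' G n : Set L)) := by
    apply dense_iInter_of_isOpen
    · intro n
      exact (hGo n).preimage continuous_subtype_val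
    · intro n
      rw [dense_iff_inter_open]
      rintro U hU ⟨p, hp⟩
      obtain ⟨O, hO, rfl⟩ := isOpen_induced_iff.1 hU
      have hV : IsOpen {p : Y × Y | dist p.1 p.2 < 1 / ((n : ℝ) + 1)} :=
        isOpen_lt (continuous_fst.dist continuous_snd) continuous_const
      obtain ⟨k, hk, q, ⟨hqL, hqO⟩, hq⟩ := ht O _ hO hV ⟨p.1, p.2, hp⟩
        ⟨(p.1.1, p.1.1), hd _, by
          show dist p.1.1 p.1.1 < 1 / ((n : ℝ) + 1)
          rw [dist_self]
          positivity⟩
      exact ⟨⟨q, hqL⟩, hqO, k, hk, hq⟩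
  have hdiag : (⋂ n, (Subtype.val ⁻¹' G n : Set L)) ⊆ {p : L | p.1.1 = p.1.2} := by
    intro p hp
    exact h.eq_of_dist fun n => Set.mem_iInter.1 hp n
  have hcl : IsClosed {p : L | p.1.1 = p.1.2} :=
    isClosed_eq (continuous_fst.comp continuous_subtype_val)
      (continuous_snd.comp continuous_subtype_val)
  intro p hp
  have h1 : (⟨p, hp⟩ : L) ∈ closure (⋂ n, (Subtype.val ⁻¹' G n : Set L)) := hdn _
  exact closure_minimal hdiag hcl h1

/-- distal actions satisfy Bronstein's condition -/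
theorem BR_of_distal {X : Type u} [TopologicalSpace X] [CompactSpace X] [T2Space X]
    {T : ℕ → X → X} (hT : Act T)
    (hd : ∀ x y z : X, (z, z) ∈ closure {p : X × X | ∃ k : ℕ, 0 < k ∧ p = (T k x, T k y)} →
      x = y) : BR T := by
  have h : Dfx.Dyn T := Dfx.dyn_of_distal hT.cont hT.mul hd
  intro L hL hdi _ ht _ p hp
  by_contra hne
  obtain ⟨f, hf0, hf1, -⟩ := exists_continuous_zero_one_of_isClosed
    (isClosed_singleton (x := p.1)) (isClosed_singleton (x := p.2))
    (Set.disjoint_singleton.2 hne)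
  have hcomp : CompactSpace (Dfx.YY T f) :=
    isCompact_iff_compactSpace.1 (isCompact_range (Dfx.continuous_Phi h f.continuous))
  let _ : MetricSpace (Dfx.YY T f) := TopologicalSpace.metrizableSpaceMetric (Dfx.YY T f)
  have hpc : Continuous (Dfx.pt T f) := Dfx.continuous_pt h f.continuous
  have hpp : Continuous (Prod.map (Dfx.pt T f) (Dfx.pt T f)) := hpc.prodMap hpc
  have key := trans_metric (Dfx.dyn_SS h f.continuous)
    (Prod.map (Dfx.pt T f) (Dfx.pt T f) '' L) (hL.isCompact.image hpp).isClosed (by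
      intro y
      obtain ⟨x, rfl⟩ := Dfx.exists_pt f y
      exact ⟨(x, x), hdi x, rfl⟩) (by
      rintro U V hU hV ⟨_, ⟨a, ha, rfl⟩, haU⟩ ⟨_, ⟨b, hb, rfl⟩, hbV⟩
      obtain ⟨k, hk, q, ⟨hqL, hqU⟩, hq⟩ := ht _ _ (hU.preimage hpp) (hV.preimage hpp)
        ⟨a, ha, haU⟩ ⟨b, hb, hbV⟩
      refine ⟨k, hk, _, ⟨⟨q, hqL, rfl⟩, hqU⟩, ?_⟩
      have e : T2 (Dfx.SS T f) k (Prod.map (Dfx.pt T f) (Dfx.pt T f) q) =
          Prod.map (Dfx.pt T f) (Dfx.pt T f) (T2 T k q) := by
        apply Prod.ext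
        · exact Dfx.SS_pt h f hk q.1
        · exact Dfx.SS_pt h f hk q.2
      rw [e]
      exact hq)
  have h1 : Dfx.pt T f p.1 = Dfx.pt T f p.2 := key _ ⟨p, hp, rfl⟩
  have h2 : f (T 1 p.1) = f (T 1 p.2) := by
    have h3 := congrFun (congrArg Subtype.val h1) 0
    simpa only [Dfx.pt, Dfx.Phi, zero_add] using h3
  have h3 : ∀ x, T 1 x = x := by
    intro x
    have h4 := Dfx.tn_val h one_pos
    rw [Dfx.tn_one] at h4
    exact (congrFun h4 x).symm
  rw [h3, h3, hf0 rfl, hf1 rfl] at h2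
  simp at h2

end Pool.Agent.Work.MP_0f91f8_co.Lg
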