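import Pool.Agent.Work.MP_0f91f8_co.Lg.I_DAI

/-!
Block [0f91f8 PI]: the action of ultrafilters, lemmas for the final theorem.
-/

set_option linter.unusedSectionVars false

open Filter Topology

universe u

namespace Pool.Agent.Work.MP_0f91f8_co.Lg

open Pool.Agent.Work.MP_0f91f8_co.Df (un un_val)

attribute [local instance] Ultrafilter.mul Ultrafilter.semigroup

namespace Ev


open I_DAI

section

variable {X : Type u} [TopologicalSpace X] [CompactSpace X] [T2Space X] {T : ℕ → X → X}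

/-- plus or minus a positive integer -/
def Int1 (g : ℚˣ) : Prop := ∃ n : ℕ, 0 < n ∧ (n : ℚ) = |(g : ℚ)|

lemma natAbs_num {g : ℚˣ} {n : ℕ} (h : (n : ℚ) = |(g : ℚ)|) : ((g : ℚ).num.natAbs) = n := by
  rcases le_total 0 (g : ℚ) with h0 | h0
  · rw [abs_of_nonneg h0] at h
    rw [← h]
    simp
  · rw [abs_of_nonpos h0] at h
    have h1 : (g : ℚ) = -(n : ℚ) := by rw [h, neg_neg]
    rw [h1]
    simp

lemma ac_eq {g : ℚˣ} {n : ℕ} (h : (n : ℚ) = |(g : ℚ)|) : ac T g = T n := by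
  unfold ac
  rw [natAbs_num h]

lemma ac_un {n : ℕ} (hn : 0 < n) : ac T (un n) = T n := by
  have hn1 : ((n : ℕ) : ℚ) ≠ 0 := by exact_mod_cast hn.ne'
  apply ac_eq
  rw [un_val hn1, abs_of_nonneg (Nat.cast_nonneg n : (0 : ℚ) ≤ (n : ℚ))]

lemma DA_int {A : Set ℕ} {p : Ultrafilter ℚˣ} (hp : p ∈ DA A) :
    ∀ᶠ g in (p : Filter ℚˣ), Int1 g := by
  filter_upwards [hp 1] with g hg
  obtain ⟨n, hn, -, h⟩ := hg
  rw [one_mul] at h
  exact ⟨n, hn, h⟩

lemma ac_mul (hT : Act T) {g h : ℚˣ} (hg : Int1 g) (hh : Int1 h) (x : X) :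
    ac T (g * h) x = ac T g (ac T h x) := by
  obtain ⟨n, hn, hg⟩ := hg
  obtain ⟨m, hm, hh⟩ := hh
  rw [ac_eq hg, ac_eq hh, ac_eq (n := n * m), hT.mul n m hn hm]
  rw [Units.val_mul, abs_mul, ← hg, ← hh]
  push_cast
  rfl

lemma ac_cont (hT : Act T) {g : ℚˣ} (hg : Int1 g) : Continuous (ac T g) := by
  obtain ⟨n, hn, hg⟩ := hg
  rw [ac_eq hg]
  exact hT.cont n hn

lemma mul_eq_bind (p q : Ultrafilter ℚˣ) : p * q = p.bind (fun a => q.map (fun b => a * b)) := by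
  apply Ultrafilter.coe_injective
  ext s
  exact Iff.rfl

lemma ev_mul' (hT : Act T) {p q : Ultrafilter ℚˣ} (hp : ∀ᶠ g in (p : Filter ℚˣ), Int1 g)
    (hq : ∀ᶠ g in (q : Filter ℚˣ), Int1 g) (x : X) : ev T (p * q) x = ev T p (ev T q x) := by
  unfold ev
  rw [mul_eq_bind, Cge.L_bind]
  unfold Cge.LL
  apply Cge.L_congr
  filter_upwards [hp] with a ha
  rw [Cge.L_map, ← Cge.L_comp (ac_cont hT ha)]
  apply Cge.L_congr
  filter_upwards [hq] with b hb
  exact ac_mul hT ha hb x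

lemma ev_pure (g : ℚˣ) (x : X) : ev T (pure g) x = ac T g x := Cge.L_pure _ _

lemma ev_mem {p : Ultrafilter ℚˣ} (hp : ∀ᶠ g in (p : Filter ℚˣ), Int1 g) (x : X) :
    ev T p x ∈ closure (orb T x) := by
  refine Cge.L_mem isClosed_closure ?_
  filter_upwards [hp] with g hg
  obtain ⟨n, hn, h⟩ := hg
  rw [ac_eq h]
  exact subset_closure ⟨n, hn, rfl⟩

lemma exists_ev {x y : X} (hy : y ∈ closure (orb T x)) : ∃ p : Ultrafilter ℚˣ,
    (∀ᶠ g in (p : Filter ℚˣ), Int1 g) ∧ ev T p x = y := by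
  have h1 : IsCompact ((fun p : Ultrafilter ℚˣ => ev T p x) ''
      {p : Ultrafilter ℚˣ | {g | Int1 g} ∈ p}) :=
    ((ultrafilter_isClosed_basic _).isCompact).image (Cge.continuous_L _)
  have h2 : closure (orb T x) ⊆ ((fun p : Ultrafilter ℚˣ => ev T p x) ''
      {p : Ultrafilter ℚˣ | {g | Int1 g} ∈ p}) := by
    refine closure_minimal ?_ h1.isClosed
    rintro _ ⟨k, hk, rfl⟩
    refine ⟨pure (un k), ?_, ?_⟩
    · show Int1 (un k)
      have hn1 : ((k : ℕ) : ℚ) ≠ 0 := by exact_mod_cast hk.ne'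
      refine ⟨k, hk, ?_⟩
      rw [un_val hn1, abs_of_nonneg (Nat.cast_nonneg k : (0 : ℚ) ≤ (k : ℚ))]
    · show ev T (pure (un k)) x = T k x
      rw [ev_pure, ac_un hk]
  obtain ⟨p, hp, h⟩ := h2 hy
  exact ⟨p, hp, h⟩

end

section

variable {X : Type u} [TopologicalSpace X] [CompactSpace X] [T2Space X] {T : ℕ → X → X}

lemma closure_orb_inv (hT : Act T) {x y : X} (hy : y ∈ closure (orb T x)) {k : ℕ} (hk : 0 < k) :
    T k y ∈ closure (orb T x) := by
  refine map_mem_closure (hT.cont k hk) hy ?_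
  rintro _ ⟨m, hm, rfl⟩
  exact ⟨k * m, Nat.mul_pos hk hm, (hT.mul k m hk hm x).symm⟩

/-- points fixed by a minimal idempotent are minimal points -/
lemma minPt (hT : Act T) {w : Ultrafilter ℚˣ} (hw : MinId w) (hwD : w ∈ DA Set.univ) {y : X}
    (hy : ev T w y = y) {n : ℕ} (hn : 0 < n) {q : X} (hq : q ∈ closure (orb T (T n y))) :
    y ∈ closure (orb T q) := by
  obtain ⟨p, hp, h⟩ := exists_ev hq
  obtain ⟨r, hr⟩ := hw.2 (w * (p * pure (un n)))
  have hn1 : ((n : ℕ) : ℚ) ≠ 0 := by exact_mod_cast hn.ne'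
  have hI : ∀ᶠ g in ((pure (un n) : Ultrafilter ℚˣ) : Filter ℚˣ), Int1 g := by
    show Int1 (un n)
    refine ⟨n, hn, ?_⟩
    rw [un_val hn1, abs_of_nonneg (Nat.cast_nonneg n : (0 : ℚ) ≤ (n : ℚ))]
  have hw1 := DA_int hwD
  have hrD : r * w ∈ DA Set.univ := mul_mem_DA r hwD
  have h1 : ev T (p * (pure (un n) * w)) y = q := by
    have h2 := mul_mem_DA (pure (un n)) hwD
    rw [ev_mul' hT hp (DA_int h2), ev_mul' hT hI hw1, ev_pure, ac_un hn, hy, h]
  have h3 : r * w * (p * (pure (un n) * w)) = w := by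
    calc r * w * (p * (pure (un n) * w)) = r * (w * (p * pure (un n)) * w) := by
          simp only [mul_assoc]
      _ = w := hr
  have h4 : ev T (r * w) q = y := by
    have h2 := mul_mem_DA p (mul_mem_DA (pure (un n)) hwD)
    rw [← h1, ← ev_mul' hT (DA_int hrD) (DA_int h2), h3, hy]
  rw [← h4]
  exact ev_mem (DA_int hrD) q

lemma act_T2 (hT : Act T) : Act (T2 T) where
  cont k hk := ((hT.cont k hk).comp continuous_fst).prodMk ((hT.cont k hk).comp continuous_snd)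
  mul k m hk hm x := Prod.ext (hT.mul k m hk hm x.1) (hT.mul k m hk hm x.2)

lemma L_pair {Ω : Type*} (𝔬 : Ultrafilter Ω) (f g : Ω → X) :
    Cge.L 𝔬 (fun ω => (f ω, g ω)) = (Cge.L 𝔬 f, Cge.L 𝔬 g) := by
  apply Cge.L_eq
  exact (Cge.tendsto_L 𝔬 f).prodMk_nhds (Cge.tendsto_L 𝔬 g)

lemma ev_T2 (p : Ultrafilter ℚˣ) (x y : X) : ev (T2 T) p (x, y) = (ev T p x, ev T p y) :=
  L_pair p (fun g => ac T g x) (fun g => ac T g y)

end

end Ev

end Pool.Agent.Work.MP_0f91f8_co.Lg
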