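import Pool.Agent.Work.MP_0f91f8_co.Lg.Stmts

/-!
Block [0f91f8 PI]: assembly.
-/

set_option linter.unusedSectionVars false
set_option linter.unusedVariables false

open Filter Topology

universe u

namespace Pool.Agent.Work.MP_0f91f8_co.Lg

open Pool.Agent.Work.MP_0f91f8_co.Cge (sd op aa cc bnd)
open Pool.Agent.Work.MP_0f91f8_co.Df (Mach MOK MK un)

section

variable {E : Type u} [Group E]

lemma NT_sInf {G : Type} [CommGroup G] {Λ : LimGp G E} {c : Set (Subgroup E)}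
    (h : ∀ A ∈ c, Λ.NT A) : Λ.NT (sInf c) := by
  refine ⟨LimGp.TC.sInf fun A hA => (h A hA).closed, ⟨?_⟩⟩
  intro n hn g
  rw [Subgroup.mem_sInf] at *
  exact fun A hA => (h A hA).normal.conj_mem n (hn A hA) g

/-- one level -/
lemma fl_level (hYEX : YEX E) {S T G : Type} [CommGroup G] {Λ : LimGp G E} {K : Mach S T G}
    (hK : MOK K) {A : Subgroup E} (hA : Λ.NT A)
    (H : ∀ (v : Ultrafilter S) (N : Subgroup E), Mid Λ A N →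
      (∀ᶠ s in (v : Filter S), s ∈ K.S₀) → Cmp Λ K A N v → N = A) : FL Λ K A (Λ.DD A) := by
  intro s hs
  obtain ⟨v, N, h1, h2, h3, h4⟩ := hYEX S T G Λ K hK A hA s hs
  exact h4 (H v N h1 h2 h3)

/-- from the first level to a perfect group -/
lemma fl_perf (hYEX : YEX E) (hSTEP2 : STEP2 E) (hFLS : FLS E) (hFLC : FLC E) (hZOR : ZOR E)
    {S T G : Type} [CommGroup G] {Λ : LimGp G E} {K : Mach S T G}
    (hK : MOK K) {B : Subgroup E} (hB : Λ.NT B) (h0 : FL Λ K B (Λ.DD B)) :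
    ∃ A : Subgroup E, Λ.NT A ∧ A ≤ Λ.DD B ∧ FL Λ K B A ∧ Λ.DD A = A := by
  obtain ⟨A, -, ⟨h1, h2, h3⟩, h4⟩ := hZOR G Λ (fun A => Λ.NT A ∧ A ≤ Λ.DD B ∧ FL Λ K B A)
    (Λ.DD B) (fun A h => h.1) ⟨LimGp.NT_DD B, le_rfl, h0⟩ (by
      rintro A hAB ⟨h1, h2, h3⟩
      have h4 : FL Λ K A (Λ.DD A) := by
        refine fl_level hYEX hK h1 ?_
        intro v N hN1 hN2 hN3
        exact hSTEP2 S T G Λ K hK B A hB h1 h2 h3 v N hN1 hN2 hN3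
      exact ⟨LimGp.NT_DD A, h1.DD_le.trans h2,
        hFLS S T G Λ K hK B A hB h1 (h2.trans hB.DD_le) h3 h4⟩) (by
      intro c hc hch hcA
      refine ⟨NT_sInf fun A hA => (hcA A hA).2.1, ?_, ?_⟩
      · obtain ⟨A, hA⟩ := hc
        exact (sInf_le hA).trans (hcA A hA).1
      · exact hFLC S T G Λ K hK B hB c hc hch fun A hA =>
          ⟨(hcA A hA).2.1, (hcA A hA).2.2.2⟩)
  exact ⟨A, h1, h2, h3, h4⟩

lemma AF_start {G : Type} [CommGroup G] (Λ : LimGp G E) : AF Λ (Λ.DD ⊤) := by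
  refine ⟨pure 1, fun y hy => ⟨pure (1, 1), rfl, ?_, ?_⟩⟩
  · rw [Λ.l_pure, map_one]
    exact Subgroup.one_mem _
  · rw [Λ.l_pure, mul_one, map_one, one_mul]
    exact hy 1

lemma af_perf (hAFS : AFS E) (hAFC : AFC E) (hZOR : ZOR E) {G : Type} [CommGroup G]
    {Λ : LimGp G E} {C : Subgroup E} (hC : Λ.NT C) (hCD : Λ.DD C = C) (hC1 : C ≤ Λ.DD ⊤)
    (h : FL Λ (MK G) (Λ.DD ⊤) C) :
    ∃ A : Subgroup E, Λ.NT A ∧ A ≤ Λ.DD ⊤ ∧ AF Λ A ∧ Λ.DD A = A := by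
  obtain ⟨A, -, ⟨h1, h2, h3, h4⟩, h5⟩ := hZOR G Λ
    (fun A => Λ.NT A ∧ C ≤ A ∧ A ≤ Λ.DD ⊤ ∧ AF Λ A) (Λ.DD ⊤)
    (fun A h => h.1) ⟨LimGp.NT_DD ⊤, hC1, le_rfl, AF_start Λ⟩ (by
      rintro A hAB ⟨h1, h2, h3, h4⟩
      refine ⟨LimGp.NT_DD A, ?_, h1.DD_le.trans h3, hAFS G Λ C A hC hCD h h1 h2 h3 h4⟩
      calc C = Λ.DD C := hCD.symm
        _ ≤ Λ.DD A := LimGp.DD_mono h2) (by
      intro c hc hch hcA
      refine ⟨NT_sInf fun A hA => (hcA A hA).2.1, ?_, ?_, ?_⟩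
      · exact le_sInf fun A hA => (hcA A hA).2.2.1
      · obtain ⟨A, hA⟩ := hc
        exact (sInf_le hA).trans (hcA A hA).1
      · exact hAFC G Λ c hc hch fun A hA => ⟨(hcA A hA).2.1, (hcA A hA).2.2.2.2⟩)
  exact ⟨A, h1, h3, h4, h5⟩

/-- the theorem on the rationals: Pythagorean triples whose limits are in `F`, for every
subgroup `F` containing all perfect groups -/
theorem rat_main (hYEX : YEX E) (hSTEP2 : STEP2 E) (hSTEPK : STEPK E) (hSTEP1 : STEP1 E)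
    (hFLS : FLS E) (hFLC : FLC E) (hZOR : ZOR E) (hMKOK : ∀ G : Type, [CommGroup G] → MOK (MK G))
    (hAFS : AFS E) (hAFC : AFC E) (hRIG : RIG E) (hMQOK : MQOK E) (hFIN : FIN E)
    (Λ : LimGp ℚˣ E) (F : Subgroup E) (hF : ∀ A : Subgroup E, Λ.NT A → Λ.DD A = A → A ≤ F) :
    ∃ 𝔬 : Ultrafilter (ℚˣ × ℚˣ × ℚˣ),
      (∀ᶠ p in (𝔬 : Filter (ℚˣ × ℚˣ × ℚˣ)),
        (p.1 : ℚ) ^ 2 + (p.2.1 : ℚ) ^ 2 = (p.2.2 : ℚ) ^ 2) ∧
      Λ.l 𝔬 (fun p => Λ.θ p.1) ∈ F ∧ Λ.l 𝔬 (fun p => Λ.θ p.2.1) ∈ F ∧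
      Λ.l 𝔬 (fun p => Λ.θ p.2.2) ∈ F := by
  have hC1 : Λ.NT (Λ.DD ⊤) := LimGp.NT_DD ⊤
  have hA0 : Λ.NT (A0 Λ) := ⟨(hRIG Λ).1.closed, (hRIG Λ).2⟩
  have hQ := hMQOK Λ
  have hK := hMKOK ℚˣ
  obtain ⟨A, a1, a2, a3, a4⟩ := fl_perf hYEX hSTEP2 hFLS hFLC hZOR hQ hA0
    (fl_level hYEX hQ hA0 fun v N h1 h2 h3 => hSTEP1 Λ N h1 v h2 h3)
  obtain ⟨C, c1, c2, c3, c4⟩ := fl_perf hYEX hSTEP2 hFLS hFLC hZOR hK hC1
    (fl_level hYEX hK hC1 fun v N h1 h2 h3 => hSTEPK ℚˣ Λ v N h1 h3)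
  obtain ⟨D, d1, d2, d3, d4⟩ := af_perf hAFS hAFC hZOR c1 c4 (c2.trans hC1.DD_le) c3
  exact hFIN Λ A D a1 (a2.trans (LimGp.DD_mono le_top)) d1 a3 d3 F (hF A a1 a4) (hF D d1 d4)

end

end Pool.Agent.Work.MP_0f91f8_co.Lg
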