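import Pool.Agent.Work.MP_0f91f8_co.Lg.Fin

/-!
Block [0f91f8 PI]: the final theorem from the items.
-/

set_option linter.unusedSectionVars false
set_option linter.unusedVariables false

open Filter Topology

universe u

namespace Pool.Agent.Work.MP_0f91f8_co.Lg

open Pool.Agent.Work.MP_0f91f8_co.Cge (sd op aa cc bnd)
open Pool.Agent.Work.MP_0f91f8_co.Df (Mach MOK MK un)

attribute [local instance] Ultrafilter.mul Ultrafilter.semigroup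

/-- the theorem on the rationals for the limit group `Λ` -/
def RAT (E : Type) [Group E] : Prop :=
  ∀ (Λ : LimGp ℚˣ E) (F : Subgroup E), (∀ A : Subgroup E, Λ.NT A → Λ.DD A = A → A ≤ F) →
    ∃ 𝔬 : Ultrafilter (ℚˣ × ℚˣ × ℚˣ),
      (∀ᶠ p in (𝔬 : Filter (ℚˣ × ℚˣ × ℚˣ)),
        (p.1 : ℚ) ^ 2 + (p.2.1 : ℚ) ^ 2 = (p.2.2 : ℚ) ^ 2) ∧
      Λ.l 𝔬 (fun p => Λ.θ p.1) ∈ F ∧ Λ.l 𝔬 (fun p => Λ.θ p.2.1) ∈ F ∧
      Λ.l 𝔬 (fun p => Λ.θ p.2.2) ∈ F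

section

variable {X : Type u} [TopologicalSpace X] [CompactSpace X] [T2Space X]

lemma DA_univ_of {A : Set ℕ} {p : Ultrafilter ℚˣ} (hp : p ∈ DA A) : p ∈ DA Set.univ :=
  fun r => (hp r).mono fun _ ⟨n, h1, _, h3⟩ => ⟨n, h1, trivial, h3⟩

lemma Thick_univ : Thick Set.univ := fun _ _ => ⟨1, one_pos, fun _ _ => trivial⟩

lemma ev_bind_mem {T : ℕ → X → X} (hEVA : EVA X) (hT : Act T) (x₀ : X) :
    IsClosed {p : Ultrafilter ℚˣ | ev T p x₀ = x₀} := by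
  apply isClosed_of_bind
  intro F hF
  show ev T _ x₀ = x₀
  rw [(hEVA T hT).2.1 F x₀]
  have h1 : Cge.L F (fun p => ev T p x₀) = Cge.L F (fun _ => x₀) := Cge.L_congr hF
  rw [h1, Cge.L_const]

/-- the minimal idempotent fixing `x₀` -/
lemma exists_w (hMINL : MINL) (hDAI : DAI) (hEVA : EVA X) {T : ℕ → X → X} (hT : Act T)
    (hmin : ∀ x y, y ∈ closure (orb T x)) {A : Set ℕ} (hA : Thick A) (x₀ : X) :
    ∃ w : Ultrafilter ℚˣ, MinId w ∧ w ∈ DA A ∧ ev T w x₀ = x₀ := by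
  obtain ⟨hD1, hD2, hD3⟩ := hDAI A hA
  obtain ⟨M, hMD, hMc, ⟨q, hq⟩, hM, hMS⟩ := hMINL ℚˣ (DA A) hD1 hD2 hD3
  obtain ⟨h1, h2, h3, h4⟩ := hEVA T hT
  obtain ⟨p, hp, hp'⟩ := h4 (ev T q x₀) x₀ (hmin _ _)
  obtain ⟨w, ⟨hwM, hw⟩, hmid⟩ := hMS (M ∩ {p | ev T p x₀ = x₀}) (fun _ h => h.1)
    (hMc.inter (ev_bind_mem hEVA hT x₀))
    ⟨p * q, hM p q hq, by
      show ev T (p * q) x₀ = x₀
      rw [(hp' q (DA_univ_of (hMD hq)) x₀).2, hp]⟩ (by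
      rintro a ⟨ha, ha'⟩ b ⟨hb, hb'⟩
      refine ⟨hM a b hb, ?_⟩
      show ev T (a * b) x₀ = x₀
      rw [h1 a (DA_univ_of (hMD ha)) b (DA_univ_of (hMD hb)), show ev T b x₀ = x₀ from hb']
      exact ha')
  exact ⟨w, hmid, hMD hwM, hw⟩

/-- THEOREM PI from the items -/
theorem final_of (hINST : INST) (hMINL : MINL) (hDAI : DAI) (hEVA : EVA X) (hBRP : BRP X)
    (hTRF : TRF X) (hRAT : ∀ (E : Type) [Group E], RAT E) {T : ℕ → X → X} (hT : Act T)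
    (hmin : ∀ x y, y ∈ closure (orb T x)) (hBR : BR T) {A : Set ℕ} (hA : Thick A) (x₀ : X)
    {U : Set X} (hU : U ∈ 𝓝 x₀) :
    ∃ x y z : ℕ, 0 < x ∧ 0 < y ∧ 0 < z ∧ x ^ 2 + y ^ 2 = z ^ 2 ∧ x ∈ A ∧ y ∈ A ∧ z ∈ A ∧
      T x x₀ ∈ U ∧ T y x₀ ∈ U ∧ T z x₀ ∈ U := by
  obtain ⟨w, hw, hwA, hwx⟩ := exists_w hMINL hDAI hEVA hT hmin hA x₀
  obtain ⟨iG, Λ, hmul, hone, hlim, hθ⟩ := hINST ℚˣ w hw
  obtain ⟨h1, h2, h3, h4⟩ := hEVA T hT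
  have hwU : w ∈ DA Set.univ := DA_univ_of hwA
  obtain ⟨-, -, hleft⟩ := hDAI Set.univ Thick_univ
  have hUE : ∀ a : UE w, a.1 ∈ DA Set.univ := fun a => by
    have := hleft a.1 w hwU
    rwa [a.2.2] at this
  let F : Subgroup (UE w) :=
    { carrier := {a | ev T a.1 x₀ = x₀}
      mul_mem' := by
        intro a b ha hb
        show ev T (a * b).1 x₀ = x₀
        rw [hmul, h1 _ (hUE a) _ (hUE b), show ev T b.1 x₀ = x₀ from hb]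
        exact ha
      one_mem' := by
        show ev T (1 : UE w).1 x₀ = x₀
        rw [hone, hwx]
      inv_mem' := by
        intro a ha
        show ev T (a⁻¹).1 x₀ = x₀
        conv_lhs => rw [← show ev T a.1 x₀ = x₀ from ha]
        rw [← h1 _ (hUE _) _ (hUE _), ← hmul, inv_mul_cancel, hone, hwx] }
  have hF : ∀ A : Subgroup (UE w), Λ.NT A → Λ.DD A = A → A ≤ F := fun B hB hD a ha =>
    hBRP T hT hmin hBR w hw hwU x₀ hwx iG Λ hmul hone hlim hθ B hB hD a ha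
  obtain ⟨𝔬, o1, o2, o3, o4⟩ := hRAT (UE w) Λ F hF
  have key : ∀ c : ℚˣ × ℚˣ × ℚˣ → ℚˣ, Λ.l 𝔬 (fun p => Λ.θ (c p)) ∈ F →
      ev T (w * ((𝔬.map c) * w)) x₀ = x₀ := by
    intro c hc
    have e1 : (Λ.l 𝔬 (fun p => Λ.θ (c p))).1 = w * ((𝔬.map c) * w) := by
      unfold LimGp.l
      rw [hlim, bind_map']
      congr 1
      simp only [hθ]
      apply ext_ev
      intro P hP
      rw [Ultrafilter.eventually_mul, ev_map]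
      rw [ev_bind] at hP
      refine hP.mono fun p hp => ?_
      rw [Ultrafilter.eventually_mul] at hp
      exact hp
    rw [← e1]
    exact hc
  exact hTRF T hT A w hwA x₀ U hU 𝔬 o1 (key _ o2) (key _ o3) (key _ o4)

/-- the base point can be replaced by a point of its orbit -/
theorem final_of' {T : ℕ → X → X} (hT : Act T)
    (H : ∀ (A : Set ℕ), Thick A → ∀ (x₀ : X) (U : Set X), U ∈ 𝓝 x₀ →
      ∃ x y z : ℕ, 0 < x ∧ 0 < y ∧ 0 < z ∧ x ^ 2 + y ^ 2 = z ^ 2 ∧ x ∈ A ∧ y ∈ A ∧ z ∈ A ∧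
      T x x₀ ∈ U ∧ T y x₀ ∈ U ∧ T z x₀ ∈ U) {A : Set ℕ} (hA : Thick A) (x₀ : X)
    (n₀ : ℕ) (hn₀ : 0 < n₀) {U : Set X} (hU : U ∈ 𝓝 (T n₀ x₀)) :
    ∃ x y z : ℕ, 0 < x ∧ 0 < y ∧ 0 < z ∧ x ^ 2 + y ^ 2 = z ^ 2 ∧ x ∈ A ∧ y ∈ A ∧ z ∈ A ∧
      T x x₀ ∈ U ∧ T y x₀ ∈ U ∧ T z x₀ ∈ U := by
  have hA' : Thick {a | n₀ * a ∈ A} := by
    intro X hX
    obtain ⟨k, hk, hk'⟩ := hA (X.image (fun x => n₀ * x)) (by
      intro x hx
      obtain ⟨y, hy, rfl⟩ := Finset.mem_image.1 hx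
      exact Nat.mul_pos hn₀ (hX y hy))
    refine ⟨k, hk, fun x hx => ?_⟩
    have := hk' (n₀ * x) (Finset.mem_image_of_mem _ hx)
    show n₀ * (x * k) ∈ A
    rwa [← mul_assoc]
  have hU' : T n₀ ⁻¹' U ∈ 𝓝 x₀ := (hT.cont n₀ hn₀).continuousAt hU
  obtain ⟨x, y, z, hx, hy, hz, he, ax, ay, az, ux, uy, uz⟩ := H _ hA' x₀ _ hU'
  refine ⟨n₀ * x, n₀ * y, n₀ * z, Nat.mul_pos hn₀ hx, Nat.mul_pos hn₀ hy, Nat.mul_pos hn₀ hz,
    ?_, ax, ay, az, ?_, ?_, ?_⟩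
  · rw [mul_pow, mul_pow, mul_pow, ← he]
    ring
  · rw [hT.mul n₀ x hn₀ hx]; exact ux
  · rw [hT.mul n₀ y hn₀ hy]; exact uy
  · rw [hT.mul n₀ z hn₀ hz]; exact uz

end

end Pool.Agent.Work.MP_0f91f8_co.Lg
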