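import Pool.Agent.Work.MP_0f91f8_co.Lg.Stmts

/-!
Item BRP of block [0f91f8 PI]: perfect groups fix the base point.
-/

set_option linter.unusedSectionVars false
set_option linter.unusedVariables false
set_option linter.deprecated false

open Filter Topology

universe u

namespace Pool.Agent.Work.MP_0f91f8_co.Lg

open Pool.Agent.Work.MP_0f91f8_co.Cge (sd op aa cc bnd)
open Pool.Agent.Work.MP_0f91f8_co.Df (Mach MOK MK un un_val un_mul un_inv un_div un_one)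

attribute [local instance] Ultrafilter.mul Ultrafilter.semigroup

namespace I_BRP

lemma thick_univ : Thick Set.univ := fun _ _ => ⟨1, one_pos, fun _ _ => trivial⟩

/-- numerators of `± n` -/
lemma natAbs_num {q : ℚ} {n : ℕ} (h : (n : ℚ) = |q|) : q.num.natAbs = n := by
  rcases abs_choice q with h1 | h1
  · rw [h1] at h
    rw [← h]
    simp
  · rw [h1] at h
    have h2 : q = -(n : ℚ) := by rw [h, neg_neg]
    rw [h2, Rat.neg_num]
    simp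

section

variable {X : Type u} [TopologicalSpace X] [CompactSpace X] [T2Space X] {T : ℕ → X → X}

lemma act2 (hT : Act T) : Act (T2 T) := by
  constructor
  · intro k hk
    have := hT.cont k hk
    unfold T2
    fun_prop
  · intro k m hk hm z
    simp only [T2]
    rw [hT.mul k m hk hm, hT.mul k m hk hm]

lemma ev2 (p : Ultrafilter ℚˣ) (x y : X) : ev (T2 T) p (x, y) = (ev T p x, ev T p y) := by
  apply Cge.L_eq
  exact (Cge.tendsto_L p (fun g => ac T g x)).prodMk_nhds (Cge.tendsto_L p (fun g => ac T g y))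

/-- closures of orbits are invariant -/
lemma inv_clo (hT : Act T) {n : ℕ} (hn : 0 < n) {x q : X} (hx : x ∈ closure (orb T q)) :
    T n x ∈ closure (orb T q) := by
  refine map_mem_closure (hT.cont n hn) hx ?_
  rintro _ ⟨k, hk, rfl⟩
  exact ⟨n * k, Nat.mul_pos hn hk, (hT.mul n k hn hk q).symm⟩

lemma clo_sub (hT : Act T) {n : ℕ} (hn : 0 < n) (x : X) :
    closure (orb T (T n x)) ⊆ closure (orb T x) := by
  apply closure_mono
  rintro _ ⟨k, hk, rfl⟩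
  exact ⟨k * n, Nat.mul_pos hk hn, (hT.mul k n hk hn x).symm⟩

lemma orb_mem {n : ℕ} (hn : 0 < n) (x : X) : T n x ∈ closure (orb T x) :=
  subset_closure ⟨n, hn, rfl⟩

/-- limits in the ideal act as limits -/
lemma ac_eq {w : Ultrafilter ℚˣ} (hw : w ∈ DA Set.univ) (x : X) :
    ∀ᶠ h in (w : Filter ℚˣ), ∃ m : ℕ, 0 < m ∧ ac T h x = T m x := by
  refine (hw 1).mono fun h hh => ?_
  obtain ⟨m, h1, -, h3⟩ := hh
  refine ⟨m, h1, ?_⟩
  rw [one_mul] at h3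
  unfold ac
  rw [natAbs_num h3]

end

section

variable {Y : Type u} [TopologicalSpace Y] [CompactSpace Y] [T2Space Y] {S : ℕ → Y → Y}

/-- the points fixed by `w` are minimal -/
lemma minpt {w : Ultrafilter ℚˣ} [Group (UE w)]
    (hEVA : EVA Y) (hS : Act S) (hw : MinId w) (hwD : w ∈ DA Set.univ)
    (hUE : ∀ a : UE w, a.1 ∈ DA Set.univ)
    (hmul : ∀ a b : UE w, (a * b).1 = a.1 * b.1) (hone : (1 : UE w).1 = w)
    {z q : Y} (hz : ev S w z = z) (hq : q ∈ closure (orb S z)) : z ∈ closure (orb S q) := by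
  obtain ⟨g1, g2, g3, g4⟩ := hEVA S hS
  obtain ⟨p, hp, hp'⟩ := g4 z q hq
  have hww := hw.1
  have hu1 : w * (w * (p * w)) = w * (p * w) := by rw [← mul_assoc, hww]
  have hu2 : (w * (p * w)) * w = w * (p * w) := by rw [mul_assoc, mul_assoc, hww]
  let u : UE w := ⟨w * (p * w), hu1, hu2⟩
  have hs : (u⁻¹).1 * (p * w) = w := by
    have h2 : (u⁻¹).1 * w = (u⁻¹).1 := (u⁻¹).2.2
    have h3 : (u⁻¹).1 * (p * w) = (u⁻¹).1 * (w * (p * w)) := by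
      conv_lhs => rw [← h2]
      rw [mul_assoc]
    rw [h3]
    have h4 : (u⁻¹ * u).1 = (u⁻¹).1 * (w * (p * w)) := hmul u⁻¹ u
    rw [← h4, inv_mul_cancel, hone]
  have e1 : ev S (p * w) z = q := by
    rw [(hp' w hwD z).2, hz, hp]
  have e2 : ev S (u⁻¹).1 q = z := by
    rw [← e1, ← g1 _ (hUE _) _ (hp' w hwD z).1, hs, hz]
  have e3 := g3 (u⁻¹).1 (hUE _) q
  rwa [e2] at e3

end

section

variable {X : Type u} [TopologicalSpace X] [CompactSpace X] [T2Space X] {T : ℕ → X → X}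

/-- the `τ`-closedness -/
lemma tc {w : Ultrafilter ℚˣ} [Group (UE w)] (hEVA : EVA X) (hEVA2 : EVA (X × X)) (hT : Act T)
    (hDc : IsClosed (DA Set.univ))
    (hleft : ∀ p : Ultrafilter ℚˣ, ∀ q ∈ DA Set.univ, p * q ∈ DA Set.univ)
    (hww : w * w = w)
    (hwD : w ∈ DA Set.univ) (hUE : ∀ a : UE w, a.1 ∈ DA Set.univ)
    {x₀ : X} (hx₀ : ev T w x₀ = x₀) (Λ : LimGp ℚˣ (UE w))
    (hmul : ∀ a b : UE w, (a * b).1 = a.1 * b.1) (hone : (1 : UE w).1 = w)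
    (hlim : ∀ f : Ultrafilter (UE w), (Λ.lim f).1 = w * f.bind (fun x => x.1))
    (hθ : ∀ g : ℚˣ, (Λ.θ g).1 = (pure g : Ultrafilter ℚˣ) * w)
    {A : Subgroup (UE w)} (hA : Λ.TC (A : Set (UE w))) {U : Set (X × X)} (hU : IsOpen U) :
    Λ.TC ((A : Set (UE w)) \
      {a | a ∈ A ∧ ∃ n : ℕ, 0 < n ∧ T2 T n (x₀, ev T a.1 x₀) ∈ U}) := by
  obtain ⟨h1, h2, h3, h4⟩ := hEVA T hT
  have hT2 := act2 hT
  obtain ⟨g1, g2, g3, g4⟩ := hEVA2 (T2 T) hT2
  intro 𝔬 ho hl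
  refine ⟨hA 𝔬 (ho.mono fun p hp => hp.1) hl, ?_⟩
  rintro ⟨-, n, hn, hnU⟩
  -- the two ultrafilters
  have e1 : w = w * 𝔬.bind (fun p => (pure p.1 : Ultrafilter ℚˣ) * w) := by
    have e := congrArg Subtype.val hl
    rw [show (Λ.l 𝔬 (fun p => Λ.θ p.1)) = Λ.lim (𝔬.map (fun p => Λ.θ p.1)) from rfl] at e
    have e' := hlim (𝔬.map (fun p => Λ.θ p.1))
    rw [bind_map'] at e'
    simp only [hθ] at e'
    exact hone.symm.trans (e.symm.trans e')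
  have e2 : (Λ.l 𝔬 (fun p => Λ.θ p.1 * p.2)).1 =
      w * 𝔬.bind (fun p => (pure p.1 : Ultrafilter ℚˣ) * p.2.1) := by
    have e' := hlim (𝔬.map (fun p => Λ.θ p.1 * p.2))
    rw [bind_map'] at e'
    have e3 : (fun p : ℚˣ × UE w => (Λ.θ p.1 * p.2).1) =
        fun p => (pure p.1 : Ultrafilter ℚˣ) * p.2.1 := by
      funext p
      rw [hmul, hθ, mul_assoc, p.2.2.1]
    rw [e3] at e'
    exact e'
  have m1 : 𝔬.bind (fun p => (pure p.1 : Ultrafilter ℚˣ) * w) ∈ DA Set.univ :=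
    mem_of_bind hDc (Eventually.of_forall fun p => hleft _ _ hwD)
  have m2 : 𝔬.bind (fun p => (pure p.1 : Ultrafilter ℚˣ) * p.2.1) ∈ DA Set.univ :=
    mem_of_bind hDc (Eventually.of_forall fun p => hleft _ _ (hUE p.2))
  have evb : ∀ (F : ℚˣ × UE w → Ultrafilter ℚˣ) (x : X), ev T (𝔬.bind F) x =
      Cge.L 𝔬 (fun p => ev T (F p) x) := by
    intro F x
    have := h2 (𝔬.map F) x
    rw [bind_map', Cge.L_map] at this
    exact this
  have e4 : x₀ = ev T w (Cge.L 𝔬 (fun p => ev T ((pure p.1 : Ultrafilter ℚˣ) * w) x₀)) := by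
    rw [← evb (fun p => (pure p.1 : Ultrafilter ℚˣ) * w), ← h1 w hwD _ m1, ← e1, hx₀]
  have e5 : ev T (Λ.l 𝔬 (fun p => Λ.θ p.1 * p.2)).1 x₀ =
      ev T w (Cge.L 𝔬 (fun p => ev T ((pure p.1 : Ultrafilter ℚˣ) * p.2.1) x₀)) := by
    rw [← evb (fun p => (pure p.1 : Ultrafilter ℚˣ) * p.2.1), ← h1 w hwD _ m2, e2]
  -- the points `P`
  set P : ℚˣ × UE w → X × X := fun p => (ev T ((pure p.1 : Ultrafilter ℚˣ) * w) x₀,
    ev T ((pure p.1 : Ultrafilter ℚˣ) * p.2.1) x₀) with hPdef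
  have hLP : Cge.L 𝔬 P = (Cge.L 𝔬 (fun p => ev T ((pure p.1 : Ultrafilter ℚˣ) * w) x₀),
      Cge.L 𝔬 (fun p => ev T ((pure p.1 : Ultrafilter ℚˣ) * p.2.1) x₀)) :=
    Cge.L_eq ((Cge.tendsto_L 𝔬 _).prodMk_nhds (Cge.tendsto_L 𝔬 _))
  have hPc : ∀ p : ℚˣ × UE w, P p ∈ closure (orb (T2 T) (x₀, ev T p.2.1 x₀)) := by
    intro p
    have hm := hleft (pure p.1) w hwD
    have := g3 _ hm (x₀, ev T p.2.1 x₀)
    rw [ev2, ← h1 _ hm _ (hUE p.2), mul_assoc, p.2.2.1] at this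
    exact this
  have hb : (x₀, ev T (Λ.l 𝔬 (fun p => Λ.θ p.1 * p.2)).1 x₀) = ev (T2 T) w (Cge.L 𝔬 P) := by
    rw [hLP, ev2, ← e4, ← e5]
  rw [hb] at hnU
  have c1 : ∀ᶠ h in (w : Filter ℚˣ), T2 T n (ac (T2 T) h (Cge.L 𝔬 P)) ∈ U := by
    have t1 := Cge.tendsto_L w (fun g => ac (T2 T) g (Cge.L 𝔬 P))
    have t2 := ((hT2.cont n hn).tendsto _).comp t1
    exact t2 (hU.mem_nhds hnU)
  obtain ⟨h, hh1, m, hm, hh2⟩ := (c1.and (ac_eq (T := T2 T) hwD (Cge.L 𝔬 P))).exists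
  rw [hh2] at hh1
  have c2 : ∀ᶠ p in (𝔬 : Filter (ℚˣ × UE w)), T2 T n (T2 T m (P p)) ∈ U := by
    have t1 := Cge.tendsto_L 𝔬 P
    have t2 := (((hT2.cont n hn).comp (hT2.cont m hm)).tendsto _).comp t1
    exact t2 (hU.mem_nhds hh1)
  obtain ⟨p, hp1, hp2⟩ := (ho.and c2).exists
  apply hp1.2
  refine ⟨hp1.1, ?_⟩
  have hop : IsOpen ((fun z => T2 T n (T2 T m z)) ⁻¹' U) :=
    hU.preimage ((hT2.cont n hn).comp (hT2.cont m hm))
  obtain ⟨y, hy1, k, hk, rfl⟩ := mem_closure_iff.1 (hPc p) _ hop hp2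
  refine ⟨n * (m * k), Nat.mul_pos hn (Nat.mul_pos hm hk), ?_⟩
  rw [hT2.mul n _ hn (Nat.mul_pos hm hk), hT2.mul m k hm hk]
  exact hy1

end

end I_BRP

theorem BRP_pf (X : Type u) [TopologicalSpace X] [CompactSpace X] [T2Space X] (hD : DAI)
    (hE : EVA X) (hE2 : EVA (X × X))
    (hP : ∀ (w : Ultrafilter ℚˣ) (i : Group (UE w)), @PERF (UE w) i) : BRP X := by
  intro T hT hmin hBR w hw hwD x₀ hx₀ iG Λ hmul hone hlim hθ A hNT hDD a₀ ha₀
  obtain ⟨h1, h2, h3, h4⟩ := hE T hT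
  have hT2 := I_BRP.act2 hT
  obtain ⟨g1, g2, g3, g4⟩ := hE2 (T2 T) hT2
  obtain ⟨hDc, -, hleft⟩ := hD Set.univ I_BRP.thick_univ
  have hUE : ∀ a : UE w, a.1 ∈ DA Set.univ := fun a => by
    have := hleft a.1 w hwD
    rwa [a.2.2] at this
  -- the base points
  have hz : ∀ a : UE w, ev (T2 T) w (x₀, ev T a.1 x₀) = (x₀, ev T a.1 x₀) := by
    intro a
    rw [I_BRP.ev2, hx₀, ← h1 w hwD _ (hUE a), a.2.1]
  have hmp : ∀ (a : UE w) (q : X × X), q ∈ closure (orb (T2 T) (x₀, ev T a.1 x₀)) →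
      (x₀, ev T a.1 x₀) ∈ closure (orb (T2 T) q) := fun a q hq =>
    I_BRP.minpt hE2 hT2 hw hwD hUE hmul hone (hz a) hq
  set B : Set (X × X) := {q | ∃ a ∈ A, ∃ n : ℕ, 0 < n ∧ q = T2 T n (x₀, ev T a.1 x₀)} with hB
  have key := hBR (closure B) isClosed_closure ?_ ?_ ?_ ?_ (x₀, ev T a₀.1 x₀) ?_
  · exact key.symm
  · -- the diagonal
    intro x
    have hx := hmin x₀ x
    refine map_mem_closure (f := fun y : X => (y, y)) (by fun_prop) hx ?_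
    rintro _ ⟨k, hk, rfl⟩
    refine ⟨1, A.one_mem, k, hk, ?_⟩
    rw [hone, hx₀]
    rfl
  · -- invariance
    intro k hk p hp
    refine map_mem_closure (hT2.cont k hk) hp ?_
    rintro _ ⟨a, ha, n, hn, rfl⟩
    exact ⟨a, ha, k * n, Nat.mul_pos hk hn, (hT2.mul k n hk hn _).symm⟩
  · -- transitivity
    intro U V hU hV hMU hMV
    have hne : ∀ W : Set (X × X), IsOpen W → (closure B ∩ W).Nonempty →
        ({a | a ∈ A ∧ ∃ n : ℕ, 0 < n ∧ T2 T n (x₀, ev T a.1 x₀) ∈ W} :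
          Set (UE w)).Nonempty := by
      rintro W hW ⟨q, hq1, hq2⟩
      obtain ⟨y, hy1, a, ha, n, hn, rfl⟩ := mem_closure_iff.1 hq1 W hW hq2
      exact ⟨a, ha, n, hn, hy1⟩
    obtain ⟨a, ⟨haA, n, hn, hnU⟩, -, m, hm, hmV⟩ := hP w iG ℚˣ Λ A hNT hDD _ _
      (fun a ha => ha.1) (fun a ha => ha.1) (hne U hU hMU) (hne V hV hMV)
      (I_BRP.tc hE hE2 hT hDc hleft hw.1 hwD hUE hx₀ Λ hmul hone hlim hθ hNT.closed hU)
      (I_BRP.tc hE hE2 hT hDc hleft hw.1 hwD hUE hx₀ Λ hmul hone hlim hθ hNT.closed hV)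
    have h5 := hmp a _ (I_BRP.orb_mem (T := T2 T) hn (x₀, ev T a.1 x₀))
    have h6 := I_BRP.inv_clo hT2 hm h5
    obtain ⟨y, hy1, k, hk, rfl⟩ := mem_closure_iff.1 h6 V hV hmV
    exact ⟨k, hk, _, ⟨subset_closure ⟨a, haA, n, hn, rfl⟩, hnU⟩, hy1⟩
  · -- minimal points are dense
    rintro U hU ⟨q, hq1, hq2⟩
    obtain ⟨y, hy1, a, ha, n, hn, rfl⟩ := mem_closure_iff.1 hq1 U hU hq2
    refine ⟨_, ⟨subset_closure ⟨a, ha, n, hn, rfl⟩, hy1⟩, ?_⟩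
    intro q hq
    exact I_BRP.inv_clo hT2 hn (hmp a q (I_BRP.clo_sub hT2 hn _ hq))
  · -- the point
    have h5 := g3 w hwD (x₀, ev T a₀.1 x₀)
    rw [hz] at h5
    refine closure_mono ?_ h5
    rintro _ ⟨k, hk, rfl⟩
    exact ⟨a₀, ha₀, k, hk, rfl⟩

end Pool.Agent.Work.MP_0f91f8_co.Lg
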