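import Pool.Agent.Work.MP_0f91f8_co.Lg.I_INST
import Pool.Agent.Work.MP_0f91f8_co.Cge.I_PEX

/-!
Block [0f91f8 PI], item DAI: the ultrafilters all whose dilates live on a thick set.
-/

set_option linter.unusedSectionVars false

open Filter Topology

universe u

namespace Pool.Agent.Work.MP_0f91f8_co.Lg

open Pool.Agent.Work.MP_0f91f8_co.Df (un un_val)

attribute [local instance] Ultrafilter.mul Ultrafilter.semigroup

namespace I_DAI

lemma isClosed_DA (A : Set ℕ) : IsClosed (DA A) := by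
  have : DA A = ⋂ r : ℚˣ, {p : Ultrafilter ℚˣ |
      {x : ℚˣ | ∃ n : ℕ, 0 < n ∧ n ∈ A ∧ (n : ℚ) = |((r * x : ℚˣ) : ℚ)|} ∈ p} := by
    ext p
    simp only [Set.mem_iInter, DA]
    exact Iff.rfl
  rw [this]
  exact isClosed_iInter fun r => ultrafilter_isClosed_basic _

lemma mul_mem_DA {A : Set ℕ} (p : Ultrafilter ℚˣ) {q : Ultrafilter ℚˣ} (hq : q ∈ DA A) :
    p * q ∈ DA A := by
  intro r
  rw [I_INST.ev_mul]
  refine Eventually.of_forall fun a => ?_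
  filter_upwards [hq (r * a)] with b hb
  rwa [← mul_assoc]

end I_DAI

open I_DAI in
theorem DAI_pf : DAI := by
  intro A hA
  refine ⟨isClosed_DA A, ?_, fun p q hq => mul_mem_DA p hq⟩
  obtain ⟨q, hq⟩ := Cge.I_PEX.nonempty_TT (A := A) hA
  refine ⟨q.map (fun n : ℕ => un n), fun r => ?_⟩
  have hr : (0 : ℚ) < |(r : ℚ)| := abs_pos.2 r.ne_zero
  rw [ev_map]
  filter_upwards [hq |(r : ℚ)| hr, Cge.I_PEX.pos_of_TT hq] with n hn hn0
  obtain ⟨m, hm, hmA, h⟩ := hn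
  refine ⟨m, hm, hmA, ?_⟩
  have hn1 : ((n : ℕ) : ℚ) ≠ 0 := by exact_mod_cast hn0.ne'
  rw [h, Units.val_mul, un_val hn1, abs_mul, abs_of_nonneg (Nat.cast_nonneg n : (0 : ℚ) ≤ (n : ℚ))]

end Pool.Agent.Work.MP_0f91f8_co.Lg
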