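import Pool.Agent.Work.MP_0f91f8_co.Lg.Stmts

/-!
Block [0f91f8 PI], item DHH: `DD A` is contained in `HH A`.
-/

set_option linter.unusedSectionVars false
set_option linter.unusedVariables false

open Filter Topology

universe u

namespace Pool.Agent.Work.MP_0f91f8_co.Lg

variable (E : Type u) [Group E]

namespace I_DHH

variable {E} {G : Type} [CommGroup G] {Λ : LimGp G E} {A : Subgroup E}

/-- the `τ`-open neighbourhoods of `1` in `A` -/
def Good (Λ : LimGp G E) (A : Subgroup E) (V : Set E) : Prop :=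
  V ⊆ A ∧ (1 : E) ∈ V ∧ Λ.TC ((A : Set E) \ V)

lemma mem_HH_iff {a : E} : a ∈ HH Λ A ↔ ∀ V, Good Λ A V → a ∈ Λ.tcl V :=
  ⟨fun h V hV => h V hV.1 hV.2.1 hV.2.2, fun h V h1 h2 h3 => h V ⟨h1, h2, h3⟩⟩

lemma good_image {V : Set E} (hV : Good Λ A V) {f : E → E} (hf : Function.Injective f)
    (hA : f '' (A : Set E) = A) (ht : ∀ S : Set E, Λ.tcl (f '' S) = f '' Λ.tcl S)
    (h1 : (1 : E) ∈ f '' V) : Good Λ A (f '' V) := by
  refine ⟨?_, h1, ?_⟩
  · rw [← hA]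
    exact Set.image_mono hV.1
  · have : (A : Set E) \ f '' V = f '' ((A : Set E) \ V) := by
      rw [Set.image_sdiff hf, hA]
    rw [this]
    apply LimGp.TC.of_tcl_sub
    rw [ht]
    exact Set.image_mono hV.2.2.tcl_sub

section

variable (hmono : ∀ S S' : Set E, S ⊆ S' → Λ.tcl S ⊆ Λ.tcl S')
  (hcl : ∀ S : Set E, S ⊆ Λ.tcl S)
  (hid : ∀ S : Set E, Λ.tcl (Λ.tcl S) ⊆ Λ.tcl S)
  (hR : ∀ (S : Set E) (a : E), Λ.tcl ((fun x => x * a) '' S) = (fun x => x * a) '' Λ.tcl S)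
  (hL : ∀ (S : Set E) (a : E), Λ.tcl ((fun x => a * x) '' S) = (fun x => a * x) '' Λ.tcl S)
  (hI : ∀ S : Set E, Λ.tcl ((fun x => x⁻¹) '' S) = (fun x => x⁻¹) '' Λ.tcl S)

include hcl in
lemma one_mem : (1 : E) ∈ HH Λ A :=
  mem_HH_iff.2 fun V hV => hcl V hV.2.1

include hmono hid in
lemma TC_HH : Λ.TC (HH Λ A) := by
  apply LimGp.TC.of_tcl_sub
  intro a ha
  rw [mem_HH_iff]
  intro V hV
  exact hid V (hmono _ _ (fun x hx => mem_HH_iff.1 hx V hV) ha)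

include hR in
lemma image_subset {h : E} (hh : h ∈ HH Λ A) {V : Set E} (hV : Good Λ A V) :
    (fun x => h * x) '' V ⊆ Λ.tcl V := by
  rintro _ ⟨x, hx, rfl⟩
  have hxA : x ∈ A := hV.1 hx
  have hg : Good Λ A ((fun y => y * x⁻¹) '' V) := by
    refine good_image hV (mul_left_injective x⁻¹) ?_ (fun S => hR S x⁻¹)
      ⟨x, hx, mul_inv_cancel x⟩
    apply Set.Subset.antisymm
    · rintro _ ⟨a, ha, rfl⟩
      exact A.mul_mem ha (A.inv_mem hxA)
    · intro a ha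
      exact ⟨a * x, A.mul_mem ha hxA, mul_inv_cancel_right a x⟩
  have h1 := mem_HH_iff.1 hh _ hg
  rw [hR] at h1
  obtain ⟨y, hy, hyh⟩ := h1
  have : h * x = y := by
    rw [← hyh]
    exact inv_mul_cancel_right y x
  show h * x ∈ Λ.tcl V
  rw [this]
  exact hy

include hmono hid hR hL in
lemma mul_mem {h h' : E} (hh : h ∈ HH Λ A) (hh' : h' ∈ HH Λ A) : h * h' ∈ HH Λ A := by
  rw [mem_HH_iff]
  intro V hV
  have h1 : (fun x => h * x) '' Λ.tcl V ⊆ Λ.tcl V := by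
    rw [← hL]
    exact (hmono _ _ (image_subset hR hh hV)).trans (hid V)
  exact h1 ⟨h', mem_HH_iff.1 hh' V hV, rfl⟩

include hI in
lemma inv_mem {h : E} (hh : h ∈ HH Λ A) : h⁻¹ ∈ HH Λ A := by
  rw [mem_HH_iff]
  intro V hV
  have hg : Good Λ A ((fun y => y⁻¹) '' V) := by
    refine good_image hV inv_injective ?_ (fun S => hI S) ⟨1, hV.2.1, inv_one⟩
    apply Set.Subset.antisymm
    · rintro _ ⟨a, ha, rfl⟩
      exact A.inv_mem ha
    · intro a ha
      exact ⟨a⁻¹, A.inv_mem ha, inv_inv a⟩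
  have h1 := mem_HH_iff.1 hh _ hg
  rw [hI] at h1
  obtain ⟨y, hy, rfl⟩ := h1
  show y⁻¹⁻¹ ∈ Λ.tcl V
  rw [inv_inv]
  exact hy

include hR hL in
lemma conj_mem (hA : A.Normal) {h : E} (b : E) (hh : h ∈ HH Λ A) : b⁻¹ * h * b ∈ HH Λ A := by
  rw [mem_HH_iff]
  intro V hV
  have hfun : ∀ S : Set E, (fun y => b * y * b⁻¹) '' S =
      (fun y => y * b⁻¹) '' ((fun y => b * y) '' S) := by
    intro S
    rw [Set.image_image]
  have ht : ∀ S : Set E, Λ.tcl ((fun y => b * y * b⁻¹) '' S) =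
      (fun y => b * y * b⁻¹) '' Λ.tcl S := by
    intro S
    rw [hfun, hR, hL, ← hfun]
  have hg : Good Λ A ((fun y => b * y * b⁻¹) '' V) := by
    refine good_image hV ?_ ?_ ht ⟨1, hV.2.1, ?_⟩
    · intro x y hxy
      exact mul_left_cancel (mul_right_cancel hxy)
    · apply Set.Subset.antisymm
      · rintro _ ⟨a, ha, rfl⟩
        exact hA.conj_mem a ha b
      · intro a ha
        refine ⟨b⁻¹ * a * b, ?_, ?_⟩
        · have := hA.conj_mem a ha b⁻¹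
          rwa [inv_inv] at this
        · show b * (b⁻¹ * a * b) * b⁻¹ = a
          group
    · show b * 1 * b⁻¹ = 1
      group
  have h1 := mem_HH_iff.1 hh _ hg
  rw [ht] at h1
  obtain ⟨y, hy, hyh⟩ := h1
  have : b⁻¹ * h * b = y := by
    rw [← hyh]
    show b⁻¹ * (b * y * b⁻¹) * b = y
    group
  rw [this]
  exact hy

lemma qq_mem {q : E} (hq : q ∈ Λ.QQ A) : q ∈ HH Λ A := by
  rw [mem_HH_iff]
  intro V hV
  obtain ⟨𝔬, h1, h2, h3, h4⟩ := hq
  refine ⟨𝔬, ?_, h2, h4⟩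
  by_contra hn
  have h5 : ∀ᶠ p in (𝔬 : Filter (G × E)), p.2 ∉ V := Ultrafilter.eventually_not.2 hn
  have h6 : ∀ᶠ p in (𝔬 : Filter (G × E)), p.2 ∈ (A : Set E) \ V := h1.and h5
  have h7 := hV.2.2.mem h6
  rw [h3] at h7
  exact h7.2 hV.2.1

end

end I_DHH

theorem DHH_pf (hT : TCL E) : DHH E := by
  intro G _ Λ A hA d hd
  obtain ⟨-, hcl, hmono, hid, -, hR, hL, hI⟩ := hT G Λ
  let D0 : Subgroup E :=
    { carrier := HH Λ A
      mul_mem' := fun ha hb => I_DHH.mul_mem hmono hid hR hL ha hb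
      one_mem' := I_DHH.one_mem hcl
      inv_mem' := fun ha => I_DHH.inv_mem hI ha }
  have h1 : Λ.DD A ≤ D0 := by
    refine LimGp.DD_le (D := D0) (I_DHH.TC_HH hmono hid) ?_
    intro b q hq
    exact I_DHH.conj_mem hR hL hA.normal b (I_DHH.qq_mem hq)
  exact h1 hd

end Pool.Agent.Work.MP_0f91f8_co.Lg
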