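import Pool.Agent.Work.MP_0f91f8_co.Lg.Stmts

/-!
Item EVA of the block [0f91f8 PI]: the algebra of the action of ultrafilters on a compact space.
-/

set_option linter.unusedSectionVars false
set_option linter.deprecated false

open Filter Topology

universe u

namespace Pool.Agent.Work.MP_0f91f8_co.Lg

open Pool.Agent.Work.MP_0f91f8_co.Cge (sd op aa cc bnd)
open Pool.Agent.Work.MP_0f91f8_co.Df (Mach MOK MK un un_val un_mul un_inv un_div un_one)

attribute [local instance] Ultrafilter.mul Ultrafilter.semigroup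

namespace I_EVA

/-- the absolute value is a positive integer -/
def NN (g : ℚˣ) : Prop := ∃ n : ℕ, 0 < n ∧ (n : ℚ) = |((g : ℚˣ) : ℚ)|

lemma natAbs_num {q : ℚ} {n : ℕ} (h : (n : ℚ) = |q|) : q.num.natAbs = n := by
  rcases abs_choice q with h1 | h1
  · rw [h1] at h
    rw [← h]
    simp
  · rw [h1] at h
    have h2 : q = -(n : ℚ) := by rw [h, neg_neg]
    rw [h2]
    simp

lemma ac_eq {X : Type u} (T : ℕ → X → X) {g : ℚˣ} {n : ℕ} (h : (n : ℚ) = |((g : ℚˣ) : ℚ)|) :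
    ac T g = T n := by
  unfold ac
  rw [natAbs_num h]

lemma NN_of_DA {p : Ultrafilter ℚˣ} (hp : p ∈ DA Set.univ) :
    ∀ᶠ g in (p : Filter ℚˣ), NN g := by
  have h := hp 1
  filter_upwards [h] with g hg
  obtain ⟨n, h1, -, h2⟩ := hg
  rw [one_mul] at h2
  exact ⟨n, h1, h2⟩

section

variable {X : Type u} [TopologicalSpace X]

lemma ac_mul {T : ℕ → X → X} (hT : Act T) {g h : ℚˣ} (hg : NN g) (hh : NN h) (z : X) :
    ac T (g * h) z = ac T g (ac T h z) := by
  obtain ⟨n, hn, en⟩ := hg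
  obtain ⟨m, hm, em⟩ := hh
  have e : ((n * m : ℕ) : ℚ) = |((g * h : ℚˣ) : ℚ)| := by
    rw [Units.val_mul, abs_mul, ← en, ← em, Nat.cast_mul]
  rw [ac_eq T e, ac_eq T en, ac_eq T em]
  exact hT.mul n m hn hm z

lemma ac_cont {T : ℕ → X → X} (hT : Act T) {g : ℚˣ} (hg : NN g) : Continuous (ac T g) := by
  obtain ⟨n, hn, en⟩ := hg
  rw [ac_eq T en]
  exact hT.cont n hn

lemma ac_orb {T : ℕ → X → X} {g : ℚˣ} (hg : NN g) (x : X) : ac T g x ∈ orb T x := by
  obtain ⟨n, hn, en⟩ := hg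
  rw [ac_eq T en]
  exact ⟨n, hn, rfl⟩

end

variable {X : Type u} [TopologicalSpace X] [CompactSpace X] [T2Space X]

lemma mul_bind (p q : Ultrafilter ℚˣ) :
    p * q = p.bind (fun g => q.map (fun h => g * h)) := by
  apply ext_ev
  intro P hP
  rw [Ultrafilter.eventually_mul] at hP
  exact hP

lemma L_mul' (p q : Ultrafilter ℚˣ) (f : ℚˣ → X) :
    Cge.L (p * q) f = Cge.L p (fun g => Cge.L q (fun h => f (g * h))) := by
  rw [mul_bind, Cge.L_bind]
  unfold Cge.LL
  congr 1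
  funext g
  rw [Cge.L_map]

lemma ev_mul {T : ℕ → X → X} (hT : Act T) {p q : Ultrafilter ℚˣ}
    (hp : ∀ᶠ g in (p : Filter ℚˣ), NN g) (hq : ∀ᶠ g in (q : Filter ℚˣ), NN g) (z : X) :
    ev T (p * q) z = ev T p (ev T q z) := by
  unfold ev
  rw [L_mul']
  apply Cge.L_congr
  filter_upwards [hp] with g hg
  rw [← Cge.L_comp (ac_cont hT hg)]
  apply Cge.L_congr
  filter_upwards [hq] with h hh
  exact ac_mul hT hg hh z

lemma DA_left (p : Ultrafilter ℚˣ) {q : Ultrafilter ℚˣ} (hq : q ∈ DA Set.univ) :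
    p * q ∈ DA Set.univ := by
  intro r
  rw [Ultrafilter.eventually_mul]
  refine Eventually.of_forall fun g => ?_
  have h := hq (r * g)
  filter_upwards [h] with x hx
  rwa [mul_assoc] at hx

lemma exists_law {T : ℕ → X → X} {x y : X} (hy : y ∈ closure (orb T x)) :
    ∃ p : Ultrafilter ℚˣ, (∀ᶠ g in (p : Filter ℚˣ), NN g) ∧ ev T p x = y := by
  obtain ⟨u, hu, huy⟩ := mem_closure_iff_ultrafilter.1 hy
  have h3 : ((u : Filter X).comap (fun g : ℚˣ => ac T g x) ⊓ 𝓟 {g | NN g}).NeBot := by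
    rw [Filter.neBot_iff]
    intro hbot
    rw [inf_principal_eq_bot, mem_comap] at hbot
    obtain ⟨t, ht, hts⟩ := hbot
    obtain ⟨z, hz1, k, hk, rfl⟩ :=
      (nonempty_of_mem (inter_mem ht hu) : (t ∩ orb T x).Nonempty)
    have hk0 : ((k : ℕ) : ℚ) ≠ 0 := by
      have : k ≠ 0 := by omega
      exact_mod_cast this
    have e : ((k : ℕ) : ℚ) = |((un (k : ℚ) : ℚˣ) : ℚ)| := by
      rw [un_val hk0, Nat.abs_cast]
    have h4 : un (k : ℚ) ∈ {g : ℚˣ | NN g}ᶜ := hts (by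
      show ac T (un (k : ℚ)) x ∈ t
      rw [ac_eq T e]
      exact hz1)
    exact h4 ⟨k, hk, e⟩
  refine ⟨@Ultrafilter.of ℚˣ _ h3, ?_, ?_⟩
  · exact (@Ultrafilter.of_le ℚˣ _ h3) (mem_inf_of_right (mem_principal_self _))
  · unfold ev
    apply Cge.L_eq
    have h4 : Tendsto (fun g : ℚˣ => ac T g x)
        ((u : Filter X).comap (fun g : ℚˣ => ac T g x)) (u : Filter X) := tendsto_comap
    exact (h4.mono_left ((@Ultrafilter.of_le ℚˣ _ h3).trans inf_le_left)).trans huy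

end I_EVA

open I_EVA in
theorem EVA_pf (X : Type u) [TopologicalSpace X] [CompactSpace X] [T2Space X] : EVA X := by
  intro T hT
  refine ⟨?_, ?_, ?_, ?_⟩
  · intro p hp q hq x
    exact ev_mul hT (NN_of_DA hp) (NN_of_DA hq) x
  · intro f x
    unfold ev
    rw [Cge.L_bind]
    rfl
  · intro p hp x
    unfold ev
    refine Cge.L_mem isClosed_closure ?_
    filter_upwards [NN_of_DA hp] with g hg
    exact subset_closure (ac_orb hg x)
  · intro x y hy
    obtain ⟨p, hp, rfl⟩ := exists_law hy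
    refine ⟨p, rfl, fun q hq z => ⟨DA_left p hq, ev_mul hT hp (NN_of_DA hq) z⟩⟩

end Pool.Agent.Work.MP_0f91f8_co.Lg
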