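import Pool.Agent.Work.MP_0f91f8_co.Lg.Stmts

/-!
Block [0f91f8 PI], item INST: the limit group of a minimal idempotent.
-/

set_option linter.unusedSectionVars false

open Filter Topology

universe u

namespace Pool.Agent.Work.MP_0f91f8_co.Lg

attribute [local instance] Ultrafilter.mul Ultrafilter.semigroup

namespace I_INST

variable {G : Type} [CommGroup G]

lemma ev_mul (p q : Ultrafilter G) (P : G → Prop) :
    (∀ᶠ m in ((p * q : Ultrafilter G) : Filter G), P m) ↔
      ∀ᶠ a in (p : Filter G), ∀ᶠ b in (q : Filter G), P (a * b) :=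
  Ultrafilter.eventually_mul p q P

lemma ev_pure_mul (g : G) (q : Ultrafilter G) (P : G → Prop) :
    (∀ᶠ m in (((pure g : Ultrafilter G) * q : Ultrafilter G) : Filter G), P m) ↔
      ∀ᶠ b in (q : Filter G), P (g * b) := by
  rw [ev_mul]
  exact Iff.rfl

lemma pure_comm (g : G) (w : Ultrafilter G) : w * pure g = pure g * w := by
  apply ext_ev
  intro P hP
  rw [ev_mul] at hP
  rw [ev_pure_mul]
  have h1 : ∀ᶠ a in (w : Filter G), P (a * g) := hP
  filter_upwards [h1] with a ha
  rwa [mul_comm]

lemma pure_mul_pure_G (g h : G) :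
    ((pure g : Ultrafilter G) * pure h : Ultrafilter G) = pure (g * h) := by
  apply ext_ev
  intro P hP
  rw [ev_pure_mul] at hP
  exact hP

lemma pure_one_mul (w : Ultrafilter G) : (pure 1 : Ultrafilter G) * w = w := by
  apply ext_ev
  intro P hP
  rw [ev_pure_mul] at hP
  simpa only [one_mul] using hP

lemma bind_mul {Ω : Type*} (f : Ultrafilter Ω) (x : Ω → Ultrafilter G) (q : Ultrafilter G) :
    f.bind (fun ω => x ω * q) = f.bind x * q := by
  apply ext_ev
  intro P hP
  rw [ev_bind] at hP
  rw [ev_mul, ev_bind]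
  filter_upwards [hP] with ω hω
  exact (ev_mul _ _ _).1 hω

lemma bind_pure_mul (k w : Ultrafilter G) :
    k.bind (fun g => (pure g : Ultrafilter G) * w) = k * w := by
  apply ext_ev
  intro P hP
  rw [ev_bind] at hP
  rw [ev_mul]
  filter_upwards [hP] with g hg
  exact (ev_pure_mul _ _ _).1 hg

lemma bind_bind_mul {Ω : Type*} (w : Ultrafilter G) (f : Ultrafilter Ω) (x : Ω → Ultrafilter G) :
    w.bind (fun k => f.bind (fun ω => (pure k : Ultrafilter G) * x ω)) = w * f.bind x := by
  apply ext_ev
  intro P hP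
  rw [ev_bind] at hP
  rw [ev_mul]
  filter_upwards [hP] with k hk
  rw [ev_bind] at hk ⊢
  filter_upwards [hk] with ω hω
  exact (ev_pure_mul _ _ _).1 hω

/-- the group structure -/
@[reducible] noncomputable def grp (w : Ultrafilter G) (hw : MinId w) : Group (UE w) := by
  classical
  have hinv : ∀ a : UE w, ∃ b : UE w, b.1 * a.1 = w := by
    intro a
    obtain ⟨r, hr⟩ := hw.2 a.1
    rw [a.2.2] at hr
    refine ⟨⟨w * r * w, ?_, ?_⟩, ?_⟩
    · rw [← mul_assoc, ← mul_assoc, hw.1]
    · rw [mul_assoc, hw.1]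
    · show w * r * w * a.1 = w
      rw [mul_assoc, a.2.1, mul_assoc, hr, hw.1]
  exact @Group.ofLeftAxioms (UE w)
    ⟨fun a b => ⟨a.1 * b.1, by rw [← mul_assoc, a.2.1], by rw [mul_assoc, b.2.2]⟩⟩
    ⟨fun a => (hinv a).choose⟩ ⟨⟨w, hw.1, hw.1⟩⟩
    (fun a b c => Subtype.ext (mul_assoc a.1 b.1 c.1))
    (fun a => Subtype.ext a.2.1)
    (fun a => Subtype.ext (hinv a).choose_spec)

end I_INST

open I_INST in
theorem INST_pf : INST := by
  intro G _ w hw
  let _ : Group (UE w) := grp w hw
  have hmul : ∀ a b : UE w, (a * b).1 = a.1 * b.1 := fun a b => rfl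
  have hone : (1 : UE w).1 = w := rfl
  have hth : ∀ g : G, w * ((pure g : Ultrafilter G) * w) = (pure g : Ultrafilter G) * w := by
    intro g
    rw [← mul_assoc, pure_comm, mul_assoc, hw.1]
  have hth' : ∀ g : G, ((pure g : Ultrafilter G) * w) * w = (pure g : Ultrafilter G) * w := by
    intro g
    rw [mul_assoc, hw.1]
  have hlim : ∀ f : Ultrafilter (UE w), w * f.bind (fun x => x.1) * w =
      w * f.bind (fun x => x.1) := by
    intro f
    rw [mul_assoc, ← bind_mul]
    congr 2
    funext x
    exact x.2.2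
  let th : G →* UE w :=
    { toFun := fun g => ⟨(pure g : Ultrafilter G) * w, hth g, hth' g⟩
      map_one' := Subtype.ext (pure_one_mul w)
      map_mul' := by
        intro g h
        apply Subtype.ext
        show (pure (g * h) : Ultrafilter G) * w = (pure g * w) * (pure h * w)
        rw [mul_assoc, hth h, ← mul_assoc, pure_mul_pure_G] }
  let lm : Ultrafilter (UE w) → UE w := fun f =>
    ⟨w * f.bind (fun x => x.1), by rw [← mul_assoc, hw.1], hlim f⟩
  have hthmul : ∀ (g : G) (e : UE w), (th g * e).1 = (pure g : Ultrafilter G) * e.1 := by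
    intro g e
    show (pure g * w) * e.1 = pure g * e.1
    rw [mul_assoc, e.2.1]
  refine ⟨inferInstance, ⟨th, lm, w, ?_, ?_, ?_, ?_, ?_⟩, hmul, hone, fun f => rfl,
    fun g => rfl⟩
  · -- central
    intro g e
    apply Subtype.ext
    rw [hthmul]
    show pure g * e.1 = e.1 * (pure g * w)
    rw [← mul_assoc, pure_comm, mul_assoc, e.2.2]
  · -- pure
    intro a
    apply Subtype.ext
    show w * (pure a : Ultrafilter (UE w)).bind (fun x => x.1) = a.1
    have : (pure a : Ultrafilter (UE w)).bind (fun x => x.1) = a.1 := rfl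
    rw [this, a.2.1]
  · -- right
    intro f q
    apply Subtype.ext
    show w * f.bind (fun x => (x * q).1) = w * f.bind (fun x => x.1) * q.1
    rw [mul_assoc, ← bind_mul]
    rfl
  · -- dense
    intro e
    refine ⟨e.1, ?_⟩
    apply Subtype.ext
    show w * e.1.bind (fun g => (pure g : Ultrafilter G) * w) = e.1
    rw [bind_pure_mul, e.2.2, e.2.1]
  · -- bind
    intro F
    apply Subtype.ext
    show w * F.bind (fun f => w.bind (fun k => f.bind (fun x => (th k * x).1))) =
      w * F.bind (fun f => w * f.bind (fun x => x.1))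
    congr 2
    funext f
    rw [← bind_bind_mul]
    congr 1
    funext k
    congr 1
    funext x
    exact hthmul k x

end Pool.Agent.Work.MP_0f91f8_co.Lg
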