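import Pool.Agent.Work.MP_0f91f8_co.Lg.Stmts

/-!
Block [0f91f8 PI], item MINL: minimal left ideals.
-/

set_option linter.unusedSectionVars false

open Filter Topology

universe u

namespace Pool.Agent.Work.MP_0f91f8_co.Lg

attribute [local instance] Ultrafilter.mul Ultrafilter.semigroup

theorem MINL_pf : MINL := by
  intro G _ D hDc hDn hDI
  set 𝓕 : Set (Set (Ultrafilter G)) := {M | M ⊆ D ∧ IsClosed M ∧ M.Nonempty ∧
    ∀ p : Ultrafilter G, ∀ q ∈ M, p * q ∈ M} with h𝓕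
  obtain ⟨M, hMD, hM⟩ := zorn_superset_nonempty 𝓕 (by
    intro c hc hch hcn
    refine ⟨⋂₀ c, ⟨?_, ?_, ?_, ?_⟩, fun s hs => Set.sInter_subset_of_mem hs⟩
    · obtain ⟨s, hs⟩ := hcn
      exact (Set.sInter_subset_of_mem hs).trans (hc hs).1
    · exact isClosed_sInter fun s hs => (hc hs).2.1
    · have : Nonempty c := hcn.to_subtype
      refine IsCompact.nonempty_sInter_of_directed_nonempty_isCompact_isClosed ?_
        (fun s hs => (hc hs).2.2.1) (fun s hs => (hc hs).2.1.isCompact)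
        (fun s hs => (hc hs).2.1)
      intro s hs t ht
      rcases hch.total hs ht with h | h
      · exact ⟨s, hs, subset_rfl, h⟩
      · exact ⟨t, ht, h, subset_rfl⟩
    · intro p q hq s hs
      exact (hc hs).2.2.2 p q (hq s hs)) D ⟨subset_rfl, hDc, hDn, hDI⟩
  have hMF := hM.prop
  refine ⟨M, hMD, hMF.2.1, hMF.2.2.1, hMF.2.2.2, ?_⟩
  intro S hSM hSc hSn hSS
  obtain ⟨w, hw, hww⟩ := exists_idempotent_in_compact_subsemigroup
    (fun r : Ultrafilter G => Ultrafilter.continuous_mul_left r) S hSn hSc.isCompact hSS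
  refine ⟨w, hw, hww, fun p => ?_⟩
  have h1 : Set.range (fun r : Ultrafilter G => r * (p * w)) ∈ 𝓕 := by
    have hpw : p * w ∈ M := hMF.2.2.2 p w (hSM hw)
    refine ⟨?_, ?_, ⟨_, ⟨p, rfl⟩⟩, ?_⟩
    · rintro _ ⟨r, rfl⟩
      exact hMD (hMF.2.2.2 r _ hpw)
    · exact (isCompact_range (Ultrafilter.continuous_mul_left (p * w))).isClosed
    · rintro q _ ⟨r, rfl⟩
      exact ⟨q * r, mul_assoc q r (p * w)⟩
  have h2 : M ⊆ Set.range (fun r : Ultrafilter G => r * (p * w)) := by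
    refine hM.le_of_le h1 ?_
    rintro _ ⟨r, rfl⟩
    exact hMF.2.2.2 r _ (hMF.2.2.2 p w (hSM hw))
  obtain ⟨r, hr⟩ := h2 (hSM hw)
  exact ⟨r, hr⟩

end Pool.Agent.Work.MP_0f91f8_co.Lg
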