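import Pool.Agent.Work.MP_0f91f8_co.Lg.Stmts

/-!
Block [0f91f8 PI], item MOB: Moebius invariance and closedness of the laws `E1`.
Author helper62 (Moebius part adapted from helper31's file for distal systems).
-/

set_option linter.unusedSectionVars false

open Filter Topology

universe u

namespace Pool.Agent.Work.MP_0f91f8_co.Lg

open Pool.Agent.Work.MP_0f91f8_co.Cge (sd op aa cc bnd)
open Pool.Agent.Work.MP_0f91f8_co.Df (Mach MOK MK un un_val un_mul un_inv un_div un_one)

variable (E : Type u) [Group E]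

theorem MOB_pf : MOB E := by
  intro Λ
  refine ⟨⟨pure (0, 1), ?_, fun x => ⟨?_, ?_⟩⟩, ?_, ?_⟩
  · apply Ultrafilter.coe_injective
    simp
  · simp only [Ultrafilter.coe_pure]
    rw [eventually_pure]
    norm_num
  · rw [Λ.l_pure]
    have h1 : (1 : ℚ) + x * 0 = 1 := by ring
    simp only [h1, un_one, mul_one, map_one]
  · apply isClosed_of_bind
    intro F hF
    classical
    set q : Ultrafilter ℚ → Ultrafilter (ℚ × ℚˣ) :=
      fun f => if h : E1 Λ f then h.choose else pure (0, 1) with hq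
    have hq1 : ∀ f, E1 Λ f → (q f).map Prod.fst = f ∧
        ∀ x : ℚ, (∀ᶠ p in (q f : Filter (ℚ × ℚˣ)), 1 + x * p.1 ≠ 0) ∧
          Λ.l (q f) (fun p => Λ.θ (p.2 * un (1 + x * p.1))) = 1 := by
      intro f hf
      rw [hq]
      simp only [dif_pos hf]
      exact hf.choose_spec
    refine ⟨(Λ.sdk F q).map (fun P => (P.2.2.1, P.2.1 * P.2.2.2)), ?_, fun x => ⟨?_, ?_⟩⟩
    · have e := Λ.sdk_map F q (fun _ p => p.1)
      have e1 : ((Λ.sdk F q).map (fun P => (P.2.2.1, P.2.1 * P.2.2.2))).map Prod.fst =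
          (Λ.sdk F q).map (fun P => P.2.2.1) := rfl
      rw [e1, e]
      apply bind_congr
      filter_upwards [hF] with f hf
      exact (hq1 f hf).1
    · rw [ev_map, Λ.ev_sdk' F q (fun _ p => 1 + x * p.1 ≠ 0)]
      filter_upwards [hF] with f hf
      exact ((hq1 f hf).2 x).1
    · rw [Λ.l_map]
      have e := Λ.l_sdk F q (fun _ p => Λ.θ (p.2 * un (1 + x * p.1)))
      have e1 : (fun P : Ultrafilter ℚ × ℚˣ × (ℚ × ℚˣ) =>
          Λ.θ (P.2.1 * P.2.2.2 * un (1 + x * P.2.2.1))) =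
          fun P => Λ.θ P.2.1 * Λ.θ (P.2.2.2 * un (1 + x * P.2.2.1)) := by
        funext P
        rw [mul_assoc, map_mul Λ.θ P.2.1]
      rw [e1, e]
      have e2 : Λ.l F (fun f => Λ.l (q f) (fun p => Λ.θ (p.2 * un (1 + x * p.1)))) =
          Λ.l F (fun _ => 1) := by
        apply Λ.l_congr
        filter_upwards [hF] with f hf
        exact ((hq1 f hf).2 x).2
      rw [e2, Λ.l_const]
  · rintro 𝔲 ⟨𝔮, rfl, hq⟩ l m
    have hne : ∀ᶠ p in (𝔮 : Filter (ℚ × ℚˣ)), 1 + l * p.1 ≠ 0 := (hq l).1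
    refine ⟨𝔮.map (fun p => (m * p.1 / (1 + l * p.1), p.2 * un (1 + l * p.1))), ?_, fun x => ?_⟩
    · rw [Ultrafilter.map_map, Ultrafilter.map_map]
      rfl
    · have h1 := hq (l + x * m)
      constructor
      · rw [ev_map]
        filter_upwards [hne, h1.1] with p hp1 hp2
        have e : 1 + x * (m * p.1 / (1 + l * p.1)) = (1 + (l + x * m) * p.1) / (1 + l * p.1) := by
          rw [eq_div_iff hp1, add_mul, mul_assoc x, div_mul_cancel₀ _ hp1]
          ring
        show 1 + x * (m * p.1 / (1 + l * p.1)) ≠ 0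
        rw [e]
        exact div_ne_zero hp2 hp1
      · rw [Λ.l_map, ← h1.2]
        apply Λ.l_congr
        filter_upwards [hne, h1.1] with p hp1 hp2
        have e : 1 + x * (m * p.1 / (1 + l * p.1)) = (1 + (l + x * m) * p.1) / (1 + l * p.1) := by
          rw [eq_div_iff hp1, add_mul, mul_assoc x, div_mul_cancel₀ _ hp1]
          ring
        show Λ.θ (p.2 * un (1 + l * p.1) * un (1 + x * (m * p.1 / (1 + l * p.1)))) = _
        rw [e, mul_assoc, ← un_mul hp1 (div_ne_zero hp2 hp1), mul_div_cancel₀ _ hp1]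

end Pool.Agent.Work.MP_0f91f8_co.Lg
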