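import Pool.Agent.Work.MP_0f91f8_co.Lg.Stmts

/-!
Block [0f91f8 PI], item STEP2: step (II').
-/

set_option linter.unusedSectionVars false
set_option linter.unusedVariables false

open Filter Topology

universe u

namespace Pool.Agent.Work.MP_0f91f8_co.Lg

open Pool.Agent.Work.MP_0f91f8_co.Cge (sd op aa cc bnd)
open Pool.Agent.Work.MP_0f91f8_co.Df (Mach MOK MK un un_val un_mul un_inv un_div un_one)

namespace I_STEP2

section

variable {E : Type u} [Group E] {G : Type} [CommGroup G] {Λ : LimGp G E}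

/-- limit of a product `x c R`, inner form -/
lemma inner {A : Subgroup E} (hA : Λ.NT A) {Ω : Type} {M : Ultrafilter Ω} {x R f : Ω → E}
    (c : E) (hR : ∀ᶠ q in (M : Filter Ω), R q ∈ A)
    (hf : ∀ᶠ q in (M : Filter Ω), Eqm (Λ.DD A) (c * R q) (f q)) :
    Eqm (Λ.DD A) (Λ.l M x * c * Λ.l M R) (Λ.l M (fun q => x q * f q)) := by
  have h1 := Eqm.prod (Λ := Λ) hA.closed (fun q => x q * c) R hR
  rw [Λ.l_right] at h1
  refine h1.trans ?_
  refine Eqm.limit (LimGp.TC_DD A) ?_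
  filter_upwards [hf] with q hq
  have := hq.left (x q)
  rwa [← mul_assoc] at this

/-- limit of a product `x c R`, iterated limits -/
lemma outer {A : Subgroup E} (hA : Λ.NT A) {Ω Ω' : Type} {v : Ultrafilter Ω'}
    {M : Ω' → Ultrafilter Ω} {x R f : Ω' → Ω → E}
    (c : E) (hR : ∀ᶠ s in (v : Filter Ω'), ∀ᶠ q in (M s : Filter Ω), R s q ∈ A)
    (hf : ∀ᶠ s in (v : Filter Ω'), ∀ᶠ q in (M s : Filter Ω),
      Eqm (Λ.DD A) (c * R s q) (f s q)) :
    Eqm (Λ.DD A) (Λ.l v (fun s => Λ.l (M s) (x s)) * c * Λ.l v (fun s => Λ.l (M s) (R s)))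
      (Λ.l v (fun s => Λ.l (M s) (fun q => x s q * f s q))) := by
  have hR' : ∀ᶠ s in (v : Filter Ω'), Λ.l (M s) (R s) ∈ A := by
    filter_upwards [hR] with s hs
    exact hA.closed.mem hs
  have h1 := Eqm.prod (Λ := Λ) hA.closed (fun s => Λ.l (M s) (x s) * c)
    (fun s => Λ.l (M s) (R s)) hR'
  rw [Λ.l_right] at h1
  refine h1.trans ?_
  refine Eqm.limit (LimGp.TC_DD A) ?_
  filter_upwards [hR, hf] with s hs1 hs2
  exact inner hA c hs1 hs2

variable {T : Type}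

/-- the second stage (a) -/
def Fa (Λ : LimGp G E) (o : Ultrafilter (G × (E × E))) (mm : E → E → Ultrafilter (T × G)) :
    Ultrafilter (T × G) :=
  (Λ.sdk o (fun p => mm p.2.1 p.2.2)).map (fun q => (q.2.2.1, q.1.1 * q.2.1 * q.2.2.2))

/-- the second stage (b) -/
def Fb (Λ : LimGp G E) (kb : Ultrafilter G) (o : Ultrafilter (G × (E × E)))
    (mm : E → E → Ultrafilter (T × G)) : Ultrafilter (T × G) :=
  (Λ.sdk kb (fun _ => Λ.sdk o (fun p => mm p.2.1 p.2.2))).map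
    (fun q => (q.2.2.2.2.1, q.1 * q.2.1 * (q.2.2.2.1 * q.2.2.2.2.2)))

lemma Fa_fst {o : Ultrafilter (G × (E × E))} {mm : E → E → Ultrafilter (T × G)}
    {u : Ultrafilter T}
    (H : ∀ᶠ p in (o : Filter (G × (E × E))), (mm p.2.1 p.2.2).map Prod.fst = u) :
    (Fa Λ o mm).map Prod.fst = u := by
  have h1 : (Fa Λ o mm).map Prod.fst =
      (Λ.sdk o (fun p => mm p.2.1 p.2.2)).map (fun q => q.2.2.1) := rfl
  rw [h1, Λ.sdk_map o (fun p => mm p.2.1 p.2.2) (fun _ q => q.1)]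
  rw [bind_congr (w' := fun _ => u) H, bind_const']

lemma Fb_fst {kb : Ultrafilter G} {o : Ultrafilter (G × (E × E))}
    {mm : E → E → Ultrafilter (T × G)} {u : Ultrafilter T}
    (H : ∀ᶠ p in (o : Filter (G × (E × E))), (mm p.2.1 p.2.2).map Prod.fst = u) :
    (Fb Λ kb o mm).map Prod.fst = u := by
  have h1 : (Fb Λ kb o mm).map Prod.fst =
      (Λ.sdk kb (fun _ => Λ.sdk o (fun p => mm p.2.1 p.2.2))).map
        (fun q => q.2.2.2.2.1) := rfl
  rw [h1, Λ.sdk_map kb (fun _ => Λ.sdk o (fun p => mm p.2.1 p.2.2)) (fun _ q => q.2.2.1),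
    bind_const', Λ.sdk_map o (fun p => mm p.2.1 p.2.2) (fun _ q => q.1)]
  rw [bind_congr (w' := fun _ => u) H, bind_const']

lemma Fa_l (o : Ultrafilter (G × (E × E))) (mm : E → E → Ultrafilter (T × G)) (r : T → G) :
    Λ.l (Fa Λ o mm) (fun q => Λ.θ (q.2 * r q.1)) =
      Λ.l o (fun p => Λ.θ p.1 * Λ.l (mm p.2.1 p.2.2) (fun q => Λ.θ (q.2 * r q.1))) := by
  have h1 := Λ.l_sdk_th o (fun p => mm p.2.1 p.2.2) (fun p => p.1)
    (fun _ q => q.2 * r q.1)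
  rw [← h1]
  unfold Fa
  rw [Λ.l_map]
  simp only [mul_assoc]

lemma Fb_l {kb : Ultrafilter G} {b : E} (hb : Λ.l kb (fun g => Λ.θ g) = b⁻¹)
    (o : Ultrafilter (G × (E × E))) (mm : E → E → Ultrafilter (T × G)) (r : T → G) :
    Λ.l (Fb Λ kb o mm) (fun q => Λ.θ (q.2 * r q.1)) =
      b⁻¹ * Λ.l o (fun p => Λ.l (mm p.2.1 p.2.2) (fun q => Λ.θ (q.2 * r q.1))) := by
  have h1 := Λ.l_sdk_th kb (fun _ => Λ.sdk o (fun p => mm p.2.1 p.2.2)) (fun g => g)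
    (fun _ q => q.2.1 * (q.2.2.2 * r q.2.2.1))
  have h2 := Λ.l_sdk_th o (fun p => mm p.2.1 p.2.2) (fun _ => 1)
    (fun _ q => q.2 * r q.1)
  simp only [one_mul, map_one] at h2
  rw [h2, Λ.l_right, hb] at h1
  rw [← h1]
  unfold Fb
  rw [Λ.l_map]
  simp only [mul_assoc]

/-- the second stage modulo `DD A`: `x a` with `a ∈ A` -/
lemma st2 {A : Subgroup E} (hA : Λ.NT A) {Ω : Type u} {o : Ultrafilter Ω} {w z P : Ω → E}
    (h : ∀ᶠ p in (o : Filter Ω), Eqm A (z p) (P p)) :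
    Eqm (Λ.DD A) (Λ.l o (fun p => w p * z p) * Λ.l o (fun p => (z p)⁻¹ * P p))
      (Λ.l o (fun p => w p * P p)) := by
  have h1 := Eqm.prod (Λ := Λ) hA.closed (𝔬 := o) (fun p => w p * z p)
    (fun p => (z p)⁻¹ * P p) h
  have h2 : (fun p => w p * z p * ((z p)⁻¹ * P p)) = fun p => w p * P p := by
    funext p
    rw [mul_assoc, mul_inv_cancel_left]
  rwa [h2] at h1

end

end I_STEP2

open I_STEP2

variable (E : Type u) [Group E]

theorem STEP2_pf (hR : RPL E) (hC : CMPS E) : STEP2 E := by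
  intro S T G _ Λ K hK B A hB hA hAB hFL v N hN hv hcmp
  classical
  refine le_antisymm hN.le fun d hd => ?_
  obtain ⟨o, ho, ho1, ho2, ho3⟩ := hR G Λ B hB d (hAB hd)
  -- the common limit
  set b : E := Λ.l o (fun p => p.2.1) with hbdef
  have hb2 : Λ.l o (fun p => p.2.2) = b := by
    rw [hbdef]
    unfold LimGp.l
    rw [ho1]
  obtain ⟨kb, hkb⟩ := Λ.exists_law b⁻¹
  -- choices
  have i1 : Nonempty (Ultrafilter T) := ⟨pure K.one⟩
  have i2 : Nonempty (Ultrafilter (T × G)) := ⟨pure (K.one, 1)⟩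
  choose! u hu m hm using hFL
  have hB1 : (1 : E) ∈ B := B.one_mem
  -- second stages
  set Ga : S → Ultrafilter (T × G) := fun s' => Fa Λ o (m s') with hGa
  set Gb : S → Ultrafilter (T × G) := fun s' => Fb Λ kb o (m s') with hGb
  set R1 : S → E := fun s' => Λ.l o (fun p => p.2.1⁻¹ * P1 Λ (m s' p.2.1 p.2.2)) with hR1
  set R2 : S → E := fun s' => Λ.l o (fun p => p.2.2⁻¹ * P2 Λ K s' (m s' p.2.1 p.2.2)) with hR2
  have hm1 : ∀ s' ∈ K.S₀, ∀ᶠ p in (o : Filter (G × (E × E))),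
      Eqm A p.2.1 (P1 Λ (m s' p.2.1 p.2.2)) := by
    intro s' hs'
    filter_upwards [ho] with p hp
    exact (hm s' hs' _ hp.1 _ hp.2).2.2.1
  have hm2 : ∀ s' ∈ K.S₀, ∀ᶠ p in (o : Filter (G × (E × E))),
      Eqm A p.2.2 (P2 Λ K s' (m s' p.2.1 p.2.2)) := by
    intro s' hs'
    filter_upwards [ho] with p hp
    exact (hm s' hs' _ hp.1 _ hp.2).2.2.2
  have hfst : ∀ s' ∈ K.S₀, ∀ᶠ p in (o : Filter (G × (E × E))),
      (m s' p.2.1 p.2.2).map Prod.fst = u s' := by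
    intro s' hs'
    filter_upwards [ho] with p hp
    exact (hm s' hs' _ hp.1 _ hp.2).2.1
  have hR1A : ∀ s' ∈ K.S₀, R1 s' ∈ A := fun s' hs' => hA.closed.mem (hm1 s' hs')
  have hR2A : ∀ s' ∈ K.S₀, R2 s' ∈ A := fun s' hs' => hA.closed.mem (hm2 s' hs')
  have za1 : ∀ s' ∈ K.S₀, Eqm (Λ.DD A) (1 * R1 s') (P1 Λ (Ga s')) := by
    intro s' hs'
    have h1 := st2 hA (w := fun p => Λ.θ p.1) (hm1 s' hs')
    rw [ho2] at h1
    have h2 := Fa_l (Λ := Λ) o (m s') (fun _ => 1)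
    simp only [mul_one] at h2
    have h3 : P1 Λ (Ga s') = Λ.l o (fun p => Λ.θ p.1 * P1 Λ (m s' p.2.1 p.2.2)) := h2
    rw [h3]
    exact h1
  have za2 : ∀ s' ∈ K.S₀, Eqm (Λ.DD A) (d * R2 s') (P2 Λ K s' (Ga s')) := by
    intro s' hs'
    have h1 := st2 hA (w := fun p => Λ.θ p.1) (hm2 s' hs')
    rw [ho3] at h1
    have h2 := Fa_l (Λ := Λ) o (m s') (K.r s')
    have h3 : P2 Λ K s' (Ga s') =
        Λ.l o (fun p => Λ.θ p.1 * P2 Λ K s' (m s' p.2.1 p.2.2)) := h2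
    rw [h3]
    exact h1
  have zb1 : ∀ s' ∈ K.S₀, Eqm (Λ.DD A) (1 * R1 s') (P1 Λ (Gb s')) := by
    intro s' hs'
    have h1 := st2 hA (w := fun _ => 1) (hm1 s' hs')
    simp only [one_mul] at h1
    have h2 := Fb_l (Λ := Λ) hkb o (m s') (fun _ => 1)
    simp only [mul_one] at h2
    have h3 : P1 Λ (Gb s') = b⁻¹ * Λ.l o (fun p => P1 Λ (m s' p.2.1 p.2.2)) := h2
    have h4 := h1.left b⁻¹
    rw [h3, one_mul]
    have h5 : b⁻¹ * (Λ.l o (fun p => p.2.1) *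
        Λ.l o (fun p => p.2.1⁻¹ * P1 Λ (m s' p.2.1 p.2.2))) = R1 s' := by
      rw [← hbdef, inv_mul_cancel_left]
    rwa [h5] at h4
  have zb2 : ∀ s' ∈ K.S₀, Eqm (Λ.DD A) (1 * R2 s') (P2 Λ K s' (Gb s')) := by
    intro s' hs'
    have h1 := st2 hA (w := fun _ => 1) (hm2 s' hs')
    simp only [one_mul] at h1
    have h2 := Fb_l (Λ := Λ) hkb o (m s') (K.r s')
    have h3 : P2 Λ K s' (Gb s') = b⁻¹ * Λ.l o (fun p => P2 Λ K s' (m s' p.2.1 p.2.2)) := h2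
    have h4 := h1.left b⁻¹
    rw [h3, one_mul]
    have h5 : b⁻¹ * (Λ.l o (fun p => p.2.2) *
        Λ.l o (fun p => p.2.2⁻¹ * P2 Λ K s' (m s' p.2.1 p.2.2))) = R2 s' := by
      rw [hb2, inv_mul_cancel_left]
    rwa [h5] at h4
  have hGaf : ∀ s' ∈ K.S₀, (Ga s').map Prod.fst = u s' := fun s' hs' => Fa_fst (hfst s' hs')
  have hGbf : ∀ s' ∈ K.S₀, (Gb s').map Prod.fst = u s' := fun s' hs' => Fb_fst (hfst s' hs')
  have hGaW : ∀ s' ∈ K.S₀, (Ga s').map Prod.fst ∈ K.W := fun s' hs' => by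
    rw [hGaf s' hs']
    exact hu s' hs'
  have hGbW : ∀ s' ∈ K.S₀, (Gb s').map Prod.fst ∈ K.W := fun s' hs' => by
    rw [hGbf s' hs']
    exact hu s' hs'
  -- first stage
  set M : S → Ultrafilter (T × G) := fun s => m s 1 1 with hMdef
  have hMf : ∀ s ∈ K.S₀, (M s).map Prod.fst = u s := fun s hs => (hm s hs 1 hB1 1 hB1).2.1
  have hMW : ∀ s ∈ K.S₀, (M s).map Prod.fst ∈ K.W := fun s hs => by
    rw [hMf s hs]
    exact hu s hs
  have hM1 : ∀ s ∈ K.S₀, P1 Λ (M s) ∈ A := fun s hs => by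
    have h1 : (1 : E)⁻¹ * P1 Λ (m s 1 1) ∈ A := (hm s hs 1 hB1 1 hB1).2.2.1
    rwa [inv_one, one_mul] at h1
  have hM2 : ∀ s ∈ K.S₀, P2 Λ K s (M s) ∈ A := fun s hs => by
    have h1 : (1 : E)⁻¹ * P2 Λ K s (m s 1 1) ∈ A := (hm s hs 1 hB1 1 hB1).2.2.2
    rwa [inv_one, one_mul] at h1
  have hmem : ∀ s ∈ K.S₀, ∀ᶠ q in (M s : Filter (T × G)), K.act s q.1 ∈ K.S₀ := by
    intro s hs
    have h1 := hK.mem s hs _ (hMW s hs)
    exact h1
  have hCa := fun s (hs : s ∈ K.S₀) => hC S T G Λ K hK s hs (M s) (hMW s hs) Ga hGaW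
  have hCb := fun s (hs : s ∈ K.S₀) => hC S T G Λ K hK s hs (M s) (hMW s hs) Gb hGbW
  have hRM1 : ∀ s ∈ K.S₀, ∀ᶠ q in (M s : Filter (T × G)), R1 (K.act s q.1) ∈ A :=
    fun s hs => (hmem s hs).mono fun q hq => hR1A _ hq
  have hRM2 : ∀ s ∈ K.S₀, ∀ᶠ q in (M s : Filter (T × G)), R2 (K.act s q.1) ∈ A :=
    fun s hs => (hmem s hs).mono fun q hq => hR2A _ hq
  have hDA := hA.DD_le
  -- the products are in `A`
  have memA : ∀ {a c r y : E}, a ∈ A → c ∈ A → r ∈ A → Eqm (Λ.DD A) (a * c * r) y → y ∈ A :=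
    fun ha hc hr h => h.mem hDA (A.mul_mem (A.mul_mem ha hc) hr)
  have ia1 : ∀ s ∈ K.S₀, P1 Λ (cps Λ K s (M s) Ga) ∈ A := by
    intro s hs
    rw [(hCa s hs).2.1]
    exact memA (hM1 s hs) A.one_mem (hA.closed.mem (hRM1 s hs))
      (inner hA (x := fun q : T × G => Λ.θ q.2) 1 (hRM1 s hs)
        ((hmem s hs).mono fun q hq => za1 _ hq))
  have ia2 : ∀ s ∈ K.S₀, P2 Λ K s (cps Λ K s (M s) Ga) ∈ A := by
    intro s hs
    rw [(hCa s hs).2.2.1]
    exact memA (hM2 s hs) hd (hA.closed.mem (hRM2 s hs))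
      (inner hA (x := fun q : T × G => Λ.θ (q.2 * K.r s q.1)) d (hRM2 s hs)
        ((hmem s hs).mono fun q hq => za2 _ hq))
  have ib1 : ∀ s ∈ K.S₀, P1 Λ (cps Λ K s (M s) Gb) ∈ A := by
    intro s hs
    rw [(hCb s hs).2.1]
    exact memA (hM1 s hs) A.one_mem (hA.closed.mem (hRM1 s hs))
      (inner hA (x := fun q : T × G => Λ.θ q.2) 1 (hRM1 s hs)
        ((hmem s hs).mono fun q hq => zb1 _ hq))
  have ib2 : ∀ s ∈ K.S₀, P2 Λ K s (cps Λ K s (M s) Gb) ∈ A := by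
    intro s hs
    rw [(hCb s hs).2.2.1]
    exact memA (hM2 s hs) A.one_mem (hA.closed.mem (hRM2 s hs))
      (inner hA (x := fun q : T × G => Λ.θ (q.2 * K.r s q.1)) 1 (hRM2 s hs)
        ((hmem s hs).mono fun q hq => zb2 _ hq))
  -- the two selections
  have hselA : Sel Λ K A (fun s => cps Λ K s (M s) Ga) :=
    fun s hs => ⟨(hCa s hs).1, ia1 s hs, ia2 s hs⟩
  have hselB : Sel Λ K A (fun s => cps Λ K s (M s) Gb) :=
    fun s hs => ⟨(hCb s hs).1, ib1 s hs, ib2 s hs⟩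
  have hsame : ∀ s ∈ K.S₀, (cps Λ K s (M s) Ga).map Prod.fst =
      (cps Λ K s (M s) Gb).map Prod.fst := by
    intro s hs
    rw [(hCa s hs).2.2.2.1, (hCb s hs).2.2.2.1]
    apply bind_congr
    filter_upwards [hK.mem s hs _ (hMW s hs)] with t ht
    rw [hGaf _ ht, hGbf _ ht]
  have hfin := hcmp _ _ hselA hselB hsame
  -- the limits over `v`
  set α1 : E := Λ.l v (fun s => P1 Λ (M s)) with hα1
  set α2 : E := Λ.l v (fun s => P2 Λ K s (M s)) with hα2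
  set β1 : E := Λ.l v (fun s => Λ.l (M s) (fun q => R1 (K.act s q.1))) with hβ1
  set β2 : E := Λ.l v (fun s => Λ.l (M s) (fun q => R2 (K.act s q.1))) with hβ2
  have hα1A : α1 ∈ A := hA.closed.mem (hv.mono fun s hs => hM1 s hs)
  have hα2A : α2 ∈ A := hA.closed.mem (hv.mono fun s hs => hM2 s hs)
  have hβ1A : β1 ∈ A :=
    hA.closed.mem (hv.mono fun s hs => hA.closed.mem (hRM1 s hs))
  have hβ2A : β2 ∈ A :=
    hA.closed.mem (hv.mono fun s hs => hA.closed.mem (hRM2 s hs))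
  have ja1 : Eqm (Λ.DD A) (α1 * 1 * β1) (I1 Λ v (fun s => cps Λ K s (M s) Ga)) := by
    have h1 := outer hA (v := v) (M := M) (x := fun _ (q : T × G) => Λ.θ q.2)
      (R := fun s q => R1 (K.act s q.1)) (f := fun s q => P1 Λ (Ga (K.act s q.1))) 1
      (hv.mono fun s hs => hRM1 s hs)
      (hv.mono fun s hs => (hmem s hs).mono fun q hq => za1 _ hq)
    have h2 : I1 Λ v (fun s => cps Λ K s (M s) Ga) =
        Λ.l v (fun s => Λ.l (M s) (fun q => Λ.θ q.2 * P1 Λ (Ga (K.act s q.1)))) :=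
      Λ.l_congr (hv.mono fun s hs => (hCa s hs).2.1)
    rw [h2]
    exact h1
  have ja2 : Eqm (Λ.DD A) (α2 * d * β2) (I2 Λ K v (fun s => cps Λ K s (M s) Ga)) := by
    have h1 := outer hA (v := v) (M := M) (x := fun s (q : T × G) => Λ.θ (q.2 * K.r s q.1))
      (R := fun s q => R2 (K.act s q.1))
      (f := fun s q => P2 Λ K (K.act s q.1) (Ga (K.act s q.1))) d
      (hv.mono fun s hs => hRM2 s hs)
      (hv.mono fun s hs => (hmem s hs).mono fun q hq => za2 _ hq)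
    have h2 : I2 Λ K v (fun s => cps Λ K s (M s) Ga) =
        Λ.l v (fun s => Λ.l (M s) (fun q => Λ.θ (q.2 * K.r s q.1) *
          P2 Λ K (K.act s q.1) (Ga (K.act s q.1)))) :=
      Λ.l_congr (hv.mono fun s hs => (hCa s hs).2.2.1)
    rw [h2]
    exact h1
  have jb1 : Eqm (Λ.DD A) (α1 * 1 * β1) (I1 Λ v (fun s => cps Λ K s (M s) Gb)) := by
    have h1 := outer hA (v := v) (M := M) (x := fun _ (q : T × G) => Λ.θ q.2)
      (R := fun s q => R1 (K.act s q.1)) (f := fun s q => P1 Λ (Gb (K.act s q.1))) 1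
      (hv.mono fun s hs => hRM1 s hs)
      (hv.mono fun s hs => (hmem s hs).mono fun q hq => zb1 _ hq)
    have h2 : I1 Λ v (fun s => cps Λ K s (M s) Gb) =
        Λ.l v (fun s => Λ.l (M s) (fun q => Λ.θ q.2 * P1 Λ (Gb (K.act s q.1)))) :=
      Λ.l_congr (hv.mono fun s hs => (hCb s hs).2.1)
    rw [h2]
    exact h1
  have jb2 : Eqm (Λ.DD A) (α2 * 1 * β2) (I2 Λ K v (fun s => cps Λ K s (M s) Gb)) := by
    have h1 := outer hA (v := v) (M := M) (x := fun s (q : T × G) => Λ.θ (q.2 * K.r s q.1))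
      (R := fun s q => R2 (K.act s q.1))
      (f := fun s q => P2 Λ K (K.act s q.1) (Gb (K.act s q.1))) 1
      (hv.mono fun s hs => hRM2 s hs)
      (hv.mono fun s hs => (hmem s hs).mono fun q hq => zb2 _ hq)
    have h2 : I2 Λ K v (fun s => cps Λ K s (M s) Gb) =
        Λ.l v (fun s => Λ.l (M s) (fun q => Λ.θ (q.2 * K.r s q.1) *
          P2 Λ K (K.act s q.1) (Gb (K.act s q.1)))) :=
      Λ.l_congr (hv.mono fun s hs => (hCb s hs).2.2.1)
    rw [h2]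
    exact h1
  have hIa1 : I1 Λ v (fun s => cps Λ K s (M s) Ga) ∈ A := memA hα1A A.one_mem hβ1A ja1
  have hIa2 : I2 Λ K v (fun s => cps Λ K s (M s) Ga) ∈ A := memA hα2A hd hβ2A ja2
  have e1 : Eqm N (I1 Λ v (fun s => cps Λ K s (M s) Gb))
      (I1 Λ v (fun s => cps Λ K s (M s) Ga)) := (jb1.symm.trans ja1).mono hN.ge
  have e2 : Eqm N (I1 Λ v (fun s => cps Λ K s (M s) Gb))⁻¹
      (I1 Λ v (fun s => cps Λ K s (M s) Ga))⁻¹ :=
    Eqm.inv hN (memA hα1A A.one_mem hβ1A jb1) e1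
  have e3 := (e2.right hN hIa2).trans hfin
  have e4 := e3.left (I1 Λ v (fun s => cps Λ K s (M s) Gb))
  simp only [mul_inv_cancel_left] at e4
  have e5 : Eqm N (α2 * d * β2) (α2 * 1 * β2) :=
    ((ja2.mono hN.ge).trans e4).trans (jb2.symm.mono hN.ge)
  have e6 : β2⁻¹ * d⁻¹ * β2 ∈ N := by
    have h1 : (α2 * d * β2)⁻¹ * (α2 * 1 * β2) ∈ N := e5
    have h2 : (α2 * d * β2)⁻¹ * (α2 * 1 * β2) = β2⁻¹ * d⁻¹ * β2 := by group
    rwa [h2] at h1
  have e7 := hN.nrm β2 hβ2A _ e6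
  have e8 : β2 * (β2⁻¹ * d⁻¹ * β2) * β2⁻¹ = d⁻¹ := by group
  rw [e8] at e7
  have e9 := N.inv_mem e7
  rwa [inv_inv] at e9

end Pool.Agent.Work.MP_0f91f8_co.Lg
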