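import Pool.Agent.Work.MP_0f91f8_co.Lg.Stmts

/-!
Item TRF of block [0f91f8 PI]: from laws to triples.
-/

set_option linter.unusedSectionVars false
set_option linter.unusedVariables false

open Filter Topology

universe u

namespace Pool.Agent.Work.MP_0f91f8_co.Lg

open Pool.Agent.Work.MP_0f91f8_co.Cge (sd op aa cc bnd)
open Pool.Agent.Work.MP_0f91f8_co.Df (Mach MOK MK un un_val un_mul un_inv un_div un_one)

attribute [local instance] Ultrafilter.mul Ultrafilter.semigroup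

namespace I_TRF

/-- numerators of `± n` -/
lemma natAbs_num {q : ℚ} {n : ℕ} (h : (n : ℚ) = |q|) : q.num.natAbs = n := by
  rcases abs_choice q with h1 | h1
  · rw [h1] at h
    rw [← h]
    simp
  · rw [h1] at h
    have h2 : q = -(n : ℚ) := by rw [h, neg_neg]
    rw [h2, Rat.neg_num]
    simp

variable {X : Type u} [TopologicalSpace X] [CompactSpace X] [T2Space X]

/-- events for one coordinate -/
lemma coord (T : ℕ → X → X) (w : Ultrafilter ℚˣ) (x₀ : X) (U : Set X) (hU : U ∈ 𝓝 x₀)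
    {Ω : Type} (𝔬 : Ultrafilter Ω) (c : Ω → ℚˣ)
    (h : ev T (w * ((𝔬.map c) * w)) x₀ = x₀) :
    ∀ᶠ g in (w : Filter ℚˣ), ∀ᶠ p in (𝔬 : Filter Ω), ∀ᶠ k in (w : Filter ℚˣ),
      ac T (g * (c p * k)) x₀ ∈ U := by
  have h1 := Cge.tendsto_L (w * ((𝔬.map c) * w)) (fun g => ac T g x₀)
  have h2 : ∀ᶠ g in ((w * ((𝔬.map c) * w) : Ultrafilter ℚˣ) : Filter ℚˣ), ac T g x₀ ∈ U := by
    apply h1
    unfold ev at h
    rw [h]
    exact hU
  rw [Ultrafilter.eventually_mul] at h2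
  refine h2.mono fun g hg => ?_
  rw [Ultrafilter.eventually_mul] at hg
  exact hg

end I_TRF

theorem TRF_pf (X : Type u) [TopologicalSpace X] [CompactSpace X] [T2Space X] : TRF X := by
  intro T hT A w hw x₀ U hU 𝔬 hP h1 h2 h3
  have e1 := I_TRF.coord T w x₀ U hU 𝔬 (fun p => p.1) h1
  have e2 := I_TRF.coord T w x₀ U hU 𝔬 (fun p => p.2.1) h2
  have e3 := I_TRF.coord T w x₀ U hU 𝔬 (fun p => p.2.2) h3
  obtain ⟨g, g1, g2, g3⟩ := (e1.and (e2.and e3)).exists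
  obtain ⟨p, hp, p1, p2, p3⟩ := (hP.and (g1.and (g2.and g3))).exists
  have a1 := hw (g * p.1)
  have a2 := hw (g * p.2.1)
  have a3 := hw (g * p.2.2)
  obtain ⟨k, ⟨k1, k2, k3⟩, ⟨x, hx0, hxA, hx⟩, ⟨y, hy0, hyA, hy⟩, ⟨z, hz0, hzA, hz⟩⟩ :=
    ((p1.and (p2.and p3)).and (a1.and (a2.and a3))).exists
  have f : ∀ (c : ℚˣ) (n : ℕ), (n : ℚ) = |((g * c * k : ℚˣ) : ℚ)| →
      ac T (g * (c * k)) x₀ = T n x₀ := by
    intro c n hn
    unfold ac
    rw [← mul_assoc, I_TRF.natAbs_num hn]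
  refine ⟨x, y, z, hx0, hy0, hz0, ?_, hxA, hyA, hzA, ?_, ?_, ?_⟩
  · have h4 : ((x : ℚ)) ^ 2 + (y : ℚ) ^ 2 = (z : ℚ) ^ 2 := by
      rw [hx, hy, hz, sq_abs, sq_abs, sq_abs]
      push_cast
      have : ((g : ℚ) * (p.1 : ℚ) * (k : ℚ)) ^ 2 + ((g : ℚ) * (p.2.1 : ℚ) * (k : ℚ)) ^ 2 =
          ((g : ℚ) * (k : ℚ)) ^ 2 * ((p.1 : ℚ) ^ 2 + (p.2.1 : ℚ) ^ 2) := by ring
      rw [this, hp]
      ring
    exact_mod_cast h4
  · rw [← f _ x hx]; exact k1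
  · rw [← f _ y hy]; exact k2
  · rw [← f _ z hz]; exact k3

end Pool.Agent.Work.MP_0f91f8_co.Lg
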