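import Pool.Agent.Work.MP_0f91f8_co.Lg.Ev
import Pool.Agent.Work.MP_0f91f8_co.Lg.Dist
import Pool.Agent.Work.MP_0f91f8_co.Lg.Final
import Pool.Agent.Work.MP_0f91f8_co.Lg.I_INST
import Pool.Agent.Work.MP_0f91f8_co.Lg.I_MINL
import Pool.Agent.Work.MP_0f91f8_co.Lg.I_DAI
import Pool.Agent.Work.MP_0f91f8_co.Lg.I_EVA
import Pool.Agent.Work.MP_0f91f8_co.Lg.I_BRP

/-!
Block [0f91f8 PI]: the final theorem for minimal subsets.
-/

set_option linter.unusedSectionVars false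
set_option linter.unusedVariables false

open Filter Topology

universe u

namespace Pool.Agent.Work.MP_0f91f8_co.Lg

open Pool.Agent.Work.MP_0f91f8_co.Df (un un_val)

attribute [local instance] Ultrafilter.mul Ultrafilter.semigroup

section

variable {X : Type u} [TopologicalSpace X] [CompactSpace X] [T2Space X] {T : ℕ → X → X}
  {M : Set X}

/-- the action on an invariant set -/
noncomputable def res (T : ℕ → X → X) (M : Set X) (hM : ∀ k : ℕ, 0 < k → ∀ x ∈ M, T k x ∈ M)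
    (k : ℕ) (x : M) : M := by
  classical
  exact if h : 0 < k then ⟨T k x.1, hM k h x.1 x.2⟩ else x

lemma res_val (hM : ∀ k : ℕ, 0 < k → ∀ x ∈ M, T k x ∈ M) {k : ℕ} (hk : 0 < k) (x : M) :
    (res T M hM k x).1 = T k x.1 := by
  unfold res
  rw [dif_pos hk]

lemma act_res (hT : Act T) (hM : ∀ k : ℕ, 0 < k → ∀ x ∈ M, T k x ∈ M) : Act (res T M hM) where
  cont k hk := by
    refine continuous_induced_rng.2 ?_
    have : (Subtype.val ∘ res T M hM k) = fun x : M => T k x.1 :=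
      funext fun x => res_val hM hk x
    rw [this]
    exact (hT.cont k hk).comp continuous_subtype_val
  mul k m hk hm x := by
    apply Subtype.ext
    rw [res_val hM (Nat.mul_pos hk hm), res_val hM hk, res_val hM hm]
    exact hT.mul k m hk hm x.1

lemma image_orb (hM : ∀ k : ℕ, 0 < k → ∀ x ∈ M, T k x ∈ M) (x : M) :
    Subtype.val '' (orb (res T M hM) x) = orb T x.1 := by
  ext z
  constructor
  · rintro ⟨_, ⟨k, hk, rfl⟩, rfl⟩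
    exact ⟨k, hk, res_val hM hk x⟩
  · rintro ⟨k, hk, rfl⟩
    exact ⟨_, ⟨k, hk, rfl⟩, res_val hM hk x⟩

lemma mem_closure_res (hM : ∀ k : ℕ, 0 < k → ∀ x ∈ M, T k x ∈ M) (x y : M) :
    y ∈ closure (orb (res T M hM) x) ↔ y.1 ∈ closure (orb T x.1) := by
  rw [closure_subtype, image_orb]

/-- the action of ultrafilters on an invariant closed set -/
lemma ev_res [CompactSpace M] (hM : ∀ k : ℕ, 0 < k → ∀ x ∈ M, T k x ∈ M)
    {p : Ultrafilter ℚˣ} (hp : ∀ᶠ g in (p : Filter ℚˣ), Ev.Int1 g) (x : M) :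
    (ev (res T M hM) p x).1 = ev T p x.1 := by
  unfold ev
  rw [← Cge.L_comp continuous_subtype_val]
  apply Cge.L_congr
  filter_upwards [hp] with g hg
  obtain ⟨n, hn, h⟩ := hg
  rw [Ev.ac_eq h, Ev.ac_eq h, res_val hM hn]

/-- Bronstein's condition on the invariant set `M` -/
def BRM (T : ℕ → X → X) (M : Set X) : Prop :=
  ∀ L : Set (X × X), IsClosed L → L ⊆ M ×ˢ M → (∀ x ∈ M, (x, x) ∈ L) →
  (∀ k : ℕ, 0 < k → ∀ p ∈ L, (T k p.1, T k p.2) ∈ L) →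
  (∀ U V : Set (X × X), IsOpen U → IsOpen V → (L ∩ U).Nonempty → (L ∩ V).Nonempty →
    ∃ k : ℕ, 0 < k ∧ ∃ p ∈ L ∩ U, (T k p.1, T k p.2) ∈ V) →
  (∀ U : Set (X × X), IsOpen U → (L ∩ U).Nonempty →
    ∃ p ∈ L ∩ U, ∀ q ∈ closure {q : X × X | ∃ k : ℕ, 0 < k ∧ q = (T k p.1, T k p.2)},
      p ∈ closure {r : X × X | ∃ k : ℕ, 0 < k ∧ r = (T k q.1, T k q.2)}) →
  ∀ p ∈ L, p.1 = p.2

/-- the inclusion of pairs -/
def inc (p : M × M) : X × X := (p.1.1, p.2.1)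

lemma inc_cont : Continuous (inc : M × M → X × X) :=
  (continuous_subtype_val.comp continuous_fst).prodMk (continuous_subtype_val.comp continuous_snd)

lemma inc_emb : IsEmbedding (inc : M × M → X × X) :=
  IsEmbedding.subtypeVal.prodMap IsEmbedding.subtypeVal

lemma inc_T2 (hM : ∀ k : ℕ, 0 < k → ∀ x ∈ M, T k x ∈ M) {k : ℕ} (hk : 0 < k) (p : M × M) :
    inc (T2 (res T M hM) k p) = T2 T k (inc p) := by
  apply Prod.ext
  · exact res_val hM hk p.1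
  · exact res_val hM hk p.2

lemma inc_orb (hM : ∀ k : ℕ, 0 < k → ∀ x ∈ M, T k x ∈ M) (p : M × M) :
    inc '' (orb (T2 (res T M hM)) p) = orb (T2 T) (inc p) := by
  ext z
  constructor
  · rintro ⟨_, ⟨k, hk, rfl⟩, rfl⟩
    exact ⟨k, hk, inc_T2 hM hk p⟩
  · rintro ⟨k, hk, rfl⟩
    exact ⟨_, ⟨k, hk, rfl⟩, inc_T2 hM hk p⟩

lemma inc_closure (hM : ∀ k : ℕ, 0 < k → ∀ x ∈ M, T k x ∈ M) (p q : M × M) :
    q ∈ closure (orb (T2 (res T M hM)) p) ↔ inc q ∈ closure (orb (T2 T) (inc p)) := by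
  rw [inc_emb.closure_eq_preimage_closure_image, inc_orb]
  exact Iff.rfl

lemma BR_of_BRM (hMc : IsClosed M) (hM : ∀ k : ℕ, 0 < k → ∀ x ∈ M, T k x ∈ M)
    (h : BRM T M) : BR (res T M hM) := by
  have hcomp : CompactSpace M := isCompact_iff_compactSpace.1 hMc.isCompact
  intro L hL hd hi ht hm p hp
  have key := h (inc '' L) (hL.isCompact.image inc_cont).isClosed ?_ ?_ ?_ ?_ ?_ (inc p)
    ⟨p, hp, rfl⟩
  · exact Subtype.ext key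
  · rintro _ ⟨q, -, rfl⟩
    exact ⟨q.1.2, q.2.2⟩
  · intro x hx
    exact ⟨(⟨x, hx⟩, ⟨x, hx⟩), hd _, rfl⟩
  · rintro k hk _ ⟨q, hq, rfl⟩
    exact ⟨_, hi k hk q hq, inc_T2 hM hk q⟩
  · rintro U V hU hV ⟨_, ⟨a, ha, rfl⟩, haU⟩ ⟨_, ⟨b, hb, rfl⟩, hbV⟩
    obtain ⟨k, hk, q, ⟨hqL, hqU⟩, hq⟩ := ht _ _ (hU.preimage inc_cont) (hV.preimage inc_cont)
      ⟨a, ha, haU⟩ ⟨b, hb, hbV⟩
    refine ⟨k, hk, inc q, ⟨⟨q, hqL, rfl⟩, hqU⟩, ?_⟩
    have : inc (T2 (res T M hM) k q) ∈ V := hq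
    rw [inc_T2 hM hk q] at this
    exact this
  · rintro U hU ⟨_, ⟨a, ha, rfl⟩, haU⟩
    obtain ⟨q, ⟨hqL, hqU⟩, hq⟩ := hm _ (hU.preimage inc_cont) ⟨a, ha, haU⟩
    refine ⟨inc q, ⟨⟨q, hqL, rfl⟩, hqU⟩, ?_⟩
    intro r hr
    have hr' : r ∈ closure (orb (T2 T) (inc q)) := hr
    have hrM : r ∈ M ×ˢ M := by
      refine closure_minimal ?_ (hMc.prod hMc) hr'
      rintro _ ⟨k, hk, rfl⟩
      exact ⟨hM k hk _ q.1.2, hM k hk _ q.2.2⟩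
    have e : inc (⟨r.1, hrM.1⟩, ⟨r.2, hrM.2⟩) = r := rfl
    rw [← e, ← inc_closure hM] at hr'
    have h1 := hq _ hr'
    rw [inc_closure, e] at h1
    exact h1

lemma BR_of_distal_on (hT : Act T) (hMc : IsClosed M)
    (hM : ∀ k : ℕ, 0 < k → ∀ x ∈ M, T k x ∈ M)
    (hd : ∀ x ∈ M, ∀ y ∈ M, ∀ z : X,
      (z, z) ∈ closure {p : X × X | ∃ k : ℕ, 0 < k ∧ p = (T k x, T k y)} → x = y) :
    BR (res T M hM) := by
  have hcomp : CompactSpace M := isCompact_iff_compactSpace.1 hMc.isCompact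
  refine BR_of_distal (act_res hT hM) fun x y z hz => ?_
  apply Subtype.ext
  apply hd x.1 x.2 y.1 y.2 z.1
  have h1 : (z, z) ∈ closure (orb (T2 (res T M hM)) (x, y)) := hz
  rw [inc_closure] at h1
  exact h1

end

/-- THEOREM PI, general form -/
theorem pi_main (hPERF : ∀ (E : Type) [Group E], PERF E) (hRAT : ∀ (E : Type) [Group E], RAT E)
    {X : Type u} [TopologicalSpace X] [CompactSpace X] [T2Space X] {T : ℕ → X → X} (hT : Act T)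
    {M : Set X} (hMc : IsClosed M) (hMi : ∀ k : ℕ, 0 < k → ∀ x ∈ M, T k x ∈ M)
    (hMm : ∀ x ∈ M, ∀ y ∈ M, y ∈ closure (orb T x)) (hBR : BR (res T M hMi))
    (x₀ : X) (A : Set ℕ)
    (hA : ∀ V : Set X, IsOpen V → M ⊆ V → ∀ S : Finset ℕ, (∀ s ∈ S, 0 < s) →
      ∃ k : ℕ, 0 < k ∧ ∀ s ∈ S, s * k ∈ A ∧ T (s * k) x₀ ∈ V)
    {U : Set X} (hU : IsOpen U) (hUM : (U ∩ M).Nonempty) :
    ∃ x y z : ℕ, 0 < x ∧ 0 < y ∧ 0 < z ∧ x ^ 2 + y ^ 2 = z ^ 2 ∧ x ∈ A ∧ y ∈ A ∧ z ∈ A ∧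
      T x x₀ ∈ U ∧ T y x₀ ∈ U ∧ T z x₀ ∈ U := by
  have hcomp : CompactSpace M := isCompact_iff_compactSpace.1 hMc.isCompact
  -- the closed left ideal
  let AV : Set X → Set ℕ := fun V => {n | n ∈ A ∧ T n x₀ ∈ V}
  have hAV : ∀ V : {V : Set X // IsOpen V ∧ M ⊆ V}, Thick (AV V.1) := by
    intro V S hS
    obtain ⟨k, hk, hk'⟩ := hA V.1 V.2.1 V.2.2 S hS
    exact ⟨k, hk, hk'⟩
  let D : Set (Ultrafilter ℚˣ) := ⋂ V : {V : Set X // IsOpen V ∧ M ⊆ V}, DA (AV V.1)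
  have hne : Nonempty {V : Set X // IsOpen V ∧ M ⊆ V} := ⟨⟨Set.univ, isOpen_univ, fun _ _ => trivial⟩⟩
  have hDc : IsClosed D := isClosed_iInter fun V => I_DAI.isClosed_DA _
  have hDl : ∀ p : Ultrafilter ℚˣ, ∀ q ∈ D, p * q ∈ D := by
    intro p q hq
    exact Set.mem_iInter.2 fun V => I_DAI.mul_mem_DA p (Set.mem_iInter.1 hq V)
  have hDn : D.Nonempty := by
    refine IsCompact.nonempty_iInter_of_directed_nonempty_isCompact_isClosed _ ?_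
      (fun V => (DAI_pf (AV V.1) (hAV V)).2.1) (fun V => (I_DAI.isClosed_DA _).isCompact)
      (fun V => I_DAI.isClosed_DA _)
    rintro ⟨V, hV, hV'⟩ ⟨W, hW, hW'⟩
    refine ⟨⟨V ∩ W, hV.inter hW, Set.subset_inter hV' hW'⟩, ?_, ?_⟩
    · intro p hp r
      exact (hp r).mono fun x ⟨n, h1, h2, h3⟩ => ⟨n, h1, ⟨h2.1, h2.2.1⟩, h3⟩
    · intro p hp r
      exact (hp r).mono fun x ⟨n, h1, h2, h3⟩ => ⟨n, h1, ⟨h2.1, h2.2.2⟩, h3⟩
  obtain ⟨M₀, hM₀D, hM₀c, hM₀n, hM₀l, hM₀S⟩ := MINL_pf ℚˣ D hDc hDn hDl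
  obtain ⟨w, hwM₀, hw⟩ := hM₀S M₀ subset_rfl hM₀c hM₀n fun p hp q hq => hM₀l p q hq
  have hwV : ∀ V : Set X, IsOpen V → M ⊆ V → w ∈ DA (AV V) := fun V h1 h2 =>
    Set.mem_iInter.1 (hM₀D hwM₀) ⟨V, h1, h2⟩
  have hwA : w ∈ DA A := by
    intro r
    exact (hwV Set.univ isOpen_univ (fun _ _ => trivial) r).mono
      fun x ⟨n, h1, h2, h3⟩ => ⟨n, h1, h2.1, h3⟩
  have hwU : w ∈ DA Set.univ := DA_univ_of hwA
  have hwI := Ev.DA_int hwU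
  -- the base point
  set x₁ : X := ev T w x₀ with hx₁
  have hx₁M : x₁ ∈ M := by
    by_contra hne
    obtain ⟨t, ht, htc, htM⟩ := exists_mem_nhds_isClosed_subset (hMc.isOpen_compl.mem_nhds hne)
    have h1 := Cge.tendsto_L w (fun g => ac T g x₀)
    have h2 : ∀ᶠ g in (w : Filter ℚˣ), ac T g x₀ ∈ t := h1 ht
    have h3 := hwV tᶜ htc.isOpen_compl (fun x hx hxt => htM hxt hx) 1
    obtain ⟨g, hg, n, hn, hnA, hng⟩ := (h2.and h3).exists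
    rw [one_mul] at hng
    rw [Ev.ac_eq hng] at hg
    exact hnA.2 hg
  have hwx₁ : ev T w x₁ = x₁ := by
    rw [hx₁, ← Ev.ev_mul' hT hwI hwI, hw.1]
  have hTr := act_res hT hMi
  let y₁ : M := ⟨x₁, hx₁M⟩
  have hwy₁ : ev (res T M hMi) w y₁ = y₁ := by
    apply Subtype.ext
    rw [ev_res hMi hwI]
    exact hwx₁
  -- the limit group
  obtain ⟨iG, Λ, hmul, hone, hlim, hθ⟩ := INST_pf ℚˣ w hw
  have hUE : ∀ a : UE w, a.1 ∈ DA Set.univ := fun a => by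
    have := I_DAI.mul_mem_DA a.1 hwU
    rwa [a.2.2] at this
  have hUI : ∀ a : UE w, ∀ᶠ g in (a.1 : Filter ℚˣ), Ev.Int1 g := fun a => Ev.DA_int (hUE a)
  let F : Subgroup (UE w) :=
    { carrier := {a | ev (res T M hMi) a.1 y₁ = y₁}
      mul_mem' := by
        intro a b ha hb
        show ev (res T M hMi) (a * b).1 y₁ = y₁
        rw [hmul, Ev.ev_mul' hTr (hUI a) (hUI b), show ev (res T M hMi) b.1 y₁ = y₁ from hb]
        exact ha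
      one_mem' := by
        show ev (res T M hMi) (1 : UE w).1 y₁ = y₁
        rw [hone, hwy₁]
      inv_mem' := by
        intro a ha
        show ev (res T M hMi) (a⁻¹).1 y₁ = y₁
        conv_lhs => rw [← show ev (res T M hMi) a.1 y₁ = y₁ from ha]
        rw [← Ev.ev_mul' hTr (hUI _) (hUI _), ← hmul, inv_mul_cancel, hone, hwy₁] }
  have hF : ∀ B : Subgroup (UE w), Λ.NT B → Λ.DD B = B → B ≤ F := fun B hB hD a ha =>
    BRP_pf M DAI_pf (EVA_pf M) (EVA_pf (M × M)) (fun w i => hPERF (UE w)) (res T M hMi) hTr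
      (fun x y => (mem_closure_res hMi x y).2 (hMm x.1 x.2 y.1 y.2)) hBR w hw hwU y₁ hwy₁ iG Λ
      hmul hone hlim hθ B hB hD a ha
  obtain ⟨𝔬, o1, o2, o3, o4⟩ := hRAT (UE w) Λ F hF
  have key : ∀ c : ℚˣ × ℚˣ × ℚˣ → ℚˣ, Λ.l 𝔬 (fun p => Λ.θ (c p)) ∈ F →
      ev T (w * ((𝔬.map c) * w)) x₀ = x₁ := by
    intro c hc
    have e1 : (Λ.l 𝔬 (fun p => Λ.θ (c p))).1 = w * ((𝔬.map c) * w) := by
      unfold LimGp.l
      rw [hlim, bind_map']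
      congr 1
      simp only [hθ]
      apply ext_ev
      intro P hP
      rw [Ultrafilter.eventually_mul, ev_map]
      rw [ev_bind] at hP
      refine hP.mono fun p hp => ?_
      rw [Ultrafilter.eventually_mul] at hp
      exact hp
    have e2 : w * ((𝔬.map c) * w) ∈ DA Set.univ :=
      I_DAI.mul_mem_DA _ (I_DAI.mul_mem_DA _ hwU)
    have e3 : ev (res T M hMi) (w * ((𝔬.map c) * w)) y₁ = y₁ := by
      rw [← e1]
      exact hc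
    have e4 : ev T (w * ((𝔬.map c) * w)) x₁ = x₁ := by
      have := congrArg Subtype.val e3
      rwa [ev_res hMi (Ev.DA_int e2)] at this
    have e5 : w * ((𝔬.map c) * w) * w = w * ((𝔬.map c) * w) := by
      rw [mul_assoc, mul_assoc, hw.1]
    rw [← e5, Ev.ev_mul' hT (Ev.DA_int e2) hwI]
    exact e4
  -- the number `m`
  obtain ⟨u, huU, huM⟩ := hUM
  obtain ⟨_, hmU, m, hm, rfl⟩ := mem_closure_iff.1 (hMm x₁ hx₁M u huM) U hU huU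
  have hU' : (T m) ⁻¹' U ∈ 𝓝 x₁ := (hU.preimage (hT.cont m hm)).mem_nhds hmU
  -- one coordinate
  have coord : ∀ f : ℚˣ × ℚˣ × ℚˣ → ℚˣ, ev T (w * ((𝔬.map f) * w)) x₀ = x₁ →
      ∀ᶠ k in (w : Filter ℚˣ), ∀ᶠ p in (𝔬 : Filter (ℚˣ × ℚˣ × ℚˣ)), ∀ᶠ l in (w : Filter ℚˣ),
        ∃ n : ℕ, 0 < n ∧ m * n ∈ A ∧ (n : ℚ) = |((k * (f p * l) : ℚˣ) : ℚ)| ∧
          T (m * n) x₀ ∈ U := by
    intro f hf
    have h4 : Tendsto (fun g => ac T g x₀) ((w * ((𝔬.map f) * w) : Ultrafilter ℚˣ) : Filter ℚˣ)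
        (𝓝 x₁) := by
      have := Cge.tendsto_L (w * ((𝔬.map f) * w) : Ultrafilter ℚˣ) (fun g => ac T g x₀)
      unfold ev at hf
      rwa [hf] at this
    have h5 : ∀ᶠ g in ((w * ((𝔬.map f) * w) : Ultrafilter ℚˣ) : Filter ℚˣ),
        ac T g x₀ ∈ (T m) ⁻¹' U := h4 hU'
    rw [I_INST.ev_mul] at h5
    filter_upwards [h5] with k hk
    rw [I_INST.ev_mul, ev_map] at hk
    filter_upwards [hk] with p hp
    have hm0 : ((m : ℕ) : ℚ) ≠ 0 := by exact_mod_cast hm.ne'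
    filter_upwards [hp, hwU (k * f p), hwA (un m * (k * f p))] with l hl hl1 hl2
    obtain ⟨n, hn, -, h⟩ := hl1
    obtain ⟨n', hn', hnA, h'⟩ := hl2
    rw [mul_assoc] at h
    have e : n' = m * n := by
      rw [mul_assoc, mul_assoc, Units.val_mul, un_val hm0, abs_mul, ← h,
        abs_of_nonneg (Nat.cast_nonneg m : (0 : ℚ) ≤ (m : ℚ))] at h'
      exact_mod_cast h'
    rw [e] at hnA
    refine ⟨n, hn, hnA, h, ?_⟩
    rw [hT.mul m n hm hn]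
    rw [Ev.ac_eq h] at hl
    exact hl
  have h4 : ∀ᶠ k in (w : Filter ℚˣ), ∀ᶠ p in (𝔬 : Filter (ℚˣ × ℚˣ × ℚˣ)),
      ∀ᶠ l in (w : Filter ℚˣ), ∃ x y z : ℕ, 0 < x ∧ 0 < y ∧ 0 < z ∧ x ^ 2 + y ^ 2 = z ^ 2 ∧
        x ∈ A ∧ y ∈ A ∧ z ∈ A ∧ T x x₀ ∈ U ∧ T y x₀ ∈ U ∧ T z x₀ ∈ U := by
    filter_upwards [coord _ (key _ o2), coord _ (key _ o3), coord _ (key _ o4)] with k hk1 hk2 hk3
    filter_upwards [hk1, hk2, hk3, o1] with p hp1 hp2 hp3 hp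
    filter_upwards [hp1, hp2, hp3] with l hl1 hl2 hl3
    obtain ⟨x, hx, hxA, hx1, hxU⟩ := hl1
    obtain ⟨y, hy, hyA, hy1, hyU⟩ := hl2
    obtain ⟨z, hz, hzA, hz1, hzU⟩ := hl3
    refine ⟨m * x, m * y, m * z, Nat.mul_pos hm hx, Nat.mul_pos hm hy, Nat.mul_pos hm hz, ?_,
      hxA, hyA, hzA, hxU, hyU, hzU⟩
    have h5 : (x : ℚ) ^ 2 + (y : ℚ) ^ 2 = (z : ℚ) ^ 2 := by
      rw [hx1, hy1, hz1, sq_abs, sq_abs, sq_abs]
      push_cast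
      calc _ = (k : ℚ) ^ 2 * (l : ℚ) ^ 2 * ((p.1 : ℚ) ^ 2 + (p.2.1 : ℚ) ^ 2) := by ring
        _ = (k : ℚ) ^ 2 * (l : ℚ) ^ 2 * (p.2.2 : ℚ) ^ 2 := by rw [hp]
        _ = _ := by ring
    have h6 : x ^ 2 + y ^ 2 = z ^ 2 := by exact_mod_cast h5
    rw [mul_pow, mul_pow, mul_pow, ← mul_add, h6]
  obtain ⟨k, hk⟩ := h4.exists
  obtain ⟨p, hp⟩ := hk.exists
  obtain ⟨l, hl⟩ := hp.exists
  exact hl

/-- the final theorem, with all definitions unfolded -/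
theorem pi_final (hPERF : ∀ (E : Type) [Group E], PERF E) (hRAT : ∀ (E : Type) [Group E], RAT E)
    {X : Type u} [TopologicalSpace X] [CompactSpace X] [T2Space X]
    (T : ℕ → X → X) (hTc : ∀ k : ℕ, 0 < k → Continuous (T k))
    (hTm : ∀ k m : ℕ, 0 < k → 0 < m → ∀ x, T (k * m) x = T k (T m x))
    (M : Set X) (hMc : IsClosed M) (hMi : ∀ k : ℕ, 0 < k → ∀ x ∈ M, T k x ∈ M)
    (hMm : ∀ x ∈ M, ∀ y ∈ M, y ∈ closure {z : X | ∃ k : ℕ, 0 < k ∧ z = T k x})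
    (hM : (∀ x ∈ M, ∀ y ∈ M, ∀ z : X,
        (z, z) ∈ closure {p : X × X | ∃ k : ℕ, 0 < k ∧ p = (T k x, T k y)} → x = y) ∨
      (∀ L : Set (X × X), IsClosed L → L ⊆ M ×ˢ M → (∀ x ∈ M, (x, x) ∈ L) →
        (∀ k : ℕ, 0 < k → ∀ p ∈ L, (T k p.1, T k p.2) ∈ L) →
        (∀ V W : Set (X × X), IsOpen V → IsOpen W → (L ∩ V).Nonempty → (L ∩ W).Nonempty →
          ∃ k : ℕ, 0 < k ∧ ∃ p ∈ L ∩ V, (T k p.1, T k p.2) ∈ W) →
        (∀ V : Set (X × X), IsOpen V → (L ∩ V).Nonempty → ∃ p ∈ L ∩ V,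
          ∀ q ∈ closure {q : X × X | ∃ k : ℕ, 0 < k ∧ q = (T k p.1, T k p.2)},
            p ∈ closure {r : X × X | ∃ k : ℕ, 0 < k ∧ r = (T k q.1, T k q.2)}) →
        ∀ p ∈ L, p.1 = p.2))
    (x₀ : X) (A : Set ℕ)
    (hA : ∀ V : Set X, IsOpen V → M ⊆ V → ∀ S : Finset ℕ, (∀ s ∈ S, 0 < s) →
      ∃ k : ℕ, 0 < k ∧ ∀ s ∈ S, s * k ∈ A ∧ T (s * k) x₀ ∈ V)
    (U : Set X) (hU : IsOpen U) (hUM : (U ∩ M).Nonempty) :
    ∃ x y z : ℕ, 0 < x ∧ 0 < y ∧ 0 < z ∧ x ^ 2 + y ^ 2 = z ^ 2 ∧ x ∈ A ∧ y ∈ A ∧ z ∈ A ∧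
      T x x₀ ∈ U ∧ T y x₀ ∈ U ∧ T z x₀ ∈ U := by
  have hT : Act T := ⟨hTc, hTm⟩
  have hBR : BR (res T M hMi) := by
    rcases hM with h | h
    · exact BR_of_distal_on hT hMc hMi h
    · exact BR_of_BRM hMc hMi h
  exact pi_main hPERF hRAT hT hMc hMi hMm hBR x₀ A hA hU hUM

end Pool.Agent.Work.MP_0f91f8_co.Lg
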