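import Pool.Agent.Work.MP_0f91f8_co.Lg.Basic

/-!
Block [0f91f8 PI]: all statements of the items.  Captain helper20.
Paper proof: note 3509 of MP_0f91f8_co (Theorem PI), notes 3465 and 3480.
-/

set_option linter.unusedSectionVars false
set_option linter.unusedVariables false

open Filter Topology

universe u

namespace Pool.Agent.Work.MP_0f91f8_co.Lg

open Pool.Agent.Work.MP_0f91f8_co.Cge (sd op aa cc bnd)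
open Pool.Agent.Work.MP_0f91f8_co.Df (Mach MOK MK un)

/-! ### Part A: limit groups -/

section A

variable (E : Type u) [Group E]

/-- subsemigroups which are closed under limits are groups -/
def CSE : Prop := ∀ (G : Type) [CommGroup G] (Λ : LimGp G E) (S : Set E),
  (∀ f : Ultrafilter E, (∀ᶠ x in (f : Filter E), x ∈ S) → Λ.lim f ∈ S) → S.Nonempty →
  (∀ a ∈ S, ∀ b ∈ S, a * b ∈ S) → (1 : E) ∈ S ∧ ∀ a ∈ S, a⁻¹ ∈ S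

/-- the `τ`-closure -/
def TCL : Prop := ∀ (G : Type) [CommGroup G] (Λ : LimGp G E),
  Λ.tcl ∅ = ∅ ∧
  (∀ S : Set E, S ⊆ Λ.tcl S) ∧
  (∀ S S' : Set E, S ⊆ S' → Λ.tcl S ⊆ Λ.tcl S') ∧
  (∀ S : Set E, Λ.tcl (Λ.tcl S) ⊆ Λ.tcl S) ∧
  (∀ S S' : Set E, Λ.tcl (S ∪ S') = Λ.tcl S ∪ Λ.tcl S') ∧
  (∀ (S : Set E) (a : E), Λ.tcl ((fun x => x * a) '' S) = (fun x => x * a) '' Λ.tcl S) ∧
  (∀ (S : Set E) (a : E), Λ.tcl ((fun x => a * x) '' S) = (fun x => a * x) '' Λ.tcl S) ∧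
  (∀ S : Set E, Λ.tcl ((fun x => x⁻¹) '' S) = (fun x => x⁻¹) '' Λ.tcl S)

/-- `DD A` is contained in the intersection of the closed `τ`-neighbourhoods -/
def DHH : Prop := ∀ (G : Type) [CommGroup G] (Λ : LimGp G E) (A : Subgroup E), Λ.NT A →
  ∀ d ∈ Λ.DD A, d ∈ HH Λ A

/-- nonempty `τ`-open sets of a perfect group meet -/
def PERF : Prop := ∀ (G : Type) [CommGroup G] (Λ : LimGp G E) (A : Subgroup E), Λ.NT A →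
  Λ.DD A = A → ∀ V V' : Set E, V ⊆ A → V' ⊆ A → V.Nonempty → V'.Nonempty →
  Λ.TC ((A : Set E) \ V) → Λ.TC ((A : Set E) \ V') → (V ∩ V').Nonempty

/-- the covering lemma -/
def COV : Prop := ∀ (G : Type) [CommGroup G] (Λ : LimGp G E) (A : Subgroup E), Λ.NT A →
  ∀ 𝒲 : Finset (Set E), (∀ a ∈ A, ∃ W ∈ 𝒲, a ∈ W) →
    ∃ W ∈ 𝒲, ∃ b ∈ A, b ∈ W ∧ b ∉ Λ.tcl ((A : Set E) \ Λ.tcl (W ∩ A))

/-- elements of `DD A` from pairs of the same law -/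
def RPL : Prop := ∀ (G : Type) [CommGroup G] (Λ : LimGp G E) (A : Subgroup E), Λ.NT A →
  ∀ d ∈ Λ.DD A, ∃ 𝔬 : Ultrafilter (G × (E × E)),
    (∀ᶠ p in (𝔬 : Filter (G × (E × E))), p.2.1 ∈ A ∧ p.2.2 ∈ A) ∧
    𝔬.map (fun p => p.2.1) = 𝔬.map (fun p => p.2.2) ∧
    Λ.l 𝔬 (fun p => Λ.θ p.1 * p.2.1) = 1 ∧ Λ.l 𝔬 (fun p => Λ.θ p.1 * p.2.2) = d

/-- Zorn's lemma -/
def ZOR : Prop := ∀ (G : Type) [CommGroup G] (Λ : LimGp G E) (P : Subgroup E → Prop)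
  (A₀ : Subgroup E), (∀ A, P A → Λ.NT A) → P A₀ → (∀ A, A ≤ A₀ → P A → P (Λ.DD A)) →
    (∀ c : Set (Subgroup E), c.Nonempty → IsChain (· ≤ ·) c → (∀ A ∈ c, A ≤ A₀ ∧ P A) →
      P (sInf c)) → ∃ A, A ≤ A₀ ∧ P A ∧ Λ.DD A = A

end A

/-! ### Part B: abstract machines -/

section B

variable (E : Type u) [Group E]

/-- compositions -/
def CMPS : Prop := ∀ (S T G : Type) [CommGroup G] (Λ : LimGp G E) (K : Mach S T G), MOK K →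
  ∀ s ∈ K.S₀, ∀ m : Ultrafilter (T × G), m.map Prod.fst ∈ K.W →
  ∀ F : S → Ultrafilter (T × G), (∀ s' ∈ K.S₀, (F s').map Prod.fst ∈ K.W) →
    (cps Λ K s m F).map Prod.fst ∈ K.W ∧
    P1 Λ (cps Λ K s m F) = Λ.l m (fun p => Λ.θ p.2 * P1 Λ (F (K.act s p.1))) ∧
    P2 Λ K s (cps Λ K s m F) =
      Λ.l m (fun p => Λ.θ (p.2 * K.r s p.1) * P2 Λ K (K.act s p.1) (F (K.act s p.1))) ∧
    (cps Λ K s m F).map Prod.fst =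
      (m.map Prod.fst).bind (fun t => ((F (K.act s t)).map Prod.fst).map (K.cmp t)) ∧
    (cps Λ K s m F).map (fun q => K.act s q.1) = mv K (m.map (fun q => K.act s q.1)) F

/-- composing landings -/
def FLS : Prop := ∀ (S T G : Type) [CommGroup G] (Λ : LimGp G E) (K : Mach S T G), MOK K →
  ∀ B A : Subgroup E, Λ.NT B → Λ.NT A → A ≤ B → FL Λ K B A → FL Λ K A (Λ.DD A) →
    FL Λ K B (Λ.DD A)

/-- landings and intersections of chains -/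
def FLC : Prop := ∀ (S T G : Type) [CommGroup G] (Λ : LimGp G E) (K : Mach S T G), MOK K →
  ∀ B : Subgroup E, Λ.NT B → ∀ c : Set (Subgroup E), c.Nonempty →
    IsChain (· ≤ ·) c → (∀ A ∈ c, Λ.NT A ∧ FL Λ K B A) → FL Λ K B (sInf c)

/-- the set of reachable states -/
def RCH : Prop := ∀ (S T G : Type) [CommGroup G] (Λ : LimGp G E) (K : Mach S T G), MOK K →
  ∀ A : Subgroup E, Λ.NT A → ∀ s₀ ∈ K.S₀,
    Inv Λ K A (Rch Λ K A s₀) ∧ (Rch Λ K A s₀).Nonempty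

/-- the minimal set and its group -/
def YEX : Prop := ∀ (S T G : Type) [CommGroup G] (Λ : LimGp G E) (K : Mach S T G), MOK K →
  ∀ A : Subgroup E, Λ.NT A → ∀ s₀ ∈ K.S₀,
  ∃ (v : Ultrafilter S) (N : Subgroup E), Mid Λ A N ∧ (∀ᶠ s in (v : Filter S), s ∈ K.S₀) ∧
    Cmp Λ K A N v ∧ (N = A → FLat Λ K A (Λ.DD A) s₀)

/-- step (II') -/
def STEP2 : Prop := ∀ (S T G : Type) [CommGroup G] (Λ : LimGp G E) (K : Mach S T G), MOK K →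
  ∀ B A : Subgroup E, Λ.NT B → Λ.NT A → A ≤ Λ.DD B → FL Λ K B A →
  ∀ (v : Ultrafilter S) (N : Subgroup E), Mid Λ A N → (∀ᶠ s in (v : Filter S), s ∈ K.S₀) →
    Cmp Λ K A N v → N = A

end B

/-! ### Part K: the twist -/

section K

variable (E : Type u) [Group E]

/-- step (I) for the twist -/
def STEPK : Prop := ∀ (G : Type) [CommGroup G] (Λ : LimGp G E) (v : Ultrafilter G)
  (N : Subgroup E), Mid Λ (Λ.DD ⊤) N → Cmp Λ (MK G) (Λ.DD ⊤) N v → N = Λ.DD ⊤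

/-- successor step of the absorption -/
def AFS : Prop := ∀ (G : Type) [CommGroup G] (Λ : LimGp G E) (C A : Subgroup E), Λ.NT C →
  Λ.DD C = C → FL Λ (MK G) (Λ.DD ⊤) C → Λ.NT A → C ≤ A → A ≤ Λ.DD ⊤ → AF Λ A → AF Λ (Λ.DD A)

/-- the absorption and intersections of chains -/
def AFC : Prop := ∀ (G : Type) [CommGroup G] (Λ : LimGp G E) (c : Set (Subgroup E)),
  c.Nonempty → IsChain (· ≤ ·) c → (∀ A ∈ c, Λ.NT A ∧ AF Λ A) → AF Λ (sInf c)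

end K

/-! ### Part Q: rational laws -/

section Q

variable (E : Type u) [Group E]

/-- `𝓔₁` is closed under adaptive composition -/
def E1BND : Prop := ∀ (Λ : LimGp ℚˣ E) (𝔲 : Ultrafilter ℚ) (m : ℚ → Ultrafilter ℚ),
  E1 Λ 𝔲 → (∀ᶠ V in (𝔲 : Filter ℚ), E1 Λ (m V)) → E1 Λ (bnd 𝔲 m)

/-- `𝓔_κ` followed by `𝓔₁` -/
def EKBND : Prop := ∀ (Λ : LimGp ℚˣ E) (κ : ℚˣ) (𝔲 : Ultrafilter ℚ) (m : ℚ → Ultrafilter ℚ),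
  EK Λ κ 𝔲 → (∀ᶠ V in (𝔲 : Filter ℚ), E1 Λ (m V)) → EK Λ κ (bnd 𝔲 m)

/-- Moebius invariance and closedness of `𝓔₁` -/
def MOB : Prop := ∀ Λ : LimGp ℚˣ E, E1 Λ (pure 0) ∧ IsClosed {𝔲 | E1 Λ 𝔲} ∧
  ∀ 𝔲 : Ultrafilter ℚ, E1 Λ 𝔲 → ∀ l m : ℚ, E1 Λ (𝔲.map (fun w => m * w / (1 + l * w)))

/-- existence of twisted laws (Brauer's theorem) -/
def BRA : Prop := ∀ (Λ : LimGp ℚˣ E) (κ : ℚˣ), ∃ 𝔲 : Ultrafilter ℚ, EK Λ κ 𝔲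

/-- the smallest rigid subgroup is rigid and normal -/
def RIG : Prop := ∀ Λ : LimGp ℚˣ E, Rig Λ (A0 Λ) ∧ (A0 Λ).Normal

/-- position independence is a group property -/
def POSG : Prop := ∀ (Λ : LimGp ℚˣ E) (A : Subgroup E) (Ω : Type) (𝔬 : Ultrafilter Ω),
  Pos Λ A 𝔬 (fun _ => 1) ∧
  (∀ r r' : Ω → ℚˣ, Pos Λ A 𝔬 r → (∀ᶠ ω in (𝔬 : Filter Ω), r ω = r' ω) → Pos Λ A 𝔬 r') ∧
  (∀ r r' : Ω → ℚˣ, Pos Λ A 𝔬 r → Pos Λ A 𝔬 r' → Pos Λ A 𝔬 (fun ω => r ω * r' ω)) ∧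
  (∀ r : Ω → ℚˣ, Pos Λ A 𝔬 r → Pos Λ A 𝔬 (fun ω => (r ω)⁻¹)) ∧
  (∀ r : Ω → ℚˣ, Pos Λ A 𝔬 r → Λ.l 𝔬 (fun ω => Λ.θ (r ω)) ∈ A)

/-- position independence of linear factors and of norms of laws in `WW` -/
def POS : Prop := ∀ (Λ : LimGp ℚˣ E) (Ω : Type) (𝔬 : Ultrafilter Ω) (W : Ω → ℚ),
  (E1 Λ (𝔬.map W) → ∀ x : ℚ, Pos Λ (A0 Λ) 𝔬 (fun ω => un (1 + x * W ω))) ∧
  (𝔬.map W ∈ WW Λ → Pos Λ (A0 Λ) 𝔬 (fun ω => un (1 + W ω ^ 2)))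

/-- norms of adaptive compositions -/
def NUB : Prop := ∀ (Λ : LimGp ℚˣ E) (𝔮 : Ultrafilter (ℚ × ℚˣ)) (m : ℚ → Ultrafilter ℚ)
  (e : ℚ → E), E1 Λ (𝔮.map Prod.fst) → Λ.l 𝔮 (fun p => Λ.θ p.2) = 1 →
  (∀ᶠ p in (𝔮 : Filter (ℚ × ℚˣ)), E1 Λ (m p.1) ∧ NU Λ (m p.1) (e p.1)) →
  ∃ e', NU Λ (bnd (𝔮.map Prod.fst) m) e' ∧
    Eqm (A0 Λ) (Λ.l 𝔮 (fun p => Λ.θ (p.2 * un (1 + p.1 ^ 2)) * e p.1)) e'

/-- compensation of norms -/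
def COMPEN : Prop := ∀ (Λ : LimGp ℚˣ E) (𝔲 : Ultrafilter ℚ), E1 Λ 𝔲 →
  ∃ (e : E) (𝔲' : Ultrafilter ℚ), NU Λ 𝔲 e ∧ E1 Λ 𝔲' ∧
    ∀ 𝔲₂ : Ultrafilter ℚ, E1 Λ 𝔲₂ → NU Λ 𝔲₂ e → bnd 𝔲₂ (fun _ => 𝔲') ∈ WW Λ

/-- closedness and adaptive closedness of `WW` -/
def WWP : Prop := ∀ Λ : LimGp ℚˣ E, IsClosed (WW Λ) ∧ (pure 0 : Ultrafilter ℚ) ∈ WW Λ ∧
  ∀ (𝔲 : Ultrafilter ℚ) (m : ℚ → Ultrafilter ℚ), 𝔲 ∈ WW Λ →
    (∀ᶠ V in (𝔲 : Filter ℚ), m V ∈ WW Λ) → bnd 𝔲 m ∈ WW Λ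

/-- the machine of rotations is a machine -/
def MQOK : Prop := ∀ Λ : LimGp ℚˣ E, MOK (MQ Λ)

/-- twisted laws in `WW` -/
def TWIST : Prop := ∀ (Λ : LimGp ℚˣ E) (κ : ℚˣ), ∃ 𝔲 : Ultrafilter ℚ, EK Λ κ 𝔲 ∧ 𝔲 ∈ WW Λ

end Q

/-! ### Part I: independence -/

section I

variable (E : Type u) [Group E]

/-- independent families form a group -/
def INDG : Prop := ∀ (Λ : LimGp ℚˣ E) (A N : Subgroup E), Λ.NT A → Mid Λ A N →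
  ∀ (v : Ultrafilter ℚ) (Ω : Type) (𝔬 : ℚ → Ultrafilter Ω),
    Ind Λ A N v 𝔬 (fun _ _ => 1) ∧
    (∀ r r' : ℚ → Ω → ℚˣ, Ind Λ A N v 𝔬 r →
      (∀ᶠ V in (v : Filter ℚ), ∀ᶠ ω in (𝔬 V : Filter Ω), r V ω = r' V ω) →
      Ind Λ A N v 𝔬 r') ∧
    (∀ r r' : ℚ → Ω → ℚˣ, Ind Λ A N v 𝔬 r → Ind Λ A N v 𝔬 r' →
      Ind Λ A N v 𝔬 (fun V ω => r V ω * r' V ω)) ∧
    (∀ r : ℚ → Ω → ℚˣ, Ind Λ A N v 𝔬 r → Ind Λ A N v 𝔬 (fun V ω => (r V ω)⁻¹))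

/-- the increments of the machine are independent -/
def KIND : Prop := ∀ (Λ : LimGp ℚˣ E) (N : Subgroup E), Mid Λ (A0 Λ) N →
  ∀ v : Ultrafilter ℚ, (∀ᶠ V in (v : Filter ℚ), V ≠ 0 ∧ V ≠ 1 ∧ V ≠ -1) →
  Cmp Λ (MQ Λ) (A0 Λ) N v →
  ∀ (Ω : Type) (𝔬 : ℚ → Ultrafilter Ω) (W : ℚ → Ω → ℚ),
    (∀ᶠ V in (v : Filter ℚ), (𝔬 V).map (W V) ∈ WW Λ) →
    Ind Λ (A0 Λ) N v 𝔬 (fun V ω => un (aa (cc V) (W V ω)))

/-- the closure step -/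
def CLO : Prop := ∀ (Λ : LimGp ℚˣ E) (N : Subgroup E), Mid Λ (A0 Λ) N →
  ∀ v : Ultrafilter ℚ, (∀ᶠ V in (v : Filter ℚ), V ≠ 0 ∧ V ≠ 1 ∧ V ≠ -1) →
  Cmp Λ (MQ Λ) (A0 Λ) N v →
  ∀ 𝔲 : ℚ → Ultrafilter ℚ, (∀ᶠ V in (v : Filter ℚ), E1 Λ (𝔲 V)) → ∀ l m : ℚ → ℚ,
    Ind Λ (A0 Λ) N v 𝔲 (fun V w =>
      un (1 + (l V - cc V * m V) * w) * un (1 + (l V + m V / cc V) * w) *
        (un (1 + (l V + cc V * m V) * w) * un (1 + (l V - m V / cc V) * w))⁻¹)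

/-- all linear factors are independent -/
def LIN : Prop := ∀ (Λ : LimGp ℚˣ E) (N : Subgroup E), Mid Λ (A0 Λ) N →
  ∀ v : Ultrafilter ℚ, (∀ᶠ V in (v : Filter ℚ), V ≠ 0 ∧ V ≠ 1 ∧ V ≠ -1) →
  Cmp Λ (MQ Λ) (A0 Λ) N v →
  ∀ 𝔲 : ℚ → Ultrafilter ℚ, (∀ᶠ V in (v : Filter ℚ), E1 Λ (𝔲 V)) → ∀ x : ℚ → ℚ,
    Ind Λ (A0 Λ) N v 𝔲 (fun V w => un (1 + x V * w))

/-- step (I) -/
def STEP1 : Prop := ∀ (Λ : LimGp ℚˣ E) (N : Subgroup E), Mid Λ (A0 Λ) N →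
  ∀ v : Ultrafilter ℚ, (∀ᶠ V in (v : Filter ℚ), V ≠ 0 ∧ V ≠ 1 ∧ V ≠ -1) →
  Cmp Λ (MQ Λ) (A0 Λ) N v → N = A0 Λ

end I

/-! ### Part F: the end on the rationals -/

section F

variable (E : Type u) [Group E]

/-- the law for one twist -/
def LAWK : Prop := ∀ (Λ : LimGp ℚˣ E) (A : Subgroup E), Λ.NT A → FL Λ (MQ Λ) (A0 Λ) A →
  ∀ κ : ℚˣ, ∃ 𝔬 : Ultrafilter (ℚ × ℚˣ), EK Λ κ (𝔬.map Prod.fst) ∧
    (∀ᶠ p in (𝔬 : Filter (ℚ × ℚˣ)), p.1 ≠ 0 ∧ p.1 ≠ 1 ∧ p.1 ≠ -1) ∧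
    Λ.l 𝔬 (fun p => Λ.θ p.2) ∈ A ∧ Λ.l 𝔬 (fun p => Λ.θ (p.2 * un (aa 1 p.1))) ∈ A

/-- the third limit is in `DD ⊤` -/
def YK : Prop := ∀ (Λ : LimGp ℚˣ E) (κ : ℚˣ) (𝔬 : Ultrafilter (ℚ × ℚˣ)),
  EK Λ κ (𝔬.map Prod.fst) →
  (∀ᶠ p in (𝔬 : Filter (ℚ × ℚˣ)), p.1 ≠ 0 ∧ p.1 ≠ 1 ∧ p.1 ≠ -1) →
  Λ.l 𝔬 (fun p => Λ.θ p.2) ∈ Λ.DD ⊤ →
  Λ.l 𝔬 (fun p => Λ.θ (p.2 * un (aa 1 p.1))) ∈ Λ.DD ⊤ →
  Λ.l 𝔬 (fun p => Λ.θ (p.2 * un (2 * p.1 / (κ : ℚ) / (1 + p.1 ^ 2)))) ∈ Λ.DD ⊤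

/-- the theorem on the rationals -/
def FIN : Prop := ∀ (Λ : LimGp ℚˣ E) (A C : Subgroup E), Λ.NT A → A ≤ Λ.DD ⊤ → Λ.NT C →
  FL Λ (MQ Λ) (A0 Λ) A → AF Λ C → ∀ F : Subgroup E, A ≤ F → C ≤ F →
  ∃ 𝔬 : Ultrafilter (ℚˣ × ℚˣ × ℚˣ),
    (∀ᶠ p in (𝔬 : Filter (ℚˣ × ℚˣ × ℚˣ)),
      (p.1 : ℚ) ^ 2 + (p.2.1 : ℚ) ^ 2 = (p.2.2 : ℚ) ^ 2) ∧
    Λ.l 𝔬 (fun p => Λ.θ p.1) ∈ F ∧ Λ.l 𝔬 (fun p => Λ.θ p.2.1) ∈ F ∧
    Λ.l 𝔬 (fun p => Λ.θ p.2.2) ∈ F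

end F

/-! ### Part D: the semigroup of ultrafilters and dynamics -/

section D

attribute [local instance] Ultrafilter.mul Ultrafilter.semigroup

/-- minimal idempotents -/
def MinId {G : Type} [CommGroup G] (w : Ultrafilter G) : Prop :=
  w * w = w ∧ ∀ p : Ultrafilter G, ∃ r : Ultrafilter G, r * (p * w) = w

/-- the group `w (β G) w` -/
def UE {G : Type} [CommGroup G] (w : Ultrafilter G) : Type :=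
  {p : Ultrafilter G // w * p = p ∧ p * w = p}

/-- the limit group of a minimal idempotent -/
def INST : Prop := ∀ (G : Type) [CommGroup G] (w : Ultrafilter G), MinId w →
  ∃ (_ : Group (UE w)) (Λ : LimGp G (UE w)), (∀ a b : UE w, (a * b).1 = a.1 * b.1) ∧
    (1 : UE w).1 = w ∧ (∀ f : Ultrafilter (UE w), (Λ.lim f).1 = w * f.bind (fun x => x.1)) ∧
    ∀ g : G, (Λ.θ g).1 = (pure g : Ultrafilter G) * w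

/-- minimal left ideals -/
def MINL : Prop := ∀ (G : Type) [CommGroup G] (D : Set (Ultrafilter G)), IsClosed D →
  D.Nonempty → (∀ p : Ultrafilter G, ∀ q ∈ D, p * q ∈ D) →
  ∃ M : Set (Ultrafilter G), M ⊆ D ∧ IsClosed M ∧ M.Nonempty ∧
    (∀ p : Ultrafilter G, ∀ q ∈ M, p * q ∈ M) ∧
    ∀ S ⊆ M, IsClosed S → S.Nonempty → (∀ p ∈ S, ∀ q ∈ S, p * q ∈ S) → ∃ w ∈ S, MinId w

/-- contains a dilate of every finite set of positive integers -/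
def Thick (A : Set ℕ) : Prop :=
  ∀ X : Finset ℕ, (∀ x ∈ X, 0 < x) → ∃ k : ℕ, 0 < k ∧ ∀ x ∈ X, x * k ∈ A

/-- ultrafilters all whose dilates live on `± A` -/
def DA (A : Set ℕ) : Set (Ultrafilter ℚˣ) :=
  {p | ∀ r : ℚˣ, ∀ᶠ x in (p : Filter ℚˣ), ∃ n : ℕ, 0 < n ∧ n ∈ A ∧ (n : ℚ) = |((r * x : ℚˣ) : ℚ)|}

/-- `DA A` is a closed left ideal -/
def DAI : Prop := ∀ A : Set ℕ, Thick A → IsClosed (DA A) ∧ (DA A).Nonempty ∧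
  ∀ p : Ultrafilter ℚˣ, ∀ q ∈ DA A, p * q ∈ DA A

variable {X : Type u} [TopologicalSpace X] [CompactSpace X] [T2Space X]

/-- the action of rationals (meaningful for `± n` only) -/
def ac (T : ℕ → X → X) (g : ℚˣ) : X → X := T ((g : ℚ).num.natAbs)

/-- the action of ultrafilters -/
noncomputable def ev (T : ℕ → X → X) (p : Ultrafilter ℚˣ) (x : X) : X :=
  Cge.L p (fun g => ac T g x)

/-- actions of the positive integers by continuous maps -/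
structure Act (T : ℕ → X → X) : Prop where
  cont : ∀ k : ℕ, 0 < k → Continuous (T k)
  mul : ∀ k m : ℕ, 0 < k → 0 < m → ∀ x, T (k * m) x = T k (T m x)

/-- the orbit -/
def orb (T : ℕ → X → X) (x : X) : Set X := {z | ∃ k : ℕ, 0 < k ∧ z = T k x}

/-- the diagonal action on pairs -/
def T2 (T : ℕ → X → X) : ℕ → X × X → X × X := fun k p => (T k p.1, T k p.2)

/-- Bronstein's condition: closed invariant sets between the diagonal and `X × X` which are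
topologically transitive and in which the minimal points are dense are equal to the diagonal -/
def BR (T : ℕ → X → X) : Prop := ∀ L : Set (X × X), IsClosed L → (∀ x, (x, x) ∈ L) →
  (∀ k : ℕ, 0 < k → ∀ p ∈ L, T2 T k p ∈ L) →
  (∀ U V : Set (X × X), IsOpen U → IsOpen V → (L ∩ U).Nonempty → (L ∩ V).Nonempty →
    ∃ k : ℕ, 0 < k ∧ ∃ p ∈ L ∩ U, T2 T k p ∈ V) →
  (∀ U : Set (X × X), IsOpen U → (L ∩ U).Nonempty →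
    ∃ p ∈ L ∩ U, ∀ q ∈ closure (orb (T2 T) p), p ∈ closure (orb (T2 T) q)) →
  ∀ p ∈ L, p.1 = p.2

end D

section D2

attribute [local instance] Ultrafilter.mul Ultrafilter.semigroup

variable (X : Type u) [TopologicalSpace X] [CompactSpace X] [T2Space X]

/-- algebra of the action of ultrafilters; all ultrafilters in `DA univ` act -/
def EVA : Prop := ∀ T : ℕ → X → X, Act T →
  (∀ p ∈ DA Set.univ, ∀ q ∈ DA Set.univ, ∀ x, ev T (p * q) x = ev T p (ev T q x)) ∧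
  (∀ (f : Ultrafilter (Ultrafilter ℚˣ)) (x : X),
    ev T (f.bind (fun p => p)) x = Cge.L f (fun p => ev T p x)) ∧
  (∀ p ∈ DA Set.univ, ∀ x, ev T p x ∈ closure (orb T x)) ∧
  (∀ x, ∀ y ∈ closure (orb T x), ∃ p : Ultrafilter ℚˣ, ev T p x = y ∧
    ∀ q ∈ DA Set.univ, ∀ z, p * q ∈ DA Set.univ ∧ ev T (p * q) z = ev T p (ev T q z))

/-- perfect groups fix the base point -/
def BRP : Prop := ∀ T : ℕ → X → X, Act T → (∀ x y, y ∈ closure (orb T x)) → BR T →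
  ∀ (w : Ultrafilter ℚˣ), MinId w → w ∈ DA Set.univ → ∀ x₀ : X, ev T w x₀ = x₀ →
  ∀ (_ : Group (UE w)) (Λ : LimGp ℚˣ (UE w)), (∀ a b : UE w, (a * b).1 = a.1 * b.1) →
    (1 : UE w).1 = w → (∀ f : Ultrafilter (UE w), (Λ.lim f).1 = w * f.bind (fun x => x.1)) →
    (∀ g : ℚˣ, (Λ.θ g).1 = (pure g : Ultrafilter ℚˣ) * w) →
    ∀ A : Subgroup (UE w), Λ.NT A → Λ.DD A = A → ∀ a ∈ A, ev T a.1 x₀ = x₀

/-- from laws to triples -/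
def TRF : Prop := ∀ T : ℕ → X → X, Act T → ∀ (A : Set ℕ) (w : Ultrafilter ℚˣ), w ∈ DA A →
  ∀ (x₀ : X) (U : Set X), U ∈ 𝓝 x₀ → ∀ 𝔬 : Ultrafilter (ℚˣ × ℚˣ × ℚˣ),
    (∀ᶠ p in (𝔬 : Filter (ℚˣ × ℚˣ × ℚˣ)),
      (p.1 : ℚ) ^ 2 + (p.2.1 : ℚ) ^ 2 = (p.2.2 : ℚ) ^ 2) →
    ev T (w * ((𝔬.map fun p => p.1) * w)) x₀ = x₀ →
    ev T (w * ((𝔬.map fun p => p.2.1) * w)) x₀ = x₀ →
    ev T (w * ((𝔬.map fun p => p.2.2) * w)) x₀ = x₀ →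
    ∃ x y z : ℕ, 0 < x ∧ 0 < y ∧ 0 < z ∧ x ^ 2 + y ^ 2 = z ^ 2 ∧ x ∈ A ∧ y ∈ A ∧ z ∈ A ∧
      T x x₀ ∈ U ∧ T y x₀ ∈ U ∧ T z x₀ ∈ U

end D2

end Pool.Agent.Work.MP_0f91f8_co.Lg
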